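import Pool.Agent.Helper34.MVU.Defs

/-!
Project MV, block U, module U-As1 (Beta): the numbers `be n = (2n choose n) / 4^n` and `cc n`.

PROOFS. `cc n = Π_{i<n} (i + 1/2)`.
* `be_succ`: `Nat.succ_mul_centralBinom_succ : (n+1) * centralBinom (n+1) = 2 (2n+1) centralBinom n`.
* `cc_eq`: induction with `be_succ`.
* `be_sum`: `2 (m+1) be (m+1) = (2m+1) be m` and induction: `Σ_{j<m+1} be j = (2m+1) be m`.
* `be_le`: `be n ^ 2 * (2n+1) ≤ 1` by induction
  (`be(n+1)^2 (2n+3) = be(n)^2 (2n+1)^2 (2n+3)/(2n+2)^2 ≤ be(n)^2 (2n+1)`), hence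
  `be n ≤ 1/√(2n+1) ≤ 1/√n`.
* `be_tendsto`: Wallis. `Real.Wallis.W n = Π_{i<n} (2i+2)/(2i+1) * (2i+2)/(2i+3) → π/2`
  (`Real.tendsto_prod_pi_div_two`), and `W n = 1/(be n ^2 (2n+1))` (induction), so
  `be n ^2 (2n+1) → 2/π`, `be n ^ 2 * (π n) → 1`, take square roots.
* `cc_le`: `cc n = n! be n ≤ n! / √n`. `cc_le_fact`: `be n ≤ 1`.
* `be_ratio`: `be (n - j) ≤ 2^j be n` for `j ≤ n`: `be (n+1) = be n (2n+1)/(2n+2) ≥ be n / 2`.
-/

namespace Pool.Agent.Helper34.MVU

open Finset Filter Topology Pool.Agent.Helper60.MV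

/-- `(2n choose n) / 4^n` -/
noncomputable def be (n : ℕ) : ℝ := (Nat.centralBinom n : ℝ) / 4 ^ n

theorem be_zero : be 0 = 1 := by
  simp [be]

theorem be_succ (n : ℕ) : (2 * ((n : ℝ) + 1)) * be (n + 1) = (2 * n + 1) * be n := by
  have h := Nat.succ_mul_centralBinom_succ n
  have h' : ((n : ℝ) + 1) * (Nat.centralBinom (n + 1) : ℝ) =
      2 * (2 * n + 1) * (Nat.centralBinom n : ℝ) := by exact_mod_cast h
  unfold be
  rw [pow_succ]
  field_simp
  linarith

theorem be_pos (n : ℕ) : 0 < be n := by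
  unfold be
  have : 0 < Nat.centralBinom n := Nat.centralBinom_pos n
  positivity

theorem be_sum (m : ℕ) : (2 * ((m : ℝ) + 1)) * be (m + 1) = ∑ j ∈ range (m + 1), be j := by
  induction m with
  | zero =>
    rw [be_succ]
    simp [be_zero]
  | succ m ih =>
    rw [Finset.sum_range_succ, ← ih, be_succ]
    push_cast
    ring

private theorem be_sq_le (n : ℕ) : be n ^ 2 * (2 * n + 1) ≤ 1 := by
  induction n with
  | zero => simp [be_zero]
  | succ n ih =>
    have h := be_succ n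
    have hb := be_pos n
    have h1 : be (n + 1) = (2 * n + 1) * be n / (2 * ((n : ℝ) + 1)) := by
      rw [← h]; field_simp
    rw [h1]
    push_cast
    rw [div_pow, div_mul_eq_mul_div, div_le_one (by positivity)]
    have h2 : ((2 * (n : ℝ) + 1) * be n) ^ 2 * (2 * (n + 1) + 1) =
        (be n ^ 2 * (2 * n + 1)) * ((2 * n + 1) * (2 * n + 3)) := by ring
    rw [h2]
    have h3 : (be n ^ 2 * (2 * (n : ℝ) + 1)) * ((2 * n + 1) * (2 * n + 3)) ≤
        1 * ((2 * n + 1) * (2 * n + 3)) := by gcongr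
    nlinarith

private theorem be_wallis (n : ℕ) : be n ^ 2 * (2 * n + 1) * Real.Wallis.W n = 1 := by
  induction n with
  | zero => simp [be_zero, Real.Wallis.W]
  | succ n ih =>
    have h := be_succ n
    have h1 : be (n + 1) = (2 * n + 1) * be n / (2 * ((n : ℝ) + 1)) := by
      rw [← h]; field_simp
    rw [h1, Real.Wallis.W_succ]
    push_cast
    have h2 : ((2 * (n : ℝ) + 1) * be n / (2 * ((n : ℝ) + 1))) ^ 2 * (2 * (n + 1) + 1) *
        (Real.Wallis.W n * ((2 * n + 2) / (2 * n + 1) * ((2 * n + 2) / (2 * n + 3)))) =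
        be n ^ 2 * (2 * n + 1) * Real.Wallis.W n := by
      have e1 : (2 * (n : ℝ) + 1) ≠ 0 := by positivity
      have e2 : (2 * (n : ℝ) + 3) ≠ 0 := by positivity
      have e3 : ((n : ℝ) + 1) ≠ 0 := by positivity
      field_simp
      ring
    rw [h2, ih]

theorem be_le (n : ℕ) (hn : 1 ≤ n) : be n ≤ 1 / Real.sqrt n := by
  have h := be_sq_le n
  have hb := be_pos n
  have hn' : (1 : ℝ) ≤ n := by exact_mod_cast hn
  rw [le_div_iff₀ (Real.sqrt_pos.2 (by linarith))]
  have h2 : (be n * Real.sqrt n) ^ 2 ≤ 1 := by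
    rw [mul_pow, Real.sq_sqrt (by linarith)]
    nlinarith [sq_nonneg (be n)]
  exact (sq_le_one_iff₀ (by positivity)).1 h2

theorem be_le_one (n : ℕ) : be n ≤ 1 := by
  have h := be_sq_le n
  have hb := be_pos n
  have h2 : be n ^ 2 ≤ 1 := by
    have : (0 : ℝ) ≤ n := Nat.cast_nonneg n
    nlinarith [sq_nonneg (be n)]
  exact (sq_le_one_iff₀ hb.le).1 h2

theorem be_ratio (n j : ℕ) (hj : j ≤ n) : be (n - j) ≤ 2 ^ j * be n := by
  induction j with
  | zero => simp
  | succ j ih =>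
    have h1 := ih (by omega)
    obtain ⟨k, hk⟩ : ∃ k, n - j = k + 1 := ⟨n - j - 1, by omega⟩
    have hk' : n - (j + 1) = k := by omega
    rw [hk] at h1
    rw [hk', pow_succ]
    have h2 := be_succ k
    have hb := be_pos k
    have hb1 := be_pos (k + 1)
    have h3 : be k ≤ 2 * be (k + 1) := by
      have hk0 : (0 : ℝ) ≤ k := Nat.cast_nonneg k
      have h4 : (2 * ((k : ℝ) + 1)) * be (k + 1) = (2 * k + 1) * be k := h2
      have h5 : (2 * (k : ℝ) + 1) * be k ≤ (2 * k + 1) * (2 * be (k + 1)) := by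
        rw [← h4]; nlinarith
      exact le_of_mul_le_mul_left h5 (by positivity)
    calc be k ≤ 2 * be (k + 1) := h3
      _ ≤ 2 * (2 ^ j * be n) := by linarith
      _ = 2 ^ j * 2 * be n := by ring

theorem be_tendsto : Tendsto (fun n : ℕ => be n * Real.sqrt (Real.pi * n)) atTop (𝓝 1) := by
  have h1 : Tendsto (fun n : ℕ => Real.sqrt ((1 / 2) * ((n : ℝ) / (n + 1 / 2)) *
      (Real.pi / Real.Wallis.W n))) atTop (𝓝 1) := by
    have h2 : Tendsto (fun n : ℕ => (1 / 2) * ((n : ℝ) / (n + 1 / 2)) *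
        (Real.pi / Real.Wallis.W n)) atTop (𝓝 ((1 / 2) * 1 * (Real.pi / (Real.pi / 2)))) := by
      refine Tendsto.mul ?_ ?_
      · exact (tendsto_natCast_div_add_atTop (1 / 2 : ℝ)).const_mul _
      · exact Tendsto.div tendsto_const_nhds Real.Wallis.tendsto_W_nhds_pi_div_two
          (by positivity)
    have h3 : (1 / 2) * 1 * (Real.pi / (Real.pi / 2)) = 1 := by
      have := Real.pi_ne_zero
      field_simp
    rw [h3] at h2
    have h4 := h2.sqrt
    rwa [Real.sqrt_one] at h4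
  refine h1.congr fun n => ?_
  have hb := be_pos n
  have hW := Real.Wallis.W_pos n
  have hw := be_wallis n
  have hn : (0 : ℝ) ≤ n := Nat.cast_nonneg n
  have e : (1 / 2) * ((n : ℝ) / (n + 1 / 2)) * (Real.pi / Real.Wallis.W n) =
      be n ^ 2 * (Real.pi * n) := by
    have hw' : be n ^ 2 = 1 / ((2 * n + 1) * Real.Wallis.W n) := by
      rw [eq_div_iff (by positivity)]; linarith
    rw [hw']
    have : (n : ℝ) + 1 / 2 ≠ 0 := by positivity
    have h5 : (2 * (n : ℝ) + 1) ≠ 0 := by positivity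
    have h6 : (n : ℝ) + 1 / 2 = (2 * n + 1) / 2 := by ring
    rw [h6]
    field_simp
  rw [e, Real.sqrt_mul (sq_nonneg _), Real.sqrt_sq hb.le]

theorem cc_eq (n : ℕ) : cc n = (n.factorial : ℝ) * be n := by
  induction n with
  | zero => simp [cc, be_zero]
  | succ n ih =>
    have h : cc (n + 1) = cc n * ((n : ℝ) + 1 / 2) := by
      unfold cc
      rw [Finset.prod_range_succ]
    rw [h, ih, Nat.factorial_succ]
    push_cast
    have h2 := be_succ n
    have h3 : ((n : ℝ) + 1) * be (n + 1) = ((n : ℝ) + 1 / 2) * be n := by linarith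
    calc (n.factorial : ℝ) * be n * ((n : ℝ) + 1 / 2) =
        (n.factorial : ℝ) * (((n : ℝ) + 1 / 2) * be n) := by ring
      _ = (n.factorial : ℝ) * (((n : ℝ) + 1) * be (n + 1)) := by rw [h3]
      _ = _ := by ring

theorem cc_pos (n : ℕ) : 0 < cc n := by
  unfold cc
  exact Finset.prod_pos fun i _ => by positivity

theorem cc_le (n : ℕ) (hn : 1 ≤ n) : cc n ≤ (n.factorial : ℝ) / Real.sqrt n := by
  rw [cc_eq, div_eq_mul_one_div]
  exact mul_le_mul_of_nonneg_left (be_le n hn) (Nat.cast_nonneg _)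

theorem cc_le_fact (n : ℕ) : cc n ≤ (n.factorial : ℝ) := by
  rw [cc_eq]
  exact mul_le_of_le_one_right (Nat.cast_nonneg _) (be_le_one n)

end Pool.Agent.Helper34.MVU
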