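import Pool.Agent.Helper34.MVU.Zeta1

/-!
Project MV, block U, module U-U1b (CovSum): the quadratic form of the covariance.

PROOF. `Cov k l * (2 y^(2k+1)/(2k+1)) * (2 y'^(2l+1)/(2l+1))`
`= 4 ζ(M) (M-1)!/((2k+1)! (2l+1)!) y^(2k+1) y'^(2l+1) = (4 ζ(M)/M) (M choose 2k+1) y^(2k+1) y'^(2l+1)`
with `M = 2k+2l+2 = 2(i+1)`, `i = k + l`. All terms are nonnegative, `ζ(M) ≤ 2` (`zet_le_two`), so
the sum is at most `Σ_{i < 2 K0} (4/(i+1)) Σ_{k+l=i} (M choose 2k+1) y^(2k+1) y'^(2l+1)` and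
`Σ_{k+l=i} (M choose 2k+1) y^(2k+1) y'^(2l+1) = 1/2 ((y+y')^M - (y'-y)^M) ≤ 1/2 (y+y')^M`
(binomial theorem for `(y'+y)^M - (y'-y)^M`: the even exponents of `y` cancel; `M` is even, so
`(y'-y)^M ≥ 0`). With `z = (y+y')^2 < 1` the total is at most
`Σ_i (2/(i+1)) z^(i+1) = -2 log (1-z) = Phi (y+y')` (`Real.hasSum_pow_div_log_of_abs_lt_one`,
`sum_le_hasSum`).
-/

namespace Pool.Agent.Helper34.MVU

open Finset Filter Topology Pool.Agent.Helper60.MV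

private theorem split_even_odd (g : ℕ → ℝ) (n : ℕ) :
    ∑ m ∈ range (2 * n + 1), g m =
      ∑ k ∈ range (n + 1), g (2 * k) + ∑ k ∈ range n, g (2 * k + 1) := by
  induction n with
  | zero => simp
  | succ n ih =>
    have e : 2 * (n + 1) + 1 = (2 * n + 1) + 1 + 1 := by ring
    rw [e, Finset.sum_range_succ, Finset.sum_range_succ, ih,
      Finset.sum_range_succ (fun k => g (2 * k)) (n + 1),
      Finset.sum_range_succ (fun k => g (2 * k + 1)) n]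
    have e2 : 2 * (n + 1) = 2 * n + 1 + 1 := by ring
    rw [e2]
    ring

private theorem odd_part (i : ℕ) (y y' : ℝ) :
    ∑ p ∈ antidiagonal i, ((2 * (i + 1)).choose (2 * p.1 + 1) : ℝ) * y ^ (2 * p.1 + 1) *
      y' ^ (2 * p.2 + 1) ≤ 1 / 2 * (y + y') ^ (2 * (i + 1)) := by
  have h1 : (y + y') ^ (2 * (i + 1)) = ∑ m ∈ range (2 * (i + 1) + 1),
      y ^ m * y' ^ (2 * (i + 1) - m) * ((2 * (i + 1)).choose m : ℝ) := add_pow _ _ _
  have h2 : (-y + y') ^ (2 * (i + 1)) = ∑ m ∈ range (2 * (i + 1) + 1),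
      (-y) ^ m * y' ^ (2 * (i + 1) - m) * ((2 * (i + 1)).choose m : ℝ) := add_pow _ _ _
  rw [split_even_odd] at h1 h2
  have h3 : 0 ≤ (-y + y') ^ (2 * (i + 1)) := by
    rw [pow_mul]; positivity
  have e1 : ∀ k, (-y) ^ (2 * k) = y ^ (2 * k) := by
    intro k; rw [pow_mul, pow_mul, neg_sq]
  have e2 : ∀ k, (-y) ^ (2 * k + 1) = - y ^ (2 * k + 1) := by
    intro k; rw [pow_succ, e1, pow_succ]; ring
  have h4 : ∑ k ∈ range (i + 1), (-y) ^ (2 * k + 1) * y' ^ (2 * (i + 1) - (2 * k + 1)) *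
      ((2 * (i + 1)).choose (2 * k + 1) : ℝ) = - ∑ k ∈ range (i + 1),
      y ^ (2 * k + 1) * y' ^ (2 * (i + 1) - (2 * k + 1)) *
      ((2 * (i + 1)).choose (2 * k + 1) : ℝ) := by
    rw [← Finset.sum_neg_distrib]
    refine Finset.sum_congr rfl (fun k _ => ?_)
    rw [e2]; ring
  have h5 : ∑ k ∈ range (i + 1 + 1), (-y) ^ (2 * k) * y' ^ (2 * (i + 1) - (2 * k)) *
      ((2 * (i + 1)).choose (2 * k) : ℝ) = ∑ k ∈ range (i + 1 + 1),
      y ^ (2 * k) * y' ^ (2 * (i + 1) - (2 * k)) * ((2 * (i + 1)).choose (2 * k) : ℝ) := by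
    refine Finset.sum_congr rfl (fun k _ => ?_)
    rw [e1]
  rw [h4, h5] at h2
  have h6 : ∑ p ∈ antidiagonal i, ((2 * (i + 1)).choose (2 * p.1 + 1) : ℝ) *
      y ^ (2 * p.1 + 1) * y' ^ (2 * p.2 + 1) = ∑ k ∈ range (i + 1),
      y ^ (2 * k + 1) * y' ^ (2 * (i + 1) - (2 * k + 1)) *
      ((2 * (i + 1)).choose (2 * k + 1) : ℝ) := by
    rw [Finset.Nat.sum_antidiagonal_eq_sum_range_succ_mk]
    refine Finset.sum_congr rfl (fun k hk => ?_)
    rw [Finset.mem_range] at hk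
    have e : 2 * (i + 1) - (2 * k + 1) = 2 * (i - k) + 1 := by omega
    rw [e]
    ring
  rw [h6]
  linarith

private theorem term_le (k l : ℕ) (y y' : ℝ) (hy : 0 ≤ y) (hy' : 0 ≤ y') :
    Cov k l * (2 * y ^ (2 * k + 1) / (2 * (k : ℝ) + 1)) *
      (2 * y' ^ (2 * l + 1) / (2 * (l : ℝ) + 1)) ≤
      4 / (((k + l : ℕ) : ℝ) + 1) * (((2 * (k + l + 1)).choose (2 * k + 1) : ℝ) *
        y ^ (2 * k + 1) * y' ^ (2 * l + 1)) := by
  have hch : ((2 * (k + l + 1)).choose (2 * k + 1) : ℝ) =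
      ((2 * k + 2 * l + 2).factorial : ℝ) / (((2 * k + 1).factorial : ℝ) *
        ((2 * l + 1).factorial : ℝ)) := by
    have e : 2 * (k + l + 1) = (2 * k + 1) + (2 * l + 1) := by ring
    rw [e, Nat.cast_add_choose]
    have e2 : 2 * k + 1 + (2 * l + 1) = 2 * k + 2 * l + 2 := by ring
    rw [e2]
  have hf1 : ((2 * k + 1).factorial : ℝ) = (2 * (k : ℝ) + 1) * ((2 * k).factorial : ℝ) := by
    rw [Nat.factorial_succ]; push_cast; ring
  have hf2 : ((2 * l + 1).factorial : ℝ) = (2 * (l : ℝ) + 1) * ((2 * l).factorial : ℝ) := by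
    rw [Nat.factorial_succ]; push_cast; ring
  have hf3 : ((2 * k + 2 * l + 2).factorial : ℝ) = 2 * ((k : ℝ) + l + 1) *
      ((2 * k + 2 * l + 1).factorial : ℝ) := by
    rw [Nat.factorial_succ]; push_cast; ring
  have hz : zet (2 * k + 2 * l + 2) ≤ 2 := zet_le_two _ (by omega)
  have hp1 : (0 : ℝ) < ((2 * k).factorial : ℝ) := by exact_mod_cast Nat.factorial_pos _
  have hp2 : (0 : ℝ) < ((2 * l).factorial : ℝ) := by exact_mod_cast Nat.factorial_pos _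
  have hp3 : (0 : ℝ) < ((2 * k + 2 * l + 1).factorial : ℝ) := by
    exact_mod_cast Nat.factorial_pos _
  have hA : 0 ≤ 4 * ((2 * k + 2 * l + 1).factorial : ℝ) /
      (((2 * k + 1).factorial : ℝ) * ((2 * l + 1).factorial : ℝ)) * y ^ (2 * k + 1) *
        y' ^ (2 * l + 1) := by positivity
  have e1 : Cov k l * (2 * y ^ (2 * k + 1) / (2 * (k : ℝ) + 1)) *
      (2 * y' ^ (2 * l + 1) / (2 * (l : ℝ) + 1)) =
      (4 * ((2 * k + 2 * l + 1).factorial : ℝ) /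
      (((2 * k + 1).factorial : ℝ) * ((2 * l + 1).factorial : ℝ)) * y ^ (2 * k + 1) *
        y' ^ (2 * l + 1)) * zet (2 * k + 2 * l + 2) := by
    unfold Cov
    rw [hf1, hf2]
    field_simp
    ring
  have e2 : 4 / (((k + l : ℕ) : ℝ) + 1) * (((2 * (k + l + 1)).choose (2 * k + 1) : ℝ) *
        y ^ (2 * k + 1) * y' ^ (2 * l + 1)) =
      (4 * ((2 * k + 2 * l + 1).factorial : ℝ) /
      (((2 * k + 1).factorial : ℝ) * ((2 * l + 1).factorial : ℝ)) * y ^ (2 * k + 1) *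
        y' ^ (2 * l + 1)) * 2 := by
    rw [hch, hf3]
    push_cast
    have h0 : (0 : ℝ) < (k : ℝ) + l + 1 := by positivity
    field_simp
  rw [e1, e2]
  exact mul_le_mul_of_nonneg_left hz hA

theorem cov_sum_le (K0 : ℕ) (y y' : ℝ) (hy : 0 ≤ y) (hy' : 0 ≤ y') (h : y + y' < 1) :
    ∑ k ∈ range K0, ∑ l ∈ range K0, Cov k l * (2 * y ^ (2 * k + 1) / (2 * (k : ℝ) + 1)) *
      (2 * y' ^ (2 * l + 1) / (2 * (l : ℝ) + 1)) ≤ Phi (y + y') := by
  have hG0 : ∀ i : ℕ, ∀ p : ℕ × ℕ, 0 ≤ 4 / ((i : ℝ) + 1) *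
      (((2 * (i + 1)).choose (2 * p.1 + 1) : ℝ) * y ^ (2 * p.1 + 1) * y' ^ (2 * p.2 + 1)) := by
    intro i p; positivity
  have h1 : ∑ k ∈ range K0, ∑ l ∈ range K0, Cov k l *
      (2 * y ^ (2 * k + 1) / (2 * (k : ℝ) + 1)) * (2 * y' ^ (2 * l + 1) / (2 * (l : ℝ) + 1)) ≤
      ∑ p ∈ range K0 ×ˢ range K0, 4 / (((p.1 + p.2 : ℕ) : ℝ) + 1) *
        (((2 * (p.1 + p.2 + 1)).choose (2 * p.1 + 1) : ℝ) *
        y ^ (2 * p.1 + 1) * y' ^ (2 * p.2 + 1)) := by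
    rw [Finset.sum_product]
    exact Finset.sum_le_sum (fun k _ => Finset.sum_le_sum (fun l _ => term_le k l y y' hy hy'))
  have h2 : ∑ p ∈ range K0 ×ˢ range K0, 4 / (((p.1 + p.2 : ℕ) : ℝ) + 1) *
        (((2 * (p.1 + p.2 + 1)).choose (2 * p.1 + 1) : ℝ) *
        y ^ (2 * p.1 + 1) * y' ^ (2 * p.2 + 1)) ≤ ∑ i ∈ range (2 * K0),
      ∑ p ∈ antidiagonal i, 4 / ((i : ℝ) + 1) * (((2 * (i + 1)).choose (2 * p.1 + 1) : ℝ) *
        y ^ (2 * p.1 + 1) * y' ^ (2 * p.2 + 1)) := by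
    rw [← Finset.sum_fiberwise_of_maps_to (g := fun p : ℕ × ℕ => p.1 + p.2)
      (t := range (2 * K0))]
    · refine Finset.sum_le_sum (fun i _ => ?_)
      have e : ∑ p ∈ (range K0 ×ˢ range K0).filter (fun p => p.1 + p.2 = i),
          4 / (((p.1 + p.2 : ℕ) : ℝ) + 1) *
          (((2 * (p.1 + p.2 + 1)).choose (2 * p.1 + 1) : ℝ) *
          y ^ (2 * p.1 + 1) * y' ^ (2 * p.2 + 1)) =
          ∑ p ∈ (range K0 ×ˢ range K0).filter (fun p => p.1 + p.2 = i),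
          4 / ((i : ℝ) + 1) * (((2 * (i + 1)).choose (2 * p.1 + 1) : ℝ) *
          y ^ (2 * p.1 + 1) * y' ^ (2 * p.2 + 1)) := by
        refine Finset.sum_congr rfl (fun p hp => ?_)
        rw [Finset.mem_filter] at hp
        rw [hp.2]
      rw [e]
      refine Finset.sum_le_sum_of_subset_of_nonneg ?_ (fun p _ _ => hG0 i p)
      intro p hp
      rw [Finset.mem_filter] at hp
      rw [Finset.HasAntidiagonal.mem_antidiagonal]
      exact hp.2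
    · intro p hp
      rw [Finset.mem_product, Finset.mem_range, Finset.mem_range] at hp
      rw [Finset.mem_range]
      omega
  have h3 : ∑ i ∈ range (2 * K0),
      ∑ p ∈ antidiagonal i, 4 / ((i : ℝ) + 1) * (((2 * (i + 1)).choose (2 * p.1 + 1) : ℝ) *
        y ^ (2 * p.1 + 1) * y' ^ (2 * p.2 + 1)) ≤
      ∑ i ∈ range (2 * K0), 2 * (((y + y') ^ 2) ^ (i + 1) / ((i : ℝ) + 1)) := by
    refine Finset.sum_le_sum (fun i _ => ?_)
    rw [← Finset.mul_sum]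
    have h := mul_le_mul_of_nonneg_left (odd_part i y y')
      (by positivity : (0 : ℝ) ≤ 4 / ((i : ℝ) + 1))
    refine h.trans (le_of_eq ?_)
    rw [pow_mul]
    field_simp
    norm_num
  have hz0 : 0 ≤ (y + y') ^ 2 := by positivity
  have hz1 : (y + y') ^ 2 < 1 := by
    have : 0 ≤ y + y' := add_nonneg hy hy'
    nlinarith
  have hs := (Real.hasSum_pow_div_log_of_abs_lt_one
    (x := (y + y') ^ 2) (by rw [abs_of_nonneg hz0]; exact hz1)).mul_left 2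
  have h4 : ∑ i ∈ range (2 * K0), 2 * (((y + y') ^ 2) ^ (i + 1) / ((i : ℝ) + 1)) ≤
      2 * (-Real.log (1 - (y + y') ^ 2)) :=
    sum_le_hasSum _ (fun i _ => by positivity) hs
  have h5 : Phi (y + y') = 2 * (-Real.log (1 - (y + y') ^ 2)) := by
    unfold Phi; ring
  rw [h5]
  exact h1.trans (h2.trans (h3.trans h4))

end Pool.Agent.Helper34.MVU
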