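import Pool.Agent.Helper34.MVU.Defs

/-!
Project MV, block U, module U-DL (DL): the list `dl S` (decreasing list of `S`, completed by a `0` to
even length), sums and products along it, and finite sets of distinct positive integers.

PROOFS. `dl S = S.sort (≥) ++ (if S.card % 2 = 0 then [] else [0])`; `Finset.length_sort`,
`Finset.mem_sort`, `Finset.sort_toFinset`/`Finset.sort_eq : ↑(sort s) = s.1` (so
`((S.sort _).map f).prod = ∏ a ∈ S, f a`: `Multiset.prod_coe`/`List.prod_map…`),
`Finset.pairwise_sort` (non-strict) and `Finset.sort_nodup`.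
* `card_dl`, `card_dl_le`: `l' = l` or `l + 1`, even; `l' / 2 ≤ l`.
* `dl_pairwise`: decreasing, strictly (all elements of `S` are positive, so the appended `0` is
  smaller than all of them).
* `prod_dl`, `sum_dl`.
* `prod_succ_ge`: `(card S + 1)! ≤ Π_{a ∈ S} (a+1)` if all `a ≥ 1`: induction on the maximum
  (`Finset.induction_on_max`: the maximum of `S` is at least `card S` because
  `S ⊆ Icc 1 (max S)`).
* `card_sq_le`: `card S * (card S + 1) ≤ 2 Σ_{a ∈ S} a` if all `a ≥ 1` (same induction).
* `mem_stp`: `S ∈ stp E ↔ (∀ a ∈ S, 1 ≤ a ∧ a ≤ E) ∧ Σ a = E`; and `∀ a ∈ S, 1 ≤ a` with the sum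
  imply `a ≤ E` (`Finset.single_le_sum`).
* `dl_insert`: if `m` is larger than all elements of `S`, the decreasing list of `insert m S` is
  `m :: sort S` (uniqueness of sorted lists: `List.Perm.eq_of_pairwise` and friends), and
  `card (insert m S) = card S + 1` changes the parity.
-/

namespace Pool.Agent.Helper34.MVU

open Finset Pool.Agent.Helper60.MV

theorem mem_stp (E : ℕ) (S : Finset ℕ) : S ∈ stp E ↔ (∀ a ∈ S, 1 ≤ a) ∧ ∑ a ∈ S, a = E := by
  unfold stp
  rw [Finset.mem_filter, Finset.mem_powerset]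
  constructor
  · rintro ⟨h1, h2⟩
    exact ⟨fun a ha => (Finset.mem_Icc.1 (h1 ha)).1, h2⟩
  · rintro ⟨h1, h2⟩
    refine ⟨fun a ha => Finset.mem_Icc.2 ⟨h1 a ha, ?_⟩, h2⟩
    rw [← h2]
    exact Finset.single_le_sum (f := fun a => a) (fun _ _ => Nat.zero_le _) ha

theorem card_dl (S : Finset ℕ) : (dl S).length = S.card + S.card % 2 := by
  unfold dl
  rw [List.length_append, Finset.length_sort]
  by_cases h : S.card % 2 = 0
  · rw [if_pos h, h]
    simp
  · rw [if_neg h]
    have : S.card % 2 = 1 := by omega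
    rw [this]
    simp

theorem mem_dl (S : Finset ℕ) (a : ℕ) (h : a ∈ dl S) : a ∈ S ∨ a = 0 := by
  unfold dl at h
  rw [List.mem_append, Finset.mem_sort] at h
  rcases h with h | h
  · left; exact h
  · right
    by_cases hc : S.card % 2 = 0
    · rw [if_pos hc] at h
      simp at h
    · rw [if_neg hc] at h
      simpa using h

theorem dl_pairwise (S : Finset ℕ) (hS : ∀ a ∈ S, 1 ≤ a) : (dl S).Pairwise (fun a b => b < a) := by
  unfold dl
  rw [List.pairwise_append]
  refine ⟨?_, ?_, ?_⟩
  · exact (Finset.sortedGT_sort S).pairwise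
  · by_cases hc : S.card % 2 = 0
    · rw [if_pos hc]; exact List.Pairwise.nil
    · rw [if_neg hc]; exact List.pairwise_singleton _ _
  · intro a ha b hb
    rw [Finset.mem_sort] at ha
    by_cases hc : S.card % 2 = 0
    · rw [if_pos hc] at hb
      simp at hb
    · rw [if_neg hc] at hb
      have : b = 0 := by simpa using hb
      have := hS a ha
      omega

theorem prod_dl (S : Finset ℕ) (f : ℕ → ℝ) :
    ((dl S).map f).prod = (∏ a ∈ S, f a) * (if S.card % 2 = 0 then 1 else f 0) := by
  unfold dl
  have h : ((S.sort (· ≥ ·)).map f).prod = ∏ a ∈ S, f a := by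
    rw [Finset.prod_eq_multiset_prod, ← Finset.sort_eq S (· ≥ ·), Multiset.map_coe,
      Multiset.prod_coe]
  rw [List.map_append, List.prod_append, h]
  congr 1
  by_cases hc : S.card % 2 = 0
  · rw [if_pos hc, if_pos hc]; simp
  · rw [if_neg hc, if_neg hc]; simp

theorem sum_dl (S : Finset ℕ) (f : ℕ → ℝ) :
    ((dl S).map f).sum = (∑ a ∈ S, f a) + (if S.card % 2 = 0 then 0 else f 0) := by
  unfold dl
  have h : ((S.sort (· ≥ ·)).map f).sum = ∑ a ∈ S, f a := by
    rw [Finset.sum_eq_multiset_sum, ← Finset.sort_eq S (· ≥ ·), Multiset.map_coe,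
      Multiset.sum_coe]
  rw [List.map_append, List.sum_append, h]
  congr 1
  by_cases hc : S.card % 2 = 0
  · rw [if_pos hc, if_pos hc]; simp
  · rw [if_neg hc, if_neg hc]; simp

private theorem card_lt_max (m : ℕ) (S : Finset ℕ) (hm : ∀ a ∈ S, a < m)
    (hS : ∀ a ∈ S, 1 ≤ a) (h1 : 1 ≤ m) : S.card + 1 ≤ m := by
  have hsub : S ⊆ Finset.Ico 1 m := fun a ha => Finset.mem_Ico.2 ⟨hS a ha, hm a ha⟩
  have := Finset.card_le_card hsub
  rw [Nat.card_Ico] at this
  omega

theorem prod_succ_ge (S : Finset ℕ) (hS : ∀ a ∈ S, 1 ≤ a) :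
    (S.card + 1).factorial ≤ ∏ a ∈ S, (a + 1) := by
  induction S using Finset.induction_on_max with
  | empty => simp
  | insert m S hm ih =>
    have hnot : m ∉ S := fun h => lt_irrefl _ (hm m h)
    rw [Finset.prod_insert hnot, Finset.card_insert_of_notMem hnot, Nat.factorial_succ]
    have h1 := ih (fun a ha => hS a (Finset.mem_insert_of_mem ha))
    have h2 := card_lt_max m S hm (fun a ha => hS a (Finset.mem_insert_of_mem ha))
      (hS m (Finset.mem_insert_self _ _))
    exact Nat.mul_le_mul (by omega) h1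

theorem card_sq_le (S : Finset ℕ) (hS : ∀ a ∈ S, 1 ≤ a) :
    S.card * (S.card + 1) ≤ 2 * ∑ a ∈ S, a := by
  induction S using Finset.induction_on_max with
  | empty => simp
  | insert m S hm ih =>
    have hnot : m ∉ S := fun h => lt_irrefl _ (hm m h)
    rw [Finset.sum_insert hnot, Finset.card_insert_of_notMem hnot]
    have h1 := ih (fun a ha => hS a (Finset.mem_insert_of_mem ha))
    have h2 := card_lt_max m S hm (fun a ha => hS a (Finset.mem_insert_of_mem ha))
      (hS m (Finset.mem_insert_self _ _))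
    nlinarith

/-- the tail of `dl (insert m S)` for `m` larger than all elements of `S` -/
noncomputable def tl (S : Finset ℕ) : List ℕ :=
  (S.sort (· ≥ ·)) ++ (if S.card % 2 = 0 then [0] else [])

theorem dl_insert (m : ℕ) (S : Finset ℕ) (h : ∀ a ∈ S, a < m) : dl (insert m S) = m :: tl S := by
  have hnot : m ∉ S := fun h' => lt_irrefl _ (h m h')
  unfold dl tl
  rw [Finset.sort_insert (· ≥ ·) (fun b hb => (h b hb).le) hnot,
    Finset.card_insert_of_notMem hnot, List.cons_append]
  congr 2
  by_cases hc : S.card % 2 = 0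
  · rw [if_pos hc, if_neg (by omega)]
  · rw [if_neg hc, if_pos (by omega)]

theorem mem_tl (S : Finset ℕ) (a : ℕ) (h : a ∈ tl S) : a ∈ S ∨ a = 0 := by
  unfold tl at h
  rw [List.mem_append, Finset.mem_sort] at h
  rcases h with h | h
  · left; exact h
  · right
    by_cases hc : S.card % 2 = 0
    · rw [if_pos hc] at h
      simpa using h
    · rw [if_neg hc] at h
      simp at h

theorem length_tl (S : Finset ℕ) : (tl S).length ≤ S.card + 1 := by
  unfold tl
  rw [List.length_append, Finset.length_sort]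
  by_cases h : S.card % 2 = 0
  · rw [if_pos h]; simp
  · rw [if_neg h]; simp

end Pool.Agent.Helper34.MVU
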