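import Pool.Agent.Helper60.MV.DefsC

/-!
Project MV, block U (section 7 of helper60_MV_Proof.md): definitions.

`Ypoly K = sum over S in stp E of term K S`; the term of `S = {E}` is `mainE E`; all the other
terms are estimated.
-/

namespace Pool.Agent.Helper34.MVU

open Finset MvPolynomial Pool.Agent.Helper60.MV

/-- number of perfect matchings of `n` points -/
def mt : ℕ → ℕ
  | 0 => 1
  | 1 => 0
  | n + 2 => (n + 1) * mt n

/-- the polynomial `QQ` with all signs `+` -/
noncomputable def QQp (a b : ℕ) : MvPolynomial ℕ ℝ :=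
  qP a * qP b + 2 * ∑ j ∈ range b, (qP (a + (j + 1)) * qP (b - (j + 1)))

/-- one term of `Ypoly` -/
noncomputable def term {ρ : Type} [Fintype ρ] (K : ρ → ℕ) (S : Finset ℕ) : ℝ :=
  (1 / 2) ^ S.card * (∏ a ∈ S, cc a) * XK K (dl S) * Wick (pfL QQ (dl S))

/-- the function in the bound of the Wick functional of a product of `qP` -/
noncomputable def Phi (z : ℝ) : ℝ := -(2 * Real.log (1 - z ^ 2))

/-- `exp` of half the double sum of `Phi (r a + r b)` along a list -/
noncomputable def GG (L : List ℝ) : ℝ :=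
  Real.exp (1 / 2 * (L.map (fun r => (L.map (fun r' => Phi (r + r'))).sum)).sum)

/-- large elements -/
def lrg (E : ℕ) (S : Finset ℕ) : Finset ℕ := S.filter (fun a => E < 4096 * a)

/-- small elements -/
def sml (E : ℕ) (S : Finset ℕ) : Finset ℕ := S.filter (fun a => ¬ (E < 4096 * a))

/-- the radii -/
noncomputable def rr (E a : ℕ) : ℝ :=
  if a = 0 then 0 else if E < 4096 * a then 1 / 2 * (1 - 1 / (2 * (E : ℝ))) else 1 / 4

/-- the weights -/
noncomputable def xx (E a : ℕ) : ℝ := ((a : ℝ) / (E : ℝ)) ^ (1 / 3 : ℝ)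

/-- the majorant of `|term K S| / (2 ^ (E + 1) * E ! * (3 E ^ (1/3)) ^ ones K)` -/
noncomputable def maj (E : ℕ) (S : Finset ℕ) : ℝ :=
  (4 * (E : ℝ)) ^ ((lrg E S).card + (lrg E S).card ^ 2) *
    (∏ a ∈ S, (18 * (a : ℝ) ^ 3 * ((a : ℝ) / (E : ℝ)) ^ ((a : ℝ) / 3))) *
    ∏ a ∈ sml E S, (3 * 6 ^ (lrg E S).card * 4 ^ a)

end Pool.Agent.Helper34.MVU
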