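import Pool.Agent.Helper34.MVU.Haf

/-!
Project MV, block U, module U-X2 (X2): the bound of `XK` when the first entry is `E - s`, `s` small.

PROOF. `L = m :: rest`, `l = L.length`, `XK K L = Σ_{f : ρ → Fin l} pfL (zf …) (finRange l)`
with `m_a(f) = asg K f a`.
* `|pfL …| ≤ hfL |zf …|` (`abs_pfL_le`), `0 ≤ |zf| ≤ 2 = 2 * (1 * 1)`, so every term is at most
  `mt l * 2^(l/2)` (`hfL_mono`, `hfL_mul` with `u = 1`).
* If the term of `f` is not zero then `m_0(f) ≥ 2m`: expand `hfL` along the first entry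
  (`List.finRange_succ`; every term contains a factor `|zf (m_0 - 2m) …|`, which vanishes if
  `m_0 < 2m`). Then `Σ_{i, f i ≠ 0} K i = 2E - m_0(f) ≤ 2s`.
* Number of such `f`: let `I = {i | f i ≠ 0}`, `I1 = {i ∈ I | K i = 1}`, `I3 = {i ∈ I | K i ≠ 1}` (there
  `K i ≥ 3`). `|I| ≤ 2s`, `|I1| ≤ 2s`, `3 |I3| ≤ 2s`. The map `f ↦ (I1, I3, f)` shows
  `#f ≤ Σ_{(I1,I3)} l^{|I1 ∪ I3|}` (`f` is `0` off `I`), at most `l^(2s)` for each pair. The number of
  subsets of size `≤ t` of a set with `n` elements is at most `(n+1)^t`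
  (inject into maps `Fin t → Option …`, or `Σ_{j ≤ t} (n choose j) ≤ (n+1)^t` by induction). With
  `#{K i = 1} = ones K` and `3 #{K i ≥ 3} ≤ 2E`, hence `#{K i ≥ 3} + 1 ≤ 2E` (`E ≥ 1`), the number of
  pairs is at most `(ones K + 1)^(2s) * (2E)^(2s/3)`.
-/

namespace Pool.Agent.Helper34.MVU

open Finset Pool.Agent.Helper60.MV

private theorem x2_zf_abs (m n : ℤ) : 0 ≤ |zf m n| ∧ |zf m n| ≤ 2 * (1 * 1) := by
  refine ⟨abs_nonneg _, ?_⟩
  unfold zf
  split_ifs
  · norm_num
  · rw [abs_mul, abs_pow, abs_neg, abs_one, one_pow]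
    norm_num
  · norm_num
  · norm_num

private theorem x2_zf_neg {m : ℤ} (hm : m < 0) (n : ℤ) : zf m n = 0 := by
  unfold zf
  split_ifs
  · omega
  · omega
  · rfl
  · rfl

private theorem x2_pf_le {l : ℕ} (g : Fin l → ℤ) :
    |pfL (fun a b => zf (g a) (g b)) (List.finRange l)| ≤ mt l * 2 ^ (l / 2) := by
  refine (abs_pfL_le _ _).trans ?_
  have h1 := (hfL_mono (fun a b => |zf (g a) (g b)|) (fun _ _ : Fin l => (2:ℝ) * (1 * 1))
    (List.finRange l) (List.pairwise_of_forall (fun a b => x2_zf_abs _ _))).2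
  refine h1.trans ?_
  have h2 := hfL_mul (fun _ : Fin l => (1:ℝ)) 2 (List.finRange l)
  rw [h2]
  simp

private theorem x2_pf_zero' {n : ℕ} (g : Fin (n + 1) → ℤ) (h0 : g 0 < 0) :
    pfL (fun a b => zf (g a) (g b)) (List.finRange (n + 1)) = 0 := by
  rw [List.finRange_succ, pfL]
  refine Finset.sum_eq_zero (fun j _ => ?_)
  rw [x2_zf_neg h0]
  ring

private theorem x2_subsets {ρ : Type} (U : Finset ρ) (t : ℕ) :
    ((U.powerset).filter (fun I => I.card ≤ t)).card ≤ (U.card + 1) ^ t := by
  classical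
  have h1 : (U.powerset).filter (fun I => I.card ≤ t) ⊆
      (range (t + 1)).biUnion (fun j => U.powersetCard j) := by
    intro I hI
    rw [mem_filter, mem_powerset] at hI
    rw [mem_biUnion]
    exact ⟨I.card, mem_range.mpr (by omega), mem_powersetCard.mpr ⟨hI.1, rfl⟩⟩
  refine (card_le_card h1).trans (card_biUnion_le.trans ?_)
  rw [add_pow]
  refine Finset.sum_le_sum (fun j hj => ?_)
  rw [card_powersetCard, one_pow, mul_one]
  have h2 : U.card.choose j ≤ U.card ^ j := Nat.choose_le_pow _ _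
  have h3 : 0 < t.choose j := Nat.choose_pos (by rw [mem_range] at hj; omega)
  calc U.card.choose j ≤ U.card ^ j := h2
    _ = U.card ^ j * 1 := (mul_one _).symm
    _ ≤ U.card ^ j * (t.choose j) := Nat.mul_le_mul_left _ h3

private theorem x2_supp {ρ : Type} [Fintype ρ] {n : ℕ} (I : Finset ρ) [DecidableEq ρ]
    [DecidablePred fun f : ρ → Fin (n + 1) => ∀ i, i ∉ I → f i = 0] :
    (univ.filter (fun f : ρ → Fin (n + 1) => ∀ i, i ∉ I → f i = 0)).card ≤ (n + 1) ^ I.card := by
  have h1 : univ.filter (fun f : ρ → Fin (n + 1) => ∀ i, i ∉ I → f i = 0) ⊆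
      Fintype.piFinset (fun i => if i ∈ I then (univ : Finset (Fin (n + 1))) else {0}) := by
    intro f hf
    rw [mem_filter] at hf
    rw [Fintype.mem_piFinset]
    intro i
    by_cases hi : i ∈ I
    · rw [if_pos hi]
      exact mem_univ _
    · rw [if_neg hi, mem_singleton]
      exact hf.2 i hi
  refine (card_le_card h1).trans ?_
  rw [Fintype.card_piFinset]
  have h2 : ∀ i : ρ, (if i ∈ I then (univ : Finset (Fin (n + 1))) else {0}).card =
      if i ∈ I then n + 1 else 1 := by
    intro i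
    split_ifs
    · rw [card_univ, Fintype.card_fin]
    · exact card_singleton _
  rw [Finset.prod_congr rfl (fun i _ => h2 i), Finset.prod_ite, Finset.prod_const,
    Finset.prod_const_one, mul_one, Finset.filter_mem_eq_inter, Finset.univ_inter]

private theorem x2_count {ρ : Type} [Fintype ρ] (K : ρ → ℕ) (hK : ∀ i, Odd (K i)) (E : ℕ)
    (hE : ∑ i, K i = 2 * E) (h1 : 1 ≤ E) (m s n : ℕ) (hm : m + s = E) [DecidableEq ρ] :
    (univ.filter (fun f : ρ → Fin (n + 1) => 2 * m ≤ asg K f 0)).card ≤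
      (n + 1) ^ (2 * s) * (ones K + 1) ^ (2 * s) * (2 * E) ^ (2 * s / 3) := by
  classical
  set U1 : Finset ρ := univ.filter (fun i => K i = 1) with hU1
  set U3 : Finset ρ := univ.filter (fun i => K i ≠ 1) with hU3
  set P1 := (U1.powerset).filter (fun I => I.card ≤ 2 * s) with hP1
  set P3 := (U3.powerset).filter (fun I => I.card ≤ 2 * s / 3) with hP3
  have hsub : univ.filter (fun f : ρ → Fin (n + 1) => 2 * m ≤ asg K f 0) ⊆
      (P1 ×ˢ P3).biUnion (fun p => if (p.1 ∪ p.2).card ≤ 2 * s then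
        univ.filter (fun f : ρ → Fin (n + 1) => ∀ i, i ∉ p.1 ∪ p.2 → f i = 0) else ∅) := by
    intro f hf
    rw [mem_filter] at hf
    have hf2 := hf.2
    have hsum : ∑ i ∈ univ.filter (fun i => f i ≠ 0), K i ≤ 2 * s := by
      have h2 : ∑ i ∈ univ.filter (fun i => f i ≠ 0), K i + asg K f 0 = 2 * E := by
        rw [← hE, asg, ← Finset.sum_filter, add_comm]
        exact Finset.sum_filter_add_sum_filter_not univ (fun i => f i = 0) K
      omega
    have hcard : (univ.filter (fun i => f i ≠ 0)).card ≤ 2 * s := by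
      refine le_trans ?_ hsum
      rw [Finset.card_eq_sum_ones]
      exact Finset.sum_le_sum (fun i _ => (hK i).pos)
    set I1 : Finset ρ := univ.filter (fun i => f i ≠ 0 ∧ K i = 1) with hI1
    set I3 : Finset ρ := univ.filter (fun i => f i ≠ 0 ∧ K i ≠ 1) with hI3
    have hun : I1 ∪ I3 = univ.filter (fun i => f i ≠ 0) := by
      ext i
      simp only [hI1, hI3, mem_union, mem_filter, mem_univ, true_and]
      tauto
    rw [mem_biUnion]
    refine ⟨(I1, I3), ?_, ?_⟩
    · rw [mem_product]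
      constructor
      · rw [hP1, mem_filter, mem_powerset]
        constructor
        · intro i hi
          rw [hI1, mem_filter] at hi
          rw [hU1, mem_filter]
          exact ⟨mem_univ _, hi.2.2⟩
        · refine le_trans (card_le_card ?_) hcard
          rw [← hun]
          exact subset_union_left
      · rw [hP3, mem_filter, mem_powerset]
        constructor
        · intro i hi
          rw [hI3, mem_filter] at hi
          rw [hU3, mem_filter]
          exact ⟨mem_univ _, hi.2.2⟩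
        · have h3 : 3 * I3.card ≤ 2 * s := by
            refine le_trans ?_ hsum
            refine le_trans ?_ (Finset.sum_le_sum_of_subset (f := K) (show I3 ⊆
              univ.filter (fun i => f i ≠ 0) from ?_))
            · rw [mul_comm, ← smul_eq_mul, ← Finset.sum_const]
              refine Finset.sum_le_sum (fun i hi => ?_)
              rw [hI3, mem_filter] at hi
              obtain ⟨k, hk⟩ := hK i
              have := hi.2.2
              omega
            · rw [← hun]
              exact subset_union_right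
          show I3.card ≤ 2 * s / 3
          omega
    · show f ∈ (if (I1 ∪ I3).card ≤ 2 * s then
        univ.filter (fun f : ρ → Fin (n + 1) => ∀ i, i ∉ I1 ∪ I3 → f i = 0) else ∅)
      rw [if_pos (by rw [hun]; exact hcard), mem_filter]
      refine ⟨mem_univ _, ?_⟩
      intro i hi
      rw [hun, mem_filter] at hi
      by_contra hne
      exact hi ⟨mem_univ _, hne⟩
  refine (card_le_card hsub).trans (card_biUnion_le.trans ?_)
  have hterm : ∀ p ∈ P1 ×ˢ P3, (if (p.1 ∪ p.2).card ≤ 2 * s then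
        univ.filter (fun f : ρ → Fin (n + 1) => ∀ i, i ∉ p.1 ∪ p.2 → f i = 0) else ∅).card ≤
        (n + 1) ^ (2 * s) := by
    intro p _
    split_ifs with h
    · exact (x2_supp _).trans (Nat.pow_le_pow_right (by omega) h)
    · rw [card_empty]
      exact Nat.zero_le _
  refine (Finset.sum_le_sum hterm).trans ?_
  rw [Finset.sum_const, smul_eq_mul, card_product]
  have hc1 : P1.card ≤ (ones K + 1) ^ (2 * s) := x2_subsets U1 (2 * s)
  have hc3 : P3.card ≤ (2 * E) ^ (2 * s / 3) := by
    refine (x2_subsets U3 (2 * s / 3)).trans (Nat.pow_le_pow_left ?_ _)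
    have h3 : 3 * U3.card ≤ 2 * E := by
      rw [← hE]
      refine le_trans ?_ (Finset.sum_le_sum_of_subset (f := K) (subset_univ U3))
      rw [mul_comm, ← smul_eq_mul, ← Finset.sum_const]
      refine Finset.sum_le_sum (fun i hi => ?_)
      rw [hU3, mem_filter] at hi
      obtain ⟨k, hk⟩ := hK i
      have := hi.2
      omega
    omega
  calc P1.card * P3.card * (n + 1) ^ (2 * s)
      ≤ (ones K + 1) ^ (2 * s) * (2 * E) ^ (2 * s / 3) * (n + 1) ^ (2 * s) :=
        Nat.mul_le_mul_right _ (Nat.mul_le_mul hc1 hc3)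
    _ = (n + 1) ^ (2 * s) * (ones K + 1) ^ (2 * s) * (2 * E) ^ (2 * s / 3) := by ring

theorem XK_le_near {ρ : Type} [Fintype ρ] (K : ρ → ℕ) (hK : ∀ i, Odd (K i)) (E : ℕ)
    (hE : ∑ i, K i = 2 * E) (h1 : 1 ≤ E) (m s : ℕ) (hm : m + s = E) (rest : List ℕ) :
    |XK K (m :: rest)| ≤ mt (rest.length + 1) * 2 ^ ((rest.length + 1) / 2) *
      ((rest.length : ℝ) + 1) ^ (2 * s) * ((ones K : ℝ) + 1) ^ (2 * s) *
      (2 * (E : ℝ)) ^ (2 * s / 3) := by
  classical
  set n := rest.length with hn
  have hX : XK K (m :: rest) = ∑ f : ρ → Fin (n + 1),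
      pfL (fun a b => zf ((asg K f a : ℤ) - 2 * ((m :: rest).get a : ℤ))
        ((asg K f b : ℤ) - 2 * ((m :: rest).get b : ℤ))) (List.finRange (n + 1)) := by
    unfold XK
    refine Finset.sum_congr ?_ (fun _ _ => rfl)
    ext f
    exact ⟨fun _ => mem_univ _, fun _ => mem_univ _⟩
  rw [hX]
  refine (Finset.abs_sum_le_sum_abs _ _).trans ?_
  have hstep : ∀ f : ρ → Fin (n + 1),
      |pfL (fun a b => zf ((asg K f a : ℤ) - 2 * ((m :: rest).get a : ℤ))
        ((asg K f b : ℤ) - 2 * ((m :: rest).get b : ℤ))) (List.finRange (n + 1))| ≤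
      if 2 * m ≤ asg K f 0 then (mt (n + 1) * 2 ^ ((n + 1) / 2) : ℝ) else 0 := by
    intro f
    split_ifs with h
    · exact x2_pf_le (fun a => (asg K f a : ℤ) - 2 * ((m :: rest).get a : ℤ))
    · have h0 : ((asg K f 0 : ℤ) - 2 * ((m :: rest).get 0 : ℤ)) < 0 := by
        have : (m :: rest).get 0 = m := rfl
        rw [this]
        omega
      have := x2_pf_zero' (fun a => (asg K f a : ℤ) - 2 * ((m :: rest).get a : ℤ)) h0
      rw [this, abs_zero]
  refine (Finset.sum_le_sum (fun f _ => hstep f)).trans ?_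
  rw [← Finset.sum_filter, Finset.sum_const, nsmul_eq_mul]
  have hc := x2_count K hK E hE h1 m s n hm
  have hc' : (((univ.filter (fun f : ρ → Fin (n + 1) => 2 * m ≤ asg K f 0)).card : ℕ) : ℝ) ≤
      ((n : ℝ) + 1) ^ (2 * s) * ((ones K : ℝ) + 1) ^ (2 * s) * (2 * (E : ℝ)) ^ (2 * s / 3) := by
    exact_mod_cast hc
  have hpos : (0 : ℝ) ≤ mt (n + 1) * 2 ^ ((n + 1) / 2) := by positivity
  refine (mul_le_mul_of_nonneg_right hc' hpos).trans (le_of_eq ?_)
  ring

end Pool.Agent.Helper34.MVU
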