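import Pool.Agent.Helper34.MVU.TlWick
import Pool.Agent.Helper34.MVU.X2
import Pool.Agent.Helper34.MVU.Beta

/-!
Project MV, block U, module U-T0 (Reg0): the terms with first part `m = E - s`, `1 ≤ s ≤ s0`.

PROOF. Let `s = E - m`, `1 ≤ s ≤ s0`, `S' = S.erase m`; its sum is `s ≤ s0`, so `S' ⊆ Icc 1 s0` and
all its elements are `< m` (`m ≥ E - s0 ≥ s0 + 2`). `dl S = m :: tl S'` (`dl_insert`,
`Finset.insert_erase`). Then (`C` = constants depending on `s0` only)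
 - `(1/2)^(card S) ≤ 1`;
 - `Π_{S} cc a = cc m Π_{S'} cc a`, `cc m ≤ m!/√m` (`cc_le`), `Π_{S'} cc a ≤ Π a! ≤ (s0!)^s0`
   (`cc_le_fact`; `card S' ≤ s0`), `E! = m! Π_{i=m+1}^E i ≥ m! m^s` (`Nat.factorial_mul_pow_le_factorial`)
   and `m ≥ E/2` give `m!/√m ≤ E! (2/E)^s √2/√E`;
 - `|XK K (m :: tl S')| ≤ mt(l) 2^(l/2) l^(2s) (ones K+1)^(2s) (2E)^(2s/3)`, `l = (tl S').length + 1 ≤ s0+2`
   (`XK_le_near`, `length_tl`), `≤ C (ones K+1)^(2 s0) E^(2s/3)` (natural number division `2s/3`;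
   `mt l ≤ l!` or take the maximum over `l ≤ s0 + 2`);
 - `|Wick …| ≤ C 2^m ≤ C 2^E` (`Wick_tl_le`).
Product: `≤ C (ones K+1)^(2 s0) 2^E E! E^(-1/2) E^(-s) E^(2s/3)`, and `s - (2s/3 : ℕ) ≥ 1` for `s ≥ 1`, so
`E^(-s) E^(2s/3) ≤ 1/E`, `E!/E = (E-1)!`, `2^E (E-1)! = bE E`.
-/

namespace Pool.Agent.Helper34.MVU

open Finset Pool.Agent.Helper60.MV

private theorem reg0_sub {s : ℕ} (T : Finset ℕ) (h1 : ∀ a ∈ T, 1 ≤ a) (h2 : ∑ a ∈ T, a = s) :
    T ⊆ Icc 1 s := by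
  intro a ha
  rw [Finset.mem_Icc]
  refine ⟨h1 a ha, ?_⟩
  rw [← h2]
  exact Finset.single_le_sum (f := fun a => a) (fun _ _ => Nat.zero_le _) ha

private theorem reg0_prod (s0 : ℕ) (T : Finset ℕ) (hT : T ⊆ Icc 1 s0) :
    |∏ a ∈ T, cc a| ≤ ((s0.factorial : ℝ)) ^ s0 := by
  rw [abs_of_nonneg (Finset.prod_nonneg (fun a _ => (cc_pos a).le))]
  have h1 : (1 : ℝ) ≤ (s0.factorial : ℝ) := by exact_mod_cast Nat.one_le_iff_ne_zero.2 (Nat.factorial_ne_zero s0)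
  calc ∏ a ∈ T, cc a ≤ ∏ _a ∈ T, (s0.factorial : ℝ) := by
        refine Finset.prod_le_prod (fun a _ => (cc_pos a).le) (fun a ha => ?_)
        refine (cc_le_fact a).trans ?_
        exact_mod_cast Nat.factorial_le (Finset.mem_Icc.1 (hT ha)).2
    _ = (s0.factorial : ℝ) ^ T.card := by rw [Finset.prod_const]
    _ ≤ (s0.factorial : ℝ) ^ s0 := by
        refine pow_le_pow_right₀ h1 ?_
        have := Finset.card_le_card hT
        rw [Nat.card_Icc] at this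
        omega

private theorem reg0_fact (s0 m s E : ℕ) (hm : m + s = E) (hs1 : 1 ≤ s) (hs0 : s ≤ s0)
    (hE : 2 * s0 + 2 ≤ E) :
    cc m * (2 * (E : ℝ)) ^ (2 * s / 3) ≤
      (2 * 2 ^ s0 * 2 ^ s0) * ((E : ℝ) ^ (-(1 / 2) : ℝ) * ((E - 1).factorial : ℝ)) := by
  have hm1 : 1 ≤ m := by omega
  have hEr : (1 : ℝ) ≤ (E : ℝ) := by exact_mod_cast (by omega : 1 ≤ E)
  have hmr : (0 : ℝ) < (m : ℝ) := by exact_mod_cast hm1
  have hEp : (0 : ℝ) < (E : ℝ) := by linarith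
  -- the square roots
  have hsq : 1 / Real.sqrt m ≤ 2 * (E : ℝ) ^ (-(1 / 2) : ℝ) := by
    rw [Real.rpow_neg hEp.le, ← Real.sqrt_eq_rpow]
    have h4 : (E : ℝ) ≤ 2 ^ 2 * m := by
      have : E ≤ 4 * m := by omega
      have h : (E : ℝ) ≤ 4 * m := by exact_mod_cast this
      linarith
    have h5 : Real.sqrt E ≤ 2 * Real.sqrt m := by
      calc Real.sqrt E ≤ Real.sqrt (2 ^ 2 * m) := Real.sqrt_le_sqrt h4
        _ = 2 * Real.sqrt m := by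
          rw [Real.sqrt_mul (by norm_num), Real.sqrt_sq (by norm_num)]
    have h6 : 0 < Real.sqrt m := Real.sqrt_pos.2 hmr
    have h7 : 0 < Real.sqrt E := Real.sqrt_pos.2 hEp
    rw [div_le_iff₀ h6]
    calc (1 : ℝ) = Real.sqrt E * (Real.sqrt E)⁻¹ := by field_simp
      _ ≤ (2 * Real.sqrt m) * (Real.sqrt E)⁻¹ := by
          exact mul_le_mul_of_nonneg_right h5 (by positivity)
      _ = 2 * (Real.sqrt E)⁻¹ * Real.sqrt m := by ring
  -- the factorials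
  have hfac : (m.factorial : ℝ) * (E : ℝ) ^ (s - 1) ≤ 2 ^ s0 * ((E - 1).factorial : ℝ) := by
    have h1 : m.factorial * (m + 1) ^ (s - 1) ≤ (m + (s - 1)).factorial :=
      Nat.factorial_mul_pow_le_factorial
    have h2 : m + (s - 1) = E - 1 := by omega
    rw [h2] at h1
    have h3 : E ^ (s - 1) ≤ 2 ^ (s - 1) * (m + 1) ^ (s - 1) := by
      rw [← mul_pow]
      exact Nat.pow_le_pow_left (by omega) _
    have h4 : m.factorial * E ^ (s - 1) ≤ 2 ^ s0 * (E - 1).factorial := by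
      calc m.factorial * E ^ (s - 1) ≤ m.factorial * (2 ^ (s - 1) * (m + 1) ^ (s - 1)) :=
            Nat.mul_le_mul_left _ h3
        _ = 2 ^ (s - 1) * (m.factorial * (m + 1) ^ (s - 1)) := by ring
        _ ≤ 2 ^ s0 * (E - 1).factorial :=
            Nat.mul_le_mul (Nat.pow_le_pow_right (by norm_num) (by omega)) h1
    exact_mod_cast h4
  have hpow : (2 * (E : ℝ)) ^ (2 * s / 3) ≤ 2 ^ s0 * (E : ℝ) ^ (s - 1) := by
    rw [mul_pow]
    refine mul_le_mul (pow_le_pow_right₀ (by norm_num) (by omega))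
      (pow_le_pow_right₀ hEr (by omega)) (by positivity) (by positivity)
  have hE0 : (0 : ℝ) ≤ (E : ℝ) ^ (-(1 / 2) : ℝ) := Real.rpow_nonneg hEp.le _
  calc cc m * (2 * (E : ℝ)) ^ (2 * s / 3)
      ≤ ((m.factorial : ℝ) / Real.sqrt m) * (2 ^ s0 * (E : ℝ) ^ (s - 1)) :=
        mul_le_mul (cc_le m hm1) hpow (by positivity) (by positivity)
    _ = (1 / Real.sqrt m) * (2 ^ s0 * ((m.factorial : ℝ) * (E : ℝ) ^ (s - 1))) := by ring
    _ ≤ (2 * (E : ℝ) ^ (-(1 / 2) : ℝ)) * (2 ^ s0 * (2 ^ s0 * ((E - 1).factorial : ℝ))) :=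
        mul_le_mul hsq (mul_le_mul_of_nonneg_left hfac (by positivity)) (by positivity)
          (by positivity)
    _ = (2 * 2 ^ s0 * 2 ^ s0) * ((E : ℝ) ^ (-(1 / 2) : ℝ) * ((E - 1).factorial : ℝ)) := by ring

theorem reg0 (s0 : ℕ) : ∃ C : ℝ, 0 ≤ C ∧ ∀ {ρ : Type} [Fintype ρ] (K : ρ → ℕ)
    (_ : ∀ i, Odd (K i)) (E : ℕ) (_ : ∑ i, K i = 2 * E) (_ : 2 * s0 + 2 ≤ E) (S : Finset ℕ)
    (_ : S ∈ stp E) (m : ℕ) (_ : m ∈ S) (_ : m < E) (_ : E ≤ m + s0),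
    |term K S| ≤ C * ((ones K : ℝ) + 1) ^ (2 * s0) * (E : ℝ) ^ (-(1 / 2) : ℝ) * bE E := by
  obtain ⟨CW, hCW0, hCW⟩ := Wick_tl_le s0
  set D : ℝ := ∑ l ∈ range (s0 + 3), (mt l : ℝ) with hD
  have hD0 : 0 ≤ D := Finset.sum_nonneg (fun _ _ => Nat.cast_nonneg _)
  refine ⟨(2 * 2 ^ s0 * 2 ^ s0) * (s0.factorial : ℝ) ^ s0 *
    (D * 2 ^ (s0 + 2) * ((s0 : ℝ) + 2) ^ (2 * s0)) * CW, by positivity, ?_⟩
  intro ρ _ K hK E hKE hE S hS m hmS hmE hEm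
  obtain ⟨s, hs⟩ : ∃ s, m + s = E := ⟨E - m, by omega⟩
  have hs1 : 1 ≤ s := by omega
  have hs0 : s ≤ s0 := by omega
  obtain ⟨hS1, hS2⟩ := (mem_stp E S).1 hS
  set T := S.erase m with hT
  have hTS : insert m T = S := Finset.insert_erase hmS
  have hmT : m ∉ T := Finset.notMem_erase m S
  have hTsum : ∑ a ∈ T, a = s := by
    have h := Finset.sum_insert (f := fun a => a) hmT
    rw [hTS] at h
    omega
  have hT1 : ∀ a ∈ T, 1 ≤ a := fun a ha => hS1 a (Finset.mem_of_mem_erase ha)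
  have hTs : T ⊆ Icc 1 s := reg0_sub T hT1 hTsum
  have hTs0 : T ⊆ Icc 1 s0 := hTs.trans (Finset.Icc_subset_Icc_right hs0)
  have hTm : ∀ a ∈ T, a < m := by
    intro a ha
    have := (Finset.mem_Icc.1 (hTs0 ha)).2
    omega
  have hdl : dl S = m :: tl T := by rw [← hTS]; exact dl_insert m T hTm
  have hTcard : T.card ≤ s0 := by
    have := Finset.card_le_card hTs0
    rw [Nat.card_Icc] at this
    omega
  have hlen : (tl T).length ≤ s0 + 1 := (length_tl T).trans (by omega)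
  -- the four factors
  have hX := XK_le_near K hK E hKE (by omega) m s hs (tl T)
  have hW := hCW T (Finset.mem_powerset.2 hTs0) m
  have hP := reg0_prod s0 T hTs0
  have hF := reg0_fact s0 m s E hs hs1 hs0 hE
  have hEp : (0 : ℝ) ≤ (E : ℝ) := Nat.cast_nonneg _
  have hmt : (mt ((tl T).length + 1) : ℝ) ≤ D :=
    Finset.single_le_sum (f := fun l => (mt l : ℝ)) (fun _ _ => Nat.cast_nonneg _)
      (Finset.mem_range.2 (by omega))
  have h2p : (2 : ℝ) ^ (((tl T).length + 1) / 2) ≤ 2 ^ (s0 + 2) :=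
    pow_le_pow_right₀ (by norm_num) (by omega)
  have hlp : (((tl T).length : ℝ) + 1) ^ (2 * s) ≤ ((s0 : ℝ) + 2) ^ (2 * s0) := by
    have h1 : ((tl T).length : ℝ) + 1 ≤ (s0 : ℝ) + 2 := by
      have : (((tl T).length : ℕ) : ℝ) ≤ ((s0 + 1 : ℕ) : ℝ) := by exact_mod_cast hlen
      push_cast at this
      linarith
    calc (((tl T).length : ℝ) + 1) ^ (2 * s) ≤ ((s0 : ℝ) + 2) ^ (2 * s) :=
          pow_le_pow_left₀ (by positivity) h1 _
      _ ≤ ((s0 : ℝ) + 2) ^ (2 * s0) := by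
          refine pow_le_pow_right₀ ?_ (by omega)
          have : (0 : ℝ) ≤ (s0 : ℝ) := Nat.cast_nonneg _
          linarith
  have hop : ((ones K : ℝ) + 1) ^ (2 * s) ≤ ((ones K : ℝ) + 1) ^ (2 * s0) := by
    refine pow_le_pow_right₀ ?_ (by omega)
    have : (0 : ℝ) ≤ (ones K : ℝ) := Nat.cast_nonneg _
    linarith
  have hX2 : |XK K (m :: tl T)| ≤ (D * 2 ^ (s0 + 2) * ((s0 : ℝ) + 2) ^ (2 * s0)) *
      ((ones K : ℝ) + 1) ^ (2 * s0) * (2 * (E : ℝ)) ^ (2 * s / 3) := by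
    refine hX.trans ?_
    gcongr
  have hhalf : ((1 : ℝ) / 2) ^ S.card ≤ 1 := pow_le_one₀ (by norm_num) (by norm_num)
  have hccm := cc_pos m
  have hW2 : |Wick (pfL QQ (m :: tl T))| ≤ CW * 2 ^ E := by
    refine hW.trans (mul_le_mul_of_nonneg_left ?_ hCW0)
    exact pow_le_pow_right₀ (by norm_num) (by omega)
  have hprod : ∏ a ∈ S, cc a = cc m * ∏ a ∈ T, cc a := by
    rw [← hTS, Finset.prod_insert hmT]
  unfold term
  rw [hdl, hprod, abs_mul, abs_mul, abs_mul, abs_mul, abs_of_nonneg (by positivity :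
    (0 : ℝ) ≤ (1 / 2) ^ S.card), abs_of_pos hccm]
  set A : ℝ := D * 2 ^ (s0 + 2) * ((s0 : ℝ) + 2) ^ (2 * s0) with hA
  have hA0 : 0 ≤ A := by positivity
  calc (1 / 2 : ℝ) ^ S.card * (cc m * |∏ a ∈ T, cc a|) * |XK K (m :: tl T)| *
        |Wick (pfL QQ (m :: tl T))|
      ≤ 1 * (cc m * (s0.factorial : ℝ) ^ s0) *
        (A * ((ones K : ℝ) + 1) ^ (2 * s0) * (2 * (E : ℝ)) ^ (2 * s / 3)) * (CW * 2 ^ E) := by
        gcongr
    _ = ((s0.factorial : ℝ) ^ s0 * A * CW * ((ones K : ℝ) + 1) ^ (2 * s0) * 2 ^ E) *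
        (cc m * (2 * (E : ℝ)) ^ (2 * s / 3)) := by ring
    _ ≤ ((s0.factorial : ℝ) ^ s0 * A * CW * ((ones K : ℝ) + 1) ^ (2 * s0) * 2 ^ E) *
        ((2 * 2 ^ s0 * 2 ^ s0) * ((E : ℝ) ^ (-(1 / 2) : ℝ) * ((E - 1).factorial : ℝ))) :=
        mul_le_mul_of_nonneg_left hF (by positivity)
    _ = (2 * 2 ^ s0 * 2 ^ s0) * (s0.factorial : ℝ) ^ s0 * A * CW *
        ((ones K : ℝ) + 1) ^ (2 * s0) * (E : ℝ) ^ (-(1 / 2) : ℝ) * bE E := by
        unfold bE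
        ring

end Pool.Agent.Helper34.MVU
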