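import Pool.Agent.Helper34.MVU.DL

/-!
Project MV, block U, module U-SA (SumA): the sum of the majorants over the sets without large
elements.

PROOF. `lrg E S = ∅`, `sml E S = S`, all `a ∈ S` satisfy `4096 a ≤ E`, `1 ≤ a`, `Σ a = E`.
`maj E S = Π_{a ∈ S} (54 a^3 4^a (a/E)^(a/3))` and `(a/E)^(a/3) ≤ (1/4096)^(a/3) = 16^(-a)`, so
`maj E S ≤ Π (54 a^3 4^(-a)) = 2^(-E) Π_{a ∈ S} (54 a^3 2^(-a))` (`Σ a = E`). Sum over all subsets of
`Icc 1 E` (nonnegative terms): `Σ_S Π_{a ∈ S} w a = Π_{a=1}^E (1 + w a)` (`Finset.prod_one_add` or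
`Finset.prod_add`), `≤ exp (Σ_a w a) ≤ C` with `w a = 54 a^3 2^(-a)` summable. Finally
`2^(-E) ≤ C' / E^T` for `E ≥ 1` (`E^T 2^(-E)` is bounded: it tends to `0`,
`tendsto_pow_const_mul_const_pow_of_abs_lt_one`).
-/

namespace Pool.Agent.Helper34.MVU

open Finset Pool.Agent.Helper60.MV

private noncomputable def sumAw (a : ℕ) : ℝ := 54 * ((a : ℝ) ^ 3 * (1 / 2) ^ a)

private theorem sumAw_nonneg (a : ℕ) : 0 ≤ sumAw a := by
  unfold sumAw
  positivity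

private theorem sumAw_summable : Summable sumAw := by
  have h : Summable (fun n : ℕ => (n : ℝ) ^ 3 * (1 / 2 : ℝ) ^ n) :=
    summable_pow_mul_geometric_of_norm_lt_one 3 (by norm_num)
  exact h.mul_left 54

private theorem sumA_rpow {E a : ℕ} (hE : 1 ≤ E) (ha : ¬ (E < 4096 * a)) :
    ((a : ℝ) / (E : ℝ)) ^ ((a : ℝ) / 3) ≤ (1 / 16 : ℝ) ^ a := by
  have hE' : (0:ℝ) < E := by exact_mod_cast hE
  have h1 : (a : ℝ) / (E : ℝ) ≤ (1 / 16 : ℝ) ^ (3 : ℝ) := by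
    have h2 : (4096 : ℝ) * a ≤ E := by
      have : 4096 * a ≤ E := by omega
      exact_mod_cast this
    have h3 : (1 / 16 : ℝ) ^ (3 : ℝ) = 1 / 4096 := by
      rw [show (3:ℝ) = ((3 : ℕ) : ℝ) by norm_num, Real.rpow_natCast]
      norm_num
    rw [h3, div_le_div_iff₀ hE' (by norm_num)]
    linarith
  have h4 : (0:ℝ) ≤ (a : ℝ) / (E : ℝ) := by positivity
  calc ((a : ℝ) / (E : ℝ)) ^ ((a : ℝ) / 3) ≤ ((1 / 16 : ℝ) ^ (3 : ℝ)) ^ ((a : ℝ) / 3) :=
        Real.rpow_le_rpow h4 h1 (by positivity)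
    _ = (1 / 16 : ℝ) ^ a := by
        rw [← Real.rpow_mul (by norm_num), ← Real.rpow_natCast]
        congr 1
        ring

private theorem sumA_maj {E : ℕ} (hE : 1 ≤ E) {S : Finset ℕ} (hS : ∑ a ∈ S, a = E)
    (hl : (lrg E S).card = 0) : maj E S ≤ (1 / 2) ^ E * ∏ a ∈ S, sumAw a := by
  have hlrg : lrg E S = ∅ := Finset.card_eq_zero.mp hl
  have hsm : ∀ a ∈ S, ¬ (E < 4096 * a) := by
    intro a ha hlt
    have : a ∈ lrg E S := by
      unfold lrg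
      rw [Finset.mem_filter]
      exact ⟨ha, hlt⟩
    rw [hlrg] at this
    simp at this
  have hsml : sml E S = S := by
    unfold sml
    exact Finset.filter_true_of_mem hsm
  unfold maj
  rw [hl, hsml]
  simp only [pow_zero, zero_pow (two_ne_zero), add_zero, one_mul, mul_one]
  have hhalf : (1 / 2 : ℝ) ^ E = ∏ a ∈ S, (1 / 2 : ℝ) ^ a := by
    rw [Finset.prod_pow_eq_pow_sum, hS]
  rw [← Finset.prod_mul_distrib, hhalf, ← Finset.prod_mul_distrib]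
  refine Finset.prod_le_prod (fun a _ => by positivity) (fun a ha => ?_)
  have h1 := sumA_rpow hE (hsm a ha)
  have h2 : (1 / 16 : ℝ) ^ a * 4 ^ a = (1 / 2) ^ a * (1 / 2) ^ a := by
    rw [← mul_pow, ← mul_pow]
    norm_num
  unfold sumAw
  calc 18 * (a : ℝ) ^ 3 * ((a : ℝ) / (E : ℝ)) ^ ((a : ℝ) / 3) * (3 * 4 ^ a) ≤
      18 * (a : ℝ) ^ 3 * (1 / 16 : ℝ) ^ a * (3 * 4 ^ a) := by
        gcongr
    _ = 54 * (a : ℝ) ^ 3 * ((1 / 16 : ℝ) ^ a * 4 ^ a) := by ring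
    _ = (1 / 2) ^ a * (54 * ((a : ℝ) ^ 3 * (1 / 2) ^ a)) := by
        rw [h2]
        ring

theorem sumA_le (T : ℕ) : ∃ C : ℝ, 0 ≤ C ∧ ∀ E : ℕ, 1 ≤ E →
    ∑ S ∈ (stp E).filter (fun S => (lrg E S).card = 0), maj E S ≤ C / (E : ℝ) ^ T := by
  have hbd : ∃ B : ℝ, ∀ n : ℕ, (n : ℝ) ^ T * (1 / 2 : ℝ) ^ n ≤ B := by
    have h0 : Filter.Tendsto (fun n : ℕ => (n : ℝ) ^ T * (1 / 2 : ℝ) ^ n) Filter.atTop
        (nhds 0) :=
      tendsto_pow_const_mul_const_pow_of_abs_lt_one T (by rw [abs_of_pos] <;> norm_num)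
    obtain ⟨B, hB⟩ := h0.bddAbove_range
    refine ⟨B, fun n => ?_⟩
    apply hB
    exact Set.mem_range_self n
  obtain ⟨B, hB⟩ := hbd
  have hB0 : 0 ≤ B := le_trans (by positivity) (hB 0)
  refine ⟨B * Real.exp (∑' a, sumAw a), by positivity, ?_⟩
  intro E hE
  have hE' : (0:ℝ) < E := by exact_mod_cast hE
  have h1 : ∑ S ∈ (stp E).filter (fun S => (lrg E S).card = 0), maj E S ≤
      ∑ S ∈ (Finset.Icc 1 E).powerset, (1 / 2) ^ E * ∏ a ∈ S, sumAw a := by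
    refine le_trans (Finset.sum_le_sum (g := fun S => (1 / 2) ^ E * ∏ a ∈ S, sumAw a)
      (fun S hS => ?_)) (Finset.sum_le_sum_of_subset_of_nonneg ?_ ?_)
    · rw [Finset.mem_filter, stp, Finset.mem_filter] at hS
      exact sumA_maj hE hS.1.2 hS.2
    · intro S hS
      rw [Finset.mem_filter, stp, Finset.mem_filter] at hS
      exact hS.1.1
    · intro S _ _
      have h5 : (0:ℝ) ≤ (1 / 2) ^ E := by positivity
      exact mul_nonneg h5 (Finset.prod_nonneg (fun a _ => sumAw_nonneg a))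
  have h2 : ∑ S ∈ (Finset.Icc 1 E).powerset, (1 / 2 : ℝ) ^ E * ∏ a ∈ S, sumAw a ≤
      (1 / 2) ^ E * Real.exp (∑' a, sumAw a) := by
    rw [← Finset.mul_sum, ← Finset.prod_one_add]
    refine mul_le_mul_of_nonneg_left ?_ (by positivity)
    calc ∏ a ∈ Finset.Icc 1 E, (1 + sumAw a) ≤ ∏ a ∈ Finset.Icc 1 E, Real.exp (sumAw a) := by
          refine Finset.prod_le_prod (fun a _ => ?_) (fun a _ => ?_)
          · have := sumAw_nonneg a
            linarith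
          · have := Real.add_one_le_exp (sumAw a)
            linarith
      _ = Real.exp (∑ a ∈ Finset.Icc 1 E, sumAw a) := (Real.exp_sum _ _).symm
      _ ≤ Real.exp (∑' a, sumAw a) := by
          apply Real.exp_le_exp.mpr
          exact sumAw_summable.sum_le_tsum _ (fun a _ => sumAw_nonneg a)
  refine (h1.trans h2).trans ?_
  rw [le_div_iff₀ (by positivity)]
  have h3 := hB E
  have h4 : 0 < Real.exp (∑' a, sumAw a) := Real.exp_pos _
  calc (1 / 2 : ℝ) ^ E * Real.exp (∑' a, sumAw a) * (E : ℝ) ^ T =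
      ((E : ℝ) ^ T * (1 / 2 : ℝ) ^ E) * Real.exp (∑' a, sumAw a) := by ring
    _ ≤ B * Real.exp (∑' a, sumAw a) := mul_le_mul_of_nonneg_right h3 h4.le

end Pool.Agent.Helper34.MVU
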