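import Pool.Agent.Helper34.MVU.DL

/-!
Project MV, block U, module U-SB (SumB): the sum of the majorants over the sets with exactly one
large element, all of whose elements are `< E - s0`.

PROOF. Let `S ∈ stp E`, `lrg E S = {m}`, `S' = S.erase m = sml E S`; all `a ∈ S'` satisfy `1 ≤ a`,
`4096 a ≤ E`, and `Σ_{a ∈ S'} a = E - m > s0`. As `(m/E)^(m/3) ≤ 1` and `m ≤ E`,
`maj E S ≤ (4E)^2 * 18 E^3 * Π_{a ∈ S'} g a`, `g a = 324 a^3 4^a (a/E)^(a/3) = 324 a^3 (64 a/E)^(a/3)`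
(`18 * 3 * 6 = 324`).
Let `t ≥ 1` and `s0 = 6 t`. CLAIM: for `1 ≤ a`, `4096 a ≤ E`:
`g a * E^(min a s0 / 6) ≤ w a := C_t a^(3+t) 2^(-a)` (real power of `E`), with `C_t` independent of `E`:
 - `a ≤ s0`: `(64a/E)^(a/3) = (64a/E)^(a/6) (64a/E)^(a/6) ≤ (64a)^(a/6) E^(-a/6) (1/64)^(a/6)`
   `≤ (64 s0)^(s0/6) E^(-a/6) 2^(-a)`;
 - `a > s0`: `(64a/E)^(a/3) = (64a/E)^t (64a/E)^(a/3-t) ≤ (64a)^t E^(-t) (1/64)^(a/3-t)`
   `= (64a)^t E^(-t) 4^(-a) 64^t` (`a/3 ≥ t`).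
Since `Σ_{a ∈ S'} min a s0 ≥ s0` (as `Σ a ≥ s0`: either one `a ≥ s0`, or all `min a s0 = a`), and `E ≥ 1`,
`Π_{S'} g a ≤ E^(-t) Π_{S'} w a`. `S` is determined by `S'` (`m = E - Σ S'`), so the whole sum is at most
`(4E)^2 * 18 E^3 * E^(-t) * Σ_{S' ⊆ Icc 1 E} Π w a ≤ C E^5 E^(-t) exp (Σ_a w a)`; take `t = T + 5`.
-/

namespace Pool.Agent.Helper34.MVU

open Finset Pool.Agent.Helper60.MV

private theorem rpow_64 (a : ℕ) : (64 : ℝ) ^ ((a : ℝ) / 3) = 4 ^ a := by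
  have h : (64 : ℝ) = 4 ^ (3 : ℝ) := by norm_num
  rw [h, ← Real.rpow_mul (by norm_num), ← Real.rpow_natCast]
  congr 1
  ring

private theorem rpow_64' (a : ℕ) : (1 / 64 : ℝ) ^ ((a : ℝ) / 6) = (1 / 2) ^ a := by
  have h : (1 / 64 : ℝ) = (1 / 2) ^ (6 : ℝ) := by norm_num
  rw [h, ← Real.rpow_mul (by norm_num), ← Real.rpow_natCast]
  congr 1
  ring

private theorem rpow_64'' (a t : ℕ) :
    (1 / 64 : ℝ) ^ ((a : ℝ) / 3 - t) = (1 / 4) ^ a * 64 ^ t := by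
  have h : (1 / 64 : ℝ) = (1 / 4) ^ (3 : ℝ) := by norm_num
  have h2 : ((1 / 4 : ℝ)) ^ (3 * ((a : ℝ) / 3 - t)) = (1 / 4) ^ a / (1 / 4) ^ (3 * t) := by
    rw [← Real.rpow_natCast, ← Real.rpow_natCast, ← Real.rpow_sub (by norm_num)]
    congr 1
    push_cast
    ring
  rw [h, ← Real.rpow_mul (by norm_num), h2, div_eq_mul_inv]
  congr 1
  rw [pow_mul, ← inv_pow]
  norm_num

/-- the local estimate -/
private theorem claim (t E a : ℕ) (ht : 1 ≤ t) (ha : 1 ≤ a) (hE : 4096 * a ≤ E) :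
    4 ^ a * ((a : ℝ) / (E : ℝ)) ^ ((a : ℝ) / 3) * (E : ℝ) ^ (((min a (6 * t) : ℕ) : ℝ) / 6) ≤
      (384 * (t : ℝ)) ^ t * 4096 ^ t * (a : ℝ) ^ t * (1 / 2) ^ a := by
  have ha' : (1 : ℝ) ≤ a := by exact_mod_cast ha
  have ht' : (1 : ℝ) ≤ t := by exact_mod_cast ht
  have hE' : 4096 * (a : ℝ) ≤ E := by exact_mod_cast hE
  have hE0 : (0 : ℝ) < E := by linarith
  have hu0 : 0 < (a : ℝ) / E := by positivity
  set x : ℝ := 64 * ((a : ℝ) / E) with hx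
  have hx0 : 0 < x := by positivity
  have hx1 : x ≤ 1 / 64 := by
    rw [hx, ← mul_div_assoc, div_le_iff₀ hE0]
    linarith
  have hxE : x * E = 64 * a := by
    rw [hx]
    field_simp
  have h1 : 4 ^ a * ((a : ℝ) / (E : ℝ)) ^ ((a : ℝ) / 3) = x ^ ((a : ℝ) / 3) := by
    rw [hx, Real.mul_rpow (by norm_num) hu0.le, rpow_64]
  rw [h1]
  have hat : (1 : ℝ) ≤ (a : ℝ) ^ t := one_le_pow₀ ha'
  rcases Nat.lt_or_ge (6 * t) a with hlt | hle
  · -- a large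
    have hmin : min a (6 * t) = 6 * t := min_eq_right hlt.le
    have hlt' : 6 * (t : ℝ) < a := by exact_mod_cast hlt
    have h2 : (E : ℝ) ^ (((min a (6 * t) : ℕ) : ℝ) / 6) = (E : ℝ) ^ t := by
      rw [hmin, ← Real.rpow_natCast]
      congr 1
      push_cast
      ring
    have h3 : x ^ ((a : ℝ) / 3) = x ^ t * x ^ ((a : ℝ) / 3 - t) := by
      rw [← Real.rpow_natCast, ← Real.rpow_add hx0]
      congr 1
      ring
    have h4 : x ^ ((a : ℝ) / 3 - t) ≤ (1 / 4) ^ a * 64 ^ t := by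
      rw [← rpow_64'']
      exact Real.rpow_le_rpow hx0.le hx1 (by linarith)
    have h5 : (1 / 4 : ℝ) ^ a ≤ (1 / 2) ^ a := pow_le_pow_left₀ (by norm_num) (by norm_num) a
    calc x ^ ((a : ℝ) / 3) * (E : ℝ) ^ (((min a (6 * t) : ℕ) : ℝ) / 6)
        = (x * E) ^ t * x ^ ((a : ℝ) / 3 - t) := by rw [h2, h3, mul_pow]; ring
      _ ≤ (x * E) ^ t * ((1 / 4) ^ a * 64 ^ t) := by
          apply mul_le_mul_of_nonneg_left h4
          positivity
      _ = 4096 ^ t * (a : ℝ) ^ t * (1 / 4) ^ a := by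
          rw [hxE, mul_pow]
          have : (4096 : ℝ) ^ t = 64 ^ t * 64 ^ t := by rw [← mul_pow]; norm_num
          rw [this]
          ring
      _ ≤ 4096 ^ t * (a : ℝ) ^ t * (1 / 2) ^ a := by
          apply mul_le_mul_of_nonneg_left h5
          positivity
      _ = 1 * (4096 ^ t * (a : ℝ) ^ t * (1 / 2) ^ a) := by rw [one_mul]
      _ ≤ (384 * (t : ℝ)) ^ t * (4096 ^ t * (a : ℝ) ^ t * (1 / 2) ^ a) := by
          apply mul_le_mul_of_nonneg_right _ (by positivity)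
          apply one_le_pow₀
          linarith
      _ = (384 * (t : ℝ)) ^ t * 4096 ^ t * (a : ℝ) ^ t * (1 / 2) ^ a := by ring
  · -- a small
    have hmin : min a (6 * t) = a := min_eq_left hle
    have hle' : (a : ℝ) ≤ 6 * t := by exact_mod_cast hle
    have h3 : x ^ ((a : ℝ) / 3) = x ^ ((a : ℝ) / 6) * x ^ ((a : ℝ) / 6) := by
      rw [← Real.rpow_add hx0]
      congr 1
      ring
    have h4 : x ^ ((a : ℝ) / 6) * (E : ℝ) ^ ((a : ℝ) / 6) = (64 * a) ^ ((a : ℝ) / 6) := by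
      rw [← Real.mul_rpow hx0.le hE0.le, hxE]
    have h5 : (64 * (a : ℝ)) ^ ((a : ℝ) / 6) ≤ (384 * (t : ℝ)) ^ t := by
      calc (64 * (a : ℝ)) ^ ((a : ℝ) / 6) ≤ (384 * (t : ℝ)) ^ ((a : ℝ) / 6) :=
            Real.rpow_le_rpow (by positivity) (by linarith) (by positivity)
        _ ≤ (384 * (t : ℝ)) ^ (t : ℝ) :=
            Real.rpow_le_rpow_of_exponent_le (by linarith) (by linarith)
        _ = (384 * (t : ℝ)) ^ t := Real.rpow_natCast _ _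
    have h6 : x ^ ((a : ℝ) / 6) ≤ (1 / 2) ^ a := by
      rw [← rpow_64']
      exact Real.rpow_le_rpow hx0.le hx1 (by positivity)
    calc x ^ ((a : ℝ) / 3) * (E : ℝ) ^ (((min a (6 * t) : ℕ) : ℝ) / 6)
        = x ^ ((a : ℝ) / 6) * (64 * a) ^ ((a : ℝ) / 6) := by rw [hmin, h3, mul_assoc, h4]
      _ ≤ (1 / 2) ^ a * (384 * (t : ℝ)) ^ t :=
          mul_le_mul h6 h5 (by positivity) (by positivity)
      _ = (384 * (t : ℝ)) ^ t * 1 * 1 * (1 / 2) ^ a := by ring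
      _ ≤ (384 * (t : ℝ)) ^ t * 4096 ^ t * (a : ℝ) ^ t * (1 / 2) ^ a := by
          apply mul_le_mul_of_nonneg_right _ (by positivity)
          apply mul_le_mul _ hat (by norm_num) (by positivity)
          apply mul_le_mul_of_nonneg_left _ (by positivity)
          exact one_le_pow₀ (by norm_num)

/-- the majorant of the factors -/
private noncomputable def ww (t a : ℕ) : ℝ :=
  324 * ((384 * (t : ℝ)) ^ t * 4096 ^ t) * ((a : ℝ) ^ (3 + t) * (1 / 2) ^ a)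

private theorem ww_nonneg (t a : ℕ) : 0 ≤ ww t a := by
  unfold ww
  positivity

private theorem sum_aux (k : ℕ) (C : ℝ) :
    Summable (fun a : ℕ => C * ((a : ℝ) ^ k * (1 / 2) ^ a)) := by
  have h : Summable (fun a : ℕ => (a : ℝ) ^ k * (1 / 2 : ℝ) ^ a) :=
    summable_pow_mul_geometric_of_norm_lt_one (R := ℝ) k (r := 1 / 2)
      (by rw [Real.norm_eq_abs, abs_of_pos] <;> norm_num)
  exact h.mul_left C

private theorem ww_summable (t : ℕ) : Summable (ww t) := by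
  have h := sum_aux (3 + t) (324 * ((384 * (t : ℝ)) ^ t * 4096 ^ t))
  have e : ww t = fun a : ℕ =>
      324 * ((384 * (t : ℝ)) ^ t * 4096 ^ t) * ((a : ℝ) ^ (3 + t) * (1 / 2) ^ a) := rfl
  rw [e]
  exact h

/-- the factors -/
private noncomputable def gg (E a : ℕ) : ℝ :=
  (18 * (a : ℝ) ^ 3 * ((a : ℝ) / (E : ℝ)) ^ ((a : ℝ) / 3)) * (3 * 6 ^ 1 * 4 ^ a)

private theorem gg_le (t E a : ℕ) (ht : 1 ≤ t) (ha : 1 ≤ a) (hE : 4096 * a ≤ E) :
    gg E a * (E : ℝ) ^ (((min a (6 * t) : ℕ) : ℝ) / 6) ≤ ww t a := by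
  have h := claim t E a ht ha hE
  unfold gg ww
  have h0 : (0 : ℝ) ≤ 324 * (a : ℝ) ^ 3 := by positivity
  have h1 := mul_le_mul_of_nonneg_left h h0
  generalize ((a : ℝ) / (E : ℝ)) ^ ((a : ℝ) / 3) = X at h1 ⊢
  generalize (E : ℝ) ^ (((min a (6 * t) : ℕ) : ℝ) / 6) = Y at h1 ⊢
  rw [pow_add]
  generalize (384 * (t : ℝ)) ^ t = U at h1 ⊢
  generalize (4096 : ℝ) ^ t = V at h1 ⊢
  generalize (a : ℝ) ^ t = W at h1 ⊢
  generalize (1 / 2 : ℝ) ^ a = Z at h1 ⊢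
  generalize (4 : ℝ) ^ a = Q at h1 ⊢
  have e1 : 18 * (a : ℝ) ^ 3 * X * (3 * 6 ^ 1 * Q) * Y = 324 * (a : ℝ) ^ 3 * (Q * X * Y) := by
    ring
  have e2 : 324 * (U * V) * ((a : ℝ) ^ 3 * W * Z) = 324 * (a : ℝ) ^ 3 * (U * V * W * Z) := by
    ring
  rw [e1, e2]
  exact h1

private theorem sum_min (s0 : ℕ) (S : Finset ℕ) (h : s0 ≤ ∑ a ∈ S, a) :
    s0 ≤ ∑ a ∈ S, min a s0 := by
  by_cases hex : ∃ a ∈ S, s0 ≤ a
  · obtain ⟨a, ha, h1⟩ := hex
    have h2 := Finset.single_le_sum (f := fun a => min a s0) (fun _ _ => Nat.zero_le _) ha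
    have h3 : min a s0 = s0 := min_eq_right h1
    rw [← h3]
    refine h2.trans ?_
    rw [h3]
  · push Not at hex
    have h2 : ∑ a ∈ S, min a s0 = ∑ a ∈ S, a :=
      Finset.sum_congr rfl fun a ha => min_eq_left (hex a ha).le
    rw [h2]
    exact h

/-- the product over the small elements -/
private theorem prod_gg_le (t E : ℕ) (ht : 1 ≤ t) (hE : 1 ≤ E) (S : Finset ℕ)
    (h1 : ∀ a ∈ S, 1 ≤ a ∧ 4096 * a ≤ E) (hs : 6 * t ≤ ∑ a ∈ S, a) :
    (∏ a ∈ S, gg E a) * (E : ℝ) ^ t ≤ ∏ a ∈ S, ww t a := by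
  have hE1 : (1 : ℝ) ≤ E := by exact_mod_cast hE
  have hE0 : (0 : ℝ) < E := by linarith
  have hg0 : ∀ a, 0 ≤ gg E a := by
    intro a
    unfold gg
    positivity
  have h2 : (E : ℝ) ^ t ≤ ∏ a ∈ S, (E : ℝ) ^ (((min a (6 * t) : ℕ) : ℝ) / 6) := by
    rw [← Real.rpow_sum_of_pos hE0, ← Real.rpow_natCast]
    apply Real.rpow_le_rpow_of_exponent_le hE1
    have h3 := sum_min (6 * t) S hs
    have h4 : ((6 * t : ℕ) : ℝ) ≤ ((∑ a ∈ S, min a (6 * t) : ℕ) : ℝ) := by exact_mod_cast h3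
    rw [← Finset.sum_div, ← Nat.cast_sum]
    push_cast at h4 ⊢
    linarith
  calc (∏ a ∈ S, gg E a) * (E : ℝ) ^ t
      ≤ (∏ a ∈ S, gg E a) * ∏ a ∈ S, (E : ℝ) ^ (((min a (6 * t) : ℕ) : ℝ) / 6) :=
        mul_le_mul_of_nonneg_left h2 (Finset.prod_nonneg fun a _ => hg0 a)
    _ = ∏ a ∈ S, (gg E a * (E : ℝ) ^ (((min a (6 * t) : ℕ) : ℝ) / 6)) :=
        Finset.prod_mul_distrib.symm
    _ ≤ ∏ a ∈ S, ww t a := by
        apply Finset.prod_le_prod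
        · intro a _
          exact mul_nonneg (hg0 a) (by positivity)
        · intro a ha
          exact gg_le t E a ht (h1 a ha).1 (h1 a ha).2

private theorem maj_le (E : ℕ) (hE : 1 ≤ E) (S : Finset ℕ) (hS : S ∈ stp E)
    (hc : (lrg E S).card = 1) :
    maj E S ≤ 288 * (E : ℝ) ^ 5 * ∏ a ∈ sml E S, gg E a := by
  obtain ⟨hS1, hS2⟩ := (mem_stp E S).1 hS
  obtain ⟨m, hm⟩ := Finset.card_eq_one.1 hc
  have hmS : m ∈ S := by
    have : m ∈ lrg E S := by rw [hm]; exact Finset.mem_singleton_self m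
    exact (Finset.mem_filter.1 this).1
  have hmE : m ≤ E := by
    rw [← hS2]
    exact Finset.single_le_sum (f := fun a => a) (fun _ _ => Nat.zero_le _) hmS
  have hmE' : (m : ℝ) ≤ E := by exact_mod_cast hmE
  have hE1 : (1 : ℝ) ≤ E := by exact_mod_cast hE
  have hE0 : (0 : ℝ) < E := by linarith
  have hsplit : ∏ a ∈ S, (18 * (a : ℝ) ^ 3 * ((a : ℝ) / (E : ℝ)) ^ ((a : ℝ) / 3)) =
      (18 * (m : ℝ) ^ 3 * ((m : ℝ) / (E : ℝ)) ^ ((m : ℝ) / 3)) *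
      ∏ a ∈ sml E S, (18 * (a : ℝ) ^ 3 * ((a : ℝ) / (E : ℝ)) ^ ((a : ℝ) / 3)) := by
    rw [← Finset.prod_filter_mul_prod_filter_not S (fun a => E < 4096 * a)]
    have e1 : S.filter (fun a => E < 4096 * a) = {m} := hm
    rw [e1, Finset.prod_singleton]
    rfl
  have h1 : 18 * (m : ℝ) ^ 3 * ((m : ℝ) / (E : ℝ)) ^ ((m : ℝ) / 3) ≤ 18 * (E : ℝ) ^ 3 := by
    have h2 : ((m : ℝ) / (E : ℝ)) ^ ((m : ℝ) / 3) ≤ 1 := by
      apply Real.rpow_le_one (by positivity) _ (by positivity)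
      rw [div_le_one hE0]
      exact hmE'
    have h3 : (m : ℝ) ^ 3 ≤ (E : ℝ) ^ 3 := pow_le_pow_left₀ (by positivity) hmE' 3
    calc 18 * (m : ℝ) ^ 3 * ((m : ℝ) / (E : ℝ)) ^ ((m : ℝ) / 3) ≤ 18 * (m : ℝ) ^ 3 * 1 :=
          mul_le_mul_of_nonneg_left h2 (by positivity)
      _ ≤ 18 * (E : ℝ) ^ 3 := by linarith
  unfold maj
  rw [hc, hsplit]
  have h4 : 0 ≤ ∏ a ∈ sml E S, gg E a := by
    apply Finset.prod_nonneg
    intro a _
    unfold gg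
    positivity
  have h5 : (∏ a ∈ sml E S, (18 * (a : ℝ) ^ 3 * ((a : ℝ) / (E : ℝ)) ^ ((a : ℝ) / 3))) *
      ∏ a ∈ sml E S, (3 * 6 ^ 1 * 4 ^ a : ℝ) = ∏ a ∈ sml E S, gg E a := by
    rw [← Finset.prod_mul_distrib]
    rfl
  calc (4 * (E : ℝ)) ^ (1 + 1 ^ 2) *
        ((18 * (m : ℝ) ^ 3 * ((m : ℝ) / (E : ℝ)) ^ ((m : ℝ) / 3)) *
          ∏ a ∈ sml E S, (18 * (a : ℝ) ^ 3 * ((a : ℝ) / (E : ℝ)) ^ ((a : ℝ) / 3))) *
        ∏ a ∈ sml E S, (3 * 6 ^ 1 * 4 ^ a : ℝ)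
      = (4 * (E : ℝ)) ^ 2 * (18 * (m : ℝ) ^ 3 * ((m : ℝ) / (E : ℝ)) ^ ((m : ℝ) / 3)) *
          ((∏ a ∈ sml E S, (18 * (a : ℝ) ^ 3 * ((a : ℝ) / (E : ℝ)) ^ ((a : ℝ) / 3))) *
            ∏ a ∈ sml E S, (3 * 6 ^ 1 * 4 ^ a : ℝ)) := by norm_num; ring
    _ = (4 * (E : ℝ)) ^ 2 * (18 * (m : ℝ) ^ 3 * ((m : ℝ) / (E : ℝ)) ^ ((m : ℝ) / 3)) *
          ∏ a ∈ sml E S, gg E a := by rw [h5]
    _ ≤ (4 * (E : ℝ)) ^ 2 * (18 * (E : ℝ) ^ 3) * ∏ a ∈ sml E S, gg E a := by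
        apply mul_le_mul_of_nonneg_right _ h4
        exact mul_le_mul_of_nonneg_left h1 (by positivity)
    _ = 288 * (E : ℝ) ^ 5 * ∏ a ∈ sml E S, gg E a := by ring

private theorem sml_inj (E : ℕ) (S S' : Finset ℕ) (hS : S ∈ stp E) (hS' : S' ∈ stp E)
    (hc : (lrg E S).card = 1) (hc' : (lrg E S').card = 1) (h : sml E S = sml E S') : S = S' := by
  obtain ⟨-, h2⟩ := (mem_stp E S).1 hS
  obtain ⟨-, h2'⟩ := (mem_stp E S').1 hS'
  obtain ⟨m, hm⟩ := Finset.card_eq_one.1 hc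
  obtain ⟨m', hm'⟩ := Finset.card_eq_one.1 hc'
  have e : ∀ U : Finset ℕ, U = lrg E U ∪ sml E U := fun U =>
    (Finset.filter_union_filter_not_eq (fun a => E < 4096 * a) U).symm
  have f : ∀ U : Finset ℕ, ∑ a ∈ U, a = ∑ a ∈ lrg E U, a + ∑ a ∈ sml E U, a := fun U =>
    (Finset.sum_filter_add_sum_filter_not U (fun a => E < 4096 * a) _).symm
  rw [f S, hm, Finset.sum_singleton] at h2
  rw [f S', hm', Finset.sum_singleton, ← h] at h2'
  have hmm : m = m' := by omega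
  rw [e S, e S', hm, hm', h, hmm]

theorem sumB_le (T : ℕ) : ∃ (s0 : ℕ) (C : ℝ), 0 ≤ C ∧ ∀ E : ℕ, 1 ≤ E →
    ∑ S ∈ (stp E).filter (fun S => (lrg E S).card = 1 ∧ ∀ a ∈ S, a + s0 < E), maj E S ≤
      C / (E : ℝ) ^ T := by
  classical
  set t : ℕ := T + 5 with ht
  refine ⟨6 * t, 288 * Real.exp (∑' a, ww t a), by positivity, ?_⟩
  intro E hE
  have hE1 : (1 : ℝ) ≤ E := by exact_mod_cast hE
  have hE0 : (0 : ℝ) < E := by linarith
  set F : Finset (Finset ℕ) :=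
    (stp E).filter (fun S => (lrg E S).card = 1 ∧ ∀ a ∈ S, a + 6 * t < E) with hF
  have hstep : ∀ S ∈ F, maj E S ≤ 288 / (E : ℝ) ^ T * ∏ a ∈ sml E S, ww t a := by
    intro S hS
    rw [hF, Finset.mem_filter] at hS
    obtain ⟨hS, hc, hsm⟩ := hS
    obtain ⟨hS1, hS2⟩ := (mem_stp E S).1 hS
    obtain ⟨m, hm⟩ := Finset.card_eq_one.1 hc
    have hmS : m ∈ S := by
      have : m ∈ lrg E S := by rw [hm]; exact Finset.mem_singleton_self m
      exact (Finset.mem_filter.1 this).1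
    have hsum : m + ∑ a ∈ sml E S, a = E := by
      have h := Finset.sum_filter_add_sum_filter_not S (fun a => E < 4096 * a) (fun a => a)
      have e1 : S.filter (fun a => E < 4096 * a) = {m} := hm
      rw [e1, Finset.sum_singleton, hS2] at h
      exact h
    have h6 : 6 * t ≤ ∑ a ∈ sml E S, a := by
      have := hsm m hmS
      omega
    have hsml : ∀ a ∈ sml E S, 1 ≤ a ∧ 4096 * a ≤ E := by
      intro a ha
      have h7 := Finset.mem_filter.1 ha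
      exact ⟨hS1 a h7.1, not_lt.1 h7.2⟩
    have h8 := prod_gg_le t E (by omega) hE (sml E S) hsml h6
    have h9 := maj_le E hE S hS hc
    refine h9.trans ?_
    have h10 : (∏ a ∈ sml E S, gg E a) ≤ (∏ a ∈ sml E S, ww t a) / (E : ℝ) ^ t := by
      rw [le_div_iff₀ (by positivity)]
      exact h8
    calc 288 * (E : ℝ) ^ 5 * ∏ a ∈ sml E S, gg E a
        ≤ 288 * (E : ℝ) ^ 5 * ((∏ a ∈ sml E S, ww t a) / (E : ℝ) ^ t) :=
          mul_le_mul_of_nonneg_left h10 (by positivity)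
      _ = 288 / (E : ℝ) ^ T * ∏ a ∈ sml E S, ww t a := by
          rw [ht, pow_add]
          field_simp
  have hsum2 : ∑ S ∈ F, ∏ a ∈ sml E S, ww t a ≤ Real.exp (∑' a, ww t a) := by
    have h1 : ∑ S ∈ F, ∏ a ∈ sml E S, ww t a = ∑ U ∈ F.image (sml E), ∏ a ∈ U, ww t a := by
      rw [Finset.sum_image]
      intro S hS S' hS' h
      rw [hF, Finset.mem_coe, Finset.mem_filter] at hS hS'
      exact sml_inj E S S' hS.1 hS'.1 hS.2.1 hS'.2.1 h
    have h2 : F.image (sml E) ⊆ (Finset.Icc 1 E).powerset := by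
      intro U hU
      obtain ⟨S, hS, rfl⟩ := Finset.mem_image.1 hU
      rw [hF, Finset.mem_filter] at hS
      have h3 : S ∈ (Finset.Icc 1 E).powerset := by
        have := hS.1
        unfold stp at this
        exact (Finset.mem_filter.1 this).1
      rw [Finset.mem_powerset] at h3 ⊢
      exact (Finset.filter_subset _ _).trans h3
    rw [h1]
    calc ∑ U ∈ F.image (sml E), ∏ a ∈ U, ww t a
        ≤ ∑ U ∈ (Finset.Icc 1 E).powerset, ∏ a ∈ U, ww t a :=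
          Finset.sum_le_sum_of_subset_of_nonneg h2
            (fun U _ _ => Finset.prod_nonneg fun a _ => ww_nonneg t a)
      _ = ∏ a ∈ Finset.Icc 1 E, (1 + ww t a) := by
          rw [Finset.prod_one_add]
      _ ≤ ∏ a ∈ Finset.Icc 1 E, Real.exp (ww t a) := by
          apply Finset.prod_le_prod
          · intro a _
            have := ww_nonneg t a
            linarith
          · intro a _
            rw [add_comm]
            exact Real.add_one_le_exp _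
      _ = Real.exp (∑ a ∈ Finset.Icc 1 E, ww t a) := (Real.exp_sum _ _).symm
      _ ≤ Real.exp (∑' a, ww t a) := by
          apply Real.exp_le_exp.2
          exact (ww_summable t).sum_le_tsum _ (fun a _ => ww_nonneg t a)
  calc ∑ S ∈ F, maj E S ≤ ∑ S ∈ F, (288 / (E : ℝ) ^ T * ∏ a ∈ sml E S, ww t a) :=
        Finset.sum_le_sum hstep
    _ = 288 / (E : ℝ) ^ T * ∑ S ∈ F, ∏ a ∈ sml E S, ww t a := by rw [Finset.mul_sum]
    _ ≤ 288 / (E : ℝ) ^ T * Real.exp (∑' a, ww t a) :=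
        mul_le_mul_of_nonneg_left hsum2 (by positivity)
    _ = 288 * Real.exp (∑' a, ww t a) / (E : ℝ) ^ T := by ring

end Pool.Agent.Helper34.MVU
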