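import Pool.Agent.Helper34.MVU.DL

/-!
Project MV, block U, module U-SC (SumC): the sum of the majorants over the sets with at least two
large elements.

PROOF. Let `S ∈ stp E`, `λ = card (lrg E S) ≥ 2`. Large elements are `> E/4096` and their sum is
`≤ E`, so `λ ≤ 4095`. Factors of `maj E S`:
 - `(4E)^(λ+λ²)`, at most `(4E)^(4095+4095²)` (`4E ≥ 1`);
 - large `a`: `18 a^3 (a/E)^(a/3) ≤ 18 E^3`, and for ONE of them, the smaller of two large elements
   `a1 < a2`, i.e. some large `a` with `E/4096 < a ≤ E/2` (`a1 + a2 ≤ E`, `2 a1 ≤ E`):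
   `(a/E)^(a/3) ≤ (1/2)^(a/3) ≤ (1/2)^(E/12288)`. So the product over the large elements is at most
   `(18 E^3)^4095 (1/2)^(E/12288)`;
 - small `a`: `18 a^3 (a/E)^(a/3) * 3 * 6^λ * 4^a ≤ 54 * 6^4095 a^3 4^(-a)` as `(a/E)^(a/3) ≤ 16^(-a)`.
   Call it `w a`.
The number of possible sets `lrg E S` is at most `(E+1)^4095` (subsets of `Icc 1 E` with at most 4095
elements; e.g. `Σ_{j ≤ n} (E choose j) ≤ (E+1)^n`), and `S` is determined by `lrg E S` and `sml E S`.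
So the sum is at most `(E+1)^4095 (4E)^(4095+4095²) (18E^3)^4095 (1/2)^(E/12288) exp (Σ_a w a)`, which
is `≤ C/E^T` for all `E ≥ 1` because polynomial times `q^E` with `q = (1/2)^(1/12288) < 1` is bounded.
(Keep the exponents `4095` etc. as variables `D : ℕ` so that Lean does not try to evaluate them.)
-/

namespace Pool.Agent.Helper34.MVU

open Finset Pool.Agent.Helper60.MV

private theorem bdd_pow (N : ℕ) (q : ℝ) (hq0 : 0 ≤ q) (hq : q < 1) :
    ∃ K : ℝ, 0 ≤ K ∧ ∀ E : ℕ, (E : ℝ) ^ N * q ^ E ≤ K := by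
  have h1 := tendsto_pow_const_mul_const_pow_of_abs_lt_one N
    (show |q| < 1 by rw [abs_of_nonneg hq0]; exact hq)
  obtain ⟨K, hK⟩ := h1.bddAbove_range
  refine ⟨max K 0, le_max_right _ _, fun E => le_trans ?_ (le_max_left _ _)⟩
  exact hK ⟨E, rfl⟩

private theorem small_le (E a lam D : ℕ) (hE : 1 ≤ E) (ha : ¬ (E < 4096 * a)) (hl : lam ≤ D) :
    (18 * (a : ℝ) ^ 3 * ((a : ℝ) / (E : ℝ)) ^ ((a : ℝ) / 3)) * (3 * 6 ^ lam * 4 ^ a) ≤
      54 * 6 ^ D * ((a : ℝ) ^ 3 * (1 / 4) ^ a) := by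
  have hE' : (0 : ℝ) < E := by exact_mod_cast hE
  have h1 : (a : ℝ) / (E : ℝ) ≤ 1 / 4096 := by
    rw [div_le_div_iff₀ hE' (by norm_num)]
    have : 4096 * a ≤ E := by omega
    have : ((4096 * a : ℕ) : ℝ) ≤ (E : ℝ) := by exact_mod_cast this
    push_cast at this
    linarith
  have h2 : ((a : ℝ) / (E : ℝ)) ^ ((a : ℝ) / 3) ≤ (1 / 16 : ℝ) ^ a := by
    calc ((a : ℝ) / (E : ℝ)) ^ ((a : ℝ) / 3) ≤ (1 / 4096 : ℝ) ^ ((a : ℝ) / 3) :=
          Real.rpow_le_rpow (by positivity) h1 (by positivity)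
      _ = (1 / 16 : ℝ) ^ a := by
          rw [show (1 / 4096 : ℝ) = (1 / 16 : ℝ) ^ (3 : ℝ) by norm_num, ← Real.rpow_mul (by norm_num),
            show (3 : ℝ) * ((a : ℝ) / 3) = (a : ℝ) by ring, Real.rpow_natCast]
  have h3 : (6 : ℝ) ^ lam ≤ 6 ^ D := pow_le_pow_right₀ (by norm_num) hl
  calc (18 * (a : ℝ) ^ 3 * ((a : ℝ) / (E : ℝ)) ^ ((a : ℝ) / 3)) * (3 * 6 ^ lam * 4 ^ a)
      ≤ (18 * (a : ℝ) ^ 3 * (1 / 16 : ℝ) ^ a) * (3 * 6 ^ D * 4 ^ a) := by
        gcongr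
    _ = 54 * 6 ^ D * ((a : ℝ) ^ 3 * ((1 / 16) ^ a * 4 ^ a)) := by ring
    _ = 54 * 6 ^ D * ((a : ℝ) ^ 3 * (1 / 4) ^ a) := by
        rw [← mul_pow]; norm_num

private theorem large_le (E a : ℕ) (hE : 1 ≤ E) (ha : a ≤ E) :
    (18 * (a : ℝ) ^ 3 * ((a : ℝ) / (E : ℝ)) ^ ((a : ℝ) / 3)) ≤ 18 * (E : ℝ) ^ 3 := by
  have hE' : (0 : ℝ) < E := by exact_mod_cast hE
  have ha' : (a : ℝ) ≤ E := by exact_mod_cast ha
  have h1 : ((a : ℝ) / (E : ℝ)) ^ ((a : ℝ) / 3) ≤ 1 :=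
    Real.rpow_le_one (by positivity) ((div_le_one hE').2 ha') (by positivity)
  calc (18 * (a : ℝ) ^ 3 * ((a : ℝ) / (E : ℝ)) ^ ((a : ℝ) / 3)) ≤ 18 * (a : ℝ) ^ 3 * 1 := by gcongr
    _ ≤ 18 * (E : ℝ) ^ 3 := by rw [mul_one]; gcongr

private theorem main_C (T D : ℕ) (q : ℝ) (hq0 : 0 < q) (hq : q < 1)
    (hD : ∀ E : ℕ, 1 ≤ E → ∀ S ∈ stp E, (lrg E S).card ≤ D)
    (hqE : ∀ E a : ℕ, 1 ≤ E → E < 4096 * a → 2 * a ≤ E →
      ((a : ℝ) / (E : ℝ)) ^ ((a : ℝ) / 3) ≤ q ^ E) :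
    ∃ C : ℝ, 0 ≤ C ∧ ∀ E : ℕ, 1 ≤ E →
    ∑ S ∈ (stp E).filter (fun S => 2 ≤ (lrg E S).card), maj E S ≤ C / (E : ℝ) ^ T := by
  classical
  obtain ⟨w, hw⟩ : ∃ w : ℕ → ℝ, w = fun a : ℕ => 54 * 6 ^ D * ((a : ℝ) ^ 3 * (1 / 4) ^ a) :=
    ⟨_, rfl⟩
  have hws : Summable w := by
    rw [hw]
    exact (summable_pow_mul_geometric_of_norm_lt_one 3
      (r := (1 / 4 : ℝ)) (by norm_num)).mul_left _
  have hw0 : ∀ a, 0 ≤ w a := fun a => by rw [hw]; positivity
  obtain ⟨K, hK0, hK⟩ := bdd_pow (T + (D + D ^ 2) + 3 * D + D) q hq0.le hq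
  refine ⟨4 ^ (D + D ^ 2) * 18 ^ D * K * Real.exp (1 + ∑' a, w a), by positivity, fun E hE => ?_⟩
  have hE' : (0 : ℝ) < E := by exact_mod_cast hE
  have hE1 : (1 : ℝ) ≤ E := by exact_mod_cast hE
  obtain ⟨v, hv⟩ : ∃ v : ℕ → ℝ, v = fun a : ℕ => 1 / (E : ℝ) + w a := ⟨_, rfl⟩
  have hv0 : ∀ a, 0 ≤ v a := fun a => by
    rw [hv]
    have := hw0 a
    positivity
  obtain ⟨X, hX⟩ : ∃ X : ℝ, X = (4 * (E : ℝ)) ^ (D + D ^ 2) * ((18 * (E : ℝ) ^ 3) ^ D * q ^ E) *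
    (E : ℝ) ^ D := ⟨_, rfl⟩
  have hX0 : 0 ≤ X := by rw [hX]; positivity
  have key : ∀ S ∈ (stp E).filter (fun S => 2 ≤ (lrg E S).card), maj E S ≤ X * ∏ a ∈ S, v a := by
    intro S hS
    rw [Finset.mem_filter] at hS
    obtain ⟨hS, h2⟩ := hS
    have hlD := hD E hE S hS
    obtain ⟨hpos, hsum⟩ := (mem_stp E S).1 hS
    obtain ⟨f, hf⟩ : ∃ f : ℕ → ℝ, f = fun a : ℕ =>
      (18 * (a : ℝ) ^ 3 * ((a : ℝ) / (E : ℝ)) ^ ((a : ℝ) / 3)) := ⟨_, rfl⟩
    have hf0 : ∀ a, 0 ≤ f a := fun a => by rw [hf]; positivity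
    have hle : ∀ a ∈ S, a ≤ E := fun a ha => by
      rw [← hsum]
      exact Finset.single_le_sum (f := fun a => a) (fun _ _ => Nat.zero_le _) ha
    have hsplit : ∀ g : ℕ → ℝ, ∏ a ∈ S, g a = (∏ a ∈ lrg E S, g a) * ∏ a ∈ sml E S, g a := by
      intro g
      unfold lrg sml
      rw [Finset.prod_filter_mul_prod_filter_not]
    -- a large element at most E / 2
    obtain ⟨a1, a2, h1, h2', hlt⟩ : ∃ a1 a2, a1 ∈ lrg E S ∧ a2 ∈ lrg E S ∧ a1 < a2 := by
      obtain ⟨a, ha, b, hb, hab⟩ := Finset.one_lt_card.1 (show 1 < (lrg E S).card by omega)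
      rcases lt_or_gt_of_ne hab with h | h
      · exact ⟨a, b, ha, hb, h⟩
      · exact ⟨b, a, hb, ha, h⟩
    have hm1 := Finset.mem_filter.1 h1
    have hm2 := Finset.mem_filter.1 h2'
    have hsum2 : a1 + a2 ≤ E := by
      rw [← hsum]
      have hss : ({a1, a2} : Finset ℕ) ⊆ S := by
        intro x hx
        rw [Finset.mem_insert, Finset.mem_singleton] at hx
        rcases hx with rfl | rfl
        · exact hm1.1
        · exact hm2.1
      have := Finset.sum_le_sum_of_subset (f := fun a : ℕ => a) hss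
      rw [Finset.sum_pair hlt.ne] at this
      exact this
    have hA : ∏ a ∈ lrg E S, f a ≤ (18 * (E : ℝ) ^ 3) ^ D * q ^ E := by
      have h18 : (1 : ℝ) ≤ 18 * (E : ℝ) ^ 3 := by
        have : (1 : ℝ) ≤ (E : ℝ) ^ 3 := one_le_pow₀ hE1
        linarith
      rw [← Finset.mul_prod_erase _ _ h1]
      have e1 : f a1 ≤ 18 * (E : ℝ) ^ 3 * q ^ E := by
        have hq1 := hqE E a1 hE hm1.2 (by omega)
        have ha' : (a1 : ℝ) ≤ E := by exact_mod_cast hle a1 hm1.1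
        rw [hf]
        show 18 * (a1 : ℝ) ^ 3 * ((a1 : ℝ) / (E : ℝ)) ^ ((a1 : ℝ) / 3) ≤ _
        gcongr
      have e2 : ∏ a ∈ (lrg E S).erase a1, f a ≤ (18 * (E : ℝ) ^ 3) ^ ((lrg E S).card - 1) := by
        rw [← Finset.card_erase_of_mem h1, ← Finset.prod_const]
        refine Finset.prod_le_prod (fun a _ => hf0 a) fun a ha => ?_
        have hm := Finset.mem_filter.1 (Finset.mem_of_mem_erase ha)
        rw [hf]
        exact large_le E a hE (hle a hm.1)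
      calc f a1 * ∏ a ∈ (lrg E S).erase a1, f a
          ≤ (18 * (E : ℝ) ^ 3 * q ^ E) * (18 * (E : ℝ) ^ 3) ^ ((lrg E S).card - 1) := by
            apply mul_le_mul e1 e2 (Finset.prod_nonneg fun a _ => hf0 a) (by positivity)
        _ = (18 * (E : ℝ) ^ 3) ^ ((lrg E S).card - 1 + 1) * q ^ E := by ring
        _ ≤ (18 * (E : ℝ) ^ 3) ^ D * q ^ E := by
            apply mul_le_mul_of_nonneg_right _ (by positivity)
            exact pow_le_pow_right₀ h18 (by omega)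
    have hB : ∏ a ∈ sml E S, (f a * (3 * 6 ^ (lrg E S).card * 4 ^ a)) ≤ ∏ a ∈ sml E S, w a := by
      refine Finset.prod_le_prod (fun a _ => mul_nonneg (hf0 a) (by positivity)) fun a ha => ?_
      have hm := Finset.mem_filter.1 ha
      rw [hf, hw]
      exact small_le E a _ D hE hm.2 hlD
    have h4 : (4 * (E : ℝ)) ^ ((lrg E S).card + (lrg E S).card ^ 2) ≤
        (4 * (E : ℝ)) ^ (D + D ^ 2) := by
      apply pow_le_pow_right₀ (by linarith)
      have : (lrg E S).card ^ 2 ≤ D ^ 2 := Nat.pow_le_pow_left hlD 2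
      omega
    have h5 : (1 : ℝ) ≤ (E : ℝ) ^ D * ∏ a ∈ lrg E S, (1 / (E : ℝ)) := by
      rw [Finset.prod_const, one_div, inv_pow, ← div_eq_mul_inv, one_le_div (by positivity)]
      exact pow_le_pow_right₀ hE1 hlD
    have hmaj : maj E S = (4 * (E : ℝ)) ^ ((lrg E S).card + (lrg E S).card ^ 2) *
        ((∏ a ∈ lrg E S, f a) * ∏ a ∈ sml E S, (f a * (3 * 6 ^ (lrg E S).card * 4 ^ a))) := by
      have : maj E S = (4 * (E : ℝ)) ^ ((lrg E S).card + (lrg E S).card ^ 2) *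
        (∏ a ∈ S, f a) * ∏ a ∈ sml E S, (3 * 6 ^ (lrg E S).card * 4 ^ a) := by
        rw [hf]; rfl
      have h7 : ∏ a ∈ sml E S, (f a * (3 * 6 ^ (lrg E S).card * 4 ^ a)) =
        (∏ a ∈ sml E S, f a) * ∏ a ∈ sml E S, (3 * 6 ^ (lrg E S).card * 4 ^ a) :=
        Finset.prod_mul_distrib
      rw [this, hsplit f, h7]
      ring
    have hpA : 0 ≤ ∏ a ∈ lrg E S, f a := Finset.prod_nonneg fun a _ => hf0 a
    have hpB : 0 ≤ ∏ a ∈ sml E S, (f a * (3 * 6 ^ (lrg E S).card * 4 ^ a)) :=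
      Finset.prod_nonneg fun a _ => mul_nonneg (hf0 a) (by positivity)
    have hpw : 0 ≤ ∏ a ∈ sml E S, w a := Finset.prod_nonneg fun a _ => hw0 a
    calc maj E S ≤ (4 * (E : ℝ)) ^ (D + D ^ 2) * (((18 * (E : ℝ) ^ 3) ^ D * q ^ E) *
          ∏ a ∈ sml E S, w a) := by
          rw [hmaj]
          apply mul_le_mul h4 _ (mul_nonneg hpA hpB) (by positivity)
          exact mul_le_mul hA hB hpB (by positivity)
      _ ≤ (4 * (E : ℝ)) ^ (D + D ^ 2) * (((18 * (E : ℝ) ^ 3) ^ D * q ^ E) *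
          ∏ a ∈ sml E S, w a) * ((E : ℝ) ^ D * ∏ a ∈ lrg E S, (1 / (E : ℝ))) :=
          le_mul_of_one_le_right (by positivity) h5
      _ = X * ((∏ a ∈ lrg E S, (1 / (E : ℝ))) * ∏ a ∈ sml E S, w a) := by rw [hX]; ring
      _ ≤ X * ∏ a ∈ S, v a := by
          apply mul_le_mul_of_nonneg_left _ hX0
          rw [hsplit v]
          apply mul_le_mul _ _ hpw (Finset.prod_nonneg fun a _ => hv0 a)
          · refine Finset.prod_le_prod (fun a _ => by positivity) fun a _ => ?_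
            rw [hv]
            have := hw0 a
            simp only
            linarith
          · refine Finset.prod_le_prod (fun a _ => hw0 a) fun a _ => ?_
            rw [hv]
            have : (0 : ℝ) ≤ 1 / (E : ℝ) := by positivity
            simp only
            linarith
  have hsub : (stp E).filter (fun S => 2 ≤ (lrg E S).card) ⊆ (Finset.Icc 1 E).powerset :=
    (Finset.filter_subset _ _).trans (Finset.filter_subset _ _)
  have hexp : ∏ a ∈ Finset.Icc 1 E, (1 + v a) ≤ Real.exp (1 + ∑' a, w a) := by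
    calc ∏ a ∈ Finset.Icc 1 E, (1 + v a) ≤ ∏ a ∈ Finset.Icc 1 E, Real.exp (v a) := by
          refine Finset.prod_le_prod (fun a _ => by have := hv0 a; linarith) fun a _ => ?_
          rw [add_comm]
          exact Real.add_one_le_exp _
      _ = Real.exp (∑ a ∈ Finset.Icc 1 E, v a) := by rw [Real.exp_sum]
      _ ≤ Real.exp (1 + ∑' a, w a) := by
          apply Real.exp_le_exp.2
          rw [hv, Finset.sum_add_distrib, Finset.sum_const, Nat.card_Icc, Nat.add_sub_cancel,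
            nsmul_eq_mul, mul_one_div, div_self hE'.ne']
          have := hws.sum_le_tsum (Finset.Icc 1 E) (fun a _ => hw0 a)
          linarith
  calc ∑ S ∈ (stp E).filter (fun S => 2 ≤ (lrg E S).card), maj E S
      ≤ ∑ S ∈ (stp E).filter (fun S => 2 ≤ (lrg E S).card), X * ∏ a ∈ S, v a :=
        Finset.sum_le_sum key
    _ ≤ ∑ S ∈ (Finset.Icc 1 E).powerset, X * ∏ a ∈ S, v a :=
        Finset.sum_le_sum_of_subset_of_nonneg hsub
          (fun S _ _ => mul_nonneg hX0 (Finset.prod_nonneg fun a _ => hv0 a))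
    _ = X * ∏ a ∈ Finset.Icc 1 E, (1 + v a) := by
        rw [← Finset.mul_sum, Finset.prod_one_add]
    _ ≤ X * Real.exp (1 + ∑' a, w a) := mul_le_mul_of_nonneg_left hexp hX0
    _ ≤ 4 ^ (D + D ^ 2) * 18 ^ D * K * Real.exp (1 + ∑' a, w a) / (E : ℝ) ^ T := by
        rw [le_div_iff₀ (by positivity)]
        have hXK : X * (E : ℝ) ^ T ≤ 4 ^ (D + D ^ 2) * 18 ^ D * K := by
          have h6 : X * (E : ℝ) ^ T = 4 ^ (D + D ^ 2) * 18 ^ D *
              ((E : ℝ) ^ (T + (D + D ^ 2) + 3 * D + D) * q ^ E) := by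
            rw [hX, mul_pow, mul_pow, pow_add (E : ℝ) (T + (D + D ^ 2) + 3 * D) D,
              pow_add (E : ℝ) (T + (D + D ^ 2)) (3 * D), pow_add (E : ℝ) T (D + D ^ 2),
              pow_mul (E : ℝ) 3 D]
            ring
          rw [h6]
          exact mul_le_mul_of_nonneg_left (hK E) (by positivity)
        calc X * Real.exp (1 + ∑' a, w a) * (E : ℝ) ^ T
            = (X * (E : ℝ) ^ T) * Real.exp (1 + ∑' a, w a) := by ring
          _ ≤ _ := mul_le_mul_of_nonneg_right hXK (Real.exp_pos _).le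

theorem sumC_le (T : ℕ) : ∃ C : ℝ, 0 ≤ C ∧ ∀ E : ℕ, 1 ≤ E →
    ∑ S ∈ (stp E).filter (fun S => 2 ≤ (lrg E S).card), maj E S ≤ C / (E : ℝ) ^ T := by
  obtain ⟨D, hDeq⟩ : ∃ D : ℕ, D = 4095 := ⟨_, rfl⟩
  refine main_C T D ((1 / 2 : ℝ) ^ (1 / 12288 : ℝ)) (by positivity) ?_ ?_ ?_
  · exact Real.rpow_lt_one (by norm_num) (by norm_num) (by norm_num)
  · intro E hE S hS
    obtain ⟨hpos, hsum⟩ := (mem_stp E S).1 hS
    have h1 : ∑ a ∈ lrg E S, a ≤ E := by
      rw [← hsum]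
      exact Finset.sum_le_sum_of_subset (Finset.filter_subset _ _)
    have h2 : (lrg E S).card * (E + 1) ≤ ∑ a ∈ lrg E S, 4096 * a := by
      rw [← smul_eq_mul, ← Finset.sum_const]
      refine Finset.sum_le_sum fun a ha => ?_
      have := (Finset.mem_filter.1 ha).2
      omega
    rw [← Finset.mul_sum] at h2
    have h3 : (lrg E S).card * (E + 1) ≤ 4096 * E := h2.trans (Nat.mul_le_mul_left _ h1)
    by_contra hcon
    have h4 : 4096 ≤ (lrg E S).card := by omega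
    have h5 : 4096 * (E + 1) ≤ (lrg E S).card * (E + 1) := Nat.mul_le_mul_right _ h4
    omega
  · intro E a hE ha h2a
    have hE' : (0 : ℝ) < E := by exact_mod_cast hE
    have h1 : (a : ℝ) / (E : ℝ) ≤ 1 / 2 := by
      rw [div_le_div_iff₀ hE' (by norm_num)]
      have : ((2 * a : ℕ) : ℝ) ≤ (E : ℝ) := by exact_mod_cast h2a
      push_cast at this
      linarith
    have h2 : (E : ℝ) / 12288 ≤ (a : ℝ) / 3 := by
      have : ((E : ℕ) : ℝ) ≤ ((4096 * a : ℕ) : ℝ) := by exact_mod_cast ha.le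
      push_cast at this
      linarith
    calc ((a : ℝ) / (E : ℝ)) ^ ((a : ℝ) / 3) ≤ (1 / 2 : ℝ) ^ ((a : ℝ) / 3) :=
          Real.rpow_le_rpow (by positivity) h1 (by positivity)
      _ ≤ (1 / 2 : ℝ) ^ ((E : ℝ) / 12288) :=
          Real.rpow_le_rpow_of_exponent_ge (by norm_num) (by norm_num) h2
      _ = ((1 / 2 : ℝ) ^ (1 / 12288 : ℝ)) ^ E := by
          rw [← Real.rpow_natCast, ← Real.rpow_mul (by norm_num)]
          congr 1
          ring

end Pool.Agent.Helper34.MVU
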