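import Pool.Agent.Helper34.MVU.Defs

/-!
Project MV, block U, U-W1: the Wick functional is linear and monotone for the coefficientwise
order.
-/

namespace Pool.Agent.Helper34.MVU

open Finset MvPolynomial Pool.Agent.Helper60.MV

/-- value on monomials -/
noncomputable def wv (m : ℕ →₀ ℕ) : ℝ := hfL Cov m.toMultiset.toList

theorem Wick_eq_sum (f : MvPolynomial ℕ ℝ) (T : Finset (ℕ →₀ ℕ)) (hT : f.support ⊆ T) :
    Wick f = ∑ m ∈ T, f.coeff m * wv m := by
  unfold Wick wv
  apply Finset.sum_subset hT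
  intro m _ hm
  rw [MvPolynomial.notMem_support_iff.mp hm, zero_mul]

theorem Wick_zero : Wick 0 = 0 := by
  simp [Wick]

theorem Wick_add (f g : MvPolynomial ℕ ℝ) : Wick (f + g) = Wick f + Wick g := by
  classical
  rw [Wick_eq_sum (f + g) (f.support ∪ g.support) MvPolynomial.support_add,
    Wick_eq_sum f (f.support ∪ g.support) Finset.subset_union_left,
    Wick_eq_sum g (f.support ∪ g.support) Finset.subset_union_right, ← Finset.sum_add_distrib]
  apply Finset.sum_congr rfl
  intro m _
  rw [MvPolynomial.coeff_add]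
  ring

theorem Wick_C_mul (c : ℝ) (f : MvPolynomial ℕ ℝ) : Wick (C c * f) = c * Wick f := by
  classical
  have hs : (C c * f).support ⊆ f.support := by
    intro m hm
    rw [MvPolynomial.mem_support_iff] at hm ⊢
    rw [MvPolynomial.coeff_C_mul] at hm
    exact right_ne_zero_of_mul hm
  rw [Wick_eq_sum (C c * f) f.support hs, Wick_eq_sum f f.support (Finset.Subset.refl _),
    Finset.mul_sum]
  apply Finset.sum_congr rfl
  intro m _
  rw [MvPolynomial.coeff_C_mul]
  ring

theorem Wick_sum {ι : Type*} (s : Finset ι) (f : ι → MvPolynomial ℕ ℝ) :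
    Wick (∑ i ∈ s, f i) = ∑ i ∈ s, Wick (f i) := by
  classical
  induction s using Finset.induction_on with
  | empty => simp [Wick_zero]
  | insert a s ha ih => rw [Finset.sum_insert ha, Finset.sum_insert ha, Wick_add, ih]

theorem Wick_monomial (m : ℕ →₀ ℕ) (c : ℝ) : Wick (monomial m c) = c * wv m := by
  classical
  have hs : (monomial m c : MvPolynomial ℕ ℝ).support ⊆ {m} := MvPolynomial.support_monomial_subset
  rw [Wick_eq_sum _ {m} hs, Finset.sum_singleton, MvPolynomial.coeff_monomial, if_pos rfl]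

theorem wv_zero : wv 0 = 1 := by
  simp [wv, hfL]

theorem Wick_one : Wick 1 = 1 := by
  have h : (1 : MvPolynomial ℕ ℝ) = monomial 0 1 := by
    rw [← MvPolynomial.C_apply]; simp
  rw [h, Wick_monomial, wv_zero]
  ring

theorem Wick_C (c : ℝ) : Wick (C c) = c := by
  rw [MvPolynomial.C_apply, Wick_monomial, wv_zero, mul_one]

theorem Wick_neg (f : MvPolynomial ℕ ℝ) : Wick (-f) = - Wick f := by
  have h : -f = C (-1) * f := by simp
  rw [h, Wick_C_mul]
  ring

theorem Wick_sub (f g : MvPolynomial ℕ ℝ) : Wick (f - g) = Wick f - Wick g := by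
  rw [sub_eq_add_neg, Wick_add, Wick_neg]
  ring

theorem zet_nonneg (M : ℕ) : 0 ≤ zet M := by
  unfold zet
  exact tsum_nonneg (fun n => by positivity)

theorem Cov_nonneg (k l : ℕ) : 0 ≤ Cov k l := by
  unfold Cov
  have := zet_nonneg (2 * k + 2 * l + 2)
  positivity

theorem hfL_nonneg {α : Type} (A : α → α → ℝ) (hA : ∀ a b, 0 ≤ A a b) :
    ∀ (n : ℕ) (L : List α), L.length = n → 0 ≤ hfL A L := by
  intro n
  induction n using Nat.strong_induction_on with
  | _ n ih =>
    intro L hL
    cases L with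
    | nil => simp [hfL]
    | cons x xs =>
      rw [hfL]
      apply Finset.sum_nonneg
      intro j _
      apply mul_nonneg (hA _ _)
      apply ih (xs.eraseIdx j).length _ _ rfl
      rw [List.length_eraseIdx]
      simp only [List.length_cons] at hL
      split <;> omega

theorem wv_nonneg (m : ℕ →₀ ℕ) : 0 ≤ wv m :=
  hfL_nonneg Cov Cov_nonneg _ _ rfl

theorem Wick_nonneg (f : MvPolynomial ℕ ℝ) (hf : ∀ m, 0 ≤ f.coeff m) : 0 ≤ Wick f := by
  rw [Wick_eq_sum f f.support (Finset.Subset.refl _)]
  exact Finset.sum_nonneg (fun m _ => mul_nonneg (hf m) (wv_nonneg m))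

theorem Wick_mono (f g : MvPolynomial ℕ ℝ) (h : ∀ m, f.coeff m ≤ g.coeff m) :
    Wick f ≤ Wick g := by
  have h1 : 0 ≤ Wick (g - f) := by
    apply Wick_nonneg
    intro m
    rw [MvPolynomial.coeff_sub]
    linarith [h m]
  rw [Wick_sub] at h1
  linarith

theorem abs_Wick_le (f g : MvPolynomial ℕ ℝ) (h : ∀ m, |f.coeff m| ≤ g.coeff m) :
    |Wick f| ≤ Wick g := by
  rw [abs_le]
  constructor
  · have h1 : Wick (-f) ≤ Wick g := by
      apply Wick_mono
      intro m
      rw [MvPolynomial.coeff_neg]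
      exact le_trans (neg_le_abs _) (h m)
    rw [Wick_neg] at h1
    linarith
  · exact Wick_mono f g (fun m => le_trans (le_abs_self _) (h m))

end Pool.Agent.Helper34.MVU
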