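import Pool.Agent.Helper34.MVU.QP
import Pool.Agent.Helper34.MVU.WickLin

/-!
Project MV, block U, module U-H1p (PfQQ): the Pfaffian of the polynomials `QQ` is coefficientwise
dominated by the hafnian of the polynomials `QQp`.

PROOF. For polynomials with `∀ m, |coeff m f| ≤ coeff m f'` and `∀ m, |coeff m g| ≤ coeff m g'` one
has `∀ m, |coeff m (f * g)| ≤ coeff m (f' * g')` (`MvPolynomial.coeff_mul`, sum over the
antidiagonal), the same for sums and for `f ↦ ± f`. `qP n` has nonnegative coefficients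
(`coeff_qP_nonneg`), so `|coeff m (QQ a b)| ≤ coeff m (QQp a b)` (the constant polynomial `2` is
`C 2`; `(-1)^(j+1)` is `±1`). Induction on the length of the list for `pfL`/`hfL`.
`abs_Wick_pfL_le`: `abs_Wick_le`.
-/

namespace Pool.Agent.Helper34.MVU

open Finset MvPolynomial Pool.Agent.Helper60.MV

private def Dom (f g : MvPolynomial ℕ ℝ) : Prop := ∀ m, |f.coeff m| ≤ g.coeff m

private theorem Dom.nonneg {f g : MvPolynomial ℕ ℝ} (h : Dom f g) (m : ℕ →₀ ℕ) :
    0 ≤ g.coeff m := (abs_nonneg _).trans (h m)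

private theorem Dom.mul {f g f' g' : MvPolynomial ℕ ℝ} (h : Dom f g) (h' : Dom f' g') :
    Dom (f * f') (g * g') := by
  classical
  intro m
  rw [coeff_mul, coeff_mul]
  refine (Finset.abs_sum_le_sum_abs _ _).trans (Finset.sum_le_sum fun x _ => ?_)
  rw [abs_mul]
  exact mul_le_mul (h _) (h' _) (abs_nonneg _) (h.nonneg _)

private theorem Dom.add {f g f' g' : MvPolynomial ℕ ℝ} (h : Dom f g) (h' : Dom f' g') :
    Dom (f + f') (g + g') := by
  intro m
  rw [coeff_add, coeff_add]
  exact (abs_add_le _ _).trans (add_le_add (h m) (h' m))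

private theorem Dom.sum {ι : Type} (s : Finset ι) {f g : ι → MvPolynomial ℕ ℝ}
    (h : ∀ i ∈ s, Dom (f i) (g i)) : Dom (∑ i ∈ s, f i) (∑ i ∈ s, g i) := by
  intro m
  rw [coeff_sum, coeff_sum]
  exact (Finset.abs_sum_le_sum_abs _ _).trans (Finset.sum_le_sum fun i hi => h i hi m)

private theorem Dom.sign {f g : MvPolynomial ℕ ℝ} (h : Dom f g) (n : ℕ) :
    Dom ((-1) ^ n * f) g := by
  intro m
  rcases neg_one_pow_eq_or (MvPolynomial ℕ ℝ) n with hn | hn
  · rw [hn, one_mul]; exact h m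
  · rw [hn, neg_one_mul, coeff_neg, abs_neg]; exact h m

private theorem Dom.self {f : MvPolynomial ℕ ℝ} (h : ∀ m, 0 ≤ f.coeff m) : Dom f f := by
  intro m
  rw [abs_of_nonneg (h m)]

private theorem dom_qP (n : ℕ) : Dom (qP n) (qP n) := Dom.self (coeff_qP_nonneg n)

private theorem dom_two : Dom (2 : MvPolynomial ℕ ℝ) 2 := by
  refine Dom.self fun m => ?_
  have h : (2 : MvPolynomial ℕ ℝ) = C 2 := (map_ofNat C 2).symm
  rw [h, coeff_C]
  split <;> norm_num

private theorem dom_one : Dom (1 : MvPolynomial ℕ ℝ) 1 := by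
  classical
  refine Dom.self fun m => ?_
  rw [coeff_one]
  split <;> norm_num

private theorem dom_QQ (a b : ℕ) : Dom (QQ a b) (QQp a b) := by
  unfold QQ QQp
  refine ((dom_qP a).mul (dom_qP b)).add (dom_two.mul (Dom.sum _ fun j _ => ?_))
  exact ((dom_qP _).mul (dom_qP _)).sign _

private theorem dom_pfL (n : ℕ) : ∀ L : List ℕ, L.length = n → Dom (pfL QQ L) (hfL QQp L) := by
  induction n using Nat.strong_induction_on with
  | _ n ih =>
    intro L hL
    cases L with
    | nil => rw [pfL, hfL]; exact dom_one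
    | cons x xs =>
      rw [pfL, hfL]
      refine Dom.sum _ fun j _ => ?_
      rw [mul_assoc]
      refine Dom.sign ((dom_QQ _ _).mul (ih (xs.eraseIdx j).length ?_ _ rfl)) _
      rw [List.length_eraseIdx]
      simp only [List.length_cons] at hL
      split <;> omega

theorem abs_coeff_pfL_QQ_le (L : List ℕ) (m : ℕ →₀ ℕ) :
    |(pfL QQ L).coeff m| ≤ (hfL QQp L).coeff m :=
  dom_pfL _ L rfl m

theorem abs_Wick_pfL_le (L : List ℕ) : |Wick (pfL QQ L)| ≤ Wick (hfL QQp L) :=
  abs_Wick_le _ _ (abs_coeff_pfL_QQ_le L)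

end Pool.Agent.Helper34.MVU
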