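import Pool.Agent.Helper34.MVU.DL

/-!
Project MV, block U, module U-T1b (Rprod): the product of the inverse radii, and properties of the
radii `rr E a`.

PROOFS. `rr E 0 = 0`, `rr E a = 1/2 (1 - 1/(2E))` for large `a` (`E < 4096 a`), `1/4` for small `a ≥ 1`.
* `rr_prop`: `1 - 1/(2E) ∈ [1/2, 1)`, so `rr E a ∈ [1/4, 1/2)` for `a ≥ 1`.
* `rr_mono`: if `b ≤ a`, `b ≠ 0`: large `b` implies large `a`; `1/4 ≤ 1/2 (1 - 1/(2E))`.
* `rprod_le`: by `prod_dl` (the factor of `0` is `(2*0+1) * (0^0)⁻¹ = 1`) the left side is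
  `Π_{a ∈ S} (2a+1) * Π_{a ∈ S} (rr E a ^ a)⁻¹`. For small `a`: `(1/4^a)⁻¹ = 4^a = 2^a 2^a`; for large
  `a`: `2^a ((1-1/(2E))^a)⁻¹`. So the second product is
  `2^(Σ a) Π_{sml} 2^a * ((1-1/(2E))^(Σ_{lrg} a))⁻¹`, `Σ_S a = E` and
  `(1-1/(2E))^(Σ_{lrg} a) ≥ (1-1/(2E))^E ≥ 1 - E/(2E) = 1/2` (Bernoulli, `one_add_mul_le_pow`).
-/

namespace Pool.Agent.Helper34.MVU

open Finset Pool.Agent.Helper60.MV

private theorem rr_large {E : ℕ} {a : ℕ} (ha : a ≠ 0) (h : E < 4096 * a) :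
    rr E a = 1 / 2 * (1 - 1 / (2 * (E : ℝ))) := by
  unfold rr; rw [if_neg ha, if_pos h]

private theorem rr_small {E : ℕ} {a : ℕ} (ha : a ≠ 0) (h : ¬ E < 4096 * a) :
    rr E a = 1 / 4 := by
  unfold rr; rw [if_neg ha, if_neg h]

private theorem E_bd {E : ℕ} (hE : 1 ≤ E) : (0:ℝ) < 1 / (2 * (E : ℝ)) ∧ 1 / (2 * (E : ℝ)) ≤ 1 / 2 := by
  have h1 : (1:ℝ) ≤ E := by exact_mod_cast hE
  constructor
  · positivity
  · rw [div_le_div_iff₀ (by positivity) (by norm_num)]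
    linarith

theorem rr_prop (E : ℕ) (hE : 1 ≤ E) (a : ℕ) :
    0 ≤ rr E a ∧ rr E a < 1 / 2 ∧ (a ≠ 0 → 0 < rr E a) := by
  obtain ⟨h1, h2⟩ := E_bd hE
  by_cases ha : a = 0
  · subst ha
    unfold rr
    simp
  · by_cases h : E < 4096 * a
    · rw [rr_large ha h]
      exact ⟨by linarith, by linarith, fun _ => by linarith⟩
    · rw [rr_small ha h]
      norm_num

theorem rr_mono (E : ℕ) (hE : 1 ≤ E) (a b : ℕ) (hb : b ≠ 0) (hab : b ≤ a) : rr E b ≤ rr E a := by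
  obtain ⟨h1, h2⟩ := E_bd hE
  have ha : a ≠ 0 := by omega
  by_cases h : E < 4096 * b
  · rw [rr_large hb h, rr_large ha (by omega)]
  · by_cases h' : E < 4096 * a
    · rw [rr_small hb h, rr_large ha h']
      linarith
    · rw [rr_small hb h, rr_small ha h']

private theorem factor_eq {E : ℕ} {a : ℕ} (ha : a ≠ 0) :
    ((rr E a) ^ a)⁻¹ = (if E < 4096 * a then ((1 - 1 / (2 * (E : ℝ))) ^ a)⁻¹ else 1) *
      ((2:ℝ) ^ a * (if E < 4096 * a then 1 else (2:ℝ) ^ a)) := by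
  by_cases h : E < 4096 * a
  · rw [rr_large ha h, if_pos h, if_pos h, mul_one, mul_pow, mul_inv, one_div, inv_pow, inv_inv,
      mul_comm]
  · rw [rr_small ha h, if_neg h, if_neg h, one_mul, one_div, inv_pow, inv_inv, ← mul_pow]
    norm_num

theorem rprod_le (E : ℕ) (hE : 1 ≤ E) (S : Finset ℕ) (hS : S ∈ stp E) :
    ((dl S).map (fun a : ℕ => (2 * (a : ℝ) + 1) * ((rr E a) ^ a)⁻¹)).prod ≤
      2 ^ (E + 1) * (∏ a ∈ S, (2 * (a : ℝ) + 1)) * ∏ a ∈ sml E S, (2 : ℝ) ^ a := by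
  obtain ⟨h1, h2⟩ := E_bd hE
  rw [mem_stp] at hS
  obtain ⟨hS1, hS2⟩ := hS
  have hf0 : (if S.card % 2 = 0 then (1:ℝ) else (2 * ((0:ℕ):ℝ) + 1) * ((rr E 0) ^ 0)⁻¹) = 1 := by
    split <;> simp
  rw [prod_dl, hf0, mul_one, Finset.prod_mul_distrib]
  have hne : ∀ a ∈ S, a ≠ 0 := fun a ha => by have := hS1 a ha; omega
  have e1 : ∏ a ∈ S, ((rr E a) ^ a)⁻¹ =
      (∏ a ∈ lrg E S, ((1 - 1 / (2 * (E : ℝ))) ^ a)⁻¹) * (2 ^ E * ∏ a ∈ sml E S, (2:ℝ) ^ a) := by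
    rw [Finset.prod_congr rfl fun a ha => factor_eq (hne a ha), Finset.prod_mul_distrib,
      Finset.prod_mul_distrib, lrg, sml, Finset.prod_filter, Finset.prod_filter,
      Finset.prod_pow_eq_pow_sum, hS2]
    congr 2
    refine Finset.prod_congr rfl fun a _ => ?_
    by_cases h : E < 4096 * a
    · simp [h]
    · simp [h]
  have e2 : ∏ a ∈ lrg E S, ((1 - 1 / (2 * (E : ℝ))) ^ a)⁻¹ ≤ 2 := by
    rw [Finset.prod_inv_distrib, Finset.prod_pow_eq_pow_sum]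
    have hs : ∑ a ∈ lrg E S, a ≤ E := by
      rw [← hS2]
      exact Finset.sum_le_sum_of_subset (Finset.filter_subset _ _)
    have hE0 : (0:ℝ) < E := by exact_mod_cast hE
    have hb : (1:ℝ) / 2 ≤ (1 - 1 / (2 * (E : ℝ))) ^ E := by
      have h := one_add_mul_le_pow (a := -(1 / (2 * (E : ℝ)))) (by linarith) E
      have h' : 1 + (E : ℝ) * -(1 / (2 * (E : ℝ))) = 1 / 2 := by
        field_simp
        norm_num
      rw [h'] at h
      rw [sub_eq_add_neg]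
      exact h
    have hb2 : (1:ℝ) / 2 ≤ (1 - 1 / (2 * (E : ℝ))) ^ (∑ a ∈ lrg E S, a) :=
      hb.trans (pow_le_pow_of_le_one (by linarith) (by linarith) hs)
    have h3 := inv_anti₀ (by norm_num) hb2
    have h4 : ((1:ℝ) / 2)⁻¹ = 2 := by norm_num
    rwa [h4] at h3
  rw [e1, pow_succ]
  have p1 : (0:ℝ) ≤ ∏ a ∈ S, (2 * (a : ℝ) + 1) := Finset.prod_nonneg fun a _ => by positivity
  have p2 : (0:ℝ) ≤ 2 ^ E * ∏ a ∈ sml E S, (2:ℝ) ^ a :=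
    mul_nonneg (by positivity) (Finset.prod_nonneg fun a _ => by positivity)
  calc (∏ a ∈ S, (2 * (a : ℝ) + 1)) * ((∏ a ∈ lrg E S, ((1 - 1 / (2 * (E : ℝ))) ^ a)⁻¹) *
      (2 ^ E * ∏ a ∈ sml E S, (2:ℝ) ^ a))
      ≤ (∏ a ∈ S, (2 * (a : ℝ) + 1)) * (2 * (2 ^ E * ∏ a ∈ sml E S, (2:ℝ) ^ a)) :=
        mul_le_mul_of_nonneg_left (mul_le_mul_of_nonneg_right e2 p2) p1
    _ = _ := by ring

end Pool.Agent.Helper34.MVU
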