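import Pool.Agent.Helper34.MVU.DL

/-!
Project MV, block U, module U-T1c (Stir): the product of the factorials and of the weights
`xx E a = (a/E)^(1/3)`.

PROOFS.
* `fact_le`: `n! ≤ 3 n (n/e)^n` for `n ≥ 1`: from `Stirling.stirlingSeq` antitone:
  `n!/(√(2n) (n/e)^n) ≤ stirlingSeq 1 = e/√2`, so `n! ≤ e √n (n/e)^n ≤ 3 n (n/e)^n`
  (or by induction: `(n+1)!/n! = n+1` and `((n+1)/n)^(n+1) ≥ e`, i.e. `(n+1) log(1+1/n) ≥ 1`).
* `le_fact`: `(E/e)^E ≤ E!`: `E^E/E! ≤ exp E` (`Real.pow_div_factorial_le_exp`).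
* `fact_prod_le`: all `a ∈ S` are `≥ 1`, `Σ a = E`. `Π a! ≤ Π 3a * Π (a/e)^a`, and
  `Π (a/e)^a = Π (a/E)^a * (E/e)^(Σ a) ≤ E! Π (a/E)^a`. Finally
  `(a/E)^a * (xx E a ^ (2a))⁻¹ = (a/E)^(a - 2a/3) = (a/E)^(a/3)` (real powers of `a/E > 0`).
* `xx_prop`: `xx E 0 = 0`, `xx E a > 0` for `a ≥ 1`, monotone in `a`.
-/

namespace Pool.Agent.Helper34.MVU

open Finset Pool.Agent.Helper60.MV

theorem xx_zero (E : ℕ) : xx E 0 = 0 := by
  unfold xx
  rw [Nat.cast_zero, zero_div, Real.zero_rpow (by norm_num)]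

theorem xx_pos (E : ℕ) (hE : 1 ≤ E) (a : ℕ) (ha : a ≠ 0) : 0 < xx E a := by
  unfold xx
  have h1 : (0:ℝ) < a := by exact_mod_cast Nat.pos_of_ne_zero ha
  have h2 : (0:ℝ) < E := by exact_mod_cast hE
  positivity

theorem xx_mono (E : ℕ) (a b : ℕ) (hab : b ≤ a) : xx E b ≤ xx E a := by
  unfold xx
  have h1 : (b:ℝ) ≤ a := by exact_mod_cast hab
  refine Real.rpow_le_rpow (by positivity) ?_ (by norm_num)
  exact div_le_div_of_nonneg_right h1 (Nat.cast_nonneg _)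

theorem fact_le (n : ℕ) (hn : 1 ≤ n) :
    (n.factorial : ℝ) ≤ 3 * n * ((n : ℝ) / Real.exp 1) ^ n := by
  have he : (0:ℝ) < Real.exp 1 := Real.exp_pos 1
  induction n, hn using Nat.le_induction with
  | base =>
    have h3 : Real.exp 1 ≤ 3 := by
      have := Real.exp_one_lt_d9
      linarith
    rw [Nat.factorial_one, Nat.cast_one, pow_one, mul_one, mul_one_div, le_div_iff₀ he, one_mul]
    exact h3
  | succ n hn ih =>
    have hn0 : (0:ℝ) < n := by exact_mod_cast hn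
    have hn1 : (0:ℝ) < (n:ℝ) + 1 := by linarith
    have h1 : Real.exp (1 / ((n:ℝ) + 1)) ≤ ((n:ℝ) + 1) / n := by
      have h2 := Real.add_one_le_exp (-(1 / ((n:ℝ) + 1)))
      rw [Real.exp_neg] at h2
      have h3 : -(1 / ((n:ℝ) + 1)) + 1 = (n:ℝ) / ((n:ℝ) + 1) := by field_simp; ring
      rw [h3] at h2
      have h4 : 0 < (n:ℝ) / ((n:ℝ) + 1) := by positivity
      have h5 := inv_anti₀ h4 h2
      rw [inv_inv, inv_div] at h5
      exact h5
    have h6 : Real.exp 1 ≤ (((n:ℝ) + 1) / n) ^ (n + 1) := by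
      have h7 : Real.exp 1 = Real.exp (1 / ((n:ℝ) + 1)) ^ (n + 1) := by
        rw [← Real.exp_nat_mul]
        congr 1
        push_cast
        field_simp
      rw [h7]
      exact pow_le_pow_left₀ (Real.exp_pos _).le h1 _
    have h8 : (n:ℝ) * ((n:ℝ) / Real.exp 1) ^ n ≤ (((n:ℝ) + 1) / Real.exp 1) ^ (n + 1) := by
      have h9 : (((n:ℝ) + 1) / Real.exp 1) ^ (n + 1) =
          ((((n:ℝ) + 1) / n) ^ (n + 1) / Real.exp 1) * ((n:ℝ) * ((n:ℝ) / Real.exp 1) ^ n) := by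
        rw [div_pow, div_pow, div_pow, pow_succ (Real.exp 1) n, pow_succ (n:ℝ) n]
        field_simp
      rw [h9]
      have h10 : 1 ≤ (((n:ℝ) + 1) / n) ^ (n + 1) / Real.exp 1 := by
        rw [le_div_iff₀ he, one_mul]; exact h6
      have h11 : 0 ≤ (n:ℝ) * ((n:ℝ) / Real.exp 1) ^ n := by positivity
      nlinarith [mul_le_mul_of_nonneg_right h10 h11]
    rw [Nat.factorial_succ]
    push_cast
    calc ((n:ℝ) + 1) * (n.factorial : ℝ) ≤ ((n:ℝ) + 1) * (3 * n * ((n : ℝ) / Real.exp 1) ^ n) :=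
          mul_le_mul_of_nonneg_left ih hn1.le
      _ = 3 * ((n:ℝ) + 1) * ((n:ℝ) * ((n : ℝ) / Real.exp 1) ^ n) := by ring
      _ ≤ 3 * ((n:ℝ) + 1) * (((n:ℝ) + 1) / Real.exp 1) ^ (n + 1) :=
          mul_le_mul_of_nonneg_left h8 (by positivity)

theorem le_fact (E : ℕ) : ((E : ℝ) / Real.exp 1) ^ E ≤ (E.factorial : ℝ) := by
  have h1 := Real.pow_div_factorial_le_exp (E : ℝ) (Nat.cast_nonneg _) E
  have h2 : Real.exp (E : ℝ) = Real.exp 1 ^ E := by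
    rw [← Real.exp_nat_mul, mul_one]
  rw [h2, div_le_iff₀ (by positivity)] at h1
  rw [div_pow, div_le_iff₀ (by positivity), mul_comm]
  exact h1

theorem fact_prod_le (E : ℕ) (hE : 1 ≤ E) (S : Finset ℕ) (hS : S ∈ stp E) :
    (∏ a ∈ S, ((a.factorial : ℝ) * ((xx E a) ^ (2 * a))⁻¹)) ≤
      (E.factorial : ℝ) * ∏ a ∈ S, (3 * (a : ℝ) * ((a : ℝ) / (E : ℝ)) ^ ((a : ℝ) / 3)) := by
  have hE0 : (0:ℝ) < E := by exact_mod_cast hE
  have he : (0:ℝ) < Real.exp 1 := Real.exp_pos 1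
  unfold stp at hS
  rw [Finset.mem_filter, Finset.mem_powerset] at hS
  obtain ⟨hsub, hsum⟩ := hS
  have hpos : ∀ a ∈ S, 1 ≤ a := fun a ha => (Finset.mem_Icc.1 (hsub ha)).1
  have h1 : ∀ a ∈ S, (a.factorial : ℝ) * ((xx E a) ^ (2 * a))⁻¹ ≤
      ((E:ℝ) / Real.exp 1) ^ a * (3 * (a : ℝ) * ((a : ℝ) / (E : ℝ)) ^ ((a : ℝ) / 3)) := by
    intro a ha
    have ha1 := hpos a ha
    have ha0 : (0:ℝ) < a := by exact_mod_cast ha1
    have hr : (0:ℝ) < (a:ℝ) / E := by positivity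
    have hx : ((xx E a) ^ (2 * a))⁻¹ = ((a:ℝ) / E) ^ (-(2 * (a:ℝ) / 3)) := by
      unfold xx
      rw [← Real.rpow_natCast, ← Real.rpow_mul hr.le, ← Real.rpow_neg hr.le]
      congr 1
      push_cast
      ring
    have hy : ((a:ℝ) / Real.exp 1) ^ a = ((E:ℝ) / Real.exp 1) ^ a * ((a:ℝ) / E) ^ (a:ℝ) := by
      rw [Real.rpow_natCast, ← mul_pow]
      congr 1
      field_simp
    calc (a.factorial : ℝ) * ((xx E a) ^ (2 * a))⁻¹ ≤
        (3 * a * ((a : ℝ) / Real.exp 1) ^ a) * ((xx E a) ^ (2 * a))⁻¹ := by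
          refine mul_le_mul_of_nonneg_right (fact_le a ha1) ?_
          rw [hx]; positivity
      _ = ((E:ℝ) / Real.exp 1) ^ a * (3 * (a : ℝ) *
            (((a:ℝ) / E) ^ (a:ℝ) * ((a:ℝ) / E) ^ (-(2 * (a:ℝ) / 3)))) := by
          rw [hx, hy]; ring
      _ = _ := by
          rw [← Real.rpow_add hr]
          congr 3
          ring
  calc (∏ a ∈ S, ((a.factorial : ℝ) * ((xx E a) ^ (2 * a))⁻¹)) ≤
      ∏ a ∈ S, (((E:ℝ) / Real.exp 1) ^ a *
        (3 * (a : ℝ) * ((a : ℝ) / (E : ℝ)) ^ ((a : ℝ) / 3))) := by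
        refine Finset.prod_le_prod (fun a _ => ?_) h1
        have : 0 ≤ xx E a := by unfold xx; positivity
        positivity
    _ = (∏ a ∈ S, ((E:ℝ) / Real.exp 1) ^ a) *
        ∏ a ∈ S, (3 * (a : ℝ) * ((a : ℝ) / (E : ℝ)) ^ ((a : ℝ) / 3)) :=
        Finset.prod_mul_distrib
    _ ≤ _ := by
        refine mul_le_mul_of_nonneg_right ?_ (Finset.prod_nonneg fun a _ => by positivity)
        rw [Finset.prod_pow_eq_pow_sum, hsum]
        exact le_fact E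

end Pool.Agent.Helper34.MVU
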