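import Pool.Agent.Helper34.MVU.WickLin

/-!
Project MV, block U, module U-H1 (Haf): elementary bounds for Pfaffians and hafnians along lists.

All by (strong) induction on the length of the list; recall
`pfL A (x :: xs) = Σ_{j < xs.length} (-1)^j * A x xs[j] * pfL A (xs.eraseIdx j)`, `hfL` the same
without signs (`rw [pfL]`, `rw [hfL]`).
* `abs_pfL_le`: triangle inequality.
* `hfL_mono`: `Pairwise` of `x :: xs` gives the condition for `(x, xs[j])` and passes to the sublist
  `xs.eraseIdx j` (`List.eraseIdx_sublist`, `List.Pairwise.sublist`); product of two nonnegative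
  inequalities.
* `hfL_mul`: length `n + 2`, `L = x :: xs`: every term of the sum is
  `c u_x u_{xs[j]} * (mt n * c^(n/2) * Π_{others} u)`, and `u_{xs[j]} * Π (xs.eraseIdx j) = Π xs`
  (`List.prod_eraseIdx`-like, or via `List.insertIdx`/permutation), `n + 1` terms; length one: empty
  sum, `mt 1 = 0`.
* `mt_sq_le`: `mt (n+2)^2 = (n+1)^2 mt n ^2 ≤ (n+1)^2 n! ≤ (n+2)(n+1) n!`.
-/

namespace Pool.Agent.Helper34.MVU

open Finset MvPolynomial Pool.Agent.Helper60.MV

private theorem haf_len {α : Type} (xs : List α) (j : Fin xs.length) :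
    (xs.eraseIdx j).length < xs.length + 1 := by
  have h := List.length_eraseIdx_add_one (l := xs) j.2
  omega

private theorem haf_perm {α : Type} (xs : List α) (j : Fin xs.length) :
    (xs.get j :: xs.eraseIdx j).Perm xs :=
  List.getElem_cons_eraseIdx_perm j.2

theorem abs_pfL_le {α : Type} (A : α → α → ℝ) (L : List α) :
    |pfL A L| ≤ hfL (fun a b => |A a b|) L := by
  obtain ⟨n, hn⟩ : ∃ n, L.length = n := ⟨_, rfl⟩
  induction n using Nat.strong_induction_on generalizing L with
  | _ n ih =>
    rcases L with _ | ⟨x, xs⟩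
    · rw [pfL, hfL]
      simp
    · rw [pfL, hfL]
      refine (Finset.abs_sum_le_sum_abs _ _).trans (Finset.sum_le_sum (fun j _ => ?_))
      rw [abs_mul, abs_mul, abs_pow, abs_neg, abs_one, one_pow, one_mul]
      refine mul_le_mul_of_nonneg_left (ih _ ?_ _ rfl) (abs_nonneg _)
      rw [List.length_cons] at hn
      rw [← hn]
      exact haf_len xs j

theorem hfL_mono {α : Type} (A B : α → α → ℝ) (L : List α)
    (h : L.Pairwise (fun a b => 0 ≤ A a b ∧ A a b ≤ B a b)) :
    0 ≤ hfL A L ∧ hfL A L ≤ hfL B L := by
  obtain ⟨n, hn⟩ : ∃ n, L.length = n := ⟨_, rfl⟩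
  induction n using Nat.strong_induction_on generalizing L with
  | _ n ih =>
    rcases L with _ | ⟨x, xs⟩
    · rw [hfL, hfL]
      exact ⟨zero_le_one, le_refl _⟩
    · rw [hfL, hfL]
      rw [List.pairwise_cons] at h
      have hstep : ∀ j : Fin xs.length,
          0 ≤ hfL A (xs.eraseIdx j) ∧ hfL A (xs.eraseIdx j) ≤ hfL B (xs.eraseIdx j) := by
        intro j
        refine ih _ ?_ _ (h.2.sublist (List.eraseIdx_sublist _ _)) rfl
        rw [List.length_cons] at hn
        rw [← hn]
        exact haf_len xs j
      have hx : ∀ j : Fin xs.length, 0 ≤ A x (xs.get j) ∧ A x (xs.get j) ≤ B x (xs.get j) :=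
        fun j => h.1 _ (List.get_mem _ _)
      constructor
      · exact Finset.sum_nonneg (fun j _ => mul_nonneg (hx j).1 (hstep j).1)
      · exact Finset.sum_le_sum (fun j _ => mul_le_mul (hx j).2 (hstep j).2 (hstep j).1
          ((hx j).1.trans (hx j).2))

theorem hfL_mul {α : Type} (u : α → ℝ) (c : ℝ) (L : List α) :
    hfL (fun a b => c * (u a * u b)) L = mt L.length * c ^ (L.length / 2) * (L.map u).prod := by
  obtain ⟨n, hn⟩ : ∃ n, L.length = n := ⟨_, rfl⟩
  induction n using Nat.strong_induction_on generalizing L with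
  | _ n ih =>
    rcases L with _ | ⟨x, xs⟩
    · rw [hfL]
      simp [mt]
    · rw [hfL]
      obtain hm | ⟨m, hm⟩ : xs.length = 0 ∨ ∃ m, xs.length = m + 1 := by
        rcases Nat.eq_zero_or_pos xs.length with h | h
        · exact Or.inl h
        · exact Or.inr ⟨xs.length - 1, by omega⟩
      · rw [List.length_eq_zero_iff] at hm
        subst hm
        simp [mt]
      · have hterm : ∀ j : Fin xs.length, c * (u x * u (xs.get j)) *
            hfL (fun a b => c * (u a * u b)) (xs.eraseIdx j) =
            mt m * c ^ (m / 2 + 1) * ((x :: xs).map u).prod := by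
          intro j
          have hl : (xs.eraseIdx j).length = m := by
            have h := List.length_eraseIdx_add_one (l := xs) j.2
            omega
          have hlt : (xs.eraseIdx j).length < n := by
            rw [List.length_cons] at hn
            rw [← hn]
            exact haf_len xs j
          rw [ih _ hlt _ rfl, hl, List.map_cons, List.prod_cons]
          have hp := ((haf_perm xs j).map u).prod_eq
          rw [List.map_cons, List.prod_cons] at hp
          rw [← hp, pow_succ]
          ring
        rw [Finset.sum_congr rfl (fun j _ => hterm j), Finset.sum_const, Finset.card_univ,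
          Fintype.card_fin, List.length_cons, hm, mt, nsmul_eq_mul,
          show (m + 1 + 1) / 2 = m / 2 + 1 by omega]
        push_cast
        ring

theorem mt_sq_le (n : ℕ) : mt n ^ 2 ≤ n.factorial := by
  induction n using Nat.strong_induction_on with
  | _ n ih =>
    rcases n with _ | _ | n
    · simp [mt]
    · simp [mt]
    · rw [mt, mul_pow, Nat.factorial_succ, Nat.factorial_succ]
      have h := ih n (by omega)
      calc (n + 1) ^ 2 * mt n ^ 2 ≤ (n + 1) ^ 2 * n.factorial := Nat.mul_le_mul_left _ h
        _ = (n + 1) * ((n + 1) * n.factorial) := by ring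
        _ ≤ (n + 1 + 1) * ((n + 1) * n.factorial) := Nat.mul_le_mul_right _ (by omega)

end Pool.Agent.Helper34.MVU
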