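import Pool.Agent.Helper34.MVU.WickProd
import Pool.Agent.Helper34.MVU.Haf

/-!
Project MV, block U, module U-H2 (WickHf): bound of `Wick (hfL QQp L)`.

PROOF. CLAIM (induction on the length of `L`, for all lists `P : List (ℕ × ℝ)` with
`0 ≤ p.2 < 1/2` for all `p ∈ P` and `L` as in the theorem):
`Wick ((P.map (qP p.1)).prod * hfL QQp L) * (P.map (p.2 ^ p.1)).prod`
`  ≤ GG (P.map Prod.snd ++ L.map r) * (mt L.length * (L.map (fun a => (2a+1) * (r a ^ a)⁻¹)).prod)`.
* `L = []`: `Wick_prod_le`. `L = [x]`: `hfL QQp [x] = 0`, `mt 1 = 0`.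
* `L = x :: xs`: `hfL QQp L = Σ_j QQp x y_j * hfL QQp (xs.eraseIdx j)`, `y_j = xs[j]`, and `QQp x y` is
  `qP x * qP y` plus twice the sum over `j < y` of `qP (x+(j+1)) * qP (y-(j+1))`. For one product
  `qP n * qP n'`, `(n,n') = (x,y)` or `(x+(j+1), y-(j+1))`, apply the induction hypothesis to
  `P' = P ++ [(n, r x), (n', r y)]` and `xs.eraseIdx j`:
  `Wick (ΠP qP n qP n' hfL QQp (xs.eraseIdx j)) * ΠP p.2^p.1 * ((r x)^n (r y)^n') ≤ GG (…) * (…)`,
  the list of radii is a permutation of `P.map Prod.snd ++ L.map r`, and `GG` is invariant under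
  permutations (`List.Perm.sum_eq`, `List.Perm.map`). Here `(r x)^n (r y)^n' > 0` (if `y ≠ 0` then
  `0 < r y ≤ r x`; if `y = 0` then `n = x`, `n' = 0`, and `x = 0` or `r x > 0`), and
  `((r x)^n (r y)^n')⁻¹ ≤ ((r x)^x (r y)^y)⁻¹` because
  `(r x)^n (r y)^n' = (r x)^x (r y)^y (r x / r y)^(j+1)` and `r y ≤ r x`.
  There are `1 + 2y ≤ (2x+1)(2y+1)` products (counted with multiplicity), `xs.length` values of `j`,
  and `mt (xs.length + 1) = xs.length * mt (xs.length - 1)`.
The theorem is the case `P = []`.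
-/

namespace Pool.Agent.Helper34.MVU

open Finset MvPolynomial Pool.Agent.Helper60.MV

theorem GG_perm {L L' : List ℝ} (h : L.Perm L') : GG L = GG L' := by
  unfold GG
  congr 2
  have h1 : (fun r : ℝ => (L.map (fun r' => Phi (r + r'))).sum) =
      fun r : ℝ => (L'.map (fun r' => Phi (r + r'))).sum := by
    funext r
    exact (h.map _).sum_eq
  rw [h1]
  exact (h.map _).sum_eq

/-- the weight of an entry -/
noncomputable def whW (r : ℕ → ℝ) (a : ℕ) : ℝ := (2 * (a : ℝ) + 1) * ((r a) ^ a)⁻¹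

theorem wh_pow_pos {r : ℕ → ℝ} {a : ℕ} (h : a ≠ 0 → 0 < r a) : 0 < (r a) ^ a := by
  rcases Nat.eq_zero_or_pos a with h0 | h0
  · subst h0; simp
  · exact pow_pos (h (Nat.pos_iff_ne_zero.1 h0)) _

theorem whW_pos {r : ℕ → ℝ} {a : ℕ} (h : a ≠ 0 → 0 < r a) : 0 < whW r a := by
  unfold whW
  have := wh_pow_pos h
  positivity

theorem wh_pow_le {r : ℕ → ℝ} {x y : ℕ} (hx : 0 ≤ r x) (hy : 0 ≤ r y)
    (hxy : y ≠ 0 → r y ≤ r x) {i : ℕ} (hi : i ≤ y) :
    (r x) ^ x * (r y) ^ y ≤ (r x) ^ (x + i) * (r y) ^ (y - i) := by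
  have h1 : (r y) ^ i ≤ (r x) ^ i := by
    rcases Nat.eq_zero_or_pos i with h0 | h0
    · subst h0; simp
    · exact pow_le_pow_left₀ hy (hxy (by omega)) i
  have h2 : (r y) ^ y = (r y) ^ (y - i) * (r y) ^ i := by
    rw [← pow_add, Nat.sub_add_cancel hi]
  rw [h2, pow_add]
  calc (r x) ^ x * ((r y) ^ (y - i) * (r y) ^ i)
      ≤ (r x) ^ x * ((r y) ^ (y - i) * (r x) ^ i) := by
        refine mul_le_mul_of_nonneg_left ?_ (pow_nonneg hx _)
        exact mul_le_mul_of_nonneg_left h1 (pow_nonneg hy _)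
    _ = _ := by ring

theorem Wick_mul_C (c : ℝ) (f : MvPolynomial ℕ ℝ) : Wick (f * C c) = Wick f * c := by
  rw [mul_comm, Wick_C_mul, mul_comm]

theorem wick_claim (r : ℕ → ℝ) : ∀ (n : ℕ) (L : List ℕ), L.length = n →
    (∀ a ∈ L, 0 ≤ r a ∧ r a < 1 / 2 ∧ (a ≠ 0 → 0 < r a)) →
    L.Pairwise (fun a b => b ≠ 0 → r b ≤ r a) →
    ∀ P : List (ℕ × ℝ), (∀ p ∈ P, 0 ≤ p.2 ∧ p.2 < 1 / 2) →
    Wick ((P.map (fun p => qP p.1)).prod * hfL QQp L) * (P.map (fun p => p.2 ^ p.1)).prod ≤
      GG (P.map Prod.snd ++ L.map r) * (mt L.length * (L.map (whW r)).prod) := by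
  intro n
  induction n using Nat.strong_induction_on with
  | _ n ih =>
  intro L hn hr hL P hP
  cases L with
  | nil =>
    rw [hfL, mul_one, List.map_nil, List.append_nil, List.length_nil, List.map_nil,
      List.prod_nil, mt, Nat.cast_one, mul_one, mul_one]
    exact Wick_prod_le P hP
  | cons x xs =>
    have hx := hr x List.mem_cons_self
    have hxs : ∀ a ∈ xs, 0 ≤ r a ∧ r a < 1 / 2 ∧ (a ≠ 0 → 0 < r a) := fun a ha =>
      hr a (List.mem_cons_of_mem _ ha)
    have hL' := List.pairwise_cons.1 hL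
    have hGpos : ∀ M : List ℝ, 0 < GG M := fun M => Real.exp_pos _
    have hWpos : ∀ M : List ℕ, (∀ a ∈ M, 0 ≤ r a ∧ r a < 1 / 2 ∧ (a ≠ 0 → 0 < r a)) →
        0 ≤ (M.map (whW r)).prod := by
      intro M hM
      refine List.prod_nonneg fun z hz => ?_
      obtain ⟨a, ha, rfl⟩ := List.mem_map.1 hz
      exact (whW_pos (hM a ha).2.2).le
    set G : ℝ := GG (P.map Prod.snd ++ (x :: xs).map r) with hG
    set Pi : MvPolynomial ℕ ℝ := (P.map (fun p => qP p.1)).prod with hPi
    set Pr : ℝ := (P.map (fun p => p.2 ^ p.1)).prod with hPr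
    -- one product
    have hone : ∀ (j : Fin xs.length) (i : ℕ), i ≤ xs.get j →
        Wick (Pi * (qP (x + i) * qP (xs.get j - i)) * hfL QQp (xs.eraseIdx j)) * Pr ≤
        G * ((mt (xs.length - 1) : ℝ) * ((xs.eraseIdx j).map (whW r)).prod) *
          (((r x) ^ x)⁻¹ * ((r (xs.get j)) ^ (xs.get j))⁻¹) := by
      intro j i hi
      have hym : xs.get j ∈ xs := List.get_mem xs j
      have hy := hxs _ hym
      have hsub : List.Sublist (xs.eraseIdx j) xs := List.eraseIdx_sublist xs j
      have hlen : (xs.eraseIdx j).length = xs.length - 1 := by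
        rw [List.length_eraseIdx_of_lt j.2]
      have hjl := j.2
      have h1 := ih (xs.eraseIdx j).length
        (by rw [← hn, List.length_cons, hlen]; omega) (xs.eraseIdx j) rfl
        (fun a ha => hxs a (hsub.subset ha)) (hL'.2.sublist hsub)
        ((x + i, r x) :: (xs.get j - i, r (xs.get j)) :: P) (by
          intro p hp
          rcases List.mem_cons.1 hp with h | h
          · subst h; exact ⟨hx.1, hx.2.1⟩
          · rcases List.mem_cons.1 h with h | h
            · subst h; exact ⟨hy.1, hy.2.1⟩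
            · exact hP p h)
      have hperm : (List.map Prod.snd ((x + i, r x) :: (xs.get j - i, r (xs.get j)) :: P) ++
          (xs.eraseIdx j).map r).Perm (P.map Prod.snd ++ (x :: xs).map r) := by
        have h2 : (xs.map r).Perm (r (xs.get j) :: (xs.eraseIdx j).map r) := by
          have h3 := (List.getElem_cons_eraseIdx_perm (l := xs) (n := (j : ℕ)) j.2).map r
          exact h3.symm
        have h4 : (P.map Prod.snd ++ (x :: xs).map r).Perm
            (P.map Prod.snd ++ (r x :: r (xs.get j) :: (xs.eraseIdx j).map r)) := by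
          rw [List.map_cons]
          exact (h2.cons _).append_left _
        refine List.Perm.trans ?_ h4.symm
        simp only [List.map_cons, List.cons_append]
        have h5 : (P.map Prod.snd ++ (r x :: r (xs.get j) :: (xs.eraseIdx j).map r)).Perm
            (r x :: (P.map Prod.snd ++ (r (xs.get j) :: (xs.eraseIdx j).map r))) :=
          List.perm_middle
        have h6 : (P.map Prod.snd ++ (r (xs.get j) :: (xs.eraseIdx j).map r)).Perm
            (r (xs.get j) :: (P.map Prod.snd ++ (xs.eraseIdx j).map r)) :=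
          List.perm_middle
        exact (h5.trans (h6.cons _)).symm
      rw [GG_perm hperm, hlen] at h1
      simp only [List.map_cons, List.prod_cons] at h1
      have hd : 0 < (r x) ^ x * (r (xs.get j)) ^ (xs.get j) :=
        mul_pos (wh_pow_pos hx.2.2) (wh_pow_pos hy.2.2)
      have hc := wh_pow_le (r := r) (x := x) (y := xs.get j) hx.1 hy.1
        (hL'.1 _ hym) hi
      set B : ℝ := G * ((mt (xs.length - 1) : ℝ) * ((xs.eraseIdx j).map (whW r)).prod) with hB
      have hB0 : 0 ≤ B := by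
        rw [hB]
        refine mul_nonneg (hGpos _).le (mul_nonneg (Nat.cast_nonneg _) ?_)
        exact hWpos _ (fun a ha => hxs a (hsub.subset ha))
      set A : ℝ := Wick (Pi * (qP (x + i) * qP (xs.get j - i)) * hfL QQp (xs.eraseIdx j)) * Pr
        with hA
      have h7 : A * ((r x) ^ (x + i) * (r (xs.get j)) ^ (xs.get j - i)) ≤ B := by
        have h8 : Wick (qP (x + i) * (qP (xs.get j - i) * Pi) * hfL QQp (xs.eraseIdx j)) *
            ((r x) ^ (x + i) * ((r (xs.get j)) ^ (xs.get j - i) * Pr)) ≤ B := by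
          rw [hB, hG]
          simpa only [List.map_cons] using h1
        have h9 : qP (x + i) * (qP (xs.get j - i) * Pi) * hfL QQp (xs.eraseIdx j) =
            Pi * (qP (x + i) * qP (xs.get j - i)) * hfL QQp (xs.eraseIdx j) := by ring
        rw [h9] at h8
        calc A * ((r x) ^ (x + i) * (r (xs.get j)) ^ (xs.get j - i))
            = Wick (Pi * (qP (x + i) * qP (xs.get j - i)) * hfL QQp (xs.eraseIdx j)) *
            ((r x) ^ (x + i) * ((r (xs.get j)) ^ (xs.get j - i) * Pr)) := by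
              rw [hA]; ring
          _ ≤ B := h8
      rw [← mul_inv, ← div_eq_mul_inv, le_div_iff₀ hd]
      by_cases hA0 : 0 ≤ A
      · exact (mul_le_mul_of_nonneg_left hc hA0).trans h7
      · exact (mul_nonpos_of_nonpos_of_nonneg (not_le.1 hA0).le hd.le).trans hB0
    -- one term
    have hterm : ∀ j : Fin xs.length,
        Wick (Pi * (QQp x (xs.get j) * hfL QQp (xs.eraseIdx j))) * Pr ≤
        G * ((mt (xs.length - 1) : ℝ) * ((x :: xs).map (whW r)).prod) := by
      intro j
      have hym : xs.get j ∈ xs := List.get_mem xs j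
      have hy := hxs _ hym
      have hsub : List.Sublist (xs.eraseIdx j) xs := List.eraseIdx_sublist xs j
      set y := xs.get j with hyd
      set Bd : ℝ := G * ((mt (xs.length - 1) : ℝ) * ((xs.eraseIdx j).map (whW r)).prod) *
          (((r x) ^ x)⁻¹ * ((r y) ^ y)⁻¹) with hBd
      have h1 : Pi * (QQp x y * hfL QQp (xs.eraseIdx j)) =
          Pi * (qP (x + 0) * qP (y - 0)) * hfL QQp (xs.eraseIdx j) +
          C 2 * ∑ i ∈ range y, Pi * (qP (x + (i + 1)) * qP (y - (i + 1))) *
            hfL QQp (xs.eraseIdx j) := by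
        rw [QQp, ← Finset.sum_mul, ← Finset.mul_sum]
        have h2 : (C 2 : MvPolynomial ℕ ℝ) = 2 := map_ofNat C 2
        rw [h2, add_zero, Nat.sub_zero]
        ring
      rw [h1, Wick_add, Wick_C_mul, Wick_sum, add_mul]
      rw [mul_assoc (2:ℝ) (∑ i ∈ range y, Wick (Pi * (qP (x + (i + 1)) * qP (y - (i + 1))) *
            hfL QQp (xs.eraseIdx j))) Pr, Finset.sum_mul]
      have h3 : ∑ i ∈ range y, Wick (Pi * (qP (x + (i + 1)) * qP (y - (i + 1))) *
            hfL QQp (xs.eraseIdx j)) * Pr ≤ ∑ _i ∈ range y, Bd := by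
        refine Finset.sum_le_sum fun i hi => ?_
        exact hone j (i + 1) (Nat.succ_le_of_lt (Finset.mem_range.1 hi))
      rw [Finset.sum_const, Finset.card_range, nsmul_eq_mul] at h3
      have h4 := hone j 0 (Nat.zero_le _)
      have hBd0 : 0 ≤ Bd := by
        rw [hBd]
        refine mul_nonneg (mul_nonneg (hGpos _).le (mul_nonneg (Nat.cast_nonneg _) ?_)) ?_
        · exact hWpos _ (fun a ha => hxs a (hsub.subset ha))
        · have h5 := wh_pow_pos hx.2.2
          have h6 := wh_pow_pos hy.2.2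
          positivity
      have h5 : ((x :: xs).map (whW r)).prod =
          (2 * (x : ℝ) + 1) * (2 * (y : ℝ) + 1) * (((r x) ^ x)⁻¹ * ((r y) ^ y)⁻¹) *
            ((xs.eraseIdx j).map (whW r)).prod := by
        have h6 : (xs.map (whW r)).prod = whW r y * ((xs.eraseIdx j).map (whW r)).prod := by
          have h7 := ((List.getElem_cons_eraseIdx_perm (l := xs) (n := (j : ℕ)) j.2).map
            (whW r)).prod_eq
          rw [List.map_cons, List.prod_cons] at h7
          rw [← h7]
          rfl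
        rw [List.map_cons, List.prod_cons, h6, whW, whW]
        ring
      have h8 : G * ((mt (xs.length - 1) : ℝ) * ((x :: xs).map (whW r)).prod) =
          (2 * (x : ℝ) + 1) * (2 * (y : ℝ) + 1) * Bd := by
        rw [h5, hBd]; ring
      rw [h8]
      have hx0 : (0:ℝ) ≤ (x:ℝ) := Nat.cast_nonneg _
      have hy0 : (0:ℝ) ≤ (y:ℝ) := Nat.cast_nonneg _
      have h9 : (1 + 2 * (y : ℝ)) * Bd ≤ (2 * (x : ℝ) + 1) * (2 * (y : ℝ) + 1) * Bd := by
        refine mul_le_mul_of_nonneg_right ?_ hBd0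
        nlinarith [mul_nonneg hx0 hy0]
      linarith [h3, h4, h9]
    -- the sum
    rw [hfL, Finset.mul_sum, Wick_sum, Finset.sum_mul]
    refine (Finset.sum_le_sum fun j _ => hterm j).trans ?_
    rw [Finset.sum_const, Finset.card_univ, Fintype.card_fin, nsmul_eq_mul]
    have hmt : ((xs.length : ℕ) : ℝ) * (mt (xs.length - 1) : ℝ) = (mt (x :: xs).length : ℝ) := by
      rw [List.length_cons]
      cases xs.length with
      | zero => simp [mt]
      | succ m =>
        rw [Nat.add_sub_cancel, mt]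
        push_cast
        ring
    rw [← hmt]
    apply le_of_eq
    ring

theorem Wick_hfL_le (L : List ℕ) (r : ℕ → ℝ)
    (hr : ∀ a ∈ L, 0 ≤ r a ∧ r a < 1 / 2 ∧ (a ≠ 0 → 0 < r a))
    (hL : L.Pairwise (fun a b => b ≠ 0 → r b ≤ r a)) :
    Wick (hfL QQp L) ≤ GG (L.map r) *
      (mt L.length * (L.map (fun a : ℕ => (2 * (a : ℝ) + 1) * ((r a) ^ a)⁻¹)).prod) := by
  have h := wick_claim r L.length L rfl hr hL [] (by simp)
  simp only [List.map_nil, List.prod_nil, one_mul, mul_one, List.nil_append] at h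
  exact h

end Pool.Agent.Helper34.MVU
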