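import Pool.Agent.Helper34.MVU.Haf

/-!
Project MV, block U, module U-X1 (X1): the bound of the numbers `XK`.

PROOF. `XK K L = Σ_{f : ρ → Fin l} pfL (zf (m_a - 2 L_a) (m_b - 2 L_b)) (finRange l)`, `l = L.length`,
`m_a = asg K f a = Σ_{i, f i = a} K i`, `L_a = L.get a`. By `abs_pfL_le`,
`|XK K L| ≤ Σ_f hfL |zf …| (finRange l)`. For `a < b` in `Fin l` (`List.pairwise_lt_finRange`)
CLAIM: `|zf (m_a - 2L_a) (m_b - 2L_b)| ≤ 2 * (u_a * u_b)` with `u_a = x(L_a)^m_a * (x(L_a)^(2 L_a))⁻¹`.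
Indeed `|zf m n| ≤ 2`, and `zf m n ≠ 0` only if `m = -n ≥ 0`; so let `m_a - 2L_a = d ≥ 0`,
`m_b = 2L_b - d`. If `L_b = 0`: `d = 0`, `m_b = 0`, `u_a = 1` (or `0⁰…`: if `L_a = 0` then `m_a = 0`,
`u_a = 1`), `u_b = 1`. If `L_b ≠ 0`: `L_a ≥ L_b > 0`, `0 < x(L_b) ≤ x(L_a)`,
`u_a u_b = x(L_a)^d x(L_b)^(-d) ≥ 1`. In the other cases `0 ≤ u_a u_b` (`x ≥ 0`).
Hence by `hfL_mono` and `hfL_mul`
`|XK K L| ≤ Σ_f mt l * 2^(l/2) * Π_a u_a`, and `Π_a x(L_a)^{m_a} = Π_i x(L_{f i})^{K i}`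
(`Finset.prod_pow_eq_pow_sum`, `Finset.prod_comm`), `Σ_f Π_i x(L_{f i})^{K i} = Π_i Σ_a x(L_a)^{K i}`
(`Finset.prod_univ_sum`, `Fintype.piFinset_univ`), sums and products over `Fin l` are those of the list
(`List.sum_ofFn`, `List.prod_ofFn`, `List.ofFn_get`).
-/

namespace Pool.Agent.Helper34.MVU

open Finset Pool.Agent.Helper60.MV

private theorem abs_zf_le (m n : ℤ) : |zf m n| ≤ 2 := by
  unfold zf
  split_ifs
  · norm_num
  · rw [abs_mul, abs_pow, abs_neg, abs_one, one_pow]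
    norm_num
  · norm_num
  · norm_num

private theorem u_nonneg (y : ℝ) (hy : 0 ≤ y) (m k : ℕ) : 0 ≤ y ^ m * (y ^ (2 * k))⁻¹ := by
  positivity

private theorem claim (ma mb la lb : ℕ) (x : ℕ → ℝ) (ha : la ≠ 0 → 0 < x la)
    (hb : lb ≠ 0 → 0 < x lb) (hx0 : 0 ≤ x 0) (h : lb ≤ la ∧ (lb ≠ 0 → x lb ≤ x la)) :
    |zf ((ma : ℤ) - 2 * (la : ℤ)) ((mb : ℤ) - 2 * (lb : ℤ))| ≤
      2 * ((x la ^ ma * (x la ^ (2 * la))⁻¹) * (x lb ^ mb * (x lb ^ (2 * lb))⁻¹)) := by
  have hxa : 0 ≤ x la := by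
    by_cases h0 : la = 0
    · rw [h0]; exact hx0
    · exact (ha h0).le
  have hxb : 0 ≤ x lb := by
    by_cases h0 : lb = 0
    · rw [h0]; exact hx0
    · exact (hb h0).le
  have hnn : 0 ≤ 2 * ((x la ^ ma * (x la ^ (2 * la))⁻¹) * (x lb ^ mb * (x lb ^ (2 * lb))⁻¹)) := by
    positivity
  by_cases h1 : ((ma : ℤ) - 2 * (la : ℤ)) + ((mb : ℤ) - 2 * (lb : ℤ)) = 0
  · rcases lt_trichotomy ((ma : ℤ) - 2 * (la : ℤ)) 0 with h2 | h2 | h2
    · have h3 : zf ((ma : ℤ) - 2 * (la : ℤ)) ((mb : ℤ) - 2 * (lb : ℤ)) = 0 := by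
        unfold zf
        rw [if_pos h1, if_neg h2.ne, if_neg (not_lt.mpr h2.le)]
      rw [h3, abs_zero]
      exact hnn
    · have h3 : zf ((ma : ℤ) - 2 * (la : ℤ)) ((mb : ℤ) - 2 * (lb : ℤ)) = 1 := by
        unfold zf
        rw [if_pos h1, if_pos h2]
      have hma : ma = 2 * la := by omega
      have hmb : mb = 2 * lb := by omega
      have hone : ∀ k : ℕ, (k ≠ 0 → 0 < x k) → x k ^ (2 * k) * (x k ^ (2 * k))⁻¹ = 1 := by
        intro k hk
        by_cases h0 : k = 0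
        · rw [h0]; simp
        · exact mul_inv_cancel₀ (pow_ne_zero _ (hk h0).ne')
      rw [h3, abs_one, hma, hmb, hone la ha, hone lb hb]
      norm_num
    · have hlb : lb ≠ 0 := by omega
      have hla : la ≠ 0 := by omega
      have hxa' := ha hla
      have hxb' := hb hlb
      obtain ⟨d, hd⟩ : ∃ d : ℕ, ma = 2 * la + d := ⟨ma - 2 * la, by omega⟩
      have hd' : 2 * lb = mb + d := by omega
      have e1 : x la ^ ma * (x la ^ (2 * la))⁻¹ = x la ^ d := by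
        rw [hd, pow_add]
        field_simp
      have e2 : x lb ^ mb * (x lb ^ (2 * lb))⁻¹ = (x lb ^ d)⁻¹ := by
        rw [hd', pow_add]
        field_simp
      rw [e1, e2]
      have h4 : 1 ≤ x la ^ d * (x lb ^ d)⁻¹ := by
        rw [← div_eq_mul_inv, one_le_div (pow_pos hxb' d)]
        exact pow_le_pow_left₀ hxb'.le (h.2 hlb) d
      have := abs_zf_le ((ma : ℤ) - 2 * (la : ℤ)) ((mb : ℤ) - 2 * (lb : ℤ))
      linarith
  · have h3 : zf ((ma : ℤ) - 2 * (la : ℤ)) ((mb : ℤ) - 2 * (lb : ℤ)) = 0 := by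
      unfold zf
      rw [if_neg h1]
    rw [h3, abs_zero]
    exact hnn

private theorem prod_asg {ρ : Type} [Fintype ρ] (K : ρ → ℕ) {l : ℕ} (y : Fin l → ℝ)
    (f : ρ → Fin l) : ∏ a, y a ^ asg K f a = ∏ i, y (f i) ^ K i := by
  unfold asg
  have h1 : ∀ a, y a ^ (∑ i, if f i = a then K i else 0) =
      ∏ i, (if f i = a then y a ^ K i else 1) := by
    intro a
    rw [← Finset.prod_pow_eq_pow_sum]
    refine Finset.prod_congr rfl fun i _ => ?_
    split_ifs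
    · rfl
    · exact pow_zero _
  rw [Finset.prod_congr rfl fun a _ => h1 a, Finset.prod_comm]
  refine Finset.prod_congr rfl fun i _ => ?_
  rw [Finset.prod_ite_eq]
  simp

private theorem sum_get (L : List ℕ) (g : ℕ → ℝ) :
    ∑ a : Fin L.length, g (L.get a) = (L.map g).sum := by
  rw [← List.sum_ofFn]
  congr 1
  conv_rhs => rw [← List.ofFn_get L]
  rw [List.map_ofFn]
  rfl

private theorem prod_get (L : List ℕ) (g : ℕ → ℝ) :
    ∏ a : Fin L.length, g (L.get a) = (L.map g).prod := by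
  rw [← List.prod_ofFn]
  congr 1
  conv_rhs => rw [← List.ofFn_get L]
  rw [List.map_ofFn]
  rfl

theorem XK_le {ρ : Type} [Fintype ρ] (K : ρ → ℕ) (L : List ℕ) (x : ℕ → ℝ)
    (hx : ∀ a ∈ L, a ≠ 0 → 0 < x a) (hx0 : 0 ≤ x 0)
    (hL : L.Pairwise (fun a b => b ≤ a ∧ (b ≠ 0 → x b ≤ x a))) :
    |XK K L| ≤ mt L.length * 2 ^ (L.length / 2) *
      (∏ i, (L.map (fun a => x a ^ K i)).sum) * (L.map (fun a => (x a ^ (2 * a))⁻¹)).prod := by
  classical
  have hpair : ∀ a b : Fin L.length, a < b →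
      L.get b ≤ L.get a ∧ (L.get b ≠ 0 → x (L.get b) ≤ x (L.get a)) := by
    intro a b hab
    exact List.pairwise_iff_get.mp hL a b hab
  have hterm : ∀ f : ρ → Fin L.length,
      |pfL (fun a b => zf ((asg K f a : ℤ) - 2 * (L.get a : ℤ))
        ((asg K f b : ℤ) - 2 * (L.get b : ℤ))) (List.finRange L.length)| ≤
      mt L.length * 2 ^ (L.length / 2) * ((∏ i, x (L.get (f i)) ^ K i) *
        (L.map (fun a => (x a ^ (2 * a))⁻¹)).prod) := by
    intro f
    refine (abs_pfL_le _ _).trans ?_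
    let u : Fin L.length → ℝ := fun a => x (L.get a) ^ asg K f a * (x (L.get a) ^ (2 * L.get a))⁻¹
    have h1 := (hfL_mono (fun a b => |zf ((asg K f a : ℤ) - 2 * (L.get a : ℤ))
        ((asg K f b : ℤ) - 2 * (L.get b : ℤ))|) (fun a b => 2 * (u a * u b))
        (List.finRange L.length) ?_).2
    · refine h1.trans (le_of_eq ?_)
      rw [hfL_mul, List.length_finRange]
      congr 1
      rw [← List.ofFn_eq_map, List.prod_ofFn, Finset.prod_mul_distrib,
        ← prod_get L (fun a => (x a ^ (2 * a))⁻¹)]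
      congr 1
      exact prod_asg K (fun a => x (L.get a)) f
    · refine List.Pairwise.imp ?_ (List.pairwise_lt_finRange L.length)
      intro a b hab
      refine ⟨abs_nonneg _, ?_⟩
      exact claim _ _ _ _ x (fun h0 => hx _ (List.get_mem L a) h0)
        (fun h0 => hx _ (List.get_mem L b) h0) hx0 (hpair a b hab)
  have hsum : ∑ f : ρ → Fin L.length, ∏ i, x (L.get (f i)) ^ K i =
      ∏ i, (L.map (fun a => x a ^ K i)).sum := by
    have h1 := Finset.prod_univ_sum (fun _ : ρ => (Finset.univ : Finset (Fin L.length)))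
      (fun (i : ρ) (a : Fin L.length) => x (L.get a) ^ K i)
    rw [Fintype.piFinset_univ] at h1
    rw [← h1]
    refine Finset.prod_congr rfl fun i _ => ?_
    exact sum_get L (fun a => x a ^ K i)
  unfold XK
  refine (Finset.abs_sum_le_sum_abs _ _).trans ?_
  refine (Finset.sum_le_sum fun f _ => hterm f).trans (le_of_eq ?_)
  rw [← Finset.mul_sum, ← Finset.sum_mul, hsum]
  ring

end Pool.Agent.Helper34.MVU
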