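import Pool.Agent.Helper34.MVU.DL

/-!
Project MV, block U, module U-T1d (Xsum): the power sums of the weights `xx E a = (a/E)^(1/3)`.

PROOF. By `sum_dl` and `xx E 0 = 0` (`K i ≥ 1`) the sum over `dl S` is the sum over `S`. All
`a ∈ S` satisfy `1 ≤ a ≤ E` and `Σ a = E`.
* `K i ≥ 3`: `xx E a ≤ 1`, `xx^(K i) ≤ xx^3 = a/E`, so the sum is `≤ 1`.
* `K i = 1` (odd and `< 3`): `Σ_{a ∈ S} xx E a ≤ 2 E^(1/3) ≤ 3 E^(1/3)`. Elementary proof: put
  `t = E^(1/3) ≥ 1`, so `E = t^3`, `xx E a = a^(1/3)/t`. For `a^(1/3) ≥ t^(1/2)` (i.e. `a^2 ≥ E`):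
  `xx E a = (a/E) * (E/a)^(2/3) ≤ (a/E) * E^(1/3)`, the sum of these is `≤ E^(1/3)`. For `a^2 < E`:
  `xx E a ≤ (E^(1/2)/E)^(1/3) = E^(-1/6)` and there are at most `E^(1/2)` such `a` (distinct
  positive integers `< √E`), the sum is `≤ E^(1/3)`. (Or Hölder with `card_sq_le`.)
* product over `i`: `Finset.prod_le_prod`, then `Π_i (if K i = 1 then c else 1) = c^(ones K)`
  (`Finset.prod_ite`, `Finset.prod_const`), `c = 3 E^(1/3) ≥ 1`.
-/

namespace Pool.Agent.Helper34.MVU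

open Finset Pool.Agent.Helper60.MV

private theorem xx_nonneg (E a : ℕ) : 0 ≤ xx E a := by
  unfold xx
  positivity

private theorem xx_cube (E a : ℕ) : (xx E a) ^ 3 = (a : ℝ) / (E : ℝ) := by
  unfold xx
  rw [← Real.rpow_natCast, ← Real.rpow_mul (by positivity)]
  norm_num

private theorem xx_le_one (E a : ℕ) (hE : 1 ≤ E) (ha : a ≤ E) : xx E a ≤ 1 := by
  unfold xx
  have hE' : (0 : ℝ) < E := by exact_mod_cast hE
  refine Real.rpow_le_one (by positivity) ?_ (by norm_num)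
  rw [div_le_one hE']
  exact_mod_cast ha

private theorem sum_ge3 (k E : ℕ) (hk : 3 ≤ k) (hE : 1 ≤ E) (S : Finset ℕ)
    (hS : ∀ a ∈ S, 1 ≤ a) (hs : ∑ a ∈ S, a = E) : ∑ a ∈ S, (xx E a) ^ k ≤ 1 := by
  have hE' : (0 : ℝ) < E := by exact_mod_cast hE
  calc ∑ a ∈ S, (xx E a) ^ k ≤ ∑ a ∈ S, (a : ℝ) / (E : ℝ) := by
        refine Finset.sum_le_sum (fun a ha => ?_)
        rw [← xx_cube E a]
        have haE : a ≤ E := by
          rw [← hs]
          exact Finset.single_le_sum (f := fun a => a) (fun _ _ => Nat.zero_le _) ha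
        exact pow_le_pow_of_le_one (xx_nonneg E a) (xx_le_one E a hE haE) hk
    _ = 1 := by
        rw [← Finset.sum_div, ← Nat.cast_sum, hs]
        exact div_self hE'.ne'

private theorem sum_one (E : ℕ) (hE : 1 ≤ E) (S : Finset ℕ)
    (hS : ∀ a ∈ S, 1 ≤ a) (hs : ∑ a ∈ S, a = E) :
    ∑ a ∈ S, (xx E a) ^ 1 ≤ 3 * (E : ℝ) ^ (1 / 3 : ℝ) := by
  have hE' : (0 : ℝ) < E := by exact_mod_cast hE
  set u : ℝ := (E : ℝ) ^ (1 / 6 : ℝ) with hu
  have hupos : 0 < u := Real.rpow_pos_of_pos hE' _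
  have hu6 : u ^ 6 = E := by
    rw [hu, ← Real.rpow_natCast, ← Real.rpow_mul hE'.le]
    norm_num
  have hu2 : (E : ℝ) ^ (1 / 3 : ℝ) = u ^ 2 := by
    rw [hu, ← Real.rpow_natCast, ← Real.rpow_mul hE'.le]
    norm_num
  have hl : (S.card : ℝ) ≤ 3 / 2 * u ^ 3 := by
    have h1 := card_sq_le S hS
    rw [hs] at h1
    have h2 : ((S.card : ℝ)) * ((S.card : ℝ) + 1) ≤ 2 * E := by exact_mod_cast h1
    have h3 : (S.card : ℝ) ^ 2 ≤ (3 / 2 * u ^ 3) ^ 2 := by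
      have : (3 / 2 * u ^ 3) ^ 2 = 9 / 4 * u ^ 6 := by ring
      rw [this, hu6]
      nlinarith [Nat.cast_nonneg (α := ℝ) S.card]
    exact le_of_sq_le_sq h3 (by positivity)
  have hterm : ∀ a ∈ S, (xx E a) ^ 1 ≤ ((a : ℝ) / u ^ 4 + 2 / u) / 3 := by
    intro a _
    rw [pow_one]
    set x := xx E a with hx
    have hx0 : 0 ≤ x := xx_nonneg E a
    have hx3 : x ^ 3 = (a : ℝ) / u ^ 6 := by rw [hu6]; exact xx_cube E a
    have ha : (a : ℝ) / u ^ 4 = x ^ 3 * u ^ 2 := by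
      rw [hx3]
      field_simp
    rw [ha]
    -- with y = x u² : 3 y u² ≤ y³ + 2 u³
    have key : 0 ≤ (x * u - 1) ^ 2 * (x * u + 2) := by positivity
    have h5 : 3 * (x * u) ≤ (x * u) ^ 3 + 2 := by nlinarith
    have h6 : x = (3 * (x * u)) / (3 * u) := by field_simp
    have h7 : (x ^ 3 * u ^ 2 + 2 / u) / 3 = ((x * u) ^ 3 + 2) / (3 * u) := by
      field_simp
    rw [h7]
    calc x = (3 * (x * u)) / (3 * u) := h6
      _ ≤ ((x * u) ^ 3 + 2) / (3 * u) := div_le_div_of_nonneg_right h5 (by positivity)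
  calc ∑ a ∈ S, (xx E a) ^ 1 ≤ ∑ a ∈ S, ((a : ℝ) / u ^ 4 + 2 / u) / 3 := Finset.sum_le_sum hterm
    _ = ((E : ℝ) / u ^ 4 + S.card * (2 / u)) / 3 := by
        rw [← Finset.sum_div, Finset.sum_add_distrib, ← Finset.sum_div, ← Nat.cast_sum, hs,
          Finset.sum_const, nsmul_eq_mul]
    _ ≤ (u ^ 2 + 3 * u ^ 2) / 3 := by
        refine div_le_div_of_nonneg_right ?_ (by norm_num)
        refine add_le_add (le_of_eq ?_) ?_
        · rw [← hu6]
          field_simp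
        · calc (S.card : ℝ) * (2 / u) ≤ (3 / 2 * u ^ 3) * (2 / u) :=
                mul_le_mul_of_nonneg_right hl (by positivity)
            _ = 3 * u ^ 2 := by
                field_simp
    _ ≤ 3 * (E : ℝ) ^ (1 / 3 : ℝ) := by
        rw [hu2]
        nlinarith [sq_nonneg u]

theorem xsum_le {ρ : Type} [Fintype ρ] (K : ρ → ℕ) (hK : ∀ i, Odd (K i)) (E : ℕ) (hE : 1 ≤ E)
    (S : Finset ℕ) (hS : S ∈ stp E) :
    (∏ i, ((dl S).map (fun a : ℕ => (xx E a) ^ K i)).sum) ≤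
      (3 * (E : ℝ) ^ (1 / 3 : ℝ)) ^ ones K := by
  classical
  obtain ⟨h1, hs⟩ := (mem_stp E S).mp hS
  have hsum : ∀ i, ((dl S).map (fun a : ℕ => (xx E a) ^ K i)).sum = ∑ a ∈ S, (xx E a) ^ K i := by
    intro i
    rw [sum_dl S (fun a => (xx E a) ^ K i)]
    have hx0 : xx E 0 = 0 := by
      unfold xx
      rw [Nat.cast_zero, zero_div, Real.zero_rpow (by norm_num)]
    have hKi : K i ≠ 0 := by
      have := (hK i).pos
      omega
    rw [hx0, zero_pow hKi]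
    simp
  have hbd : ∀ i ∈ (Finset.univ : Finset ρ), ((dl S).map (fun a : ℕ => (xx E a) ^ K i)).sum ≤
      (if K i = 1 then 3 * (E : ℝ) ^ (1 / 3 : ℝ) else 1) := by
    intro i _
    rw [hsum i]
    split_ifs with h
    · rw [h]
      exact sum_one E hE S h1 hs
    · refine sum_ge3 (K i) E ?_ hE S h1 hs
      obtain ⟨m, hm⟩ := hK i
      omega
  calc (∏ i, ((dl S).map (fun a : ℕ => (xx E a) ^ K i)).sum)
      ≤ ∏ i, (if K i = 1 then 3 * (E : ℝ) ^ (1 / 3 : ℝ) else 1) := by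
        refine Finset.prod_le_prod (fun i _ => ?_) hbd
        rw [hsum i]
        exact Finset.sum_nonneg (fun a _ => pow_nonneg (xx_nonneg E a) _)
    _ = (3 * (E : ℝ) ^ (1 / 3 : ℝ)) ^ ones K := by
        rw [Finset.prod_ite, Finset.prod_const, Finset.prod_const_one, mul_one]
        rfl

end Pool.Agent.Helper34.MVU
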