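import Pool.Agent.Helper34.MVU.GGb
import Pool.Agent.Helper34.MVU.Rprod
import Pool.Agent.Helper34.MVU.Stir
import Pool.Agent.Helper34.MVU.Xsum
import Pool.Agent.Helper34.MVU.X1
import Pool.Agent.Helper34.MVU.PfQQ
import Pool.Agent.Helper34.MVU.WickHf
import Pool.Agent.Helper34.MVU.Beta
import Pool.Agent.Helper34.MVU.DL

/-!
Project MV, block U, module U-T1 (TermLe): the general bound of a term.

PROOF. `E ≥ 1`, `S ∈ stp E` (so `S` is not empty), `L = dl S`, `l = card S`, `l' = L.length`.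
`|term K S| = (1/2)^l Π cc a |XK K L| |Wick (pfL QQ L)|` and
 - `Π cc a ≤ Π a!` (`cc_le_fact`, `cc_pos`);
 - `|XK K L| ≤ mt l' 2^(l'/2) (Π_i Σ_{a ∈ L} xx^(K i)) Π_{a ∈ L} (xx^(2a))⁻¹` (`XK_le` with
   `x = xx E`; `dl_pairwise`, `xx_mono`, `xx_pos`), the last product over `L` is the product over `S`
   (`prod_dl`, `(0^0)⁻¹ = 1`);
 - `|Wick (pfL QQ L)| ≤ Wick (hfL QQp L) ≤ GG (L.map (rr E)) (mt l' Π_{a ∈ L} (2a+1)(rr^a)⁻¹)`
   (`abs_Wick_pfL_le`, `Wick_hfL_le` with `rr_prop`, `rr_mono`).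
Collect: `(1/2)^l 2^(l'/2) ≤ 1` (`card_dl`: `l'/2 ≤ l`), `mt l' ^2 ≤ l'! ≤ (l+1)! ≤ Π_{a ∈ S} (a+1)`
(`mt_sq_le`, `prod_succ_ge`), `fact_prod_le`, `xsum_le`, `GG_le`, `rprod_le`, and for every `a ≥ 1`
`3a (a+1) (2a+1) ≤ 18 a^3`; for small `a`: `(3 * 6^λ * 2^a) * 2^a = 3 * 6^λ * 4^a`.
All factors are nonnegative.
-/

namespace Pool.Agent.Helper34.MVU

open Finset Pool.Agent.Helper60.MV

theorem maj_nonneg (E : ℕ) (S : Finset ℕ) : 0 ≤ maj E S := by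
  unfold maj
  refine mul_nonneg (mul_nonneg (by positivity) (Finset.prod_nonneg fun a _ => ?_))
    (Finset.prod_nonneg fun a _ => by positivity)
  positivity

private theorem combine {h c X Y G m x y r P1 P2 P3 P4 : ℝ}
    (hh0 : 0 ≤ h) (hc0 : 0 ≤ c) (hX0 : 0 ≤ X) (hY0 : 0 ≤ Y) (hG0 : 0 ≤ G) (hr0 : 0 ≤ r)
    (h1 : h ≤ 1) (h2 : m ≤ P1) (hm0 : 0 ≤ m) (h3 : X ≤ x) (h4 : c * Y ≤ P2)
    (h5 : G ≤ P3) (h6 : r ≤ P4) (hP : x * P1 * P2 * P3 * P4 ≤ y) :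
    h * m * X * (c * Y) * G * r ≤ y := by
  have hP1 : 0 ≤ P1 := hm0.trans h2
  have hx : 0 ≤ x := hX0.trans h3
  have hP2 : 0 ≤ P2 := (mul_nonneg hc0 hY0).trans h4
  have hP3 : 0 ≤ P3 := hG0.trans h5
  calc h * m * X * (c * Y) * G * r ≤ 1 * P1 * x * P2 * P3 * P4 := by
        gcongr
    _ = x * P1 * P2 * P3 * P4 := by ring
    _ ≤ y := hP

theorem term_le {ρ : Type} [Fintype ρ] (K : ρ → ℕ) (hK : ∀ i, Odd (K i)) (E : ℕ) (hE : 1 ≤ E)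
    (S : Finset ℕ) (hS : S ∈ stp E) :
    |term K S| ≤ 2 ^ (E + 1) * (E.factorial : ℝ) * (3 * (E : ℝ) ^ (1 / 3 : ℝ)) ^ ones K *
      maj E S := by
  obtain ⟨hS1, hSE⟩ := (mem_stp E S).1 hS
  have hne : 1 ≤ S.card := by
    rcases Nat.eq_zero_or_pos S.card with h0 | h0
    · rw [Finset.card_eq_zero.1 h0] at hSE
      simp at hSE
      omega
    · exact h0
  have hlen := card_dl S
  -- XK
  have hpw := dl_pairwise S hS1
  have hXK := XK_le K (dl S) (xx E) (fun a _ ha => xx_pos E hE a ha) (xx_zero E).ge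
    (hpw.imp fun {a b} hab => ⟨hab.le, fun _ => xx_mono E a b hab.le⟩)
  have hW := (abs_Wick_pfL_le (dl S)).trans (Wick_hfL_le (dl S) (rr E)
    (fun a _ => rr_prop E hE a)
    (hpw.imp fun {a b} hab hb => rr_mono E hE a b hb hab.le))
  have hY : ((dl S).map (fun a => (xx E a ^ (2 * a))⁻¹)).prod = ∏ a ∈ S, (xx E a ^ (2 * a))⁻¹ := by
    rw [prod_dl]
    simp
  rw [hY] at hXK
  set X : ℝ := ∏ i, ((dl S).map (fun a : ℕ => (xx E a) ^ K i)).sum with hXdef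
  set Y : ℝ := ∏ a ∈ S, (xx E a ^ (2 * a))⁻¹ with hYdef
  set G : ℝ := GG ((dl S).map (rr E)) with hGdef
  set r : ℝ := ((dl S).map (fun a : ℕ => (2 * (a : ℝ) + 1) * ((rr E a) ^ a)⁻¹)).prod with hrdef
  have hxx0 : ∀ a, 0 ≤ xx E a := fun a => by
    rcases Nat.eq_zero_or_pos a with h | h
    · rw [h, xx_zero]
    · exact (xx_pos E hE a (by omega)).le
  have hX0 : 0 ≤ X := by
    refine Finset.prod_nonneg fun i _ => List.sum_nonneg fun z hz => ?_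
    obtain ⟨a, _, rfl⟩ := List.mem_map.1 hz
    exact pow_nonneg (hxx0 a) _
  have hY0 : 0 ≤ Y := Finset.prod_nonneg fun a _ => inv_nonneg.2 (pow_nonneg (hxx0 a) _)
  have hG0 : 0 ≤ G := (Real.exp_pos _).le
  have hr0 : 0 ≤ r := by
    refine List.prod_nonneg fun z hz => ?_
    obtain ⟨a, _, rfl⟩ := List.mem_map.1 hz
    exact mul_nonneg (by positivity) (inv_nonneg.2 (pow_nonneg (rr_prop E hE a).1 _))
  have hc0 : (0 : ℝ) ≤ ∏ a ∈ S, cc a := Finset.prod_nonneg fun a _ => (cc_pos a).le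
  have hc1 : ∏ a ∈ S, cc a ≤ ∏ a ∈ S, (a.factorial : ℝ) :=
    Finset.prod_le_prod (fun a _ => (cc_pos a).le) fun a _ => cc_le_fact a
  have hCf0 : (0 : ℝ) ≤ ∏ a ∈ S, (a.factorial : ℝ) := by positivity
  have hterm : |term K S| ≤ ((1 / 2 : ℝ) ^ S.card * 2 ^ ((dl S).length / 2)) *
      ((mt (dl S).length : ℝ) ^ 2) * X * ((∏ a ∈ S, (a.factorial : ℝ)) * Y) * G * r := by
    unfold term
    rw [abs_mul, abs_mul, abs_mul, abs_of_nonneg hc0, abs_of_nonneg (by positivity : (0 : ℝ) ≤ (1 / 2) ^ S.card)]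
    calc (1 / 2 : ℝ) ^ S.card * (∏ a ∈ S, cc a) * |XK K (dl S)| * |Wick (pfL QQ (dl S))|
        ≤ (1 / 2 : ℝ) ^ S.card * (∏ a ∈ S, (a.factorial : ℝ)) *
          (mt (dl S).length * 2 ^ ((dl S).length / 2) * X * Y) *
          (G * (mt (dl S).length * r)) := by
          gcongr
      _ = _ := by ring
  refine hterm.trans ?_
  have e1 : (1 / 2 : ℝ) ^ S.card * 2 ^ ((dl S).length / 2) ≤ 1 := by
    rw [one_div, inv_pow, inv_mul_le_iff₀ (by positivity), mul_one]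
    exact pow_le_pow_right₀ (by norm_num) (by omega)
  have e2 : ((mt (dl S).length : ℝ) ^ 2) ≤ ∏ a ∈ S, ((a : ℝ) + 1) := by
    have h1 := mt_sq_le (dl S).length
    have h2 : (dl S).length.factorial ≤ (S.card + 1).factorial :=
      Nat.factorial_le (by omega)
    have h3 := h1.trans (h2.trans (prod_succ_ge S hS1))
    exact_mod_cast h3
  have e3 := xsum_le K hK E hE S hS
  have e4 : (∏ a ∈ S, (a.factorial : ℝ)) * Y ≤ (E.factorial : ℝ) *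
      ∏ a ∈ S, (3 * (a : ℝ) * ((a : ℝ) / (E : ℝ)) ^ ((a : ℝ) / 3)) := by
    rw [hYdef, ← Finset.prod_mul_distrib]
    exact fact_prod_le E hE S hS
  have e5 := GG_le E hE S hS
  have e6 := rprod_le E hE S hS
  refine combine (by positivity) hCf0 hX0 hY0 hG0 hr0 e1 e2 (by positivity) e3 e4 e5 e6 ?_
  -- final comparison
  have f1 : (∏ a ∈ S, ((a : ℝ) + 1)) *
      (∏ a ∈ S, (3 * (a : ℝ) * ((a : ℝ) / (E : ℝ)) ^ ((a : ℝ) / 3))) *
      (∏ a ∈ S, (2 * (a : ℝ) + 1)) ≤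
      ∏ a ∈ S, (18 * (a : ℝ) ^ 3 * ((a : ℝ) / (E : ℝ)) ^ ((a : ℝ) / 3)) := by
    rw [← Finset.prod_mul_distrib, ← Finset.prod_mul_distrib]
    refine Finset.prod_le_prod (fun a _ => by positivity) fun a ha => ?_
    have ha1 : (1 : ℝ) ≤ a := by exact_mod_cast hS1 a ha
    have hp : (0 : ℝ) ≤ ((a : ℝ) / (E : ℝ)) ^ ((a : ℝ) / 3) := by positivity
    have h7 : ((a : ℝ) + 1) * (3 * a) * (2 * a + 1) ≤ 18 * (a : ℝ) ^ 3 := by
      nlinarith [mul_nonneg (sub_nonneg.2 ha1) (by linarith : (0 : ℝ) ≤ a),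
        mul_nonneg (mul_nonneg (sub_nonneg.2 ha1) (by linarith : (0 : ℝ) ≤ a))
          (by linarith : (0 : ℝ) ≤ a)]
    calc ((a : ℝ) + 1) * (3 * (a : ℝ) * ((a : ℝ) / (E : ℝ)) ^ ((a : ℝ) / 3)) * (2 * (a : ℝ) + 1)
        = (((a : ℝ) + 1) * (3 * a) * (2 * a + 1)) * ((a : ℝ) / (E : ℝ)) ^ ((a : ℝ) / 3) := by ring
      _ ≤ _ := mul_le_mul_of_nonneg_right h7 hp
  have f2 : (∏ a ∈ sml E S, (3 * 6 ^ (lrg E S).card * (2 : ℝ) ^ a)) * (∏ a ∈ sml E S, (2 : ℝ) ^ a) =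
      ∏ a ∈ sml E S, (3 * 6 ^ (lrg E S).card * (4 : ℝ) ^ a) := by
    rw [← Finset.prod_mul_distrib]
    refine Finset.prod_congr rfl fun a _ => ?_
    rw [show (4 : ℝ) = 2 * 2 by norm_num, mul_pow]
    ring
  unfold maj
  rw [← f2]
  have g0 : (0 : ℝ) ≤ 2 ^ (E + 1) * (E.factorial : ℝ) * (3 * (E : ℝ) ^ (1 / 3 : ℝ)) ^ ones K *
      (4 * (E : ℝ)) ^ ((lrg E S).card + (lrg E S).card ^ 2) *
      ((∏ a ∈ sml E S, (3 * 6 ^ (lrg E S).card * (2 : ℝ) ^ a)) *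
        (∏ a ∈ sml E S, (2 : ℝ) ^ a)) := by positivity
  have g1 := mul_le_mul_of_nonneg_left f1 g0
  refine le_trans (le_of_eq ?_) (g1.trans (le_of_eq ?_))
  · ring
  · ring

end Pool.Agent.Helper34.MVU
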