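import Pool.Agent.Helper34.MVU.XMain
import Pool.Agent.Helper34.MVU.TermLe
import Pool.Agent.Helper34.MVU.SumA
import Pool.Agent.Helper34.MVU.SumB
import Pool.Agent.Helper34.MVU.SumC
import Pool.Agent.Helper34.MVU.Reg0

/-!
Project MV, block U: the final assembly.
-/

namespace Pool.Agent.Helper34.MVU

open Finset Filter Topology Pool.Agent.Helper60.MV

theorem pow_le_two_pow (M p : ℕ) : ∃ C : ℝ, 0 ≤ C ∧ ∀ k : ℕ, ((M : ℝ) + k + 1) ^ p ≤ C * 2 ^ k := by
  have h := (tendsto_pow_const_div_const_pow_of_one_lt p (r := (2:ℝ)) (by norm_num)).bddAbove_range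
  obtain ⟨B, hB⟩ := h
  refine ⟨max B 0 * 2 ^ (M + 1), by positivity, ?_⟩
  intro k
  have h1 : ((M + k + 1 : ℕ) : ℝ) ^ p / 2 ^ (M + k + 1) ≤ B := hB ⟨M + k + 1, rfl⟩
  have h2 : ((M + k + 1 : ℕ) : ℝ) ^ p ≤ max B 0 * 2 ^ (M + k + 1) := by
    rw [div_le_iff₀ (by positivity)] at h1
    exact h1.trans (mul_le_mul_of_nonneg_right (le_max_left _ _) (by positivity))
  calc ((M : ℝ) + k + 1) ^ p = ((M + k + 1 : ℕ) : ℝ) ^ p := by push_cast; ring
    _ ≤ max B 0 * 2 ^ (M + k + 1) := h2
    _ = max B 0 * 2 ^ (M + 1) * 2 ^ k := by ring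

/-- sets with a part `≥ E - s0` -/
noncomputable def nearS (E s0 : ℕ) : Finset (Finset ℕ) :=
  (stp E).filter (fun S => ∃ m ∈ S, m < E ∧ E ≤ m + s0)

theorem nearS_card (E s0 : ℕ) (hE : 2 * s0 + 2 ≤ E) : (nearS E s0).card ≤ 2 ^ s0 := by
  classical
  have h1 : (nearS E s0).card ≤ ((Icc 1 s0).powerset).card := by
    apply Finset.card_le_card_of_injOn (fun S => S.filter (fun a => a ≤ s0))
    · intro S hS
      simp only [nearS, coe_filter, Set.mem_setOf_eq] at hS
      obtain ⟨hS, -⟩ := hS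
      rw [mem_stp] at hS
      simp only [coe_powerset, Set.mem_preimage, Set.mem_powerset_iff, coe_filter]
      intro a ha
      simp only [Set.mem_setOf_eq] at ha
      simp only [coe_Icc, Set.mem_Icc]
      exact ⟨hS.1 a ha.1, ha.2⟩
    · intro S hS S' hS' heq
      simp only [nearS, coe_filter, Set.mem_setOf_eq] at hS hS'
      have key : ∀ S : Finset ℕ, (S ∈ stp E ∧ ∃ m ∈ S, m < E ∧ E ≤ m + s0) →
          S = insert (E - ∑ a ∈ S.filter (fun a => a ≤ s0), a) (S.filter (fun a => a ≤ s0)) := by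
        intro S hS
        obtain ⟨hS, m, hm, hmE, hm2⟩ := hS
        rw [mem_stp] at hS
        have hsum : m + ∑ a ∈ S.erase m, a = E := by
          rw [← hS.2]
          exact Finset.add_sum_erase S (fun a => a) hm
        have hf : S.filter (fun a => a ≤ s0) = S.erase m := by
          ext a
          simp only [mem_filter, mem_erase]
          constructor
          · rintro ⟨ha, ha2⟩
            exact ⟨by omega, ha⟩
          · rintro ⟨ha, ha2⟩
            refine ⟨ha2, ?_⟩
            have : a ≤ ∑ a ∈ S.erase m, a :=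
              Finset.single_le_sum (f := fun a => a) (fun _ _ => Nat.zero_le _)
                (Finset.mem_erase.mpr ⟨ha, ha2⟩)
            omega
        rw [hf]
        have hmm : E - ∑ a ∈ S.erase m, a = m := by omega
        rw [hmm, Finset.insert_erase hm]
      rw [key S hS, key S' hS']
      simp only at heq
      rw [heq]
  rw [Finset.card_powerset, Nat.card_Icc] at h1
  simpa using h1

theorem blockU (M : ℕ) : ∃ C : ℝ, 0 < C ∧ ∀ (k : ℕ) {ρ : Type} [Fintype ρ] (K : ρ → ℕ)
    (_ : ∀ i, Odd (K i)) (E : ℕ) (_ : ∑ i, K i = 2 * E) (_ : 1 ≤ E) (_ : ones K ≤ M + k),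
    |Ypoly K - mainE E| ≤ C * (C * (E : ℝ) ^ (1 / 3 : ℝ)) ^ k * (E : ℝ) ^ (-(1 / 2) : ℝ) * bE E := by
  classical
  obtain ⟨CA, hCA0, hCA⟩ := sumA_le (M + 2)
  obtain ⟨s0, CB, hCB0, hCB⟩ := sumB_le (M + 2)
  obtain ⟨CC, hCC0, hCC⟩ := sumC_le (M + 2)
  obtain ⟨C0, hC00, hC0⟩ := reg0 s0
  obtain ⟨C2, hC20, hC2⟩ := pow_le_two_pow M (2 * s0)
  set E0 := 2 * s0 + 2 with hE0
  set C3 : ℝ := ∑ E ∈ range E0, ∑ S ∈ stp E, maj E S with hC3
  have hC30 : 0 ≤ C3 := Finset.sum_nonneg (fun E _ => Finset.sum_nonneg (fun S _ => maj_nonneg E S))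
  set Ct : ℝ := 2 * 3 ^ M * (CA + CB + CC) + 2 ^ s0 * C0 * C2 + 2 * (E0 : ℝ) ^ (M + 2) * 3 ^ M * C3
    with hCt
  have hCt0 : 0 ≤ Ct := by positivity
  refine ⟨Ct + 3, by positivity, ?_⟩
  intro k ρ _ K hK E hE hE1 hones
  have hE1' : (1 : ℝ) ≤ E := by exact_mod_cast hE1
  have hEpos : (0 : ℝ) < E := by linarith
  set y : ℝ := (E : ℝ) ^ (1 / 3 : ℝ) with hy
  have hy1 : 1 ≤ y := Real.one_le_rpow hE1' (by norm_num)
  have hyE : y ≤ E := by
    calc y ≤ (E : ℝ) ^ (1 : ℝ) := Real.rpow_le_rpow_of_exponent_le hE1' (by norm_num)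
      _ = E := Real.rpow_one _
  set z : ℝ := (E : ℝ) ^ (-(1 / 2) : ℝ) with hz
  have hz0 : 0 < z := Real.rpow_pos_of_pos hEpos _
  have hbE : 0 < bE E := by unfold bE; positivity
  have hbE2 : 2 ^ (E + 1) * (E.factorial : ℝ) = 2 * E * bE E := by
    unfold bE
    obtain ⟨n, rfl⟩ : ∃ n, E = n + 1 := ⟨E - 1, by omega⟩
    rw [Nat.factorial_succ]
    push_cast
    ring
  have hEz : 1 / (E : ℝ) ≤ z := by
    have : (1 : ℝ) / E = (E : ℝ) ^ (-1 : ℝ) := by rw [Real.rpow_neg_one]; simp
    rw [this]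
    exact Real.rpow_le_rpow_of_exponent_le hE1' (by norm_num)
  -- the target
  suffices hmain : |Ypoly K - mainE E| ≤ Ct * (3 * y) ^ k * z * bE E by
    refine hmain.trans ?_
    apply mul_le_mul_of_nonneg_right _ hbE.le
    apply mul_le_mul_of_nonneg_right _ hz0.le
    apply mul_le_mul (by linarith) _ (by positivity) (by positivity)
    apply pow_le_pow_left₀ (by positivity)
    apply mul_le_mul_of_nonneg_right (by linarith) (by positivity)
  have hones' : (3 * y) ^ ones K ≤ 3 ^ M * (E : ℝ) ^ M * (3 * y) ^ k := by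
    calc (3 * y) ^ ones K ≤ (3 * y) ^ (M + k) := pow_le_pow_right₀ (by linarith) hones
      _ = (3 * y) ^ M * (3 * y) ^ k := pow_add _ _ _
      _ ≤ (3 * E) ^ M * (3 * y) ^ k := by
          apply mul_le_mul_of_nonneg_right _ (by positivity)
          apply pow_le_pow_left₀ (by positivity)
          linarith
      _ = 3 ^ M * (E : ℝ) ^ M * (3 * y) ^ k := by rw [mul_pow]
  have hmem : ({E} : Finset ℕ) ∈ stp E := by
    rw [mem_stp]
    simp [hE1]
  have hdiff : Ypoly K - mainE E = ∑ S ∈ (stp E).erase {E}, term K S := by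
    rw [Ypoly_eq K E hE, ← Finset.add_sum_erase (stp E) (term K) hmem,
      term_main K (fun i => (hK i).pos) E hE]
    ring
  rw [hdiff]
  refine (Finset.abs_sum_le_sum_abs _ _).trans ?_
  have hterm : ∀ S ∈ stp E, |term K S| ≤ 2 * E * bE E * (3 * y) ^ ones K * maj E S := by
    intro S hS
    have := term_le K hK E hE1 S hS
    rwa [hbE2] at this
  have hX0 : 0 ≤ 2 * (E : ℝ) * bE E * (3 * y) ^ ones K := by positivity
  rcases lt_or_ge E E0 with hlt | hge
  · -- small `E`
    have h1 : ∑ S ∈ (stp E).erase {E}, |term K S| ≤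
        2 * E * bE E * (3 * y) ^ ones K * ∑ S ∈ stp E, maj E S := by
      calc ∑ S ∈ (stp E).erase {E}, |term K S| ≤ ∑ S ∈ stp E, |term K S| :=
            Finset.sum_le_sum_of_subset_of_nonneg (Finset.erase_subset _ _)
              (fun _ _ _ => abs_nonneg _)
        _ ≤ ∑ S ∈ stp E, 2 * E * bE E * (3 * y) ^ ones K * maj E S :=
            Finset.sum_le_sum hterm
        _ = _ := by rw [Finset.mul_sum]
    have h2 : ∑ S ∈ stp E, maj E S ≤ C3 :=
      Finset.single_le_sum (f := fun E => ∑ S ∈ stp E, maj E S)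
        (fun E _ => Finset.sum_nonneg (fun S _ => maj_nonneg E S)) (Finset.mem_range.mpr hlt)
    have hE0' : (E : ℝ) ≤ E0 := by exact_mod_cast hlt.le
    calc ∑ S ∈ (stp E).erase {E}, |term K S|
        ≤ 2 * E * bE E * (3 * y) ^ ones K * C3 :=
          h1.trans (mul_le_mul_of_nonneg_left h2 hX0)
      _ ≤ 2 * E * bE E * (3 ^ M * (E : ℝ) ^ M * (3 * y) ^ k) * C3 := by
          apply mul_le_mul_of_nonneg_right _ hC30
          apply mul_le_mul_of_nonneg_left hones' (by positivity)
      _ = 2 * (E : ℝ) ^ (M + 2) * 3 ^ M * C3 * (3 * y) ^ k * (1 / E) * bE E := by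
          field_simp
          ring
      _ ≤ 2 * (E0 : ℝ) ^ (M + 2) * 3 ^ M * C3 * (3 * y) ^ k * z * bE E := by
          apply mul_le_mul_of_nonneg_right _ hbE.le
          apply mul_le_mul _ hEz (by positivity) (by positivity)
          apply mul_le_mul_of_nonneg_right _ (by positivity)
          apply mul_le_mul_of_nonneg_right _ hC30
          apply mul_le_mul_of_nonneg_right _ (by positivity)
          apply mul_le_mul_of_nonneg_left _ (by norm_num)
          exact pow_le_pow_left₀ hEpos.le hE0' _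
      _ ≤ Ct * (3 * y) ^ k * z * bE E := by
          apply mul_le_mul_of_nonneg_right _ hbE.le
          apply mul_le_mul_of_nonneg_right _ hz0.le
          apply mul_le_mul_of_nonneg_right _ (by positivity)
          rw [hCt]
          have : 0 ≤ 2 * 3 ^ M * (CA + CB + CC) + 2 ^ s0 * C0 * C2 := by positivity
          linarith
  · -- large `E`
    set fA := (stp E).filter (fun S => (lrg E S).card = 0) with hfA
    set fB := (stp E).filter (fun S => (lrg E S).card = 1 ∧ ∀ a ∈ S, a + s0 < E) with hfB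
    set fC := (stp E).filter (fun S => 2 ≤ (lrg E S).card) with hfC
    have hcover : (stp E).erase {E} ⊆ fA ∪ fB ∪ fC ∪ nearS E s0 := by
      intro S hS
      rw [Finset.mem_erase] at hS
      obtain ⟨hne, hS⟩ := hS
      simp only [Finset.mem_union, hfA, hfB, hfC, nearS, Finset.mem_filter]
      rcases Nat.lt_trichotomy (lrg E S).card 1 with h | h | h
      · exact Or.inl (Or.inl (Or.inl ⟨hS, by omega⟩))
      · by_cases hall : ∀ a ∈ S, a + s0 < E
        · exact Or.inl (Or.inl (Or.inr ⟨hS, h, hall⟩))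
        · push Not at hall
          obtain ⟨m, hm, hm2⟩ := hall
          refine Or.inr ⟨hS, m, hm, ?_, hm2⟩
          by_contra hcon
          push Not at hcon
          apply hne
          rw [mem_stp] at hS
          have hsum : m + ∑ a ∈ S.erase m, a = E := by
            rw [← hS.2]
            exact Finset.add_sum_erase S (fun a => a) hm
          have hz : ∑ a ∈ S.erase m, a = 0 := by omega
          have hemp : S.erase m = ∅ := by
            rw [Finset.eq_empty_iff_forall_notMem]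
            intro a ha
            have h3 : a ≤ ∑ a ∈ S.erase m, a :=
              Finset.single_le_sum (f := fun a => a) (fun _ _ => Nat.zero_le _) ha
            have h4 := hS.1 a (Finset.mem_of_mem_erase ha)
            omega
          have hmE : m = E := by omega
          rw [← Finset.insert_erase hm, hemp, hmE]
          rfl
      · exact Or.inl (Or.inr ⟨hS, by omega⟩)
    have hsplit : ∑ S ∈ (stp E).erase {E}, |term K S| ≤
        ∑ S ∈ fA, |term K S| + ∑ S ∈ fB, |term K S| + ∑ S ∈ fC, |term K S| +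
          ∑ S ∈ nearS E s0, |term K S| := by
      have hu : ∀ s t : Finset (Finset ℕ), ∑ S ∈ s ∪ t, |term K S| ≤
          ∑ S ∈ s, |term K S| + ∑ S ∈ t, |term K S| := by
        intro s t
        have := Finset.sum_union_inter (s₁ := s) (s₂ := t) (f := fun S => |term K S|)
        have h0 : 0 ≤ ∑ S ∈ s ∩ t, |term K S| := Finset.sum_nonneg (fun _ _ => abs_nonneg _)
        linarith
      refine (Finset.sum_le_sum_of_subset_of_nonneg hcover (fun _ _ _ => abs_nonneg _)).trans ?_
      refine (hu _ _).trans ?_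
      have h1 := hu (fA ∪ fB) fC
      have h2 := hu fA fB
      linarith
    have hpart : ∀ (f : Finset (Finset ℕ)) (D : ℝ), f ⊆ stp E → 0 ≤ D →
        ∑ S ∈ f, maj E S ≤ D / (E : ℝ) ^ (M + 2) →
        ∑ S ∈ f, |term K S| ≤ 2 * 3 ^ M * D * (3 * y) ^ k * z * bE E := by
      intro f D hf hD hs
      calc ∑ S ∈ f, |term K S| ≤ ∑ S ∈ f, 2 * E * bE E * (3 * y) ^ ones K * maj E S :=
            Finset.sum_le_sum (fun S hS => hterm S (hf hS))
        _ = 2 * E * bE E * (3 * y) ^ ones K * ∑ S ∈ f, maj E S := by rw [Finset.mul_sum]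
        _ ≤ 2 * E * bE E * (3 * y) ^ ones K * (D / (E : ℝ) ^ (M + 2)) :=
            mul_le_mul_of_nonneg_left hs hX0
        _ ≤ 2 * E * bE E * (3 ^ M * (E : ℝ) ^ M * (3 * y) ^ k) * (D / (E : ℝ) ^ (M + 2)) := by
            apply mul_le_mul_of_nonneg_right _ (by positivity)
            apply mul_le_mul_of_nonneg_left hones' (by positivity)
        _ = 2 * 3 ^ M * D * (3 * y) ^ k * (1 / E) * bE E := by
            field_simp
            ring
        _ ≤ 2 * 3 ^ M * D * (3 * y) ^ k * z * bE E := by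
            apply mul_le_mul_of_nonneg_right _ hbE.le
            apply mul_le_mul_of_nonneg_left hEz (by positivity)
    have hA := hpart fA CA (Finset.filter_subset _ _) hCA0 (hCA E hE1)
    have hB := hpart fB CB (Finset.filter_subset _ _) hCB0 (hCB E hE1)
    have hC := hpart fC CC (Finset.filter_subset _ _) hCC0 (hCC E hE1)
    have hD : ∑ S ∈ nearS E s0, |term K S| ≤ 2 ^ s0 * C0 * C2 * (3 * y) ^ k * z * bE E := by
      have h1 : ∀ S ∈ nearS E s0, |term K S| ≤ C0 * (C2 * (3 * y) ^ k) * z * bE E := by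
        intro S hS
        simp only [nearS, Finset.mem_filter] at hS
        obtain ⟨hS, m, hm, hmE, hm2⟩ := hS
        refine (hC0 K hK E hE hge S hS m hm hmE hm2).trans ?_
        apply mul_le_mul_of_nonneg_right _ hbE.le
        apply mul_le_mul_of_nonneg_right _ hz0.le
        apply mul_le_mul_of_nonneg_left _ hC00
        calc ((ones K : ℝ) + 1) ^ (2 * s0) ≤ ((M : ℝ) + k + 1) ^ (2 * s0) := by
              apply pow_le_pow_left₀ (by positivity)
              have : (ones K : ℝ) ≤ M + k := by exact_mod_cast hones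
              linarith
          _ ≤ C2 * 2 ^ k := hC2 k
          _ ≤ C2 * (3 * y) ^ k := by
              apply mul_le_mul_of_nonneg_left _ hC20
              exact pow_le_pow_left₀ (by norm_num) (by linarith) _
      calc ∑ S ∈ nearS E s0, |term K S| ≤ ∑ S ∈ nearS E s0, C0 * (C2 * (3 * y) ^ k) * z * bE E :=
            Finset.sum_le_sum h1
        _ = (nearS E s0).card * (C0 * (C2 * (3 * y) ^ k) * z * bE E) := by
            rw [Finset.sum_const, nsmul_eq_mul]
        _ ≤ 2 ^ s0 * (C0 * (C2 * (3 * y) ^ k) * z * bE E) := by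
            apply mul_le_mul_of_nonneg_right _ (by positivity)
            exact_mod_cast nearS_card E s0 hge
        _ = _ := by ring
    have hfin : 2 * 3 ^ M * CA * (3 * y) ^ k * z * bE E + 2 * 3 ^ M * CB * (3 * y) ^ k * z * bE E +
        2 * 3 ^ M * CC * (3 * y) ^ k * z * bE E + 2 ^ s0 * C0 * C2 * (3 * y) ^ k * z * bE E ≤
        Ct * (3 * y) ^ k * z * bE E := by
      have : 0 ≤ 2 * (E0 : ℝ) ^ (M + 2) * 3 ^ M * C3 * ((3 * y) ^ k * z * bE E) := by positivity
      rw [hCt]
      nlinarith [this]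
    linarith

end Pool.Agent.Helper34.MVU
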