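import Pool.Agent.Helper34.MVU.DL

/-!
Project MV, block U, module U-T1a (GGb): the factor `GG` for the radii `rr E a`.

PROOF. `E ≥ 1`, `S ∈ stp E`. The list `(dl S).map (rr E)` consists of `λ = card (lrg E S)` times
`ρ_L = 1/2 (1 - 1/(2E))`, `σ = card (sml E S)` times `1/4` and possibly one `0` (elements of `S` are
`≥ 1`). The exponent of `GG` is `1/2 Σ_r Σ_{r'} Phi (r + r')`, with `Phi z = -2 log (1 - z^2) ≥ 0`
increasing for `0 ≤ z < 1`. Since only the values matter (`prod_dl`, `sum_dl` of DL), it is equal to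
(`δ = card S % 2` is the number of zeros)
`1/2 (λ² Phi(2ρ_L) + 2λσ Phi(ρ_L+1/4) + 2λδ Phi(ρ_L) + σ² Phi(1/2) + 2σδ Phi(1/4) + δ Phi(0))`.
* `exp (1/2 Phi(2ρ_L)) = 1/(1-(1-1/(2E))²) = 4E²/(4E-1) ≤ 2E ≤ 4E`: first term `≤ (4E)^(λ²)`;
* `exp (Phi(ρ_L+1/4)) ≤ exp (Phi(3/4)) = (16/7)² ≤ 6`: second term `≤ 6^(λσ) = Π_{sml} 6^λ`;
* `exp (Phi(ρ_L)) ≤ exp (Phi(1/2)) = (4/3)² ≤ 2 ≤ 4E`: third term `≤ (4E)^λ`;
* `exp (1/2 Phi(1/2)) = 4/3`, `exp (σ²/2 Phi(1/2)) = (16/9)^(σ(σ-1)/2) (4/3)^σ ≤ 2^(σ(σ-1)/2) (4/3)^σ`,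
  and `σ(σ-1)/2 ≤ Σ_{a ∈ sml} a` (`card_sq_le` for `sml E S`): fourth term
  `≤ (4/3)^σ Π_{a ∈ sml} 2^a`;
* `exp (Phi(1/4)) = (16/15)² ≤ 2`: fifth term `≤ 2^σ`, `(4/3) * 2 ≤ 3`; `Phi 0 = 0`.
-/

namespace Pool.Agent.Helper34.MVU

open Finset Pool.Agent.Helper60.MV

private theorem Phi_le (z c : ℝ) (hc : 0 < c) (h : c ≤ 1 - z ^ 2) : Phi z ≤ -(2 * Real.log c) := by
  unfold Phi
  have := Real.log_le_log hc h
  linarith

private theorem Phi_zero : Phi 0 = 0 := by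
  unfold Phi
  norm_num

private theorem sum_rr (E : ℕ) (S : Finset ℕ) (hS : ∀ a ∈ S, 1 ≤ a) (g : ℝ → ℝ) :
    (((dl S).map (rr E)).map g).sum =
      ((lrg E S).card : ℝ) * g (1 / 2 * (1 - 1 / (2 * (E : ℝ)))) + ((sml E S).card : ℝ) * g (1 / 4) +
        (if S.card % 2 = 0 then 0 else 1) * g 0 := by
  have h0 : rr E 0 = 0 := by
    unfold rr
    rw [if_pos rfl]
  rw [List.map_map, sum_dl]
  have h1 : ∑ a ∈ S, (g ∘ rr E) a =
      ((lrg E S).card : ℝ) * g (1 / 2 * (1 - 1 / (2 * (E : ℝ)))) +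
        ((sml E S).card : ℝ) * g (1 / 4) := by
    rw [← Finset.sum_filter_add_sum_filter_not S (fun a => E < 4096 * a)]
    congr 1
    · have h2 : ∀ a ∈ S.filter (fun a => E < 4096 * a), (g ∘ rr E) a =
          g (1 / 2 * (1 - 1 / (2 * (E : ℝ)))) := by
        intro a ha
        rw [Finset.mem_filter] at ha
        have h3 := hS a ha.1
        unfold rr
        simp only [Function.comp_apply]
        rw [if_neg (by omega), if_pos ha.2]
      rw [Finset.sum_congr rfl h2, Finset.sum_const, nsmul_eq_mul]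
      rfl
    · have h2 : ∀ a ∈ S.filter (fun a => ¬ (E < 4096 * a)), (g ∘ rr E) a = g (1 / 4) := by
        intro a ha
        rw [Finset.mem_filter] at ha
        have h3 := hS a ha.1
        unfold rr
        simp only [Function.comp_apply]
        rw [if_neg (by omega), if_neg ha.2]
      rw [Finset.sum_congr rfl h2, Finset.sum_const, nsmul_eq_mul]
      rfl
  rw [h1]
  congr 1
  rw [Function.comp_apply, h0]
  split_ifs
  · rw [zero_mul]
  · rw [one_mul]

theorem GG_le (E : ℕ) (hE : 1 ≤ E) (S : Finset ℕ) (hS : S ∈ stp E) :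
    GG ((dl S).map (rr E)) ≤ (4 * (E : ℝ)) ^ ((lrg E S).card + (lrg E S).card ^ 2) *
      ∏ a ∈ sml E S, (3 * 6 ^ (lrg E S).card * 2 ^ a) := by
  have hS1 : ∀ a ∈ S, 1 ≤ a := ((mem_stp E S).1 hS).1
  have hE' : (1 : ℝ) ≤ E := by exact_mod_cast hE
  have hprod : 0 < (4 * (E : ℝ)) ^ ((lrg E S).card + (lrg E S).card ^ 2) *
      ∏ a ∈ sml E S, ((3 : ℝ) * 6 ^ (lrg E S).card * 2 ^ a) := by
    have h1 : 0 < ∏ a ∈ sml E S, ((3 : ℝ) * 6 ^ (lrg E S).card * 2 ^ a) :=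
      Finset.prod_pos fun a _ => by positivity
    positivity
  have hlog : Real.log ((4 * (E : ℝ)) ^ ((lrg E S).card + (lrg E S).card ^ 2) *
      ∏ a ∈ sml E S, ((3 : ℝ) * 6 ^ (lrg E S).card * 2 ^ a)) =
      (((lrg E S).card : ℝ) + ((lrg E S).card : ℝ) ^ 2) * Real.log (4 * E) +
        (((sml E S).card : ℝ) * (Real.log 3 + ((lrg E S).card : ℝ) * Real.log 6) +
          ((∑ a ∈ sml E S, a : ℕ) : ℝ) * Real.log 2) := by
    have h1 : ∀ a ∈ sml E S, ((3 : ℝ) * 6 ^ (lrg E S).card * 2 ^ a) ≠ 0 := fun a _ => by positivity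
    rw [Real.log_mul (by positivity) (Finset.prod_ne_zero_iff.2 h1), Real.log_pow,
      Real.log_prod h1]
    push_cast
    congr 1
    have h2 : ∀ a ∈ sml E S, Real.log ((3 : ℝ) * 6 ^ (lrg E S).card * 2 ^ a) =
        (Real.log 3 + ((lrg E S).card : ℝ) * Real.log 6) + (a : ℝ) * Real.log 2 := by
      intro a _
      rw [Real.log_mul (by positivity) (by positivity), Real.log_mul (by positivity) (by positivity),
        Real.log_pow, Real.log_pow]
    rw [Finset.sum_congr rfl h2, Finset.sum_add_distrib, Finset.sum_const, nsmul_eq_mul,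
      Finset.sum_mul]
  rw [← Real.exp_log hprod, hlog]
  unfold GG
  rw [Real.exp_le_exp]
  simp only [sum_rr E S hS1]
  have hsq : ((sml E S).card : ℝ) * (((sml E S).card : ℝ) + 1) ≤
      2 * ((∑ a ∈ sml E S, a : ℕ) : ℝ) := by
    exact_mod_cast card_sq_le (sml E S) (fun a ha => hS1 a (Finset.mem_filter.1 ha).1)
  set lam : ℝ := ((lrg E S).card : ℝ) with hlam
  set sg : ℝ := ((sml E S).card : ℝ) with hsg
  set sa : ℝ := ((∑ a ∈ sml E S, a : ℕ) : ℝ) with hsa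
  set dt : ℝ := (if S.card % 2 = 0 then 0 else 1) with hdt
  set ρ : ℝ := 1 / 2 * (1 - 1 / (2 * (E : ℝ))) with hρ
  have hlam0 : 0 ≤ lam := Nat.cast_nonneg _
  have hsg0 : 0 ≤ sg := Nat.cast_nonneg _
  have hdt0 : 0 ≤ dt := by rw [hdt]; split_ifs <;> norm_num
  have hdt1 : dt ≤ 1 := by rw [hdt]; split_ifs <;> norm_num
  have hu0 : 0 < 1 / (2 * (E : ℝ)) := by positivity
  have hu1 : 1 / (2 * (E : ℝ)) ≤ 1 / 2 := by
    rw [div_le_div_iff₀ (by positivity) (by norm_num)]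
    linarith
  set u : ℝ := 1 / (2 * (E : ℝ)) with hu
  have hρ0 : 0 ≤ ρ := by rw [hρ]; nlinarith
  have hρ1 : ρ ≤ 1 / 2 := by rw [hρ]; nlinarith
  have hlE : Real.log (2 * E) ≤ Real.log (4 * E) :=
    Real.log_le_log (by positivity) (by linarith)
  have b1 : Phi (ρ + ρ) ≤ 2 * Real.log (4 * E) := by
    have h1 : Phi (ρ + ρ) ≤ -(2 * Real.log u) := by
      refine Phi_le _ _ hu0 ?_
      have h2 : ρ + ρ = 1 - u := by rw [hρ]; ring
      rw [h2]
      nlinarith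
    have h3 : Real.log u = - Real.log (2 * E) := by
      rw [hu, one_div, Real.log_inv]
    rw [h3] at h1
    linarith
  have b2 : Phi (ρ + 1 / 4) ≤ Real.log 6 := by
    have h1 : Phi (ρ + 1 / 4) ≤ -(2 * Real.log (7 / 16)) := by
      refine Phi_le _ _ (by norm_num) ?_
      nlinarith
    have h2 : -(2 * Real.log (7 / 16)) = Real.log (256 / 49) := by
      have h3 : Real.log (256 / 49) = Real.log (((7 / 16 : ℝ) ^ 2)⁻¹) := by
        norm_num
      rw [h3, Real.log_inv, Real.log_pow]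
      push_cast
      ring
    have h4 : Real.log (256 / 49) ≤ Real.log 6 := Real.log_le_log (by norm_num) (by norm_num)
    linarith
  have b2' : Phi (1 / 4 + ρ) ≤ Real.log 6 := by rw [add_comm]; exact b2
  have h43 : ∀ z : ℝ, 0 ≤ z → z ≤ 1 / 2 → Phi z ≤ 2 * Real.log (4 / 3) := by
    intro z h0 h1
    have h2 : Phi z ≤ -(2 * Real.log (3 / 4)) := by
      refine Phi_le _ _ (by norm_num) ?_
      nlinarith
    have h3 : Real.log (3 / 4 : ℝ) = - Real.log (4 / 3) := by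
      rw [← Real.log_inv]
      norm_num
    rw [h3] at h2
    linarith
  have hl43 : 2 * Real.log (4 / 3) ≤ Real.log 2 := by
    have h1 : 2 * Real.log (4 / 3) = Real.log ((4 / 3 : ℝ) ^ 2) := by
      rw [Real.log_pow]
      push_cast
      ring
    rw [h1]
    exact Real.log_le_log (by norm_num) (by norm_num)
  have hl43p : 0 ≤ Real.log (4 / 3) := Real.log_nonneg (by norm_num)
  have hl2 : Real.log 2 ≤ Real.log (4 * E) := Real.log_le_log (by norm_num) (by linarith)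
  have hl2p : 0 ≤ Real.log 2 := Real.log_nonneg (by norm_num)
  have b3 : Phi (ρ + 0) ≤ Real.log (4 * E) := by
    rw [add_zero]
    have := h43 ρ hρ0 hρ1
    linarith
  have b3' : Phi (0 + ρ) ≤ Real.log (4 * E) := by rw [add_comm]; exact b3
  have b4 : Phi (1 / 4 + 1 / 4) ≤ 2 * Real.log (4 / 3) := h43 _ (by norm_num) (by norm_num)
  have h1615 : ∀ z : ℝ, z = 1 / 4 → Phi z ≤ 2 * Real.log (16 / 15) := by
    intro z hz
    have h2 : Phi z ≤ -(2 * Real.log (15 / 16)) := by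
      refine Phi_le _ _ (by norm_num) ?_
      rw [hz]
      norm_num
    have h3 : Real.log (15 / 16 : ℝ) = - Real.log (16 / 15) := by
      rw [← Real.log_inv]
      norm_num
    rw [h3] at h2
    linarith
  have b5 : Phi (1 / 4 + 0) ≤ 2 * Real.log (16 / 15) := h1615 _ (by norm_num)
  have b5' : Phi (0 + 1 / 4) ≤ 2 * Real.log (16 / 15) := h1615 _ (by norm_num)
  have b6 : Phi (0 + 0) = 0 := by rw [add_zero]; exact Phi_zero
  have hl3 : Real.log (4 / 3) + 2 * Real.log (16 / 15) ≤ Real.log 3 := by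
    have h1 : Real.log (4 / 3) + 2 * Real.log (16 / 15) =
        Real.log ((4 / 3 : ℝ) * (16 / 15) ^ 2) := by
      rw [Real.log_mul (by norm_num) (by norm_num), Real.log_pow]
      push_cast
      ring
    rw [h1]
    exact Real.log_le_log (by norm_num) (by norm_num)
  have hl1615p : 0 ≤ Real.log (16 / 15) := Real.log_nonneg (by norm_num)
  have hlEp : 0 ≤ Real.log (4 * E) := hl2p.trans hl2
  have hsa0 : 0 ≤ sa := Nat.cast_nonneg _
  -- the six products
  have c1 : lam * (lam * Phi (ρ + ρ)) ≤ lam * (lam * (2 * Real.log (4 * E))) :=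
    mul_le_mul_of_nonneg_left (mul_le_mul_of_nonneg_left b1 hlam0) hlam0
  have c2 : lam * (sg * Phi (ρ + 1 / 4)) ≤ lam * (sg * Real.log 6) :=
    mul_le_mul_of_nonneg_left (mul_le_mul_of_nonneg_left b2 hsg0) hlam0
  have c2' : sg * (lam * Phi (1 / 4 + ρ)) ≤ sg * (lam * Real.log 6) :=
    mul_le_mul_of_nonneg_left (mul_le_mul_of_nonneg_left b2' hlam0) hsg0
  have c3 : lam * (dt * Phi (ρ + 0)) ≤ lam * Real.log (4 * E) := by
    refine mul_le_mul_of_nonneg_left ?_ hlam0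
    calc dt * Phi (ρ + 0) ≤ dt * Real.log (4 * E) := mul_le_mul_of_nonneg_left b3 hdt0
      _ ≤ 1 * Real.log (4 * E) := mul_le_mul_of_nonneg_right hdt1 hlEp
      _ = _ := one_mul _
  have c3' : dt * (lam * Phi (0 + ρ)) ≤ lam * Real.log (4 * E) := by
    have h1 : lam * Phi (0 + ρ) ≤ lam * Real.log (4 * E) := mul_le_mul_of_nonneg_left b3' hlam0
    calc dt * (lam * Phi (0 + ρ)) ≤ dt * (lam * Real.log (4 * E)) :=
          mul_le_mul_of_nonneg_left h1 hdt0
      _ ≤ 1 * (lam * Real.log (4 * E)) :=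
          mul_le_mul_of_nonneg_right hdt1 (mul_nonneg hlam0 hlEp)
      _ = _ := one_mul _
  have c4 : sg * (sg * Phi (1 / 4 + 1 / 4)) ≤ sg * (sg * (2 * Real.log (4 / 3))) :=
    mul_le_mul_of_nonneg_left (mul_le_mul_of_nonneg_left b4 hsg0) hsg0
  have c5 : sg * (dt * Phi (1 / 4 + 0)) ≤ sg * (2 * Real.log (16 / 15)) := by
    refine mul_le_mul_of_nonneg_left ?_ hsg0
    calc dt * Phi (1 / 4 + 0) ≤ dt * (2 * Real.log (16 / 15)) := mul_le_mul_of_nonneg_left b5 hdt0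
      _ ≤ 1 * (2 * Real.log (16 / 15)) := mul_le_mul_of_nonneg_right hdt1 (by positivity)
      _ = _ := one_mul _
  have c5' : dt * (sg * Phi (0 + 1 / 4)) ≤ sg * (2 * Real.log (16 / 15)) := by
    have h1 : sg * Phi (0 + 1 / 4) ≤ sg * (2 * Real.log (16 / 15)) :=
      mul_le_mul_of_nonneg_left b5' hsg0
    calc dt * (sg * Phi (0 + 1 / 4)) ≤ dt * (sg * (2 * Real.log (16 / 15))) :=
          mul_le_mul_of_nonneg_left h1 hdt0
      _ ≤ 1 * (sg * (2 * Real.log (16 / 15))) :=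
          mul_le_mul_of_nonneg_right hdt1 (mul_nonneg hsg0 (by positivity))
      _ = _ := one_mul _
  have c6 : sg * (sg * Real.log (4 / 3)) ≤ sa * Real.log 2 + sg * Real.log (4 / 3) := by
    have h1 : sg * (sg - 1) ≤ 2 * sa := by nlinarith
    have h2 : sg * (sg - 1) * Real.log (4 / 3) ≤ 2 * sa * Real.log (4 / 3) :=
      mul_le_mul_of_nonneg_right h1 hl43p
    have h3 : sa * (2 * Real.log (4 / 3)) ≤ sa * Real.log 2 :=
      mul_le_mul_of_nonneg_left hl43 hsa0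
    nlinarith
  have c7 : sg * (Real.log (4 / 3) + 2 * Real.log (16 / 15)) ≤ sg * Real.log 3 :=
    mul_le_mul_of_nonneg_left hl3 hsg0
  rw [b6, mul_zero]
  nlinarith [c1, c2, c2', c3, c3', c4, c5, c5', c6, c7]

end Pool.Agent.Helper34.MVU
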