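import Pool.Agent.Helper34.MVU.Zeta1

/-!
Project MV, block U, module U-As2b (HSeq): the sequence `hs` with generating function
`exp (1/2 Σ_{i ≥ 1} (ζ(2i) - 1) w^i / i)`; its sum is `√2`.

PROOFS. Put `a i = zet (2 (i+1)) - 1`, `0 ≤ a i ≤ (1/4)^i` (Zeta1).
* `hs_rec`: unfold. `hs_nonneg`: strong induction.
* `hs_bound`: `v m = 3^m hs m` satisfies `2 (m+1) v(m+1) = Σ_{i ≤ m} 3^(i+1) a i v(m-i)` and
  `Σ_i 3^(i+1) a i ≤ Σ_i 3 (3/4)^i = 12`. Hence for `m + 1 ≥ 6` we have `v(m+1) ≤ max_{j ≤ m} v j`;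
  by strong induction `v m ≤ C := v 0 + … + v 5` for all `m`.
* `hs_sum`: for `|x| < 3` let `H x = Σ hs m x^m`, `A x = Σ a i x^i`, `G x = 1/2 Σ a i x^(i+1)/(i+1)`
  (all converge absolutely, radius at least `3`). Termwise differentiation gives
  `H' x = Σ (m+1) hs (m+1) x^m = 1/2 Σ_m x^m Σ_{i ≤ m} a i hs (m-i) = 1/2 A x * H x` (Cauchy
  product, `tsum_mul_tsum_eq_tsum_sum_range_of_summable_norm`), `G' x = 1/2 A x`. So
  `H x exp (- G x)` has derivative zero on `(-3,3)` and `H 1 = H 0 exp (G 1 - G 0) = exp (G 1)`,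
  and `G 1 = 1/2 log 2` by `hasSum_log_two`, `exp (1/2 log 2) = √2`.
  (Derivative of a power series in Mathlib: `hasDerivAt_tsum_of_isPreconnected`, or
  `HasFPowerSeriesOnBall` of `FormalMultilinearSeries.ofScalars`. Variant without derivatives of
  series: for `N`, `S N = Σ_{m ≤ N} hs m` etc.; any proof is fine.)
-/

namespace Pool.Agent.Helper34.MVU

open Finset Filter Topology Pool.Agent.Helper60.MV

/-- coefficients of `exp (1/2 Σ_{i ≥ 1} (ζ(2i) - 1) w^i / i)` -/
noncomputable def hs : ℕ → ℝ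
  | 0 => 1
  | m + 1 => (∑ i : Fin (m + 1), (zet (2 * ((i : ℕ) + 1)) - 1) * hs (m - i)) / (2 * ((m : ℝ) + 1))
termination_by n => n
decreasing_by omega

theorem hs_rec (m : ℕ) : (2 * ((m : ℝ) + 1)) * hs (m + 1) =
    ∑ i ∈ range (m + 1), (zet (2 * (i + 1)) - 1) * hs (m - i) := by
  have h : (2 * ((m : ℝ) + 1)) ≠ 0 := by positivity
  rw [hs, mul_div_cancel₀ _ h, ← Fin.sum_univ_eq_sum_range
    (fun i => (zet (2 * (i + 1)) - 1) * hs (m - i))]

private theorem hseq_a_nonneg (i : ℕ) : 0 ≤ zet (2 * (i + 1)) - 1 := by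
  have := one_le_zet (2 * (i + 1)) (by omega)
  linarith

theorem hs_nonneg (m : ℕ) : 0 ≤ hs m := by
  induction m using Nat.strong_induction_on with
  | _ m ih =>
    rcases m with _ | m
    · rw [hs]
      exact zero_le_one
    · have h := hs_rec m
      have h1 : 0 ≤ ∑ i ∈ range (m + 1), (zet (2 * (i + 1)) - 1) * hs (m - i) :=
        Finset.sum_nonneg (fun i _ => mul_nonneg (hseq_a_nonneg i) (ih _ (by omega)))
      rw [← h] at h1
      have h2 : (0:ℝ) < 2 * ((m : ℝ) + 1) := by positivity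
      exact nonneg_of_mul_nonneg_right h1 h2

private theorem hseq_sum_le (m : ℕ) :
    ∑ i ∈ range (m + 1), 3 ^ (i + 1) * (zet (2 * (i + 1)) - 1) ≤ 12 := by
  have h1 : ∀ i ∈ range (m + 1), 3 ^ (i + 1) * (zet (2 * (i + 1)) - 1) ≤
      3 * (3 / 4 : ℝ) ^ i := by
    intro i _
    have h2 := zet_sub_one_le i
    calc (3:ℝ) ^ (i + 1) * (zet (2 * (i + 1)) - 1) ≤ 3 ^ (i + 1) * (1 / 4) ^ i :=
          mul_le_mul_of_nonneg_left h2 (by positivity)
      _ = 3 * (3 / 4 : ℝ) ^ i := by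
          rw [pow_succ, mul_comm ((3:ℝ) ^ i) 3, mul_assoc, ← mul_pow]
          norm_num
  refine (Finset.sum_le_sum h1).trans ?_
  rw [← Finset.mul_sum]
  have h3 : ∑ i ∈ range (m + 1), (3 / 4 : ℝ) ^ i ≤ 4 := by
    rw [geom_sum_eq (by norm_num)]
    have : (0:ℝ) ≤ (3 / 4 : ℝ) ^ (m + 1) := by positivity
    rw [div_le_iff_of_neg (by norm_num)]
    linarith
  linarith

theorem hs_bound : ∃ C : ℝ, ∀ m, hs m ≤ C * (1 / 3) ^ m := by
  refine ⟨∑ j ∈ range 6, 3 ^ j * hs j, ?_⟩
  set C := ∑ j ∈ range 6, 3 ^ j * hs j with hC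
  have hC0 : 0 ≤ C := Finset.sum_nonneg (fun j _ => mul_nonneg (by positivity) (hs_nonneg j))
  have key : ∀ m, 3 ^ m * hs m ≤ C := by
    intro m
    induction m using Nat.strong_induction_on with
    | _ m ih =>
      by_cases hm : m < 6
      · rw [hC]
        exact Finset.single_le_sum (f := fun j => (3:ℝ) ^ j * hs j)
          (fun j _ => mul_nonneg (by positivity) (hs_nonneg j)) (Finset.mem_range.mpr hm)
      · obtain ⟨k, rfl⟩ : ∃ k, m = k + 1 := ⟨m - 1, by omega⟩
        have h1 : (2 * ((k : ℝ) + 1)) * (3 ^ (k + 1) * hs (k + 1)) =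
            ∑ i ∈ range (k + 1), (3 ^ (i + 1) * (zet (2 * (i + 1)) - 1)) *
              (3 ^ (k - i) * hs (k - i)) := by
          rw [mul_left_comm, hs_rec, Finset.mul_sum]
          refine Finset.sum_congr rfl (fun i hi => ?_)
          rw [Finset.mem_range] at hi
          have h2 : (3:ℝ) ^ (k + 1) = 3 ^ (i + 1) * 3 ^ (k - i) := by
            rw [← pow_add]
            congr 1
            omega
          rw [h2]
          ring
        have h3 : (2 * ((k : ℝ) + 1)) * (3 ^ (k + 1) * hs (k + 1)) ≤ 12 * C := by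
          rw [h1]
          calc ∑ i ∈ range (k + 1), (3 ^ (i + 1) * (zet (2 * (i + 1)) - 1)) *
              (3 ^ (k - i) * hs (k - i)) ≤
              ∑ i ∈ range (k + 1), (3 ^ (i + 1) * (zet (2 * (i + 1)) - 1)) * C := by
                refine Finset.sum_le_sum (fun i _ => ?_)
                exact mul_le_mul_of_nonneg_left (ih _ (by omega))
                  (mul_nonneg (by positivity) (hseq_a_nonneg i))
            _ ≤ 12 * C := by
                rw [← Finset.sum_mul]
                exact mul_le_mul_of_nonneg_right (hseq_sum_le k) hC0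
        have h4 : (5:ℝ) ≤ k := by
          have : 5 ≤ k := by omega
          exact_mod_cast this
        have h5 : 0 ≤ 3 ^ (k + 1) * hs (k + 1) := mul_nonneg (by positivity) (hs_nonneg _)
        nlinarith
  intro m
  have h := key m
  have h3 : (0:ℝ) < 3 ^ m := by positivity
  rw [one_div, inv_pow, ← div_eq_mul_inv, le_div_iff₀ h3, mul_comm]
  exact h

private theorem hseq_deriv (c : ℕ → ℝ) (C : ℝ) (hc : ∀ m, |c m| ≤ C * (1 / 3) ^ m) (x : ℝ)
    (hx : x ∈ Set.Ioo (-2 : ℝ) 2) :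
    HasDerivAt (fun z : ℝ => ∑' m, c m * z ^ m) (∑' m : ℕ, ((m : ℝ) + 1) * c (m + 1) * x ^ m) x := by
  have hC : 0 ≤ C := by
    have := (abs_nonneg _).trans (hc 0)
    simpa using this
  have hu : Summable (fun n : ℕ => C * ((n : ℝ) ^ 1 * (2 / 3 : ℝ) ^ n)) :=
    (summable_pow_mul_geometric_of_norm_lt_one 1 (by norm_num)).mul_left C
  have hg' : ∀ (n : ℕ) (y : ℝ), y ∈ Set.Ioo (-2 : ℝ) 2 →
      ‖c n * ((n : ℝ) * y ^ (n - 1))‖ ≤ C * ((n : ℝ) ^ 1 * (2 / 3 : ℝ) ^ n) := by
    intro n y hy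
    have hy2 : |y| ≤ 2 := by
      rw [abs_le]
      exact ⟨hy.1.le, hy.2.le⟩
    rw [Real.norm_eq_abs, abs_mul, abs_mul, abs_pow, Nat.abs_cast, pow_one]
    have h1 : |y| ^ (n - 1) ≤ 2 ^ n := by
      calc |y| ^ (n - 1) ≤ 2 ^ (n - 1) := pow_le_pow_left₀ (abs_nonneg _) hy2 _
        _ ≤ 2 ^ n := pow_le_pow_right₀ (by norm_num) (by omega)
    calc |c n| * ((n : ℝ) * |y| ^ (n - 1)) ≤ (C * (1 / 3) ^ n) * ((n : ℝ) * 2 ^ n) := by
          apply mul_le_mul (hc n)
          · exact mul_le_mul_of_nonneg_left h1 (Nat.cast_nonneg n)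
          · positivity
          · positivity
      _ = C * ((n : ℝ) * (2 / 3 : ℝ) ^ n) := by
          rw [show (2 / 3 : ℝ) = (1 / 3) * 2 by norm_num, mul_pow]
          ring
  have hd := hasDerivAt_tsum_of_isPreconnected (t := Set.Ioo (-2 : ℝ) 2)
    (g := fun (n : ℕ) (z : ℝ) => c n * z ^ n)
    (g' := fun (n : ℕ) (z : ℝ) => c n * ((n : ℝ) * z ^ (n - 1))) (y₀ := 0) (y := x)
    hu isOpen_Ioo isPreconnected_Ioo
    (fun n y _ => (hasDerivAt_pow n y).const_mul (c n)) hg' (by constructor <;> norm_num)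
    (by
      apply summable_of_ne_finset_zero (s := {0})
      intro b hb
      rw [Finset.mem_singleton] at hb
      rw [zero_pow hb, mul_zero]) hx
  have hs : Summable (fun n : ℕ => c n * ((n : ℝ) * x ^ (n - 1))) :=
    Summable.of_norm_bounded hu (fun n => hg' n x hx)
  rw [hs.tsum_eq_zero_add] at hd
  simp only [Nat.cast_zero, zero_mul, mul_zero, zero_add, Nat.cast_add, Nat.cast_one,
    Nat.add_sub_cancel] at hd
  have he : (∑' b : ℕ, c (b + 1) * (((b : ℝ) + 1) * x ^ b)) =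
      ∑' m : ℕ, ((m : ℝ) + 1) * c (m + 1) * x ^ m := by
    refine tsum_congr (fun m => ?_)
    ring
  rw [he] at hd
  exact hd

private theorem hseq_summable (c : ℕ → ℝ) (C : ℝ) (hc : ∀ m, |c m| ≤ C * (1 / 3) ^ m) (x : ℝ)
    (hx : x ∈ Set.Ioo (-2 : ℝ) 2) : Summable (fun m : ℕ => ‖c m * x ^ m‖) := by
  have hC : 0 ≤ C := by
    have := (abs_nonneg _).trans (hc 0)
    simpa using this
  have hy2 : |x| ≤ 2 := by
    rw [abs_le]
    exact ⟨hx.1.le, hx.2.le⟩
  refine Summable.of_nonneg_of_le (fun m => norm_nonneg _) (fun m => ?_)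
    ((summable_geometric_of_lt_one (r := (2 / 3 : ℝ)) (by norm_num) (by norm_num)).mul_left C)
  rw [Real.norm_eq_abs, abs_mul, abs_pow]
  calc |c m| * |x| ^ m ≤ (C * (1 / 3) ^ m) * 2 ^ m := by
        apply mul_le_mul (hc m) (pow_le_pow_left₀ (abs_nonneg _) hy2 _)
        · positivity
        · positivity
    _ = C * (2 / 3 : ℝ) ^ m := by
        rw [show (2 / 3 : ℝ) = (1 / 3) * 2 by norm_num, mul_pow]
        ring

/-- the logarithm coefficients -/
private noncomputable def hseqL : ℕ → ℝ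
  | 0 => 0
  | i + 1 => (zet (2 * (i + 1)) - 1) / ((i : ℝ) + 1) / 2

private theorem hseqL_bound (m : ℕ) : |hseqL m| ≤ 4 * (1 / 3) ^ m := by
  rcases m with _ | i
  · simp [hseqL]
  · have h0 := hseq_a_nonneg i
    have h1 := zet_sub_one_le i
    have h2 : 0 ≤ hseqL (i + 1) := by
      rw [hseqL]
      positivity
    rw [abs_of_nonneg h2, hseqL]
    have h3 : (zet (2 * (i + 1)) - 1) / ((i : ℝ) + 1) / 2 ≤ zet (2 * (i + 1)) - 1 := by
      rw [div_div]
      apply div_le_self h0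
      have : (0:ℝ) ≤ i := Nat.cast_nonneg i
      linarith
    have h4 : (1 / 4 : ℝ) ^ i ≤ (1 / 3) ^ i :=
      pow_le_pow_left₀ (by norm_num) (by norm_num) _
    have h5 : (4:ℝ) * (1 / 3) ^ (i + 1) = 4 / 3 * (1 / 3) ^ i := by
      rw [pow_succ]
      ring
    have h6 : (0:ℝ) ≤ (1 / 3) ^ i := by positivity
    rw [h5]
    linarith

theorem hs_sum : HasSum hs (Real.sqrt 2) := by
  obtain ⟨C, hC⟩ := hs_bound
  have hC' : ∀ m, |hs m| ≤ C * (1 / 3) ^ m := fun m => by
    rw [abs_of_nonneg (hs_nonneg m)]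
    exact hC m
  have ha' : ∀ m : ℕ, |zet (2 * (m + 1)) - 1| ≤ 1 * (1 / 3) ^ m := fun m => by
    rw [abs_of_nonneg (hseq_a_nonneg m), one_mul]
    exact (zet_sub_one_le m).trans (pow_le_pow_left₀ (by norm_num) (by norm_num) _)
  set F : ℝ → ℝ := fun x => (∑' m, hs m * x ^ m) * Real.exp (-(∑' m, hseqL m * x ^ m)) with hF
  have hder : ∀ x ∈ Set.Ioo (-2 : ℝ) 2, HasDerivAt F 0 x := by
    intro x hx
    have h1 := hseq_deriv hs C hC' x hx
    have h2 := hseq_deriv hseqL 4 hseqL_bound x hx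
    have h3 := h1.mul (h2.neg.exp)
    have e1 : (∑' m : ℕ, ((m : ℝ) + 1) * hs (m + 1) * x ^ m) =
        1 / 2 * ((∑' i : ℕ, (zet (2 * (i + 1)) - 1) * x ^ i) * ∑' m, hs m * x ^ m) := by
      rw [tsum_mul_tsum_eq_tsum_sum_range_of_summable_norm
        (hseq_summable _ 1 ha' x hx) (hseq_summable _ C hC' x hx), ← tsum_mul_left]
      refine tsum_congr (fun m => ?_)
      have h4 := hs_rec m
      have h5 : ((m : ℝ) + 1) * hs (m + 1) =
          1 / 2 * ∑ i ∈ range (m + 1), (zet (2 * (i + 1)) - 1) * hs (m - i) := by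
        rw [← h4]
        ring
      rw [h5, mul_assoc, Finset.sum_mul]
      congr 1
      refine Finset.sum_congr rfl (fun i hi => ?_)
      rw [Finset.mem_range] at hi
      have h6 : x ^ m = x ^ i * x ^ (m - i) := by
        rw [← pow_add]
        congr 1
        omega
      rw [h6]
      ring
    have e2 : (∑' m : ℕ, ((m : ℝ) + 1) * hseqL (m + 1) * x ^ m) =
        1 / 2 * (∑' i : ℕ, (zet (2 * (i + 1)) - 1) * x ^ i) := by
      rw [← tsum_mul_left]
      refine tsum_congr (fun m => ?_)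
      rw [hseqL]
      have : ((m : ℝ) + 1) ≠ 0 := by positivity
      field_simp
    rw [e1, e2] at h3
    refine h3.congr_deriv ?_
    ring
  have hconst : F 1 = F 0 := by
    apply IsOpen.is_const_of_deriv_eq_zero (s := Set.Ioo (-2 : ℝ) 2) isOpen_Ioo isPreconnected_Ioo
    · intro x hx
      exact (hder x hx).differentiableAt.differentiableWithinAt
    · intro x hx
      exact (hder x hx).deriv
    · constructor <;> norm_num
    · constructor <;> norm_num
  have hS : Summable hs := by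
    have := hseq_summable hs C hC' 1 (by constructor <;> norm_num)
    simp only [one_pow, mul_one] at this
    exact this.of_norm
  have hz : ∀ c : ℕ → ℝ, (∑' m, c m * (0:ℝ) ^ m) = c 0 := by
    intro c
    rw [tsum_eq_single 0]
    · simp
    · intro b hb
      rw [zero_pow hb, mul_zero]
  have hL : (∑' m, hseqL m * (1:ℝ) ^ m) = Real.log 2 / 2 := by
    have hsum : HasSum (fun i => hseqL (i + 1)) (Real.log 2 / 2) := by
      simp only [hseqL]
      exact hasSum_log_two.div_const 2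
    have hsum2 : HasSum hseqL (Real.log 2 / 2) := by
      have := (hasSum_nat_add_iff (f := hseqL) 1).mp hsum
      simpa [hseqL] using this
    simp only [one_pow, mul_one]
    exact hsum2.tsum_eq
  have h1 : (∑' m, hs m) = Real.sqrt 2 := by
    rw [hF] at hconst
    simp only [hz, hL] at hconst
    simp only [one_pow, mul_one, hseqL, neg_zero, Real.exp_zero] at hconst
    have h0 : hs 0 = 1 := by rw [hs]
    rw [h0, Real.exp_neg, ← div_eq_mul_inv, div_eq_one_iff_eq (Real.exp_ne_zero _),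
      Real.exp_half, Real.exp_log (by norm_num)] at hconst
    exact hconst
  rw [← h1]
  exact hS.hasSum

end Pool.Agent.Helper34.MVU
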