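import Pool.Agent.Helper34.MVU.WickLin

/-!
Project MV, block U, module U-W2 (HfPerm): hafnians of symmetric arrays are invariant under
permutations of the list; Wick's rule.

PROOFS.
* `hfL_perm`: by strong induction on the length. Recall
  `hfL A (x :: xs) = Σ_{j < xs.length} A x xs[j] * hfL A (xs.eraseIdx j)` (unfold with `rw [hfL]`).
  It is enough (induction on `List.Perm`) to treat
  (cons) `x :: xs` and `x :: ys` with `xs.Perm ys`: the sum over `j` of `xs` corresponds to the sum
  over the positions of `ys` through a bijection `j ↦ j'` with `xs[j] = ys[j']` and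
  `(xs.eraseIdx j).Perm (ys.eraseIdx j')`, use the induction hypothesis for the shorter lists
  (so do first an induction on a bound `n` of the length, inside it the induction on `Perm`);
  simplest is to write the sum as a sum over the multiset of splits, or to do (cons) itself by
  induction on `xs.Perm ys`, with general statement: for every `F : α → List α → R` such that
  `F y l = F y l'` for `l.Perm l'`, `Σ_j F xs[j] (xs.eraseIdx j)` is invariant under permutations
  of `xs` (this is proved by induction on `Perm`: nil; cons: split off `j = 0`; swap; trans);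
  (swap) `x :: y :: zs` and `y :: x :: zs`: both are
  `A x y * hfL A zs + Σ_{j ≠ k} A x zs[j] * A y zs[k] * hfL A (zs minus j, k)`; after splitting off
  the term `j = 0` and unfolding `hfL A (y :: zs.eraseIdx j)` exchange the two sums.
* `wv_add_single`: `wv m = hfL Cov m.toMultiset.toList`. The list of `single k 1 + m` is a
  permutation of `k :: m.toMultiset.toList` (`Finsupp.toMultiset_add`, `Multiset.coe_toList`,
  `Multiset.coe_eq_coe`), so by `hfL_perm`
  `wv (single k 1 + m) = Σ_j Cov k l_j * hfL Cov (list minus position j)`, and the list minus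
  position `j` is a permutation of the list of `m - single l_j 1`; the value `l` occurs `m l` times.
* `Wick_X_mul`: both sides are linear in `f` (WickLin), so take `f = monomial m c`
  (`MvPolynomial.induction_on'` or `as_sum`); `X k * monomial m c = monomial (single k 1 + m) c`,
  `pderiv l (monomial m c) = monomial (m - single l 1) (c * m l)` (`MvPolynomial.pderiv_monomial`);
  for `l ∉ m.support` the term is zero. To avoid troubles with `vars` for linear combinations prove
  first the version with a finite set `T` containing the vars: write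
  `f = Σ_{m ∈ f.support} monomial m (coeff m f)`; every `m ∈ f.support` has `m.support ⊆ f.vars`.
-/

namespace Pool.Agent.Helper34.MVU

open Finset MvPolynomial Pool.Agent.Helper60.MV

/-- sum over the positions of a list of a function of the entry and of the rest -/
private def sp {α R : Type} [AddCommMonoid R] (F : α → List α → R) (L : List α) : R :=
  ∑ j : Fin L.length, F (L.get j) (L.eraseIdx j)

private theorem sp_nil {α R : Type} [AddCommMonoid R] (F : α → List α → R) : sp F [] = 0 := by
  unfold sp
  exact Finset.sum_empty

private theorem sp_cons {α R : Type} [AddCommMonoid R] (F : α → List α → R) (x : α)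
    (L : List α) : sp F (x :: L) = F x L + sp (fun y l => F y (x :: l)) L := by
  unfold sp
  have h := Fin.sum_univ_succ (n := L.length)
    (fun j : Fin (L.length + 1) => F ((x :: L).get j) ((x :: L).eraseIdx j))
  exact h

private theorem sp_congr {α R : Type} [AddCommMonoid R] (F G : α → List α → R) (L : List α)
    (h : ∀ y l, l.length + 1 = L.length → F y l = G y l) : sp F L = sp G L := by
  unfold sp
  apply Finset.sum_congr rfl
  intro j _
  apply h
  rw [List.length_eraseIdx, if_pos j.isLt]
  have := j.isLt
  omega

private theorem sp_add {α R : Type} [AddCommMonoid R] (F G : α → List α → R) (L : List α) :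
    sp (fun y l => F y l + G y l) L = sp F L + sp G L := by
  unfold sp
  exact Finset.sum_add_distrib

private theorem sp_mul {α R : Type} [CommSemiring R] (c : R) (F : α → List α → R) (L : List α) :
    c * sp F L = sp (fun y l => c * F y l) L := by
  unfold sp
  exact Finset.mul_sum _ _ _

private theorem sp_perm {α R : Type} [AddCommMonoid R] {L L' : List α} (h : L.Perm L') :
    ∀ F : α → List α → R,
      (∀ y l l', l.length + 1 = L.length → l.Perm l' → F y l = F y l') → sp F L = sp F L' := by
  induction h with
  | nil => intro F _; rfl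
  | cons x h ih =>
    rename_i l1 l2
    intro F hF
    rw [sp_cons, sp_cons, hF x l1 l2 (by simp) h,
      ih (fun y l => F y (x :: l)) (fun y l l' hl hp =>
        hF y (x :: l) (x :: l') (by simp only [List.length_cons]; omega) (hp.cons x))]
  | swap x y l =>
    intro F hF
    rw [sp_cons, sp_cons, sp_cons, sp_cons]
    have h1 : sp (fun w m => F w (y :: x :: m)) l = sp (fun w m => F w (x :: y :: m)) l := by
      apply sp_congr
      intro w m hm
      exact hF w _ _ (by simp only [List.length_cons]; omega) (List.Perm.swap x y m)
    rw [h1]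
    exact add_left_comm _ _ _
  | trans h1 h2 ih1 ih2 =>
    rename_i l1 l2 l3
    intro F hF
    rw [ih1 F hF, ih2 F (fun y l l' hl hp => hF y l l' (by rw [hl, h1.length_eq]) hp)]

private theorem sp_sp_symm {α R : Type} [AddCommMonoid R] (L : List α) :
    ∀ G : α → α → List α → R,
      sp (fun w m => sp (G w) m) L = sp (fun w m => sp (fun v k => G v w k) m) L := by
  induction L with
  | nil => intro G; rw [sp_nil, sp_nil]
  | cons x L ih =>
    intro G
    rw [sp_cons, sp_cons]
    simp only [sp_cons, sp_add]
    rw [ih (fun w v k => G w v (x :: k))]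
    exact add_left_comm _ _ _

private theorem hfL_cons {α R : Type} [CommSemiring R] (A : α → α → R) (x : α) (L : List α) :
    hfL A (x :: L) = sp (fun y l => A x y * hfL A l) L := by
  rw [hfL]
  rfl

private theorem hfL_perm_aux {α R : Type} [CommSemiring R] (A : α → α → R)
    (hA : ∀ a b, A a b = A b a) : ∀ (n : ℕ) {L L' : List α}, L.Perm L' → L.length = n →
      hfL A L = hfL A L' := by
  intro n
  induction n using Nat.strong_induction_on with
  | _ n ihn =>
    intro L L' h
    induction h with
    | nil => intro _; rfl
    | cons x h _ =>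
      rename_i l1 l2
      intro hn
      rw [hfL_cons, hfL_cons]
      apply sp_perm h
      intro y l l' hl hp
      rw [ihn l.length (by simp only [List.length_cons] at hn; omega) hp rfl]
    | swap x y l =>
      intro hn
      rw [hfL_cons, hfL_cons, sp_cons, sp_cons, hA y x]
      congr 1
      simp only [hfL_cons, sp_mul]
      rw [sp_sp_symm l]
      apply sp_congr
      intro w m hm
      apply sp_congr
      intro v k hk
      ring
    | trans h1 h2 ih1 ih2 =>
      intro hn
      rw [ih1 hn, ih2 (by rw [← h1.length_eq, hn])]

theorem hfL_perm {α R : Type} [CommSemiring R] (A : α → α → R) (hA : ∀ a b, A a b = A b a)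
    {L L' : List α} (h : L.Perm L') : hfL A L = hfL A L' :=
  hfL_perm_aux A hA L.length h rfl

theorem Cov_symm (k l : ℕ) : Cov k l = Cov l k := by
  unfold Cov
  rw [show 2 * k + 2 * l = 2 * l + 2 * k from add_comm _ _,
    mul_comm ((2 * k).factorial : ℝ) ((2 * l).factorial : ℝ)]

private theorem wv_of_coe (L : List ℕ) (m : ℕ →₀ ℕ) (h : (L : Multiset ℕ) = m.toMultiset) :
    wv m = hfL Cov L := by
  unfold wv
  apply hfL_perm Cov Cov_symm
  rw [← Multiset.coe_eq_coe, Multiset.coe_toList, h]

theorem wv_add_single (k : ℕ) (m : ℕ →₀ ℕ) :
    wv (Finsupp.single k 1 + m) =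
      ∑ l ∈ m.support, (m l : ℝ) * Cov k l * wv (m - Finsupp.single l 1) := by
  classical
  have hL : ((Finsupp.toMultiset m).toList : Multiset ℕ) = Finsupp.toMultiset m :=
    Multiset.coe_toList _
  generalize (Finsupp.toMultiset m).toList = L at hL
  rw [wv_of_coe (k :: L) (Finsupp.single k 1 + m) (by
    rw [← Multiset.cons_coe, hL, map_add, Finsupp.toMultiset_single, one_nsmul,
      Multiset.singleton_add])]
  rw [hfL_cons]
  have h1 : sp (fun y l => Cov k y * hfL Cov l) L =
      ∑ j : Fin L.length, Cov k (L.get j) * wv (m - Finsupp.single (L.get j) 1) := by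
    unfold sp
    apply Finset.sum_congr rfl
    intro j _
    rw [wv_of_coe (L.eraseIdx j) (m - Finsupp.single (L.get j) 1)]
    have hp : (L.get j :: L.eraseIdx j).Perm L := List.getElem_cons_eraseIdx_perm j.isLt
    have hp' : (L.get j) ::ₘ ((L.eraseIdx j : List ℕ) : Multiset ℕ) = Finsupp.toMultiset m := by
      rw [Multiset.cons_coe, ← hL, Multiset.coe_eq_coe]
      exact hp
    have hmem : L.get j ∈ m.support := by
      rw [← Finsupp.mem_toMultiset, ← hL]
      exact Multiset.mem_coe.mpr (List.get_mem L j)
    have hm : m = Finsupp.single (L.get j) 1 + (m - Finsupp.single (L.get j) 1) := by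
      ext a
      rw [Finsupp.add_apply, Finsupp.tsub_apply]
      have h0 : 1 ≤ m (L.get j) := Nat.one_le_iff_ne_zero.mpr (Finsupp.mem_support_iff.mp hmem)
      by_cases ha : L.get j = a
      · rw [← ha, Finsupp.single_eq_same]
        omega
      · rw [Finsupp.single_eq_of_ne (Ne.symm ha)]
        omega
    have hm' : Finsupp.toMultiset m =
        (L.get j) ::ₘ Finsupp.toMultiset (m - Finsupp.single (L.get j) 1) := by
      conv_lhs => rw [hm]
      rw [map_add, Finsupp.toMultiset_single, one_nsmul, Multiset.singleton_add]
    rw [hm', Multiset.cons_inj_right] at hp'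
    exact hp'
  rw [h1]
  have h3 : ∑ j : Fin L.length, Cov k (L.get j) * wv (m - Finsupp.single (L.get j) 1) =
      (Multiset.map (fun l => Cov k l * wv (m - Finsupp.single l 1)) m.toMultiset).sum := by
    rw [← hL, Multiset.map_coe, Multiset.sum_coe]
    exact Fin.sum_univ_fun_getElem L (fun l => Cov k l * wv (m - Finsupp.single l 1))
  rw [h3, Finset.sum_multiset_map_count, Finsupp.toFinset_toMultiset]
  apply Finset.sum_congr rfl
  intro l _
  rw [Finsupp.count_toMultiset, nsmul_eq_mul]
  ring

private theorem Wick_X_mul_monomial (k : ℕ) (m : ℕ →₀ ℕ) (c : ℝ) (N : ℕ)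
    (hN : ∀ l ∈ m.support, l < N) :
    Wick (X k * monomial m c) = ∑ l ∈ range N, Cov k l * Wick (pderiv l (monomial m c)) := by
  have h1 : (X k * monomial m c : MvPolynomial ℕ ℝ) = monomial (Finsupp.single k 1 + m) c := by
    rw [MvPolynomial.X, MvPolynomial.monomial_mul, one_mul]
  rw [h1, Wick_monomial, wv_add_single, Finset.mul_sum]
  have h2 : ∀ l ∈ range N, Cov k l * Wick (pderiv l (monomial m c)) =
      c * ((m l : ℝ) * Cov k l * wv (m - Finsupp.single l 1)) := by
    intro l _
    rw [MvPolynomial.pderiv_monomial, Wick_monomial]
    ring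
  rw [Finset.sum_congr rfl h2]
  apply Finset.sum_subset
  · intro l hl
    exact Finset.mem_range.mpr (hN l hl)
  · intro l _ hl
    rw [Finsupp.notMem_support_iff.mp hl]
    simp

theorem Wick_X_mul (k : ℕ) (f : MvPolynomial ℕ ℝ) (N : ℕ) (hN : ∀ l ∈ f.vars, l < N) :
    Wick (X k * f) = ∑ l ∈ range N, Cov k l * Wick (pderiv l f) := by
  classical
  have hf : f = ∑ m ∈ f.support, monomial m (f.coeff m) :=
    (MvPolynomial.support_sum_monomial_coeff f).symm
  have h1 : Wick (X k * f) = ∑ m ∈ f.support, Wick (X k * monomial m (f.coeff m)) := by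
    conv_lhs => rw [hf]
    rw [Finset.mul_sum, Wick_sum]
  have h2 : ∀ l, Wick (pderiv l f) =
      ∑ m ∈ f.support, Wick (pderiv l (monomial m (f.coeff m))) := by
    intro l
    conv_lhs => rw [hf]
    rw [map_sum, Wick_sum]
  rw [h1]
  simp only [h2, Finset.mul_sum]
  rw [Finset.sum_comm]
  apply Finset.sum_congr rfl
  intro m hm
  apply Wick_X_mul_monomial
  intro l hl
  apply hN l
  rw [MvPolynomial.mem_vars_iff_mem_support]
  exact ⟨m, hm, hl⟩

end Pool.Agent.Helper34.MVU
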