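import Pool.Agent.Helper34.MVU.HSeq
import Pool.Agent.Helper34.MVU.Beta

/-!
Project MV, block U, module U-As3 (Wasym): asymptotics of the sequence with
`2 m w_m = Σ_{i=1}^m ζ(2i) w_{m-i}`, `w_0 = 1`.

PROOFS.
* `w_conv`: the convolution `c m = Σ_{j ≤ m} hs j * be (m-j)` satisfies `c 0 = 1` and
  `2(m+1) c(m+1) = Σ_{i ≤ m} ζ(2(i+1)) c(m-i)`:
  `2(m+1) c(m+1) = Σ_{j ≤ m+1} (2j hs j) be (m+1-j) + Σ_j hs j (2(m+1-j) be (m+1-j))`
  `= Σ_j Σ_{1 ≤ i ≤ j} (ζ(2i)-1) hs (j-i) be (m+1-j) + Σ_j hs j Σ_{1 ≤ i ≤ m+1-j} be (m+1-j-i)`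
  (`hs_rec`, `be_sum`) `= Σ_{i ≥ 1} (ζ(2i) - 1 + 1) c(m+1-i)`. (E.g. with `PowerSeries` and
  antidiagonals, or with `Finset.Nat.antidiagonal` sums.) Strong induction gives `w = c`.
* `w_tendsto`: `w m * √(π m) = Σ_j hs j * (if j ≤ m then be (m-j) * √(π m) else 0)`. For fixed `j`
  the factor tends to `1` (`be_tendsto` and `√(m/(m-j)) → 1`), and it is at most `2^j * be m √(π m)`
  `≤ 2^j * C` (`be_ratio`; a convergent sequence is bounded), `Σ_j hs j 2^j < ∞` (`hs_bound`).
  Dominated convergence: `tendsto_tsum_of_dominated_convergence`; `Σ hs j = √2`.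
* `w_bdd`: `w m * √(π m)` converges, `w 0 = 1`, so `w m ≤ C`.
-/

namespace Pool.Agent.Helper34.MVU

open Finset Filter Topology Pool.Agent.Helper60.MV

private theorem two_deriv_hs : (2 : PowerSeries ℝ) * PowerSeries.derivative ℝ (PowerSeries.mk hs) =
    PowerSeries.mk (fun i : ℕ => zet (2 * (i + 1)) - 1) * PowerSeries.mk hs := by
  ext m
  rw [show (2 : PowerSeries ℝ) = PowerSeries.C (2 : ℝ) from (map_ofNat PowerSeries.C 2).symm,
    PowerSeries.coeff_C_mul, PowerSeries.coeff_derivative, PowerSeries.coeff_mul,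
    Finset.Nat.sum_antidiagonal_eq_sum_range_succ_mk]
  simp only [PowerSeries.coeff_mk]
  rw [← hs_rec m]
  ring

private theorem two_deriv_be : (2 : PowerSeries ℝ) * PowerSeries.derivative ℝ (PowerSeries.mk be) =
    PowerSeries.mk (fun _ : ℕ => (1 : ℝ)) * PowerSeries.mk be := by
  ext m
  rw [show (2 : PowerSeries ℝ) = PowerSeries.C (2 : ℝ) from (map_ofNat PowerSeries.C 2).symm,
    PowerSeries.coeff_C_mul, PowerSeries.coeff_derivative, PowerSeries.coeff_mul,
    Finset.Nat.sum_antidiagonal_eq_sum_range_succ_mk]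
  simp only [PowerSeries.coeff_mk, one_mul]
  have h := be_sum m
  rw [← Finset.sum_range_reflect] at h
  have h2 : ∑ j ∈ range (m + 1), be (m + 1 - 1 - j) = ∑ j ∈ range (m + 1), be (m - j) := by
    simp
  rw [h2] at h
  rw [← h]
  ring

private theorem conv_rec (m : ℕ) : (2 * ((m : ℝ) + 1)) *
    PowerSeries.coeff (m + 1) (PowerSeries.mk hs * PowerSeries.mk be) =
    ∑ i ∈ range (m + 1), zet (2 * (i + 1)) *
      PowerSeries.coeff (m - i) (PowerSeries.mk hs * PowerSeries.mk be) := by
  have h : (2 : PowerSeries ℝ) * PowerSeries.derivative ℝ (PowerSeries.mk hs * PowerSeries.mk be) =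
      PowerSeries.mk (fun i : ℕ => zet (2 * (i + 1))) *
        (PowerSeries.mk hs * PowerSeries.mk be) := by
    have h1 : PowerSeries.mk (fun i : ℕ => zet (2 * (i + 1))) =
        PowerSeries.mk (fun i : ℕ => zet (2 * (i + 1)) - 1) +
        PowerSeries.mk (fun _ : ℕ => (1 : ℝ)) := by
      ext n
      simp
    have h2 := two_deriv_hs
    have h3 := two_deriv_be
    rw [Derivation.leibniz, h1, smul_eq_mul, smul_eq_mul]
    calc (2 : PowerSeries ℝ) * (PowerSeries.mk hs * PowerSeries.derivative ℝ (PowerSeries.mk be) +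
          PowerSeries.mk be * PowerSeries.derivative ℝ (PowerSeries.mk hs)) =
        PowerSeries.mk hs * (2 * PowerSeries.derivative ℝ (PowerSeries.mk be)) +
          PowerSeries.mk be * (2 * PowerSeries.derivative ℝ (PowerSeries.mk hs)) := by ring
      _ = _ := by rw [h2, h3]; ring
  have h4 := congrArg (PowerSeries.coeff m) h
  rw [show (2 : PowerSeries ℝ) = PowerSeries.C (2 : ℝ) from (map_ofNat PowerSeries.C 2).symm,
    PowerSeries.coeff_C_mul, PowerSeries.coeff_derivative,
    PowerSeries.coeff_mul m (PowerSeries.mk (fun i : ℕ => zet (2 * (i + 1)))),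
    Finset.Nat.sum_antidiagonal_eq_sum_range_succ_mk] at h4
  simp only [PowerSeries.coeff_mk] at h4
  rw [← h4]
  ring

theorem w_conv (w : ℕ → ℝ) (h0 : w 0 = 1)
    (hrec : ∀ m : ℕ, (2 * ((m : ℝ) + 1)) * w (m + 1) =
      ∑ i ∈ range (m + 1), zet (2 * (i + 1)) * w (m - i)) (m : ℕ) :
    w m = ∑ j ∈ range (m + 1), hs j * be (m - j) := by
  have key : ∀ n : ℕ, w n = PowerSeries.coeff n (PowerSeries.mk hs * PowerSeries.mk be) := by
    intro n
    induction n using Nat.strong_induction_on with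
    | _ n ih =>
      obtain _ | n := n
      · rw [h0, PowerSeries.coeff_mul]
        simp [be_zero, hs]
      · have h1 := hrec n
        have h2 := conv_rec n
        have h3 : ∑ i ∈ range (n + 1), zet (2 * (i + 1)) * w (n - i) =
            ∑ i ∈ range (n + 1), zet (2 * (i + 1)) *
              PowerSeries.coeff (n - i) (PowerSeries.mk hs * PowerSeries.mk be) := by
          apply Finset.sum_congr rfl
          intro i _
          rw [ih (n - i) (by omega)]
        rw [h3, ← h2] at h1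
        exact mul_left_cancel₀ (by positivity) h1
  rw [key, PowerSeries.coeff_mul, Finset.Nat.sum_antidiagonal_eq_sum_range_succ_mk]
  simp only [PowerSeries.coeff_mk]

theorem w_tendsto (w : ℕ → ℝ) (h0 : w 0 = 1)
    (hrec : ∀ m : ℕ, (2 * ((m : ℝ) + 1)) * w (m + 1) =
      ∑ i ∈ range (m + 1), zet (2 * (i + 1)) * w (m - i)) :
    Tendsto (fun m : ℕ => w m * Real.sqrt (Real.pi * m)) atTop (𝓝 (Real.sqrt 2)) := by
  obtain ⟨C1, hC1⟩ := hs_bound
  obtain ⟨C2, hC2⟩ := be_tendsto.bddAbove_range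
  have hC2' : ∀ m : ℕ, be m * Real.sqrt (Real.pi * m) ≤ C2 := by
    intro m
    exact hC2 ⟨m, rfl⟩
  have hC1' : 0 ≤ C1 := by
    have h := hC1 0
    have h2 := hs_nonneg 0
    simp only [pow_zero, mul_one] at h
    linarith
  have hC2'' : 0 ≤ C2 := by
    have h := hC2' 0
    simpa using h
  set f : ℕ → ℕ → ℝ := fun m j =>
    if j ≤ m then hs j * (be (m - j) * Real.sqrt (Real.pi * m)) else 0 with hf
  have hsum : ∀ m : ℕ, w m * Real.sqrt (Real.pi * m) = ∑' j, f m j := by
    intro m
    rw [tsum_eq_sum (s := range (m + 1))]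
    · rw [w_conv w h0 hrec m, Finset.sum_mul]
      apply Finset.sum_congr rfl
      intro j hj
      have hj' : j ≤ m := by
        have := Finset.mem_range.1 hj
        omega
      simp only [hf, hj', if_true]
      ring
    · intro j hj
      have hj' : ¬ j ≤ m := by
        intro h
        exact hj (Finset.mem_range.2 (by omega))
      simp only [hf, hj', if_false]
  have hlim : ∀ j : ℕ, Tendsto (fun m => f m j) atTop (𝓝 (hs j)) := by
    intro j
    rw [← tendsto_add_atTop_iff_nat j]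
    have h1 : Tendsto (fun m : ℕ => Real.sqrt ((m : ℝ) / ((m : ℝ) + (j : ℝ)))) atTop (𝓝 1) := by
      have h := (tendsto_natCast_div_add_atTop (j : ℝ)).sqrt
      rwa [Real.sqrt_one] at h
    have h2 : Tendsto (fun m : ℕ => hs j * ((be m * Real.sqrt (Real.pi * m)) /
        Real.sqrt ((m : ℝ) / ((m : ℝ) + (j : ℝ))))) atTop (𝓝 (hs j * (1 / 1))) :=
      (be_tendsto.div h1 one_ne_zero).const_mul _
    rw [div_one, mul_one] at h2
    refine h2.congr' ?_
    filter_upwards [eventually_ge_atTop 1] with m hm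
    have hm' : (0:ℝ) < m := by exact_mod_cast hm
    have hj' : j ≤ m + j := by omega
    simp only [hf, hj', if_true]
    have h3 : m + j - j = m := by omega
    rw [h3]
    have hpos : (0:ℝ) < (m : ℝ) + j := by positivity
    have h4 : Real.sqrt (Real.pi * ((m + j : ℕ) : ℝ)) =
        Real.sqrt (Real.pi * m) / Real.sqrt ((m : ℝ) / ((m : ℝ) + (j : ℝ))) := by
      rw [← Real.sqrt_div (by positivity)]
      congr 1
      push_cast
      field_simp
    rw [h4]
    ring
  have hbound : ∀ᶠ m in atTop, ∀ j, ‖f m j‖ ≤ C1 * C2 * (2 / 3 : ℝ) ^ j := by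
    refine Eventually.of_forall fun m j => ?_
    by_cases hj : j ≤ m
    · have hn := hs_nonneg j
      have hb := (be_pos (m - j)).le
      simp only [hf, hj, if_true]
      rw [Real.norm_of_nonneg (by positivity)]
      have h1 : be (m - j) * Real.sqrt (Real.pi * m) ≤ 2 ^ j * C2 := by
        calc be (m - j) * Real.sqrt (Real.pi * m) ≤ 2 ^ j * be m * Real.sqrt (Real.pi * m) := by
              exact mul_le_mul_of_nonneg_right (be_ratio m j hj) (Real.sqrt_nonneg _)
          _ = 2 ^ j * (be m * Real.sqrt (Real.pi * m)) := by ring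
          _ ≤ 2 ^ j * C2 := by
              exact mul_le_mul_of_nonneg_left (hC2' m) (by positivity)
      calc hs j * (be (m - j) * Real.sqrt (Real.pi * m)) ≤
          (C1 * (1 / 3) ^ j) * (2 ^ j * C2) :=
            mul_le_mul (hC1 j) h1 (by positivity) (by positivity)
        _ = C1 * C2 * (2 / 3 : ℝ) ^ j := by
            rw [show (2 / 3 : ℝ) = (1 / 3) * 2 by norm_num, mul_pow]
            ring
    · simp only [hf, hj, if_false, norm_zero]
      positivity
  have hsummable : Summable (fun j : ℕ => C1 * C2 * (2 / 3 : ℝ) ^ j) :=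
    (summable_geometric_of_lt_one (by norm_num) (by norm_num)).mul_left _
  have hmain := tendsto_tsum_of_dominated_convergence hsummable hlim hbound
  rw [hs_sum.tsum_eq] at hmain
  refine hmain.congr fun m => ?_
  rw [hsum m]

theorem w_bdd (w : ℕ → ℝ) (h0 : w 0 = 1)
    (hrec : ∀ m : ℕ, (2 * ((m : ℝ) + 1)) * w (m + 1) =
      ∑ i ∈ range (m + 1), zet (2 * (i + 1)) * w (m - i)) :
    ∃ C : ℝ, ∀ m, w m ≤ C := by
  refine ⟨Real.sqrt 2, fun m => ?_⟩
  rw [w_conv w h0 hrec m]
  calc ∑ j ∈ range (m + 1), hs j * be (m - j) ≤ ∑ j ∈ range (m + 1), hs j := by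
        apply Finset.sum_le_sum
        intro j _
        exact mul_le_of_le_one_right (hs_nonneg j) (be_le_one _)
    _ ≤ Real.sqrt 2 := sum_le_hasSum _ (fun j _ => hs_nonneg j) hs_sum

end Pool.Agent.Helper34.MVU
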