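import Pool.Agent.Helper34.MVU.WQ
import Pool.Agent.Helper34.MVU.Wasym

/-!
Project MV, block U, module U-Main (MainE): the main term.

PROOFS. Put `w m = Wick (qP (2m)) / 4^m`. `Wick_qP_rec` divided by `4^(m+1)` is the recursion of
`w_tendsto` (`4^(i+1) / 4^(m+1) = 1/4^(m-i)`), `w 0 = Wick 1 = 1` (`qP 0 = 1` by `rw [qP]`).
* `mainE_odd`: `Wick_qP_odd`.
* `mainE_even`: `mainE (2m) / bE (2m) = 1/2 cc(2m) 4^m w m / (2^(2m) (2m-1)!)`
  `= 1/2 (2m)!/(2m-1)! be(2m) w m = m be(2m) w m` for `m ≥ 1` (`cc_eq`), and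
  `m be(2m) w m = (be(2m) √(2π m)) (w m √(π m)) m/(√(2π m) √(π m)) → 1 * √2 / (√2 π) = 1/π`.
* `Wick_qP_le`: odd `n`: `0`; `n = 2m`: `4^m w m ≤ C 4^m = C 2^n` (`w_bdd`).
-/

namespace Pool.Agent.Helper34.MVU

open Finset Filter Topology Pool.Agent.Helper60.MV

/-- the normalised numbers -/
private noncomputable def ww (m : ℕ) : ℝ := Wick (qP (2 * m)) / 4 ^ m

private theorem ww_zero : ww 0 = 1 := by
  unfold ww
  rw [mul_zero, qP, Wick_one, pow_zero, div_one]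

private theorem ww_rec (m : ℕ) : (2 * ((m : ℝ) + 1)) * ww (m + 1) =
    ∑ i ∈ range (m + 1), zet (2 * (i + 1)) * ww (m - i) := by
  unfold ww
  rw [← mul_div_assoc, Wick_qP_rec, Finset.sum_div]
  refine Finset.sum_congr rfl fun i hi => ?_
  have hi' : i ≤ m := Nat.lt_succ_iff.1 (Finset.mem_range.1 hi)
  have h4 : (4 : ℝ) ^ (m + 1) = 4 ^ (i + 1) * 4 ^ (m - i) := by
    rw [← pow_add]
    congr 1
    omega
  rw [h4]
  have h5 : (4 : ℝ) ^ (i + 1) ≠ 0 := by positivity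
  have h6 : (4 : ℝ) ^ (m - i) ≠ 0 := by positivity
  field_simp

private theorem ww_key (m : ℕ) :
    (be (2 * m) * Real.sqrt (Real.pi * ((2 * m : ℕ) : ℝ))) * (ww m * Real.sqrt (Real.pi * m)) /
      (Real.sqrt 2 * Real.pi) = m * be (2 * m) * ww m := by
  have h1 : Real.sqrt (Real.pi * ((2 * m : ℕ) : ℝ)) = Real.sqrt 2 * Real.sqrt (Real.pi * m) := by
    rw [← Real.sqrt_mul (by norm_num : (0 : ℝ) ≤ 2)]
    congr 1
    push_cast
    ring
  have h2 : Real.sqrt (Real.pi * m) * Real.sqrt (Real.pi * m) = Real.pi * m :=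
    Real.mul_self_sqrt (by positivity)
  have h3 : Real.sqrt 2 ≠ 0 := by positivity
  have h4 : Real.pi ≠ 0 := Real.pi_ne_zero
  rw [h1, div_eq_iff (by positivity)]
  calc be (2 * m) * (Real.sqrt 2 * Real.sqrt (Real.pi * m)) * (ww m * Real.sqrt (Real.pi * m))
      = be (2 * m) * Real.sqrt 2 * ww m * (Real.sqrt (Real.pi * m) * Real.sqrt (Real.pi * m)) := by
        ring
    _ = _ := by rw [h2]; ring

theorem mainE_even :
    Tendsto (fun E : ℕ => mainE (2 * E) / bE (2 * E)) atTop (𝓝 (1 / Real.pi)) := by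
  have h1 : Tendsto (fun m : ℕ => be (2 * m) * Real.sqrt (Real.pi * ((2 * m : ℕ) : ℝ))) atTop
      (𝓝 1) := by
    have h2 : Tendsto (fun m : ℕ => 2 * m) atTop atTop :=
      tendsto_id.const_mul_atTop' (by norm_num)
    exact be_tendsto.comp h2
  have h3 : Tendsto (fun m : ℕ => ww m * Real.sqrt (Real.pi * m)) atTop (𝓝 (Real.sqrt 2)) :=
    w_tendsto ww ww_zero ww_rec
  have h4 := (h1.mul h3).div_const (Real.sqrt 2 * Real.pi)
  have h5 : (1 : ℝ) * Real.sqrt 2 / (Real.sqrt 2 * Real.pi) = 1 / Real.pi := by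
    have h6 : Real.sqrt 2 ≠ 0 := by positivity
    have h7 : Real.pi ≠ 0 := Real.pi_ne_zero
    field_simp
  rw [h5] at h4
  refine h4.congr' ?_
  filter_upwards [eventually_ge_atTop 1] with m hm
  rw [ww_key]
  have h8 : ((2 * m).factorial : ℝ) = (2 * m : ℝ) * ((2 * m - 1).factorial : ℝ) := by
    obtain ⟨k, hk⟩ : ∃ k, 2 * m = k + 1 := ⟨2 * m - 1, by omega⟩
    have hk' : (2 * m : ℝ) = (k : ℝ) + 1 := by exact_mod_cast congrArg (fun x : ℕ => (x : ℝ)) hk
    rw [hk', hk, Nat.factorial_succ, Nat.add_sub_cancel]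
    push_cast
    ring
  have h9 : (2 : ℝ) ^ (2 * m) = 4 ^ m := by
    rw [pow_mul]
    norm_num
  unfold mainE bE ww
  rw [cc_eq, h8, h9]
  have h10 : ((2 * m - 1).factorial : ℝ) ≠ 0 := by positivity
  have h11 : (4 : ℝ) ^ m ≠ 0 := by positivity
  field_simp

theorem mainE_odd (E : ℕ) (hE : Odd E) : mainE E = 0 := by
  unfold mainE
  rw [Wick_qP_odd E hE, mul_zero]

theorem Wick_qP_le : ∃ C : ℝ, 0 ≤ C ∧ ∀ n, Wick (qP n) ≤ C * 2 ^ n := by
  obtain ⟨C, hC⟩ := w_bdd ww ww_zero ww_rec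
  refine ⟨max C 0, le_max_right _ _, fun n => ?_⟩
  rcases Nat.even_or_odd n with ⟨m, hm⟩ | hn
  · have h1 : n = 2 * m := by omega
    subst h1
    have h2 : Wick (qP (2 * m)) = ww m * 4 ^ m := by
      unfold ww
      rw [div_mul_cancel₀]
      positivity
    have h9 : (2 : ℝ) ^ (2 * m) = 4 ^ m := by
      rw [pow_mul]
      norm_num
    rw [h2, h9]
    exact mul_le_mul_of_nonneg_right ((hC m).trans (le_max_left _ _)) (by positivity)
  · rw [Wick_qP_odd n hn]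
    positivity

end Pool.Agent.Helper34.MVU
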