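import Pool.Agent.Helper34.MVU.Defs

/-!
Project MV, block U, module U-Q1 (QP): the polynomials `qP n`, i.e. the coefficients of
`exp (Σ_k 2 t_k y^(2k+1) / (2k+1))`.

PROOFS. `qP` is defined by `qP 0 = 1`,
`qP (n+1) = Σ_{k : Fin (n/2+1)} C (2/(n+1)) * X k * qP (n - 2k)` (unfold with `rw [qP]`).
* `qP_rec`: multiply by `n+1` (`Fin.sum_univ_eq_sum_range`).
* `coeff_qP_nonneg`: strong induction; `coeff m (C c * X k * q)` is `c` times a coefficient of `q`
  or `0` (`MvPolynomial.coeff_X_mul'`).
* `coeff_zero_qP`: the recursion has a factor `X k` in every term.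
* `vars_qP`: strong induction, `vars (C c * X k * qP (n-2k)) ⊆ {k} ∪ vars (qP (n-2k))`, `k ≤ n/2`.
* `pderiv_qP`: strong induction on `n`. `n = 0`: `pderiv k 1 = 0`. For `n + 1`:
  `(n+1) ∂_k q_{n+1} = Σ_{j ≤ n/2} 2 (∂_k X_j) q_{n-2j} + Σ_{j ≤ n/2} 2 X_j ∂_k q_{n-2j}`
  `= [2k ≤ n] 2 q_{n-2k} + (2/(2k+1)) Σ_{j ≤ n/2, 2k+1 ≤ n-2j} 2 X_j q_{n-2j-(2k+1)}`, and by
  `qP_rec` for `n - 2k - 1 + 1 = n - 2k` the last sum is `(n-2k) q_{n-2k}` (if `2k+1 ≤ n`; it is
  empty and `(n-2k) = 0` if `n = 2k`). Total, for `2k ≤ n`: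
  `(2/(2k+1)) ((2k+1) + (n-2k)) q_{n-2k} = (2/(2k+1)) (n+1) q_{n-2k}`. Divide by `n+1`
  (multiply both sides by `C (1/(n+1))`). For `2k > n` both sides are `0`.
-/

namespace Pool.Agent.Helper34.MVU

open Finset MvPolynomial Pool.Agent.Helper60.MV

private theorem qP_succ' (n : ℕ) : qP (n + 1) =
    ∑ k ∈ range (n / 2 + 1), C (2 / ((n : ℝ) + 1)) * X k * qP (n - 2 * k) := by
  rw [qP]
  exact Fin.sum_univ_eq_sum_range
    (fun k => C (2 / ((n : ℝ) + 1)) * X k * qP (n - 2 * k)) (n / 2 + 1)

theorem qP_rec (n : ℕ) :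
    C ((n : ℝ) + 1) * qP (n + 1) = ∑ k ∈ range (n / 2 + 1), C 2 * X k * qP (n - 2 * k) := by
  rw [qP_succ', Finset.mul_sum]
  refine Finset.sum_congr rfl fun k _ => ?_
  have h : (C ((n : ℝ) + 1) * C (2 / ((n : ℝ) + 1)) : MvPolynomial ℕ ℝ) = C 2 := by
    rw [← C_mul]
    congr 1
    have : ((n : ℝ) + 1) ≠ 0 := by positivity
    field_simp
  rw [← h]
  ring

theorem coeff_qP_nonneg (n : ℕ) (m : ℕ →₀ ℕ) : 0 ≤ (qP n).coeff m := by
  induction n using Nat.strong_induction_on generalizing m with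
  | _ n ih =>
    cases n with
    | zero =>
      rw [qP, MvPolynomial.coeff_one]
      split_ifs <;> norm_num
    | succ n =>
      rw [qP_succ', MvPolynomial.coeff_sum]
      refine Finset.sum_nonneg fun k _ => ?_
      rw [mul_assoc, MvPolynomial.coeff_C_mul, MvPolynomial.coeff_X_mul']
      refine mul_nonneg (by positivity) ?_
      split_ifs
      · exact ih _ (by omega) _
      · exact le_rfl

theorem coeff_zero_qP (n : ℕ) : (qP n).coeff 0 = if n = 0 then 1 else 0 := by
  cases n with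
  | zero => rw [qP]; simp
  | succ n =>
    rw [qP_succ', MvPolynomial.coeff_sum]
    rw [if_neg (by omega)]
    refine Finset.sum_eq_zero fun k _ => ?_
    rw [mul_assoc, MvPolynomial.coeff_C_mul, MvPolynomial.coeff_X_mul']
    simp

theorem vars_qP (n : ℕ) : ∀ k ∈ (qP n).vars, 2 * k + 1 ≤ n := by
  induction n using Nat.strong_induction_on with
  | _ n ih =>
    cases n with
    | zero =>
      intro k hk
      rw [qP, MvPolynomial.vars_one] at hk
      simp at hk
    | succ n =>
      intro k hk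
      rw [qP_succ'] at hk
      have h1 := MvPolynomial.vars_sum_subset _ _ hk
      rw [Finset.mem_biUnion] at h1
      obtain ⟨j, hj, hk1⟩ := h1
      rw [Finset.mem_range] at hj
      have h2 := MvPolynomial.vars_mul _ _ hk1
      rw [Finset.mem_union] at h2
      rcases h2 with h2 | h2
      · have h3 := MvPolynomial.vars_mul _ _ h2
        rw [MvPolynomial.vars_C, MvPolynomial.vars_X, Finset.empty_union,
          Finset.mem_singleton] at h3
        omega
      · have := ih (n - 2 * j) (by omega) k h2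
        omega

private theorem sum2 (n k : ℕ) (hk : 2 * k ≤ n) :
    ∑ j ∈ range (n / 2 + 1), C 2 * X j *
      (if 2 * k + 1 ≤ n - 2 * j then
        C (2 / (2 * (k : ℝ) + 1)) * qP (n - 2 * j - (2 * k + 1)) else 0) =
    C (2 / (2 * (k : ℝ) + 1)) * (C ((n : ℝ) - 2 * k) * qP (n - 2 * k)) := by
  rcases Nat.lt_or_ge n (2 * k + 1) with h | h
  · have hn : n = 2 * k := by omega
    subst hn
    have h0 : (C (((2 * k : ℕ) : ℝ) - 2 * (k : ℝ)) : MvPolynomial ℕ ℝ) = 0 := by
      push_cast
      rw [sub_self, C_0]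
    rw [h0, zero_mul, mul_zero]
    refine Finset.sum_eq_zero fun j _ => ?_
    rw [if_neg (by omega), mul_zero]
  · obtain ⟨m, rfl⟩ : ∃ m, n = m + (2 * k + 1) := ⟨n - (2 * k + 1), by omega⟩
    have e1 : m + (2 * k + 1) - 2 * k = m + 1 := by omega
    have e2 : (((m + (2 * k + 1) : ℕ) : ℝ) - 2 * (k : ℝ)) = (m : ℝ) + 1 := by
      push_cast
      ring
    rw [e1, e2, qP_rec, Finset.mul_sum]
    symm
    have hsub : range (m / 2 + 1) ⊆ range ((m + (2 * k + 1)) / 2 + 1) := by
      intro j hj
      rw [Finset.mem_range] at hj ⊢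
      omega
    rw [← Finset.sum_subset hsub (f := fun j => C 2 * X j *
      (if 2 * k + 1 ≤ m + (2 * k + 1) - 2 * j then
        C (2 / (2 * (k : ℝ) + 1)) * qP (m + (2 * k + 1) - 2 * j - (2 * k + 1)) else 0))]
    · refine Finset.sum_congr rfl fun j hj => ?_
      rw [Finset.mem_range] at hj
      rw [if_pos (by omega)]
      have e3 : m + (2 * k + 1) - 2 * j - (2 * k + 1) = m - 2 * j := by omega
      rw [e3]
      ring
    · intro j _ hj2
      rw [Finset.mem_range, not_lt] at hj2
      rw [if_neg (by omega), mul_zero]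

theorem pderiv_qP (n k : ℕ) :
    pderiv k (qP n) = if 2 * k + 1 ≤ n then C (2 / (2 * (k : ℝ) + 1)) * qP (n - (2 * k + 1)) else 0 := by
  induction n using Nat.strong_induction_on with
  | _ n ih =>
    cases n with
    | zero =>
      rw [if_neg (by omega), qP]
      simp
    | succ n =>
      have hne : (C ((n : ℝ) + 1) : MvPolynomial ℕ ℝ) ≠ 0 := by
        rw [Ne, C_eq_zero]
        positivity
      apply mul_left_cancel₀ hne
      have h1 : C ((n : ℝ) + 1) * pderiv k (qP (n + 1)) =
          pderiv k (C ((n : ℝ) + 1) * qP (n + 1)) := by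
        rw [MvPolynomial.pderiv_C_mul]
      rw [h1, qP_rec, map_sum]
      have h2 : ∀ j ∈ range (n / 2 + 1), pderiv k (C 2 * X j * qP (n - 2 * j) : MvPolynomial ℕ ℝ) =
          (if j = k then C 2 * qP (n - 2 * j) else 0) + C 2 * X j *
            (if 2 * k + 1 ≤ n - 2 * j then
              C (2 / (2 * (k : ℝ) + 1)) * qP (n - 2 * j - (2 * k + 1)) else 0) := by
        intro j _
        rw [mul_assoc, MvPolynomial.pderiv_C_mul, MvPolynomial.pderiv_mul, ← ih (n - 2 * j) (by omega),
          MvPolynomial.pderiv_X]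
        by_cases hjk : j = k
        · subst hjk
          simp only [Pi.single_eq_same, if_true]
          ring
        · rw [if_neg hjk, Pi.single_eq_of_ne hjk]
          ring
      rw [Finset.sum_congr rfl h2, Finset.sum_add_distrib]
      by_cases hk : 2 * k ≤ n
      · rw [sum2 n k hk, Finset.sum_ite_eq' (range (n / 2 + 1)) k,
          if_pos (Finset.mem_range.2 (by omega)), if_pos (by omega)]
        have e4 : n + 1 - (2 * k + 1) = n - 2 * k := by omega
        rw [e4]
        have e5 : (C 2 : MvPolynomial ℕ ℝ) = C (2 / (2 * (k : ℝ) + 1)) * C (2 * (k : ℝ) + 1) := by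
          rw [← C_mul]
          congr 1
          have : (2 * (k : ℝ) + 1) ≠ 0 := by positivity
          field_simp
        rw [e5]
        have e6 : (C ((n : ℝ) + 1) : MvPolynomial ℕ ℝ) =
            C (2 * (k : ℝ) + 1) + C ((n : ℝ) - 2 * k) := by
          rw [← C_add]
          congr 1
          ring
        rw [e6]
        ring
      · rw [if_neg (by omega), mul_zero, Finset.sum_ite_eq' (range (n / 2 + 1)) k,
          if_neg (by rw [Finset.mem_range]; omega), zero_add]
        refine Finset.sum_eq_zero fun j _ => ?_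
        rw [if_neg (by omega), mul_zero]

end Pool.Agent.Helper34.MVU
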