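import Pool.Agent.Helper34.MVU.WickQ
import Pool.Agent.Helper34.MVU.PfQQ
import Pool.Agent.Helper34.MVU.DL

/-!
Project MV, block U, module U-T0a (TlWick): uniform bound of `Wick (pfL QQ (m :: tl S))` for fixed `S`.

PROOF. For one list `L`: `∃ C ≥ 0, ∀ m, |Wick (pfL QQ (m :: L))| ≤ C * 2^m`. By `abs_Wick_pfL_le` it
suffices to bound `Wick (hfL QQp (m :: L)) = Σ_j Wick (QQp m b_j * hfL QQp (L.eraseIdx j))`,
`b_j = L[j]`, `QQp m b = qP m * qP b + 2 Σ_{i<b} qP (m+(i+1)) * qP (b-(i+1))`. Every product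
`qP (m+i) * (qP b' * hfL QQp (L.eraseIdx j))` has a second factor with nonnegative coefficients which
does not depend on `m`, so `Wick_qP_mul_le` gives `≤ C' 2^(m+i) = (C' 2^i) 2^m`; finite sums of such
bounds. (Coefficients of `hfL QQp` are nonnegative: `abs_coeff_pfL_QQ_le` and `abs_nonneg`.)
Then take the sum of the constants over the finite set `(Icc 1 s0).powerset`
(`choose`, `Finset.single_le_sum`).
-/

namespace Pool.Agent.Helper34.MVU

open Finset MvPolynomial Pool.Agent.Helper60.MV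

private def Bn (F : ℕ → MvPolynomial ℕ ℝ) : Prop :=
  ∃ C : ℝ, 0 ≤ C ∧ ∀ m, Wick (F m) ≤ C * 2 ^ m

private theorem Bn_qP (i : ℕ) (g : MvPolynomial ℕ ℝ) (hg : ∀ m, 0 ≤ g.coeff m) :
    Bn (fun m => qP (m + i) * g) := by
  obtain ⟨C, hC, h⟩ := Wick_qP_mul_le g hg
  refine ⟨C * 2 ^ i, by positivity, fun m => ?_⟩
  refine (h (m + i)).trans (le_of_eq ?_)
  rw [pow_add]
  ring

private theorem Bn_add {F G : ℕ → MvPolynomial ℕ ℝ} (hF : Bn F) (hG : Bn G) :
    Bn (fun m => F m + G m) := by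
  obtain ⟨C, hC, h⟩ := hF
  obtain ⟨D, hD, h'⟩ := hG
  refine ⟨C + D, by positivity, fun m => ?_⟩
  rw [Wick_add, add_mul]
  exact add_le_add (h m) (h' m)

private theorem Bn_C {F : ℕ → MvPolynomial ℕ ℝ} (hF : Bn F) (c : ℝ) (hc : 0 ≤ c) :
    Bn (fun m => C c * F m) := by
  obtain ⟨D, hD, h⟩ := hF
  refine ⟨c * D, by positivity, fun m => ?_⟩
  rw [Wick_C_mul, mul_assoc]
  exact mul_le_mul_of_nonneg_left (h m) hc

private theorem Bn_zero : Bn (fun _ => 0) := by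
  refine ⟨0, le_refl _, fun m => ?_⟩
  rw [Wick_zero, zero_mul]

private theorem Bn_sum {ι : Type} (s : Finset ι) (F : ι → ℕ → MvPolynomial ℕ ℝ)
    (h : ∀ i ∈ s, Bn (F i)) : Bn (fun m => ∑ i ∈ s, F i m) := by
  classical
  induction s using Finset.induction_on with
  | empty => simpa using Bn_zero
  | insert a s ha ih =>
    have h1 := Bn_add (h a (Finset.mem_insert_self a s))
      (ih fun i hi => h i (Finset.mem_insert_of_mem hi))
    have h2 : (fun m => ∑ i ∈ insert a s, F i m) = fun m => F a m + ∑ i ∈ s, F i m := by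
      funext m
      rw [Finset.sum_insert ha]
    rw [h2]
    exact h1

private theorem coeff_mul_nonneg (f g : MvPolynomial ℕ ℝ) (hf : ∀ m, 0 ≤ f.coeff m)
    (hg : ∀ m, 0 ≤ g.coeff m) (m : ℕ →₀ ℕ) : 0 ≤ (f * g).coeff m := by
  classical
  rw [coeff_mul]
  exact Finset.sum_nonneg fun x _ => mul_nonneg (hf _) (hg _)

private theorem coeff_hfL_nonneg (L : List ℕ) (m : ℕ →₀ ℕ) : 0 ≤ (hfL QQp L).coeff m :=
  (abs_nonneg _).trans (abs_coeff_pfL_QQ_le L m)

private theorem Bn_QQp (b : ℕ) (g : MvPolynomial ℕ ℝ) (hg : ∀ m, 0 ≤ g.coeff m) :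
    Bn (fun m => QQp m b * g) := by
  have h1 : (fun m => QQp m b * g) = fun m => qP (m + 0) * (qP b * g) +
      C 2 * ∑ j ∈ range b, qP (m + (j + 1)) * (qP (b - (j + 1)) * g) := by
    funext m
    have h2 : (C 2 : MvPolynomial ℕ ℝ) = 2 := map_ofNat C 2
    rw [h2, QQp, add_zero, add_mul, mul_assoc, mul_assoc, Finset.sum_mul]
    congr 2
    refine Finset.sum_congr rfl fun j _ => ?_
    rw [mul_assoc]
  rw [h1]
  refine Bn_add (Bn_qP 0 _ ?_) (Bn_C (Bn_sum _ _ fun j _ => ?_) 2 (by norm_num))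
  · exact coeff_mul_nonneg _ _ (coeff_qP_nonneg b) hg
  · exact Bn_qP (j + 1) _ (coeff_mul_nonneg _ _ (coeff_qP_nonneg _) hg)

private theorem Wick_list_le (L : List ℕ) : ∃ C : ℝ, 0 ≤ C ∧ ∀ m : ℕ,
    |Wick (pfL QQ (m :: L))| ≤ C * 2 ^ m := by
  have h1 : Bn (fun m => hfL QQp (m :: L)) := by
    have h2 : (fun m => hfL QQp (m :: L)) = fun m => ∑ j ∈ (Finset.univ : Finset (Fin L.length)),
        QQp m (L.get j) * hfL QQp (L.eraseIdx j) := by
      funext m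
      rw [hfL]
    rw [h2]
    exact Bn_sum _ _ fun j _ => Bn_QQp _ _ (coeff_hfL_nonneg _)
  obtain ⟨C, hC, h⟩ := h1
  exact ⟨C, hC, fun m => (abs_Wick_pfL_le _).trans (h m)⟩

theorem Wick_tl_le (s0 : ℕ) : ∃ C : ℝ, 0 ≤ C ∧ ∀ S ∈ (Icc 1 s0).powerset, ∀ m : ℕ,
    |Wick (pfL QQ (m :: tl S))| ≤ C * 2 ^ m := by
  choose D hD hDm using fun S : Finset ℕ => Wick_list_le (tl S)
  refine ⟨∑ S ∈ (Icc 1 s0).powerset, D S, Finset.sum_nonneg fun S _ => hD S, ?_⟩
  intro S hS m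
  refine (hDm S m).trans (mul_le_mul_of_nonneg_right ?_ (by positivity))
  exact Finset.single_le_sum (f := D) (fun S _ => hD S) hS

end Pool.Agent.Helper34.MVU
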