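import Pool.Agent.Helper34.MVU.HfPerm
import Pool.Agent.Helper34.MVU.QP

/-!
Project MV, block U, module U-Q2 (WQ): recursion for the numbers `Wick (qP n)`.

PROOF. Let `W n = Wick (qP n)`. By `qP_rec`, `Wick_C_mul`, `Wick_sum`, `Wick_X_mul`
(with `N = n + 1`, `vars_qP`) and `pderiv_qP`:
`(n+1) W (n+1) = Σ_{k ≤ n/2} 2 Σ_{l, 2l+1 ≤ n-2k} Cov k l (2/(2l+1)) W (n-2k-2l-1)`.      (1)
* odd: strong induction. If `n+1` is odd, every index `n-2k-2l-1` is odd and smaller, so `W = 0`.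
* even, `n + 1 = 2 (m+1)`: group (1) by `i = k + l` (`0 ≤ i ≤ m`; the condition `2l+1 ≤ n-2k` means
  `k + l ≤ m`): `2(m+1) W(2(m+1)) = Σ_{i=0}^m (Σ_{k+l=i} 4 Cov k l/(2l+1)) W(2(m-i))`, and
  `4 Cov k l/(2l+1) = 4 ζ(2i+2) (2i+1)!/((2k)! (2l+1)!) = 4 ζ(2i+2) (2i+1 choose 2l+1)`, and
  `Σ_{l ≤ i} (2i+1 choose 2l+1) = 2^(2i)` (half of `2^(2i+1)`; e.g. by `l ↦ i - l` this is also the
  sum of `(2i+1 choose 2k)`, both add up to `2^(2i+1)`, `Nat.sum_range_choose`), total
  `4^(i+1) ζ(2(i+1))`.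
-/

namespace Pool.Agent.Helper34.MVU

open Finset MvPolynomial Pool.Agent.Helper60.MV

private theorem Wick_qP_base (n : ℕ) :
    ((n : ℝ) + 1) * Wick (qP (n + 1)) =
      ∑ k ∈ range (n / 2 + 1), 2 * ∑ l ∈ range (n + 1), Cov k l *
        (if 2 * l + 1 ≤ n - 2 * k then 2 / (2 * (l : ℝ) + 1) * Wick (qP (n - 2 * k - (2 * l + 1)))
          else 0) := by
  rw [← Wick_C_mul, qP_rec, Wick_sum]
  apply Finset.sum_congr rfl
  intro k _
  rw [mul_assoc, Wick_C_mul, Wick_X_mul k (qP (n - 2 * k)) (n + 1)]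
  · congr 1
    apply Finset.sum_congr rfl
    intro l _
    rw [pderiv_qP]
    split_ifs with h
    · rw [Wick_C_mul]
    · rw [Wick_zero]
  · intro l hl
    have := vars_qP _ l hl
    omega

theorem Wick_qP_odd (n : ℕ) (hn : Odd n) : Wick (qP n) = 0 := by
  induction n using Nat.strong_induction_on with
  | _ n ih =>
    rcases n with _ | n
    · exact absurd hn (by decide)
    have hb := Wick_qP_base n
    have hz : (∑ k ∈ range (n / 2 + 1), 2 * ∑ l ∈ range (n + 1), Cov k l *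
        (if 2 * l + 1 ≤ n - 2 * k then 2 / (2 * (l : ℝ) + 1) * Wick (qP (n - 2 * k - (2 * l + 1)))
          else 0)) = 0 := by
      apply Finset.sum_eq_zero
      intro k hk
      rw [Finset.sum_eq_zero, mul_zero]
      intro l _
      split_ifs with h
      · rw [ih (n - 2 * k - (2 * l + 1)) (by omega), mul_zero, mul_zero]
        obtain ⟨r, hr⟩ := hn
        have hk' := Finset.mem_range.mp hk
        exact ⟨r - k - l - 1, by omega⟩
      · rw [mul_zero]
    rw [hz] at hb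
    have hn0 : ((n : ℝ) + 1) ≠ 0 := by positivity
    exact (mul_eq_zero.mp hb).resolve_left hn0

private theorem sum_pairs (f : ℕ → ℕ) (n : ℕ) :
    ∑ j ∈ range (2 * n), f j = ∑ k ∈ range n, (f (2 * k) + f (2 * k + 1)) := by
  induction n with
  | zero => simp
  | succ n ih =>
    rw [Finset.sum_range_succ _ n, ← ih, show 2 * (n + 1) = 2 * n + 1 + 1 by ring,
      Finset.sum_range_succ, Finset.sum_range_succ]
    ring

private theorem sum_choose_even (i : ℕ) :
    ∑ k ∈ range (i + 1), (2 * i + 1).choose (2 * k) = 4 ^ i := by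
  have h1 := Nat.sum_range_choose (2 * i + 1)
  rw [show 2 * i + 1 + 1 = 2 * (i + 1) by ring, sum_pairs, Finset.sum_add_distrib] at h1
  have h2 : ∑ k ∈ range (i + 1), (2 * i + 1).choose (2 * k + 1) =
      ∑ k ∈ range (i + 1), (2 * i + 1).choose (2 * k) := by
    rw [← Finset.sum_range_reflect (fun k => (2 * i + 1).choose (2 * k)) (i + 1)]
    apply Finset.sum_congr rfl
    intro k hk
    have hk' := Finset.mem_range.mp hk
    apply Nat.choose_symm_of_eq_add
    omega
  rw [h2, pow_succ, pow_mul] at h1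
  norm_num at h1
  omega

private theorem four_Cov (k l : ℕ) :
    2 * (Cov k l * (2 / (2 * (l : ℝ) + 1))) =
      4 * zet (2 * (k + l + 1)) * ((2 * (k + l) + 1).choose (2 * k) : ℝ) := by
  have hle : 2 * k ≤ 2 * (k + l) + 1 := by omega
  rw [Nat.cast_choose ℝ hle, show 2 * (k + l) + 1 - 2 * k = 2 * l + 1 by omega, Cov,
    show 2 * k + 2 * l + 1 = 2 * (k + l) + 1 by ring,
    show 2 * k + 2 * l + 2 = 2 * (k + l + 1) by ring, Nat.factorial_succ (2 * l)]
  have h1 : ((2 * k).factorial : ℝ) ≠ 0 := by positivity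
  have h2 : ((2 * l).factorial : ℝ) ≠ 0 := by positivity
  have h3 : (2 * (l : ℝ) + 1) ≠ 0 := by positivity
  push_cast
  field_simp
  ring

theorem Wick_qP_rec (m : ℕ) :
    (2 * ((m : ℝ) + 1)) * Wick (qP (2 * (m + 1))) =
      ∑ i ∈ range (m + 1), 4 ^ (i + 1) * zet (2 * (i + 1)) * Wick (qP (2 * (m - i))) := by
  have hb := Wick_qP_base (2 * m + 1)
  rw [show 2 * m + 1 + 1 = 2 * (m + 1) by ring, show (2 * m + 1) / 2 = m by omega] at hb
  have hL : (2 * ((m : ℝ) + 1)) * Wick (qP (2 * (m + 1))) =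
      (((2 * m + 1 : ℕ) : ℝ) + 1) * Wick (qP (2 * (m + 1))) := by
    push_cast
    ring
  rw [hL, hb]
  have h1 : ∀ k ∈ range (m + 1), (2 * ∑ l ∈ range (2 * (m + 1)), Cov k l *
      (if 2 * l + 1 ≤ 2 * m + 1 - 2 * k then
        2 / (2 * (l : ℝ) + 1) * Wick (qP (2 * m + 1 - 2 * k - (2 * l + 1))) else 0)) =
      ∑ l ∈ range (m + 1 - k), 4 * zet (2 * (k + l + 1)) *
        ((2 * (k + l) + 1).choose (2 * k) : ℝ) * Wick (qP (2 * (m - (k + l)))) := by
    intro k hk
    have hk' := Finset.mem_range.mp hk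
    rw [Finset.mul_sum]
    symm
    rw [← Finset.sum_subset (s₁ := range (m + 1 - k)) (s₂ := range (2 * (m + 1)))]
    · apply Finset.sum_congr rfl
      intro l hl
      have hl' := Finset.mem_range.mp hl
      rw [if_pos (by omega), ← four_Cov,
        show 2 * m + 1 - 2 * k - (2 * l + 1) = 2 * (m - (k + l)) by omega]
      ring
    · apply Finset.range_subset_range.mpr
      omega
    · intro l _ hl
      have hl' : ¬ l < m + 1 - k := fun h => hl (Finset.mem_range.mpr h)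
      rw [if_neg (by omega), mul_zero, mul_zero]
  rw [Finset.sum_congr rfl h1, ← Finset.sum_range_diag_flip]
  apply Finset.sum_congr rfl
  intro i _
  have h2 : ∀ k ∈ range (i + 1), 4 * zet (2 * (k + (i - k) + 1)) *
      ((2 * (k + (i - k)) + 1).choose (2 * k) : ℝ) * Wick (qP (2 * (m - (k + (i - k))))) =
      4 * zet (2 * (i + 1)) * Wick (qP (2 * (m - i))) * ((2 * i + 1).choose (2 * k) : ℝ) := by
    intro k hk
    have hk' := Finset.mem_range.mp hk
    rw [show k + (i - k) = i by omega]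
    ring
  rw [Finset.sum_congr rfl h2, ← Finset.mul_sum, ← Nat.cast_sum, sum_choose_even]
  push_cast
  ring

end Pool.Agent.Helper34.MVU
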