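import Pool.Agent.Helper34.MVU.HfPerm
import Pool.Agent.Helper34.MVU.QP
import Pool.Agent.Helper34.MVU.CovSum

/-!
Project MV, block U, module U-U1 (WickProd): the Wick functional of a product of polynomials `qP`.

PROOF. Let `L = [(n_1,r_1), …, (n_s,r_s)]`, `K0` larger than all `n_a`, `J = n_1 + … + n_s`,
`θ k = Σ_a 2 r_a^(2k+1)/(2k+1)` and `ell = Σ_{k<K0} C (θ k) * X k`,
`T J = Σ_{j ≤ J} C (1/j!) * ell^j`.
(1) CLAIM: for all `m` and all exponents `n` (with all `n_a ≤` the given ones, or simply with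
  `n_a < K0`) and all `J ≥ |m|` (`|m| = Σ m`): `(Π r_a^{n_a}) coeff_m (Π qP n_a) ≤ coeff_m (T J)`.
  Induction on `|m|`. `m = 0`: `coeff_0 (Π qP n_a) = Π [n_a = 0] ≤ 1 = coeff_0 (T J)`
  (`coeff_zero_qP`; if some `n_a ≠ 0` the left side is `0`). `m ≠ 0`: choose `k` with `m_k ≥ 1`. If
  `k ≥ K0` the left side is zero because `X k` does not occur in the `qP n_a` (`vars_qP`), and
  the right side is `≥ 0`. Otherwise use `m_k coeff_m f = coeff_{m-e_k} (∂_k f)`
  (`pderiv` of a monomial) and `pderiv_qP`: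
  `m_k (Π r^{n}) coeff_m (Π qP n_a) = Σ_a (2/(2k+1)) (Π r^n) coeff_{m-e_k} (qP (n_a-2k-1) Π_{b≠a} qP n_b)`
  (over `a` with `2k+1 ≤ n_a`) `≤ Σ_a (2 r_a^(2k+1)/(2k+1)) coeff_{m-e_k} (T (J-1))`
  `= θ_k coeff_{m-e_k} (T (J-1)) = coeff_{m-e_k} (∂_k (T J)) = m_k coeff_m (T J)`.
(2) `Wick (Π qP n_a) Π r_a^{n_a} ≤ Wick (T J)` (for `J ≥` the degree of the left side; `Wick_mono`).
(3) `Wick (ell^(j+2)) = (j+1) V Wick (ell^j)`, `V = Σ_{k,l<K0} θ_k θ_l Cov k l` (`Wick_X_mul`,
  `∂_l (ell^(j+1)) = (j+1) θ_l ell^j`), `Wick ell = 0`, so `Wick (ell^(2i)) = (2i-1)!! V^i`,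
  `Wick (ell^(2i))/(2i)! = V^i/(2^i i!)`, odd powers give `0`, and
  `Wick (T J) ≤ Σ_i (V/2)^i/i! ≤ exp (V/2)` (`Real.sum_le_exp_of_nonneg`).
(4) `V = Σ_{a,b} Σ_{k,l} Cov k l (2 r_a^(2k+1)/(2k+1)) (2 r_b^(2l+1)/(2l+1)) ≤ Σ_{a,b} Phi (r_a+r_b)`
  (`cov_sum_le`; `r_a + r_b < 1`), so `exp (V/2) ≤ GG (L.map Prod.snd)`.
It may be convenient to work with `Fin L.length` (`List.prod_ofFn`, `List.sum_ofFn`).
-/

namespace Pool.Agent.Helper34.MVU

open Finset MvPolynomial Pool.Agent.Helper60.MV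

/-! ### the coefficientwise order -/

private def cnn (f : MvPolynomial ℕ ℝ) : Prop := ∀ m, 0 ≤ f.coeff m

private def cle (f g : MvPolynomial ℕ ℝ) : Prop := ∀ m, f.coeff m ≤ g.coeff m

private theorem cnn_mul {f g : MvPolynomial ℕ ℝ} (hf : cnn f) (hg : cnn g) : cnn (f * g) := by
  classical
  intro m
  rw [MvPolynomial.coeff_mul]
  exact Finset.sum_nonneg fun p _ => mul_nonneg (hf _) (hg _)

private theorem cle_mul {f f' g g' : MvPolynomial ℕ ℝ} (h1 : cle f f') (h2 : cle g g')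
    (hg : cnn g) (hf' : cnn f') : cle (f * g) (f' * g') := by
  classical
  intro m
  rw [MvPolynomial.coeff_mul, MvPolynomial.coeff_mul]
  exact Finset.sum_le_sum fun p _ => mul_le_mul (h1 _) (h2 _) (hg _) (hf' _)

private theorem cnn_one : cnn 1 := by
  classical
  intro m
  rw [MvPolynomial.coeff_one]
  split_ifs <;> norm_num

private theorem cnn_pow {f : MvPolynomial ℕ ℝ} (hf : cnn f) (j : ℕ) : cnn (f ^ j) := by
  induction j with
  | zero =>
    rw [pow_zero]
    exact cnn_one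
  | succ j ih =>
    rw [pow_succ]
    exact cnn_mul ih hf

private theorem cnn_C_mul {c : ℝ} (hc : 0 ≤ c) {f : MvPolynomial ℕ ℝ} (hf : cnn f) :
    cnn (C c * f) := by
  intro m
  rw [MvPolynomial.coeff_C_mul]
  exact mul_nonneg hc (hf m)

private theorem cnn_X (k : ℕ) : cnn (X k) := by
  classical
  intro m
  rw [MvPolynomial.coeff_X]
  split_ifs <;> norm_num

private theorem cnn_sum {ι : Type} (s : Finset ι) (f : ι → MvPolynomial ℕ ℝ)
    (h : ∀ i ∈ s, cnn (f i)) : cnn (∑ i ∈ s, f i) := by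
  intro m
  rw [MvPolynomial.coeff_sum]
  exact Finset.sum_nonneg fun i hi => h i hi m

private theorem cnn_add {f g : MvPolynomial ℕ ℝ} (hf : cnn f) (hg : cnn g) : cnn (f + g) := by
  intro m
  rw [MvPolynomial.coeff_add]
  exact add_nonneg (hf m) (hg m)

/-! ### the truncated exponential -/

private noncomputable def Es (N : ℕ) (f : MvPolynomial ℕ ℝ) : MvPolynomial ℕ ℝ :=
  ∑ j ∈ range N, C (1 / (j.factorial : ℝ)) * f ^ j

private theorem cnn_Et {f : MvPolynomial ℕ ℝ} (hf : cnn f) (j : ℕ) :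
    cnn (C (1 / (j.factorial : ℝ)) * f ^ j) :=
  cnn_C_mul (by positivity) (cnn_pow hf j)

private theorem cnn_Es {f : MvPolynomial ℕ ℝ} (hf : cnn f) (N : ℕ) : cnn (Es N f) :=
  cnn_sum _ _ fun j _ => cnn_Et hf j

private theorem Es_mono {f : MvPolynomial ℕ ℝ} (hf : cnn f) {N N' : ℕ} (h : N ≤ N') :
    cle (Es N f) (Es N' f) := by
  intro m
  unfold Es
  rw [MvPolynomial.coeff_sum, MvPolynomial.coeff_sum]
  exact Finset.sum_le_sum_of_subset_of_nonneg (Finset.range_mono h)
    fun j _ _ => cnn_Et hf j m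

private theorem pderiv_Es (k N : ℕ) (f : MvPolynomial ℕ ℝ) :
    pderiv k (Es (N + 1) f) = Es N f * pderiv k f := by
  unfold Es
  rw [map_sum, Finset.sum_range_succ', Finset.sum_mul]
  have h0 : pderiv k (C (1 / ((0 : ℕ).factorial : ℝ)) * f ^ 0 : MvPolynomial ℕ ℝ) = 0 := by
    rw [pderiv_C_mul, pow_zero, pderiv_one, mul_zero]
  rw [h0, add_zero]
  apply Finset.sum_congr rfl
  intro j _
  rw [pderiv_C_mul, pderiv_pow, Nat.add_sub_cancel]
  have h1 : (C (1 / (j.factorial : ℝ)) : MvPolynomial ℕ ℝ) =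
      C (1 / ((j + 1).factorial : ℝ)) * ((j + 1 : ℕ) : MvPolynomial ℕ ℝ) := by
    rw [← map_natCast (C : ℝ →+* MvPolynomial ℕ ℝ) (j + 1), ← C_mul]
    congr 1
    rw [Nat.factorial_succ]
    push_cast
    have h2 : (j.factorial : ℝ) ≠ 0 := by positivity
    have h3 : (j : ℝ) + 1 ≠ 0 := by positivity
    field_simp
  rw [h1]
  ring

private theorem Es_mul {a b : MvPolynomial ℕ ℝ} (ha : cnn a) (hb : cnn b) (N M : ℕ) :
    cle (Es N a * Es M b) (Es (N + M) (a + b)) := by
  have hg : ∀ p : ℕ × ℕ, cnn ((C (1 / (p.1.factorial : ℝ)) * a ^ p.1) *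
      (C (1 / (p.2.factorial : ℝ)) * b ^ p.2)) :=
    fun p => cnn_mul (cnn_Et ha _) (cnn_Et hb _)
  have h1 : Es N a * Es M b = ∑ p ∈ range N ×ˢ range M,
      ((C (1 / (p.1.factorial : ℝ)) * a ^ p.1) * (C (1 / (p.2.factorial : ℝ)) * b ^ p.2)) := by
    unfold Es
    rw [Finset.sum_mul_sum, Finset.sum_product]
  have h2 : Es (N + M) (a + b) = ∑ s ∈ range (N + M), ∑ p ∈ antidiagonal s,
      ((C (1 / (p.1.factorial : ℝ)) * a ^ p.1) * (C (1 / (p.2.factorial : ℝ)) * b ^ p.2)) := by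
    unfold Es
    apply Finset.sum_congr rfl
    intro s _
    rw [add_pow, Finset.mul_sum, Finset.Nat.sum_antidiagonal_eq_sum_range_succ_mk]
    apply Finset.sum_congr rfl
    intro i hi
    rw [Finset.mem_range] at hi
    have hi' : i ≤ s := by omega
    have h3 : (C (1 / (i.factorial : ℝ)) * C (1 / ((s - i).factorial : ℝ)) :
        MvPolynomial ℕ ℝ) = C (1 / (s.factorial : ℝ)) * ((s.choose i : ℕ) : MvPolynomial ℕ ℝ) := by
      rw [← map_natCast (C : ℝ →+* MvPolynomial ℕ ℝ) (s.choose i), ← C_mul, ← C_mul]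
      congr 1
      rw [Nat.cast_choose ℝ hi']
      have h4 : (s.factorial : ℝ) ≠ 0 := by positivity
      field_simp
    calc C (1 / (s.factorial : ℝ)) * (a ^ i * b ^ (s - i) * ((s.choose i : ℕ) : MvPolynomial ℕ ℝ))
        = (C (1 / (s.factorial : ℝ)) * ((s.choose i : ℕ) : MvPolynomial ℕ ℝ)) *
          (a ^ i * b ^ (s - i)) := by ring
      _ = (C (1 / (i.factorial : ℝ)) * C (1 / ((s - i).factorial : ℝ))) *
          (a ^ i * b ^ (s - i)) := by rw [h3]
      _ = _ := by ring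
  intro m
  rw [h1, h2, MvPolynomial.coeff_sum, MvPolynomial.coeff_sum]
  rw [← Finset.sum_fiberwise_of_maps_to (g := fun p : ℕ × ℕ => p.1 + p.2) (t := range (N + M))]
  · refine Finset.sum_le_sum fun s _ => ?_
    rw [MvPolynomial.coeff_sum]
    refine Finset.sum_le_sum_of_subset_of_nonneg ?_ fun p _ _ => hg p m
    intro p hp
    rw [Finset.mem_filter] at hp
    rw [Finset.HasAntidiagonal.mem_antidiagonal]
    exact hp.2
  · intro p hp
    rw [Finset.mem_product, Finset.mem_range, Finset.mem_range] at hp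
    rw [Finset.mem_range]
    omega

/-! ### the linear form -/

private noncomputable def th (r : ℝ) (k : ℕ) : ℝ := 2 * r ^ (2 * k + 1) / (2 * (k : ℝ) + 1)

private noncomputable def el (K0 : ℕ) (θ : ℕ → ℝ) : MvPolynomial ℕ ℝ :=
  ∑ k ∈ range K0, C (θ k) * X k

private theorem th_nonneg {r : ℝ} (hr : 0 ≤ r) (k : ℕ) : 0 ≤ th r k := by
  unfold th
  positivity

private theorem cnn_el (K0 : ℕ) {θ : ℕ → ℝ} (hθ : ∀ k, 0 ≤ θ k) : cnn (el K0 θ) :=
  cnn_sum _ _ fun k _ => cnn_C_mul (hθ k) (cnn_X k)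

private theorem pderiv_el {K0 k : ℕ} (hk : k < K0) (θ : ℕ → ℝ) :
    pderiv k (el K0 θ) = C (θ k) := by
  unfold el
  rw [map_sum, Finset.sum_eq_single k]
  · rw [pderiv_C_mul, pderiv_X_self, mul_one]
  · intro j _ hj
    rw [pderiv_C_mul, pderiv_X_of_ne hj, mul_zero]
  · intro h
    exact absurd (Finset.mem_range.2 hk) h

private theorem vars_el (K0 : ℕ) (θ : ℕ → ℝ) : ∀ l ∈ (el K0 θ).vars, l < K0 := by
  classical
  intro l hl
  unfold el at hl
  have h1 := MvPolynomial.vars_sum_subset _ _ hl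
  rw [Finset.mem_biUnion] at h1
  obtain ⟨j, hj, h2⟩ := h1
  have h3 := MvPolynomial.vars_mul _ _ h2
  rw [MvPolynomial.vars_C, MvPolynomial.vars_X, Finset.empty_union, Finset.mem_singleton] at h3
  rw [h3]
  exact Finset.mem_range.1 hj

/-- one factor -/
private theorem single_le {K0 : ℕ} {r : ℝ} (hr : 0 ≤ r) (n : ℕ) (hn : n ≤ K0) :
    cle (C (r ^ n) * qP n) (Es (n + 1) (el K0 (th r))) := by
  induction n using Nat.strong_induction_on with
  | _ n ih =>
    have hE : cnn (Es (n + 1) (el K0 (th r))) := cnn_Es (cnn_el K0 (th_nonneg hr)) _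
    intro m
    rw [MvPolynomial.coeff_C_mul]
    by_cases hm : m = 0
    · subst hm
      rw [coeff_zero_qP]
      by_cases h0 : n = 0
      · subst h0
        rw [if_pos rfl]
        unfold Es
        rw [zero_add, Finset.sum_range_one]
        simp
      · rw [if_neg h0, mul_zero]
        exact hE 0
    · obtain ⟨k, hk⟩ : ∃ k, m k ≠ 0 := by
        by_contra hc
        push Not at hc
        exact hm (Finsupp.ext hc)
      have hm' : m = (m - Finsupp.single k 1) + Finsupp.single k 1 := by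
        ext a
        rw [Finsupp.add_apply, Finsupp.tsub_apply]
        by_cases ha : k = a
        · rw [← ha, Finsupp.single_eq_same]
          omega
        · rw [Finsupp.single_eq_of_ne (Ne.symm ha)]
          omega
      have hpos : (0 : ℝ) < ((m - Finsupp.single k 1 : ℕ →₀ ℕ) k : ℝ) + 1 := by positivity
      have h1 := MvPolynomial.coeff_pderiv (i := k) (qP n) (m - Finsupp.single k 1)
      have h2 := MvPolynomial.coeff_pderiv (i := k) (Es (n + 1) (el K0 (th r)))
        (m - Finsupp.single k 1)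
      rw [← hm'] at h1 h2
      have key : r ^ n * (pderiv k (qP n)).coeff (m - Finsupp.single k 1) ≤
          (pderiv k (Es (n + 1) (el K0 (th r)))).coeff (m - Finsupp.single k 1) := by
        rw [pderiv_qP]
        split_ifs with hkn
        · have hkK : k < K0 := by omega
          rw [pderiv_Es, pderiv_el hkK, mul_comm (Es n (el K0 (th r))), MvPolynomial.coeff_C_mul,
            MvPolynomial.coeff_C_mul]
          have h3 := ih (n - (2 * k + 1)) (by omega) (by omega) (m - Finsupp.single k 1)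
          rw [MvPolynomial.coeff_C_mul] at h3
          have h4 := Es_mono (cnn_el K0 (th_nonneg hr))
            (show n - (2 * k + 1) + 1 ≤ n by omega) (m - Finsupp.single k 1)
          have h5 : r ^ n = r ^ (2 * k + 1) * r ^ (n - (2 * k + 1)) := by
            rw [← pow_add]
            congr 1
            omega
          calc r ^ n * (2 / (2 * (k : ℝ) + 1) *
                (qP (n - (2 * k + 1))).coeff (m - Finsupp.single k 1))
              = th r k * (r ^ (n - (2 * k + 1)) *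
                (qP (n - (2 * k + 1))).coeff (m - Finsupp.single k 1)) := by
                rw [h5]
                unfold th
                ring
            _ ≤ _ := mul_le_mul_of_nonneg_left (h3.trans h4) (th_nonneg hr k)
        · rw [MvPolynomial.coeff_zero, mul_zero]
          rw [h2]
          exact mul_nonneg (hE m) hpos.le
      rw [h1, h2] at key
      refine le_of_mul_le_mul_right ?_ hpos
      calc r ^ n * (qP n).coeff m * (((m - Finsupp.single k 1 : ℕ →₀ ℕ) k : ℝ) + 1)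
          = r ^ n * ((qP n).coeff m * (((m - Finsupp.single k 1 : ℕ →₀ ℕ) k : ℝ) + 1)) := by ring
        _ ≤ _ := key

private theorem cnn_qP (n : ℕ) : cnn (qP n) := coeff_qP_nonneg n

/-- the product -/
private theorem prod_le (K0 : ℕ) (L : List (ℕ × ℝ)) (hL : ∀ p ∈ L, 0 ≤ p.2 ∧ p.1 ≤ K0) :
    ∃ N, cle ((L.map (fun p => C (p.2 ^ p.1) * qP p.1)).prod)
      (Es N (el K0 (fun k => (L.map (fun p => th p.2 k)).sum))) := by
  induction L with
  | nil =>
    refine ⟨1, ?_⟩
    intro m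
    unfold Es
    rw [Finset.sum_range_one]
    simp
  | cons p L ih =>
    obtain ⟨N, hN⟩ := ih fun q hq => hL q (List.mem_cons_of_mem p hq)
    have hp := hL p List.mem_cons_self
    refine ⟨p.1 + 1 + N, ?_⟩
    have hθ : ∀ k, 0 ≤ (L.map (fun p => th p.2 k)).sum := by
      intro k
      apply List.sum_nonneg
      intro x hx
      rw [List.mem_map] at hx
      obtain ⟨q, hq, rfl⟩ := hx
      exact th_nonneg (hL q (List.mem_cons_of_mem p hq)).1 k
    have h1 : el K0 (fun k => ((p :: L).map (fun p => th p.2 k)).sum) =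
        el K0 (th p.2) + el K0 (fun k => (L.map (fun p => th p.2 k)).sum) := by
      unfold el
      rw [← Finset.sum_add_distrib]
      apply Finset.sum_congr rfl
      intro k _
      beta_reduce
      rw [List.map_cons, List.sum_cons, C_add]
      ring
    have h2 : cnn ((L.map (fun p => C (p.2 ^ p.1) * qP p.1)).prod) := by
      have hL' : ∀ q ∈ L, 0 ≤ q.2 := fun q hq => (hL q (List.mem_cons_of_mem p hq)).1
      clear hN h1 hθ ih hL
      induction L with
      | nil => exact cnn_one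
      | cons q L ih2 =>
        rw [List.map_cons, List.prod_cons]
        exact cnn_mul (cnn_C_mul (pow_nonneg (hL' q List.mem_cons_self) _) (cnn_qP _))
          (ih2 fun q' hq' => hL' q' (List.mem_cons_of_mem q hq'))
    rw [h1, List.map_cons, List.prod_cons]
    intro m
    exact (cle_mul (single_le hp.1 p.1 hp.2) hN h2 (cnn_Es (cnn_el K0 (th_nonneg hp.1)) _) m).trans
      (Es_mul (cnn_el K0 (th_nonneg hp.1)) (cnn_el K0 hθ) _ _ m)

/-! ### the Wick functional of the exponential of a linear form -/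

private noncomputable def VV (K0 : ℕ) (θ : ℕ → ℝ) : ℝ :=
  ∑ k ∈ range K0, ∑ l ∈ range K0, Cov k l * θ k * θ l

private theorem VV_nonneg (K0 : ℕ) {θ : ℕ → ℝ} (hθ : ∀ k, 0 ≤ θ k) : 0 ≤ VV K0 θ :=
  Finset.sum_nonneg fun k _ => Finset.sum_nonneg fun l _ =>
    mul_nonneg (mul_nonneg (Cov_nonneg k l) (hθ k)) (hθ l)

private theorem Wick_el_succ (K0 : ℕ) (θ : ℕ → ℝ) (j : ℕ) :
    Wick (el K0 θ ^ (j + 2)) = ((j : ℝ) + 1) * VV K0 θ * Wick (el K0 θ ^ j) := by
  classical
  have hv : ∀ l ∈ (el K0 θ ^ (j + 1)).vars, l < K0 := fun l hl =>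
    vars_el K0 θ l (MvPolynomial.vars_pow _ _ hl)
  have h1 : el K0 θ ^ (j + 2) = ∑ k ∈ range K0, C (θ k) * (X k * el K0 θ ^ (j + 1)) := by
    have h2 : el K0 θ ^ (j + 2) =
        (∑ k ∈ range K0, C (θ k) * X k) * el K0 θ ^ (j + 1) := by
      have h0 : el K0 θ ^ (j + 2) = el K0 θ * el K0 θ ^ (j + 1) := by ring
      exact h0
    rw [h2, Finset.sum_mul]
    apply Finset.sum_congr rfl
    intro k _
    ring
  rw [h1, Wick_sum]
  have h3 : ∀ k ∈ range K0, Wick (C (θ k) * (X k * el K0 θ ^ (j + 1))) =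
      ∑ l ∈ range K0, (((j : ℝ) + 1) * Wick (el K0 θ ^ j)) * (Cov k l * θ k * θ l) := by
    intro k _
    rw [Wick_C_mul, Wick_X_mul k _ K0 hv, Finset.mul_sum]
    apply Finset.sum_congr rfl
    intro l hl
    have h4 : pderiv l (el K0 θ ^ (j + 1)) = C (((j : ℝ) + 1) * θ l) * el K0 θ ^ j := by
      rw [pderiv_pow, pderiv_el (Finset.mem_range.1 hl), Nat.add_sub_cancel, C_mul]
      have h5 : ((j + 1 : ℕ) : MvPolynomial ℕ ℝ) = C ((j : ℝ) + 1) := by
        rw [← map_natCast (C : ℝ →+* MvPolynomial ℕ ℝ) (j + 1)]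
        push_cast
        rfl
      rw [h5]
      ring
    rw [h4, Wick_C_mul]
    ring
  rw [Finset.sum_congr rfl h3]
  unfold VV
  rw [Finset.mul_sum, Finset.sum_mul]
  apply Finset.sum_congr rfl
  intro k _
  rw [Finset.mul_sum, Finset.sum_mul]
  apply Finset.sum_congr rfl
  intro l _
  ring

private theorem Wick_el_one (K0 : ℕ) (θ : ℕ → ℝ) : Wick (el K0 θ ^ 1) = 0 := by
  classical
  rw [pow_one, el, Wick_sum]
  apply Finset.sum_eq_zero
  intro k _
  have h1 : (X k : MvPolynomial ℕ ℝ) = X k * 1 := (mul_one _).symm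
  rw [Wick_C_mul, h1, Wick_X_mul k 1 0 (by
    intro l hl
    rw [MvPolynomial.vars_one] at hl
    exact absurd hl (Finset.notMem_empty l)), Finset.range_zero, Finset.sum_empty, mul_zero]

private theorem Wick_el_even (K0 : ℕ) (θ : ℕ → ℝ) (i : ℕ) :
    1 / ((2 * i).factorial : ℝ) * Wick (el K0 θ ^ (2 * i)) =
      (VV K0 θ / 2) ^ i / (i.factorial : ℝ) := by
  induction i with
  | zero =>
    rw [mul_zero, pow_zero, pow_zero, Wick_one]
    simp
  | succ i ih =>
    have e : 2 * (i + 1) = 2 * i + 2 := by ring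
    have h1 : ((2 * i).factorial : ℝ) ≠ 0 := by positivity
    have h2 : (i.factorial : ℝ) ≠ 0 := by positivity
    have h3 : (2 * (i : ℝ) + 1) ≠ 0 := by positivity
    have h4 : ((i : ℝ) + 1) ≠ 0 := by positivity
    have h5 : Wick (el K0 θ ^ (2 * i)) =
        ((2 * i).factorial : ℝ) * ((VV K0 θ / 2) ^ i / (i.factorial : ℝ)) := by
      rw [← ih]
      field_simp
    have h6 : ((2 * i + 2).factorial : ℝ) = (2 * (i : ℝ) + 2) * ((2 * (i : ℝ) + 1) *
        ((2 * i).factorial : ℝ)) := by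
      rw [Nat.factorial_succ, Nat.factorial_succ]
      push_cast
      ring
    have h7 : ((i + 1).factorial : ℝ) = ((i : ℝ) + 1) * (i.factorial : ℝ) := by
      rw [Nat.factorial_succ]
      push_cast
      ring
    rw [e, Wick_el_succ, h5, h6, h7, pow_succ]
    push_cast
    field_simp

private theorem Wick_el_odd (K0 : ℕ) (θ : ℕ → ℝ) (i : ℕ) : Wick (el K0 θ ^ (2 * i + 1)) = 0 := by
  induction i with
  | zero => exact Wick_el_one K0 θ
  | succ i ih =>
    have e : 2 * (i + 1) + 1 = 2 * i + 1 + 2 := by ring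
    rw [e, Wick_el_succ, ih, mul_zero]

private theorem Wick_Es (K0 : ℕ) (θ : ℕ → ℝ) (I : ℕ) :
    Wick (Es (2 * I) (el K0 θ)) = ∑ i ∈ range I, (VV K0 θ / 2) ^ i / (i.factorial : ℝ) := by
  induction I with
  | zero =>
    unfold Es
    rw [mul_zero, Finset.range_zero, Finset.sum_empty, Finset.sum_empty, Wick_zero]
  | succ I ih =>
    have e : 2 * (I + 1) = 2 * I + 1 + 1 := by ring
    rw [Finset.sum_range_succ, ← ih, ← Wick_el_even, e]
    unfold Es
    rw [Finset.sum_range_succ, Finset.sum_range_succ, Wick_add, Wick_add, Wick_C_mul, Wick_C_mul,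
      Wick_el_odd, mul_zero, add_zero]

private theorem Wick_Es_le (K0 : ℕ) {θ : ℕ → ℝ} (hθ : ∀ k, 0 ≤ θ k) (N : ℕ) :
    Wick (Es N (el K0 θ)) ≤ Real.exp (VV K0 θ / 2) := by
  have h1 : Wick (Es N (el K0 θ)) ≤ Wick (Es (2 * N) (el K0 θ)) :=
    Wick_mono _ _ (Es_mono (cnn_el K0 hθ) (by omega))
  rw [Wick_Es] at h1
  exact h1.trans (Real.sum_le_exp_of_nonneg (by have := VV_nonneg K0 hθ; linarith) N)

private theorem VV_le (K0 : ℕ) (L : List (ℕ × ℝ)) (hL : ∀ p ∈ L, 0 ≤ p.2 ∧ p.2 < 1 / 2) :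
    VV K0 (fun k => (L.map (fun p => th p.2 k)).sum) ≤
      ((L.map Prod.snd).map (fun r => ((L.map Prod.snd).map (fun r' => Phi (r + r'))).sum)).sum := by
  have hs : ∀ f : ℕ × ℝ → ℝ, (L.map f).sum = ∑ a : Fin L.length, f (L.get a) := by
    intro f
    exact (Fin.sum_univ_fun_getElem L f).symm
  have h1 : ((L.map Prod.snd).map (fun r =>
      ((L.map Prod.snd).map (fun r' => Phi (r + r'))).sum)).sum =
      ∑ a : Fin L.length, ∑ b : Fin L.length, Phi ((L.get a).2 + (L.get b).2) := by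
    rw [List.map_map, hs]
    apply Finset.sum_congr rfl
    intro a _
    simp only [Function.comp_apply]
    rw [List.map_map, hs]
    rfl
  have h2 : VV K0 (fun k => (L.map (fun p => th p.2 k)).sum) =
      ∑ a : Fin L.length, ∑ b : Fin L.length, ∑ k ∈ range K0, ∑ l ∈ range K0,
        Cov k l * th (L.get a).2 k * th (L.get b).2 l := by
    unfold VV
    have h3 : ∀ k ∈ range K0, ∑ l ∈ range K0, Cov k l * (L.map (fun p => th p.2 k)).sum *
        (L.map (fun p => th p.2 l)).sum = ∑ a : Fin L.length, ∑ b : Fin L.length,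
        ∑ l ∈ range K0, Cov k l * th (L.get a).2 k * th (L.get b).2 l := by
      intro k _
      have h4 : ∀ l ∈ range K0, Cov k l * (L.map (fun p => th p.2 k)).sum *
          (L.map (fun p => th p.2 l)).sum = ∑ a : Fin L.length, ∑ b : Fin L.length,
          Cov k l * th (L.get a).2 k * th (L.get b).2 l := by
        intro l _
        rw [hs, hs, mul_assoc, Finset.sum_mul_sum, Finset.mul_sum]
        apply Finset.sum_congr rfl
        intro a _
        rw [Finset.mul_sum]
        apply Finset.sum_congr rfl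
        intro b _
        ring
      rw [Finset.sum_congr rfl h4, Finset.sum_comm]
      apply Finset.sum_congr rfl
      intro a _
      rw [Finset.sum_comm]
    rw [Finset.sum_congr rfl h3, Finset.sum_comm]
    apply Finset.sum_congr rfl
    intro a _
    rw [Finset.sum_comm]
  rw [h1, h2]
  refine Finset.sum_le_sum fun a _ => Finset.sum_le_sum fun b _ => ?_
  have ha := hL (L.get a) (List.get_mem L a)
  have hb := hL (L.get b) (List.get_mem L b)
  exact cov_sum_le K0 (L.get a).2 (L.get b).2 ha.1 hb.1 (by linarith [ha.2, hb.2])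

private theorem prod_split (L : List (ℕ × ℝ)) :
    (L.map (fun p => C (p.2 ^ p.1) * qP p.1)).prod =
      C ((L.map (fun p => p.2 ^ p.1)).prod) * (L.map (fun p => qP p.1)).prod := by
  induction L with
  | nil => simp
  | cons p L ih =>
    rw [List.map_cons, List.prod_cons, ih, List.map_cons, List.prod_cons, List.map_cons,
      List.prod_cons, C_mul]
    ring

private theorem exists_K0 (L : List (ℕ × ℝ)) : ∃ K0, ∀ p ∈ L, p.1 ≤ K0 := by
  induction L with
  | nil => exact ⟨0, fun p hp => absurd hp List.not_mem_nil⟩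
  | cons q L ih =>
    obtain ⟨K0, h⟩ := ih
    refine ⟨max q.1 K0, fun p hp => ?_⟩
    rcases List.mem_cons.1 hp with h1 | h1
    · rw [h1]
      exact le_max_left _ _
    · exact (h p h1).trans (le_max_right _ _)

theorem Wick_prod_le (L : List (ℕ × ℝ)) (hL : ∀ p ∈ L, 0 ≤ p.2 ∧ p.2 < 1 / 2) :
    Wick ((L.map (fun p => qP p.1)).prod) * (L.map (fun p => p.2 ^ p.1)).prod ≤
      GG (L.map Prod.snd) := by
  obtain ⟨K0, hK⟩ := exists_K0 L
  obtain ⟨N, hN⟩ := prod_le K0 L fun p hp => ⟨(hL p hp).1, hK p hp⟩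
  have hθ : ∀ k, 0 ≤ (L.map (fun p => th p.2 k)).sum := by
    intro k
    apply List.sum_nonneg
    intro x hx
    rw [List.mem_map] at hx
    obtain ⟨q, hq, rfl⟩ := hx
    exact th_nonneg (hL q hq).1 k
  rw [mul_comm, ← Wick_C_mul, ← prod_split]
  refine (Wick_mono _ _ hN).trans ((Wick_Es_le K0 hθ N).trans ?_)
  unfold GG
  rw [Real.exp_le_exp]
  have h := VV_le K0 L hL
  linarith

end Pool.Agent.Helper34.MVU
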