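import Pool.Agent.Helper34.MVU.MainE

/-!
Project MV, block U, module U-U3 (WickQ): `Wick (qP n * g) ≤ C_g 2^n` for a fixed polynomial `g`
with nonnegative coefficients.

PROOF. By linearity (`g = Σ_{m ∈ support} coeff m g * monomial m 1`, all coefficients `≥ 0`) it is
enough to treat `g = monomial m 1`, by induction on the degree `Σ m`. Degree `0`: `Wick_qP_le`.
Let `monomial m 1 = X k * g'` with `g' = monomial m' 1`. `Wick_X_mul` (with `N` large):
`Wick (X k * (qP n * g')) = Σ_{l<N} Cov k l Wick (∂_l (qP n * g'))`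
`= Σ_l Cov k l Wick (qP n * ∂_l g') + Σ_{l, 2l+1 ≤ n} Cov k l (2/(2l+1)) Wick (qP (n-2l-1) * g')`.
First sum: only `l ∈ m'.support` contribute, `∂_l g' = m'_l * monomial (m' - e_l) 1` has smaller
degree: `≤ C 2^n`. Second sum: by the induction hypothesis for `g'`
`≤ C' 2^n Σ_l Cov k l 2^(-2l)`, and `Cov k l ≤ 2 (2k+2l+1)!/(2l)! ≤ 2 (2k+2l+1)^(2k+1)` (`ζ ≤ 2`,
`Nat.factorial_lt`/`Nat.pow_sub_le_descFactorial`-type bound), which is summable against `4^(-l)`
(`summable_pow_mul_geometric_of_norm_lt_one` after `(2k+2l+1) ≤ (2k+1)(2l+1)…`, or any other way).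
The partial sums over `l < N` are bounded by the total sum, so the constant does not depend on `n`
and `N`.
-/

namespace Pool.Agent.Helper34.MVU

open Finset MvPolynomial Pool.Agent.Helper60.MV

private def Bd (g : MvPolynomial ℕ ℝ) : Prop :=
  ∃ C : ℝ, 0 ≤ C ∧ ∀ n, Wick (qP n * g) ≤ C * 2 ^ n

private theorem Bd_zero : Bd 0 := by
  refine ⟨0, le_refl _, ?_⟩
  intro n
  rw [mul_zero, Wick_zero, zero_mul]

private theorem Bd_C_mul (c : ℝ) (hc : 0 ≤ c) (g : MvPolynomial ℕ ℝ) (hg : Bd g) :
    Bd (C c * g) := by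
  obtain ⟨D, hD, h⟩ := hg
  refine ⟨c * D, mul_nonneg hc hD, ?_⟩
  intro n
  rw [show qP n * (C c * g) = C c * (qP n * g) by ring, Wick_C_mul, mul_assoc]
  exact mul_le_mul_of_nonneg_left (h n) hc

private theorem Bd_sum {ι : Type*} (s : Finset ι) (f : ι → MvPolynomial ℕ ℝ)
    (hf : ∀ i ∈ s, Bd (f i)) : Bd (∑ i ∈ s, f i) := by
  classical
  induction s using Finset.induction_on with
  | empty => simpa using Bd_zero
  | insert a s ha ih =>
    obtain ⟨D, hD, h⟩ := hf a (Finset.mem_insert_self a s)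
    obtain ⟨D', hD', h'⟩ := ih (fun i hi => hf i (Finset.mem_insert_of_mem hi))
    refine ⟨D + D', add_nonneg hD hD', ?_⟩
    intro n
    rw [Finset.sum_insert ha, mul_add, Wick_add, add_mul]
    exact add_le_add (h n) (h' n)

private theorem Cov_eq_choose (k l : ℕ) :
    Cov k l = (2 * (k : ℝ) + 1) * ((2 * l + (2 * k + 1)).choose (2 * k + 1) : ℝ) *
      zet (2 * k + 2 * l + 2) := by
  have hle : 2 * k + 1 ≤ 2 * l + (2 * k + 1) := by omega
  rw [Nat.cast_choose ℝ hle, show 2 * l + (2 * k + 1) - (2 * k + 1) = 2 * l by omega, Cov,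
    show 2 * l + (2 * k + 1) = 2 * k + 2 * l + 1 by ring, Nat.factorial_succ (2 * k)]
  have h1 : ((2 * k).factorial : ℝ) ≠ 0 := by positivity
  have h2 : ((2 * l).factorial : ℝ) ≠ 0 := by positivity
  have h3 : (2 * (k : ℝ) + 1) ≠ 0 := by positivity
  push_cast
  field_simp

private theorem summable_Cov (k : ℕ) : Summable (fun l : ℕ => Cov k l * (1 / 4 : ℝ) ^ l) := by
  have h1 : Summable (fun n : ℕ => ((n + (2 * k + 1)).choose (2 * k + 1) : ℝ) * (1 / 2 : ℝ) ^ n) :=
    summable_choose_mul_geometric_of_norm_lt_one (2 * k + 1) (by norm_num)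
  have h2 : Summable (fun l : ℕ => ((2 * l + (2 * k + 1)).choose (2 * k + 1) : ℝ) *
      (1 / 2 : ℝ) ^ (2 * l)) :=
    h1.comp_injective (i := fun l : ℕ => 2 * l) (fun a b hab => by simpa using hab)
  have h3 := h2.mul_left (2 * (2 * (k : ℝ) + 1))
  refine Summable.of_nonneg_of_le (fun l => ?_) (fun l => ?_) h3
  · have := Cov_nonneg k l
    positivity
  · rw [Cov_eq_choose, pow_mul]
    have hz := zet_le_two (2 * k + 2 * l + 2) (by omega)
    have h4 : (0 : ℝ) ≤ (2 * (k : ℝ) + 1) * ((2 * l + (2 * k + 1)).choose (2 * k + 1) : ℝ) := by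
      positivity
    have h5 : (2 * (k : ℝ) + 1) * ((2 * l + (2 * k + 1)).choose (2 * k + 1) : ℝ) *
        zet (2 * k + 2 * l + 2) ≤
        (2 * (k : ℝ) + 1) * ((2 * l + (2 * k + 1)).choose (2 * k + 1) : ℝ) * 2 :=
      mul_le_mul_of_nonneg_left hz h4
    have h6 : ((1 / 2 : ℝ) ^ 2) ^ l = (1 / 4 : ℝ) ^ l := by norm_num
    rw [h6]
    have h7 : (0 : ℝ) ≤ (1 / 4 : ℝ) ^ l := by positivity
    calc _ ≤ (2 * (k : ℝ) + 1) * ((2 * l + (2 * k + 1)).choose (2 * k + 1) : ℝ) * 2 *
          (1 / 4 : ℝ) ^ l := mul_le_mul_of_nonneg_right h5 h7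
      _ = _ := by ring

private theorem Bd_step (k : ℕ) (m' : ℕ →₀ ℕ) (h0 : Bd (monomial m' 1))
    (h1 : ∀ l, Bd (pderiv l (monomial m' (1 : ℝ)))) :
    Bd (X k * monomial m' 1) := by
  classical
  obtain ⟨D, hD, h⟩ := h0
  choose E hE hE' using h1
  set T : ℝ := ∑' l : ℕ, Cov k l * (1 / 4 : ℝ) ^ l with hT
  have hT0 : 0 ≤ T := tsum_nonneg (fun l => mul_nonneg (Cov_nonneg k l) (by positivity))
  have hS : 0 ≤ ∑ l ∈ m'.support, Cov k l * E l :=
    Finset.sum_nonneg (fun l _ => mul_nonneg (Cov_nonneg k l) (hE l))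
  refine ⟨T * D + ∑ l ∈ m'.support, Cov k l * E l, by positivity, ?_⟩
  intro n
  set N : ℕ := n + 1 + (m'.support.sup id + 1) with hN
  have hvars : ∀ l ∈ (qP n * monomial m' (1 : ℝ)).vars, l < N := by
    intro l hl
    have h2 := MvPolynomial.vars_mul _ _ hl
    rcases Finset.mem_union.mp h2 with h3 | h3
    · have := vars_qP n l h3
      omega
    · rw [MvPolynomial.vars_monomial one_ne_zero] at h3
      have : l ≤ m'.support.sup id := Finset.le_sup (f := id) h3
      omega
  have hsub : m'.support ⊆ range N := by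
    intro l hl
    have : l ≤ m'.support.sup id := Finset.le_sup (f := id) hl
    rw [Finset.mem_range]
    omega
  rw [show qP n * (X k * monomial m' (1 : ℝ)) = X k * (qP n * monomial m' 1) by ring,
    Wick_X_mul k _ N hvars]
  have h2 : ∀ l ∈ range N, Cov k l * Wick (pderiv l (qP n * monomial m' (1 : ℝ))) =
      Cov k l * Wick (pderiv l (qP n) * monomial m' 1) +
        Cov k l * Wick (qP n * pderiv l (monomial m' (1 : ℝ))) := by
    intro l _
    rw [MvPolynomial.pderiv_mul, Wick_add, mul_add]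
  rw [Finset.sum_congr rfl h2, Finset.sum_add_distrib, add_mul]
  apply add_le_add
  · have h3 : ∀ l ∈ range N, Cov k l * Wick (pderiv l (qP n) * monomial m' 1) ≤
        (Cov k l * (1 / 4 : ℝ) ^ l) * (D * 2 ^ n) := by
      intro l _
      rw [mul_assoc]
      apply mul_le_mul_of_nonneg_left _ (Cov_nonneg k l)
      rw [pderiv_qP]
      split_ifs with h4
      · rw [mul_assoc, Wick_C_mul]
        have h5 := h (n - (2 * l + 1))
        have h6 : (2 : ℝ) / (2 * (l : ℝ) + 1) ≤ 2 := by
          rw [div_le_iff₀ (by positivity)]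
          have : (0 : ℝ) ≤ l := Nat.cast_nonneg l
          linarith
        have h7 : (0 : ℝ) ≤ 2 / (2 * (l : ℝ) + 1) := by positivity
        calc 2 / (2 * (l : ℝ) + 1) * Wick (qP (n - (2 * l + 1)) * monomial m' 1)
            ≤ 2 / (2 * (l : ℝ) + 1) * (D * 2 ^ (n - (2 * l + 1))) :=
              mul_le_mul_of_nonneg_left h5 h7
          _ ≤ 2 * (D * 2 ^ (n - (2 * l + 1))) :=
              mul_le_mul_of_nonneg_right h6 (by positivity)
          _ = (1 / 4 : ℝ) ^ l * (D * 2 ^ n) := by
              have h8 : (2 : ℝ) ^ n = 2 ^ (n - (2 * l + 1)) * (4 ^ l * 2) := by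
                rw [show (4 : ℝ) = 2 ^ 2 by norm_num, ← pow_mul, ← pow_succ, ← pow_add]
                congr 1
                omega
              rw [h8, div_pow, one_pow]
              have h9 : ((4 : ℝ) ^ l) ≠ 0 := by positivity
              field_simp
      · rw [zero_mul, Wick_zero]
        positivity
    calc _ ≤ ∑ l ∈ range N, (Cov k l * (1 / 4 : ℝ) ^ l) * (D * 2 ^ n) := Finset.sum_le_sum h3
      _ = (∑ l ∈ range N, Cov k l * (1 / 4 : ℝ) ^ l) * (D * 2 ^ n) := by
          rw [Finset.sum_mul]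
      _ ≤ T * (D * 2 ^ n) := by
          apply mul_le_mul_of_nonneg_right _ (by positivity)
          exact (summable_Cov k).sum_le_tsum _
            (fun l _ => mul_nonneg (Cov_nonneg k l) (by positivity))
      _ = T * D * 2 ^ n := by ring
  · rw [← Finset.sum_subset hsub, Finset.sum_mul]
    · apply Finset.sum_le_sum
      intro l _
      rw [mul_assoc]
      exact mul_le_mul_of_nonneg_left (hE' l n) (Cov_nonneg k l)
    · intro l _ hl
      rw [MvPolynomial.pderiv_monomial, Finsupp.notMem_support_iff.mp hl]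
      simp [Wick_zero]

private theorem Bd_monomial (d : ℕ) : ∀ m : ℕ →₀ ℕ, m.degree = d → Bd (monomial m 1) := by
  classical
  induction d using Nat.strong_induction_on with
  | _ d ih =>
    intro m hm
    by_cases hm0 : m = 0
    · subst hm0
      obtain ⟨D, hD, h⟩ := Wick_qP_le
      refine ⟨D, hD, ?_⟩
      intro n
      have h1 : (monomial (0 : ℕ →₀ ℕ) (1 : ℝ)) = 1 := rfl
      rw [h1, mul_one]
      exact h n
    · obtain ⟨k, hk⟩ : ∃ k, m k ≠ 0 := by
        by_contra hcon
        push_neg at hcon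
        exact hm0 (Finsupp.ext hcon)
      set m' : ℕ →₀ ℕ := m - Finsupp.single k 1 with hm'
      have hadd : Finsupp.single k 1 + m' = m := by
        rw [hm']
        ext j
        rw [Finsupp.add_apply, Finsupp.tsub_apply]
        by_cases hj : k = j
        · subst hj
          rw [Finsupp.single_eq_same]
          omega
        · rw [Finsupp.single_apply, if_neg hj]
          omega
      have hX : (monomial m (1 : ℝ)) = X k * monomial m' 1 := by
        rw [← hadd, MvPolynomial.X, MvPolynomial.monomial_mul, one_mul]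
      have hdeg : m'.degree + 1 = d := by
        rw [← hm, ← hadd, map_add, Finsupp.degree_single]
        ring
      rw [hX]
      apply Bd_step
      · exact ih m'.degree (by omega) m' rfl
      · intro l
        rw [MvPolynomial.pderiv_monomial, one_mul]
        by_cases hl : m' l = 0
        · rw [hl]
          simpa using Bd_zero
        · have h1 : (monomial (m' - Finsupp.single l 1) ((m' l : ℕ) : ℝ)) =
              C ((m' l : ℕ) : ℝ) * monomial (m' - Finsupp.single l 1) 1 := by
            rw [MvPolynomial.C_mul_monomial, mul_one]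
          rw [h1]
          apply Bd_C_mul _ (Nat.cast_nonneg _)
          have hadd2 : Finsupp.single l 1 + (m' - Finsupp.single l 1) = m' := by
            ext j
            rw [Finsupp.add_apply, Finsupp.tsub_apply]
            by_cases hj : l = j
            · subst hj
              rw [Finsupp.single_eq_same]
              omega
            · rw [Finsupp.single_apply, if_neg hj]
              omega
          have hdeg2 : (m' - Finsupp.single l 1).degree + 1 = m'.degree := by
            conv_rhs => rw [← hadd2, map_add, Finsupp.degree_single]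
            ring
          exact ih (m' - Finsupp.single l 1).degree (by omega) _ rfl

theorem Wick_qP_mul_le (g : MvPolynomial ℕ ℝ) (hg : ∀ m, 0 ≤ g.coeff m) :
    ∃ C : ℝ, 0 ≤ C ∧ ∀ n, Wick (qP n * g) ≤ C * 2 ^ n := by
  have h1 : g = ∑ m ∈ g.support, C (g.coeff m) * monomial m 1 := by
    conv_lhs => rw [MvPolynomial.as_sum g]
    apply Finset.sum_congr rfl
    intro m _
    rw [MvPolynomial.C_mul_monomial, mul_one]
  have h2 : Bd (∑ m ∈ g.support, C (g.coeff m) * monomial m 1) := by
    apply Bd_sum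
    intro m _
    exact Bd_C_mul _ (hg m) _ (Bd_monomial m.degree m rfl)
  rw [← h1] at h2
  exact h2

end Pool.Agent.Helper34.MVU
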