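import Pool.Agent.Helper34.MVU.DL
import Pool.Agent.Helper34.MVU.WickLin

/-!
Project MV, block U, module U-XM (XMain): `Ypoly` as a sum of terms, and the main term.

PROOFS.
* `Ypoly_eq`: `Ypoly K = Wick (Rpoly K)`, `(Σ i, K i)/2 = E`, `Wick_sum`, `Wick_C_mul`.
* `term_main`: `dl {E} = [E, 0]` (card one). `pfL QQ [E, 0] = QQ E 0 * 1 = qP E * qP 0 = qP E`
  (`QQ E 0`: the sum over `range 0` is empty, `qP 0 = 1`). `XK K [E, 0]`: sum over `f : ρ → Fin 2` of
  `zf (m_0 - 2E) (m_1 - 0)` with `m_0 + m_1 = 2E`; if `f` is constant `0` then `m_0 = 2E`, `m_1 = 0`,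
  value `zf 0 0 = 1`; otherwise `m_1 > 0` (`K i ≥ 1`), `m_0 - 2E = -m_1 < 0`, value `0`
  (`Finset.sum_eq_single (fun _ => 0)`). So `term K {E} = 1/2 cc E Wick (qP E) = mainE E`.
-/

namespace Pool.Agent.Helper34.MVU

open Finset MvPolynomial Pool.Agent.Helper60.MV

theorem Ypoly_eq {ρ : Type} [Fintype ρ] (K : ρ → ℕ) (E : ℕ) (hE : ∑ i, K i = 2 * E) :
    Ypoly K = ∑ S ∈ stp E, term K S := by
  unfold Ypoly Rpoly
  have h : (∑ i, K i) / 2 = E := by
    rw [hE]
    omega
  rw [h, Wick_sum]
  apply Finset.sum_congr rfl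
  intro S _
  rw [Wick_C_mul]
  rfl

private theorem pfL_two {α R : Type} [CommRing R] (A : α → α → R) (x y : α) :
    pfL A [x, y] = A x y := by
  simp [pfL]

theorem XK_main {ρ : Type} [Fintype ρ] (K : ρ → ℕ) (hK : ∀ i, 1 ≤ K i) (E : ℕ)
    (hE : ∑ i, K i = 2 * E) : XK K [E, 0] = 1 := by
  classical
  have hsum : ∀ f : ρ → Fin 2, asg K f 0 + asg K f 1 = 2 * E := by
    intro f
    unfold asg
    rw [← hE, ← Finset.sum_add_distrib]
    apply Finset.sum_congr rfl
    intro i _
    have : f i = 0 ∨ f i = 1 := by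
      have := (f i).2
      rcases Nat.lt_or_ge (f i).val 1 with h | h
      · left
        apply Fin.ext
        simp
        omega
      · right
        apply Fin.ext
        simp
        omega
    rcases this with h | h <;> simp [h]
  have hval : ∀ f : ρ → Fin 2,
      pfL (fun a b : Fin 2 => zf ((asg K f a : ℤ) - 2 * (([E, 0] : List ℕ).get a : ℤ))
        ((asg K f b : ℤ) - 2 * (([E, 0] : List ℕ).get b : ℤ))) (List.finRange 2) =
      if f = (fun _ => 0) then 1 else 0 := by
    intro f
    have hl : List.finRange 2 = [0, 1] := by decide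
    rw [hl, pfL_two]
    have h := hsum f
    have e0 : (([E, 0] : List ℕ).get (0 : Fin 2) : ℤ) = E := rfl
    have e1 : (([E, 0] : List ℕ).get (1 : Fin 2) : ℤ) = 0 := rfl
    rw [e0, e1]
    by_cases hf : f = (fun _ => 0)
    · rw [if_pos hf]
      have h1 : asg K f 1 = 0 := by
        unfold asg
        apply Finset.sum_eq_zero
        intro i _
        rw [hf]
        simp
      have h0 : asg K f 0 = 2 * E := by omega
      rw [h0, h1]
      simp [zf]
    · rw [if_neg hf]
      obtain ⟨i, hi⟩ : ∃ i, f i ≠ 0 := by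
        by_contra hcon
        push Not at hcon
        exact hf (funext hcon)
      have hi1 : f i = 1 := by
        have h2 := (f i).2
        have h3 : (f i).val ≠ 0 := by
          intro h4
          exact hi (Fin.ext h4)
        apply Fin.ext
        simp
        omega
      have h1 : 1 ≤ asg K f 1 := by
        unfold asg
        calc 1 ≤ K i := hK i
          _ = (if f i = 1 then K i else 0) := by rw [if_pos hi1]
          _ ≤ ∑ i, (if f i = 1 then K i else 0) :=
            Finset.single_le_sum (f := fun i => if f i = 1 then K i else 0)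
              (fun _ _ => Nat.zero_le _) (Finset.mem_univ i)
      unfold zf
      have a1 : (asg K f 0 : ℤ) - 2 * (E : ℤ) + ((asg K f 1 : ℤ) - 2 * 0) = 0 := by
        have : (asg K f 0 : ℤ) + (asg K f 1 : ℤ) = 2 * E := by exact_mod_cast h
        linarith
      have a2 : ¬ ((asg K f 0 : ℤ) - 2 * (E : ℤ) = 0) := by
        have : (asg K f 0 : ℤ) + (asg K f 1 : ℤ) = 2 * E := by exact_mod_cast h
        have h4 : (1 : ℤ) ≤ asg K f 1 := by exact_mod_cast h1
        intro h5
        linarith
      have a3 : ¬ (0 < (asg K f 0 : ℤ) - 2 * (E : ℤ)) := by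
        have : (asg K f 0 : ℤ) + (asg K f 1 : ℤ) = 2 * E := by exact_mod_cast h
        have h4 : (1 : ℤ) ≤ asg K f 1 := by exact_mod_cast h1
        intro h5
        linarith
      rw [if_pos a1, if_neg a2, if_neg a3]
  unfold XK
  have h2 : ∀ f : ρ → Fin ([E, 0] : List ℕ).length,
      pfL (fun a b => zf ((asg K f a : ℤ) - 2 * (([E, 0] : List ℕ).get a : ℤ))
        ((asg K f b : ℤ) - 2 * (([E, 0] : List ℕ).get b : ℤ)))
        (List.finRange ([E, 0] : List ℕ).length) =
      if f = (fun _ => (0 : Fin 2)) then 1 else 0 := fun f => hval f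
  have hz : ∀ f : ρ → Fin ([E, 0] : List ℕ).length,
      f ∈ (Finset.univ : Finset (ρ → Fin ([E, 0] : List ℕ).length)) → f ≠ (fun _ => (0 : Fin 2)) →
      pfL (fun a b => zf ((asg K f a : ℤ) - 2 * (([E, 0] : List ℕ).get a : ℤ))
        ((asg K f b : ℤ) - 2 * (([E, 0] : List ℕ).get b : ℤ)))
        (List.finRange ([E, 0] : List ℕ).length) = 0 := by
    intro f _ hf
    rw [h2]
    exact if_neg hf
  refine (Finset.sum_eq_single (fun _ => (0 : Fin 2)) hz ?_).trans ?_
  · intro h
    exact absurd (Finset.mem_univ _) h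
  · rw [h2]
    exact if_pos rfl

theorem term_main {ρ : Type} [Fintype ρ] (K : ρ → ℕ) (hK : ∀ i, 1 ≤ K i) (E : ℕ)
    (hE : ∑ i, K i = 2 * E) : term K {E} = mainE E := by
  have hdl : dl {E} = [E, 0] := by
    unfold dl
    simp
  unfold term mainE
  rw [hdl, XK_main K hK E hE, pfL_two]
  have hq : QQ E 0 = qP E := by
    unfold QQ
    rw [qP]
    simp
  rw [hq]
  simp

end Pool.Agent.Helper34.MVU
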