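import Pool.Agent.Helper34.MVU.Defs

/-!
Project MV, block U, module U-As2a (Zeta1): `Σ_{i ≥ 1} (ζ(2i) - 1)/i = log 2` and bounds for
`zet M = Σ_{n ≥ 0} 1/(n+1)^M`.

PROOFS.
* `zet_sub_one`: split off `n = 0`: `zet M - 1 = Σ_{n ≥ 0} 1/(n+2)^M` (`M ≥ 2`).
* `one_le_zet`, `zet_le_two`: `zet M ≤ zet 2 = π²/6 ≤ 2` (`hasSum_zeta_two`, `Real.pi_lt_d2`), or
  telescoping `1/(n+2)^2 ≤ 1/(n+1) - 1/(n+2)`.
* `zet_sub_one_le`: `1/(n+2)^(2(i+1)) = 1/(n+2)^2 (1/(n+2)^2)^i ≤ 1/(n+2)^2 (1/4)^i`, so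
  `zet (2(i+1)) - 1 ≤ (zet 2 - 1) (1/4)^i ≤ (1/4)^i`.
* `hasSum_log_two`: for every `n`, `HasSum (fun i => (1/(n+2)^2)^(i+1)/(i+1)) (-log (1 - 1/(n+2)^2))`
  (`Real.hasSum_pow_div_log_of_abs_lt_one`). All terms are nonnegative, so the double sum may be
  computed in both orders; `Σ_{n<N} -log (1 - 1/(n+2)^2) = log (2 (N+1)/(N+2)) → log 2`
  (telescoping: `1 - 1/(n+2)^2 = (n+1)(n+3)/(n+2)^2`), by induction on `N`.
  For nonnegative terms a series whose partial sums converge to `log 2` has sum `log 2`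
  (`hasSum_iff_tendsto_nat_of_nonneg`).
-/

namespace Pool.Agent.Helper34.MVU

open Finset Filter Topology Pool.Agent.Helper60.MV

theorem zet_sub_one (M : ℕ) (hM : 2 ≤ M) : HasSum (fun n : ℕ => 1 / ((n : ℝ) + 2) ^ M) (zet M - 1) := by
  have h1 : Summable (fun n : ℕ => 1 / ((n : ℝ) + 1) ^ M) := by
    have h := (summable_nat_add_iff 1).2 (Real.summable_one_div_nat_pow.2 (show 1 < M by omega))
    refine h.congr (fun n => ?_)
    push_cast
    rfl
  have h2 : HasSum (fun n : ℕ => 1 / ((n : ℝ) + 1) ^ M) (zet M) := h1.hasSum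
  have h3 := (hasSum_nat_add_iff' 1).2 h2
  have h4 : zet M - ∑ i ∈ range 1, 1 / ((i : ℝ) + 1) ^ M = zet M - 1 := by simp
  rw [h4] at h3
  have h5 : (fun n : ℕ => 1 / ((n : ℝ) + 2) ^ M) = fun n : ℕ => 1 / (((n + 1 : ℕ) : ℝ) + 1) ^ M := by
    funext n
    push_cast
    congr 2
    ring
  rw [h5]
  exact h3

theorem one_le_zet (M : ℕ) (hM : 2 ≤ M) : 1 ≤ zet M := by
  have h := (zet_sub_one M hM).nonneg (fun n => by positivity)
  linarith

private theorem zet_two_le : zet 2 - 1 ≤ 1 := by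
  have h1 : HasSum (fun n : ℕ => 1 / ((n : ℝ) + 1) ^ 2) (zet 2) := by
    have h := (summable_nat_add_iff 1).2 (Real.summable_one_div_nat_pow.2 (show 1 < 2 by omega))
    have h' : Summable (fun n : ℕ => 1 / ((n : ℝ) + 1) ^ 2) := by
      refine h.congr (fun n => ?_)
      push_cast
      rfl
    exact h'.hasSum
  have h2 : HasSum (fun n : ℕ => 1 / ((n : ℝ) + 1) ^ 2) (Real.pi ^ 2 / 6) := by
    have h := (hasSum_nat_add_iff' 1).2 hasSum_zeta_two
    have h4 : Real.pi ^ 2 / 6 - ∑ i ∈ range 1, (1 : ℝ) / (i : ℝ) ^ 2 = Real.pi ^ 2 / 6 := by simp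
    rw [h4] at h
    have h5 : (fun n : ℕ => 1 / ((n : ℝ) + 1) ^ 2) = fun n : ℕ => (1 : ℝ) / ((n + 1 : ℕ) : ℝ) ^ 2 := by
      funext n
      push_cast
      rfl
    rw [h5]
    exact h
  have h3 : zet 2 = Real.pi ^ 2 / 6 := h1.unique h2
  have h4 := Real.pi_lt_d2
  have h5 := Real.pi_pos
  rw [h3]
  nlinarith

private theorem term_le (M : ℕ) (hM : 2 ≤ M) : zet M - 1 ≤ 1 := by
  refine le_trans ?_ zet_two_le
  refine hasSum_le ?_ (zet_sub_one M hM) (zet_sub_one 2 le_rfl)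
  intro n
  have h0 : (0 : ℝ) ≤ n := Nat.cast_nonneg n
  apply one_div_le_one_div_of_le (by positivity)
  exact pow_le_pow_right₀ (by linarith) hM

theorem zet_le_two (M : ℕ) (hM : 2 ≤ M) : zet M ≤ 2 := by
  have h := term_le M hM
  linarith

theorem zet_sub_one_le (i : ℕ) : zet (2 * (i + 1)) - 1 ≤ (1 / 4) ^ i := by
  have h1 : zet (2 * (i + 1)) - 1 ≤ (zet 2 - 1) * (1 / 4) ^ i := by
    refine hasSum_le ?_ (zet_sub_one (2 * (i + 1)) (by omega))
      ((zet_sub_one 2 le_rfl).mul_right ((1 / 4 : ℝ) ^ i))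
    intro n
    have h0 : (0 : ℝ) ≤ n := Nat.cast_nonneg n
    have h2 : (1 : ℝ) / ((n : ℝ) + 2) ^ 2 ≤ 1 / 4 := by
      apply one_div_le_one_div_of_le (by norm_num)
      nlinarith
    have h3 : 1 / ((n : ℝ) + 2) ^ (2 * (i + 1)) =
        1 / ((n : ℝ) + 2) ^ 2 * (1 / ((n : ℝ) + 2) ^ 2) ^ i := by
      rw [one_div_pow, ← pow_mul, one_div_mul_one_div, ← pow_add]
      congr 2
      ring
    rw [h3]
    apply mul_le_mul_of_nonneg_left _ (by positivity)
    exact pow_le_pow_left₀ (by positivity) h2 i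
  refine h1.trans ?_
  have h2 := zet_two_le
  have h3 : (0 : ℝ) ≤ (1 / 4 : ℝ) ^ i := by positivity
  nlinarith

private theorem tele (N : ℕ) : ∑ n ∈ range N, (-Real.log (1 - 1 / ((n : ℝ) + 2) ^ 2)) =
    Real.log 2 - Real.log (((N : ℝ) + 2) / ((N : ℝ) + 1)) := by
  induction N with
  | zero => simp
  | succ N ih =>
    rw [sum_range_succ, ih]
    have h0 : (0 : ℝ) ≤ N := Nat.cast_nonneg N
    have h1 : 1 - 1 / ((N : ℝ) + 2) ^ 2 = (((N : ℝ) + 1) / ((N : ℝ) + 2)) * (((N : ℝ) + 3) / ((N : ℝ) + 2)) := by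
      field_simp
      ring
    rw [h1, Real.log_mul (by positivity) (by positivity), Real.log_div (by positivity) (by positivity),
      Real.log_div (by positivity) (by positivity), Real.log_div (by positivity) (by positivity)]
    push_cast
    have h2 : (N : ℝ) + 1 + 2 = N + 3 := by ring
    have h3 : (N : ℝ) + 1 + 1 = N + 2 := by ring
    rw [h2, h3, Real.log_div (by positivity) (by positivity)]
    ring

theorem hasSum_log_two :
    HasSum (fun i : ℕ => (zet (2 * (i + 1)) - 1) / ((i : ℝ) + 1)) (Real.log 2) := by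
  have hx : ∀ n : ℕ, |1 / ((n : ℝ) + 2) ^ 2| < 1 := by
    intro n
    have h0 : (0 : ℝ) ≤ n := Nat.cast_nonneg n
    rw [abs_of_nonneg (by positivity), div_lt_one (by positivity)]
    nlinarith
  have h1 : ∀ n : ℕ, HasSum (fun i : ℕ => (1 / ((n : ℝ) + 2) ^ 2) ^ (i + 1) / ((i : ℝ) + 1))
      (-Real.log (1 - 1 / ((n : ℝ) + 2) ^ 2)) := fun n =>
    Real.hasSum_pow_div_log_of_abs_lt_one (hx n)
  have h2 : HasSum (fun n : ℕ => -Real.log (1 - 1 / ((n : ℝ) + 2) ^ 2)) (Real.log 2) := by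
    rw [hasSum_iff_tendsto_nat_of_nonneg]
    · simp only [tele]
      have h3 : Tendsto (fun N : ℕ => ((N : ℝ) + 2) / ((N : ℝ) + 1)) atTop (𝓝 1) := by
        have h4 : Tendsto (fun N : ℕ => 1 + 1 / ((N : ℝ) + 1)) atTop (𝓝 (1 + 0)) :=
          tendsto_const_nhds.add tendsto_one_div_add_atTop_nhds_zero_nat
        rw [add_zero] at h4
        refine h4.congr (fun N => ?_)
        have h0 : (0 : ℝ) ≤ N := Nat.cast_nonneg N
        field_simp
        ring
      have h5 := (Real.continuousAt_log one_ne_zero).tendsto.comp h3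
      rw [Real.log_one] at h5
      have h6 := (tendsto_const_nhds (x := Real.log 2)).sub h5
      rw [sub_zero] at h6
      exact h6
    · intro n
      exact (h1 n).nonneg (fun i => by positivity)
  let f : ℕ × ℕ → ℝ := fun p => (1 / ((p.1 : ℝ) + 2) ^ 2) ^ (p.2 + 1) / ((p.2 : ℝ) + 1)
  have hf0 : 0 ≤ f := fun p => by
    show 0 ≤ (1 / ((p.1 : ℝ) + 2) ^ 2) ^ (p.2 + 1) / ((p.2 : ℝ) + 1)
    positivity
  have hs : Summable f := by
    rw [summable_prod_of_nonneg hf0]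
    refine ⟨fun n => (h1 n).summable, ?_⟩
    have : (fun n : ℕ => ∑' i, f (n, i)) = fun n : ℕ => -Real.log (1 - 1 / ((n : ℝ) + 2) ^ 2) := by
      funext n
      exact (h1 n).tsum_eq
    rw [this]
    exact h2.summable
  have hS : HasSum f (Real.log 2) := by
    have h3 := hs.hasSum.prod_fiberwise h1
    rw [h2.unique h3]
    exact hs.hasSum
  have hS' : HasSum (fun p : ℕ × ℕ => f (p.2, p.1)) (Real.log 2) :=
    (Equiv.prodComm ℕ ℕ).hasSum_iff.2 hS
  refine hS'.prod_fiberwise (fun i => ?_)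
  have h4 := (zet_sub_one (2 * (i + 1)) (by omega)).div_const ((i : ℝ) + 1)
  have h5 : (fun n : ℕ => f (n, i)) = fun n : ℕ => 1 / ((n : ℝ) + 2) ^ (2 * (i + 1)) / ((i : ℝ) + 1) := by
    funext n
    show (1 / ((n : ℝ) + 2) ^ 2) ^ (i + 1) / ((i : ℝ) + 1) = _
    rw [one_div_pow, ← pow_mul]
  rw [show (fun c : ℕ => f ((i, c).2, (i, c).1)) = fun n : ℕ => f (n, i) from rfl, h5]
  exact h4

end Pool.Agent.Helper34.MVU
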